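import Mathlib

section

/-! Numerical facts for the linear classification. -/

namespace Pool.Agent.MP_f0649b_al.Cls

theorem b1 {a : ℕ} (h : 3 ≤ a) : 2 * a < 2 ^ a := by
  induction a, h using Nat.le_induction with
  | base => norm_num
  | succ n hn ih => rw [pow_succ]; omega

theorem b2 {a : ℕ} (h : 7 ≤ a) : 2 * a * a < 2 ^ a := by
  induction a, h using Nat.le_induction with
  | base => norm_num
  | succ n hn ih => rw [pow_succ]; nlinarith

theorem b3 {a : ℕ} (h : 4 ≤ a) : 2 * a * (2 * a) < 3 ^ a := by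
  induction a, h using Nat.le_induction with
  | base => norm_num
  | succ n hn ih => rw [pow_succ]; nlinarith

theorem b5 {a : ℕ} (h : 1 ≤ a) : 2 * a * (2 * a) < 5 ^ a := by
  rcases h.eq_or_lt with rfl | h
  · norm_num
  · induction a, h using Nat.le_induction with
    | base => norm_num
    | succ n hn ih =>
      have := ih (by omega)
      rw [pow_succ]; nlinarith

theorem numA {q a d f D : ℕ} (hq : 2 ≤ q) (ha : 1 ≤ a) (h1 : q ^ a ≤ d) (h2 : d ≤ f)
    (hD : 0 < D) (h3 : f * D ≤ 2 * a) :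
    q = 2 ∧ ((a = 1 ∧ d = 2 ∧ f = 2) ∨ (a = 2 ∧ d = 4 ∧ f = 4)) := by
  have h4 : f ≤ 2 * a := le_trans (Nat.le_mul_of_pos_right f hD) h3
  have h5 : 2 ^ a ≤ q ^ a := Nat.pow_le_pow_left hq a
  have h6 : a ≤ 2 := by
    by_contra h
    have := b1 (a := a) (by omega)
    omega
  interval_cases a
  · rw [pow_one] at h1
    omega
  · have : q = 2 := by nlinarith
    subst this
    omega

theorem numB0 {f i n D a : ℕ} (h3 : i * n ≤ D) (h4 : f * D ≤ 2 * a) :
    f * i * n ^ 2 ≤ 2 * a * n := by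
  calc f * i * n ^ 2 = f * (i * n) * n := by ring
    _ ≤ f * D * n := by gcongr
    _ ≤ 2 * a * n := by gcongr

theorem pow_small {s e b : ℕ} (c : ℕ) (hs : 1 ≤ s) (h : s ^ e ≤ b) (hb : b < s ^ (c + 1)) :
    s ^ e ≤ s ^ c := by
  refine Nat.pow_le_pow_right hs ?_
  by_contra h'
  have := Nat.pow_le_pow_right hs (show c + 1 ≤ e by omega)
  omega

/-- the case of odd characteristic -/
theorem numB {q a d f i s e D : ℕ} (hq : q.Prime) (hq2 : q ≠ 2) (ha : 1 ≤ a) (hs : s.Prime)
    (hsq : s ≠ q) (h0 : q ^ a ∣ d) (hd : 0 < d) (h2 : d ≤ f * i * (s ^ e) ^ 2)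
    (h3 : i * s ^ e ≤ D) (h4 : f * D ≤ 2 * a) (h5 : s ∣ 2 * a) :
    q = 3 ∧ s = 2 ∧ f = 1 ∧ i = 1 ∧
      ((a = 1 ∧ d = 3 ∧ s ^ e = 2) ∨ (a = 2 ∧ d = 9 ∧ s ^ e = 4 ∧ D = 4)) := by
  have h1 : q ^ a ≤ d := Nat.le_of_dvd hd h0
  have h6 := numB0 h3 h4
  have hf : 0 < f := Nat.pos_of_ne_zero fun e => by rw [e] at h2; omega
  have hi : 0 < i := Nat.pos_of_ne_zero fun e => by rw [e] at h2; omega
  have h7 : s ^ e ≤ D := le_trans (Nat.le_mul_of_pos_left _ hi) h3
  have h8 : D ≤ 2 * a := le_trans (Nat.le_mul_of_pos_left _ hf) h4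
  have h9 : 2 * a * s ^ e ≤ 2 * a * (2 * a) := by gcongr; omega
  have hq3 : q = 3 := by
    by_contra h
    have : 5 ≤ q := by
      have := hq.two_le
      by_contra h'
      have : q = 4 := by omega
      rw [this] at hq
      exact absurd hq (by norm_num)
    have := Nat.pow_le_pow_left this a
    have := b5 ha
    omega
  subst hq3
  have ha3 : a ≤ 3 := by
    by_contra h
    have := b3 (a := a) (by omega)
    omega
  have hs2 : s = 2 := by
    have := hs.two_le
    have := Nat.le_of_dvd (by omega) h5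
    have : s ≤ 6 := by omega
    interval_cases s
    · rfl
    · omega
    · exact absurd hs (by norm_num)
    · omega
    · exact absurd hs (by norm_num)
  subst hs2
  have h10 : 2 ^ e ≤ 2 ^ 2 := pow_small 2 (by norm_num) (h7.trans h8) (by omega)
  have h11 : 2 ^ e ≠ 3 := fun h => by
    have : 3 ∣ 2 ^ e := h ▸ dvd_rfl
    exact absurd (Nat.prime_three.dvd_of_dvd_pow this) (by norm_num)
  generalize 2 ^ e = n at *
  have h12 : f * (i * n) ≤ 2 * a := le_trans (by gcongr) h4
  have h13 : f * i * n ^ 2 = f * (i * n) * n := by ring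
  interval_cases a
  · have hn : n = 2 := by
      have : n ≤ 2 := by omega
      interval_cases n <;> omega
    subst hn
    have : f = 1 := by nlinarith
    subst this
    have : i = 1 := by omega
    subst this
    omega
  · have hn : n = 4 := by interval_cases n <;> omega
    subst hn
    have : f = 1 := by nlinarith
    subst this
    have : i = 1 := by omega
    subst this
    omega
  · omega

/-- the case of characteristic two -/
theorem numC {a d f i s e D : ℕ} (hs : s.Prime) (hs2 : s ≠ 2) (h0 : 2 ^ a ∣ d) (hd : 0 < d)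
    (h2 : d ≤ f * i * (s ^ e) ^ 2) (h3 : i * s ^ e ≤ D) (h4 : f * D ≤ 2 * a) (h5 : s ∣ 2 * a)
    (h6 : D ≤ a) (h7 : s ∣ D) (h8 : s = 5 → 3 * D ≤ 2 * a) (ha : 1 ≤ a) :
    a = 3 ∧ s = 3 ∧ (d = 8 ∨ d = 16) ∧ f * i * (s ^ e) ^ 2 ≤ 18 := by
  have h1 : 2 ^ a ≤ d := Nat.le_of_dvd hd h0
  have h9 := numB0 h3 h4
  have hi : 0 < i := Nat.pos_of_ne_zero fun e => by rw [e] at h2; omega
  have h10 : s ^ e ≤ D := le_trans (Nat.le_mul_of_pos_left _ hi) h3
  have hD : 0 < D := lt_of_lt_of_le (pow_pos hs.pos e) h10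
  have h11 : 2 * a * s ^ e ≤ 2 * a * a := by gcongr; omega
  have ha6 : a ≤ 6 := by
    by_contra h
    have := b2 (a := a) (by omega)
    omega
  have h12 := Nat.le_of_dvd hD h7
  have h13 := hs.two_le
  have h14 : s ≤ 6 := by omega
  interval_cases s
  · omega
  · have h15 : 3 ^ e ≤ 3 ^ 1 := pow_small 1 (by norm_num) h10 (by omega)
    interval_cases a <;> omega
  · exact absurd hs (by norm_num)
  · have := h8 rfl
    omega
  · exact absurd hs (by norm_num)

end Pool.Agent.MP_f0649b_al.Cls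

end

section

/-! Finite groups acting on finite symplectic groups: basic tools. -/

open MulAction
open scoped Pointwise

namespace Pool.Agent.MP_f0649b_al.Sp

/-- an invariant nondegenerate alternating form -/
structure Sz (T : Type) {L : Type} [Group T] [CommGroup L] [MulDistribMulAction T L]
    (om : L →* L →* ℂˣ) : Prop where
  alt : ∀ x, om x x = 1
  nd : ∀ x, (∀ y, om x y = 1) → x = 1
  inv : ∀ (t : T) (x y : L), om (t • x) (t • y) = om x y

/-- an invariant nondegenerate alternating form and an irreducible action -/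
structure Sy (T : Type) {L : Type} [Group T] [CommGroup L] [MulDistribMulAction T L]
    (om : L →* L →* ℂˣ) : Prop extends Sz T om where
  irr : ∀ R : Subgroup L, (∀ t : T, ∀ x ∈ R, t • x ∈ R) → R = ⊥ ∨ R = ⊤

/-- the index bound for stabilisers of isotropic subgroups -/
def Kap (T : Type) {L : Type} [Group T] [CommGroup L] [MulDistribMulAction T L]
    (om : L →* L →* ℂˣ) (k : ℕ) : Prop :=
  ∀ (H : Subgroup T) (R : Subgroup L), (∀ h ∈ H, ∀ x ∈ R, h • x ∈ R) →
    (∀ x ∈ R, ∀ y ∈ R, om x y = 1) → k * Nat.card R ≤ H.index * Nat.card L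

/-- subgroups of small index contain `Y` -/
def GP {T : Type} [Group T] (Y : Subgroup T) (n : ℕ) : Prop :=
  ∀ S : Subgroup T, S.index ≤ n → Y ≤ S

/-- characters of subgroups of small index are trivial on `Y` -/
def LC {T : Type} [Group T] (Y : Subgroup T) (n : ℕ) : Prop :=
  ∀ S : Subgroup T, S.index ≤ n → ∀ e : T → ℂˣ, (∀ a ∈ S, ∀ b ∈ S, e (a * b) = e a * e b) →
    ∀ y ∈ Y, e y = 1

/-- orbit size -/
noncomputable def o (T : Type) {L : Type} [Group T] [MulAction T L] (x : L) : ℕ :=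
  (stabilizer T x).index

variable {T L : Type} [Group T] [CommGroup L] [MulDistribMulAction T L] {om : L →* L →* ℂˣ}

theorem o_eq {X : Type} [MulAction T X] (x : X) : o T x = (orbit T x).ncard :=
  index_stabilizer T x

theorem Sz.skew (h : Sz T om) (x y : L) : om y x = (om x y)⁻¹ := by
  have := h.alt (x * y)
  simp only [map_mul, MonoidHom.mul_apply, h.alt, one_mul, mul_one] at this
  exact eq_inv_of_mul_eq_one_left this

/-- orthogonal subgroups are small -/
theorem Sz.card_mul_le [Finite L] (h : Sz T om) (R S : Subgroup L)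
    (hp : ∀ x ∈ R, ∀ y ∈ S, om x y = 1) : Nat.card R * Nat.card S ≤ Nat.card L := by
  let f : R → ((L ⧸ S) →* ℂˣ) := fun r =>
    QuotientGroup.lift S (om r) fun y hy => hp r r.2 y hy
  have hf : Function.Injective f := by
    intro a b hab
    have : (a : L) * (b : L)⁻¹ = 1 := h.nd _ fun y => by
      have e : om a y = om b y := DFunLike.congr_fun hab (QuotientGroup.mk y)
      simp [e]
    exact Subtype.ext (mul_inv_eq_one.1 this)
  have hc : Nat.card ((L ⧸ S) →* ℂˣ) = Nat.card (L ⧸ S) :=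
    CommGroup.card_monoidHom_of_hasEnoughRootsOfUnity _ _
  have hfin : Finite ((L ⧸ S) →* ℂˣ) := Nat.finite_of_card_ne_zero (hc ▸ Nat.card_pos.ne')
  have h1 := Nat.card_le_card_of_injective f hf
  rw [Subgroup.card_eq_card_quotient_mul_card_subgroup S, ← hc]
  exact Nat.mul_le_mul_right _ h1

/-- a Lagrangian subgroup is its own orthogonal -/
theorem Sz.mem_of_perp [Finite L] (h : Sz T om) {R : Subgroup L}
    (hi : ∀ x ∈ R, ∀ y ∈ R, om x y = 1) (hc : Nat.card R * Nat.card R = Nat.card L)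
    {z : L} (hz : ∀ x ∈ R, om x z = 1) : z ∈ R := by
  let P : Subgroup L :=
    { carrier := {w | ∀ x ∈ R, om x w = 1}
      one_mem' := fun x _ => map_one _
      mul_mem' := fun {a b} ha hb x hx => by rw [map_mul, ha x hx, hb x hx, mul_one]
      inv_mem' := fun {a} ha x hx => by rw [map_inv, ha x hx, inv_one] }
  have h1 : R ≤ P := fun w hw x hx => hi x hx w hw
  have h2 := h.card_mul_le R P fun x hx y hy => hy x hx
  rw [← hc] at h2
  have h3 : Nat.card P ≤ Nat.card R := Nat.le_of_mul_le_mul_left h2 Nat.card_pos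
  have h4 : R = P := Subgroup.eq_of_le_of_card_ge h1 h3
  rw [h4]
  exact hz

theorem Sz.not_iso_top (h : Sz T om) [Nontrivial L] : ¬ ∀ x y : L, om x y = 1 := fun e => by
  obtain ⟨x, hx⟩ := exists_ne (1 : L)
  exact hx (h.nd x (e x))

/-- a proper nontrivial subgroup is not invariant -/
theorem Sy.two_le_index [Finite T] (h : Sy T om) {H : Subgroup T} {R : Subgroup L}
    (hH : ∀ g ∈ H, ∀ x ∈ R, g • x ∈ R) (h1 : R ≠ ⊥) (h2 : R ≠ ⊤) : 2 ≤ H.index := by
  have h0 : H.index ≠ 0 := Subgroup.index_ne_zero_of_finite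
  have h3 : H.index ≠ 1 := fun e => by
    rw [Subgroup.index_eq_one] at e
    subst e
    rcases h.irr R fun t => hH t trivial with e | e
    exacts [h1 e, h2 e]
  omega

theorem pow_smul_fix {g : T} {x : L} (h : g • x = x) (n : ℕ) : g ^ n • x = x := by
  induction n with
  | zero => simp
  | succ n ih => rw [pow_succ, mul_smul, h, ih]

/-- counting modulo a prime -/
theorem ncard_mod [Finite L] {p : ℕ} (hp : p.Prime) (g : T) (A : Set L)
    (hA : ∀ x ∈ A, g • x ∈ A) (hg : ∀ x : L, g ^ p • x = x) :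
    A.ncard ≡ {x | x ∈ A ∧ g • x = x}.ncard [MOD p] := by
  classical
  have := Fact.mk hp
  have := Fintype.ofFinite A
  let f : Function.End A := fun x => ⟨g • (x : L), hA x x.2⟩
  have hf : ∀ (n : ℕ) (x : A), (((f ^ n) x : A) : L) = g ^ n • (x : L) := by
    intro n
    induction n with
    | zero => intro x; simp [Function.End.one_def]
    | succ n ih =>
      intro x
      rw [pow_succ', Function.End.mul_def, pow_succ', mul_smul, ← ih]
      rfl
  have h1 : f ^ p ^ 1 = 1 := by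
    funext x
    apply Subtype.ext
    rw [pow_one, hf, hg]
    rfl
  have h2 := Equiv.Perm.card_fixedPoints_modEq h1
  have h3 : Fintype.card f.fixedPoints = {x | x ∈ A ∧ g • x = x}.ncard := by
    rw [← Nat.card_eq_fintype_card, ← Nat.card_coe_set_eq]
    refine Nat.card_congr
      ⟨fun x => ⟨x.1.1, x.1.2, congrArg Subtype.val x.2⟩,
       fun x => ⟨⟨x.1, x.2.1⟩, Subtype.ext x.2.2⟩, fun _ => rfl, fun _ => rfl⟩
  rwa [h3, ← Nat.card_eq_fintype_card, Nat.card_coe_set_eq] at h2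

theorem dvd_ncard [Finite L] {p : ℕ} (hp : p.Prime) (g : T) (A : Set L)
    (hA : ∀ x ∈ A, g • x ∈ A) (hg : ∀ x : L, g ^ p • x = x) (hf : ∀ x ∈ A, g • x ≠ x) :
    p ∣ A.ncard := by
  have h := ncard_mod hp g A hA hg
  have e : {x | x ∈ A ∧ g • x = x} = ∅ := Set.eq_empty_of_forall_notMem fun x hx => hf x hx.1 hx.2
  rw [e, Set.ncard_empty] at h
  exact (Nat.modEq_zero_iff_dvd).1 h

/-- an element without nontrivial fixed points on an invariant subgroup -/
theorem card_mod_one [Finite L] {p : ℕ} (hp : p.Prime) (g : T) (R : Subgroup L)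
    (hA : ∀ x ∈ R, g • x ∈ R) (hg : ∀ x : L, g ^ p • x = x) (hf : ∀ x ∈ R, g • x = x → x = 1) :
    Nat.card R ≡ 1 [MOD p] := by
  have h := ncard_mod hp g (R : Set L) hA hg
  have e : {x | x ∈ (R : Set L) ∧ g • x = x} = {1} := by
    ext x
    exact ⟨fun hx => hf x hx.1 hx.2, fun hx => by rw [hx]; exact ⟨R.one_mem, smul_one g⟩⟩
  rwa [e, Set.ncard_singleton, ← Nat.card_coe_set_eq] at h

/-- the fixed points of an element -/
def fx (L : Type) [CommGroup L] [MulDistribMulAction T L] (g : T) : Subgroup L where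
  carrier := {x | g • x = x}
  one_mem' := smul_one g
  mul_mem' := fun {a b} ha hb => by
    simp only [Set.mem_ofPred_eq] at *
    rw [smul_mul', ha, hb]
  inv_mem' := fun {a} ha => by
    simp only [Set.mem_ofPred_eq] at *
    rw [smul_inv', ha]

theorem mem_fx {g : T} {x : L} : x ∈ fx L g ↔ g • x = x := Iff.rfl

theorem card_fx_mod [Finite L] {p : ℕ} (hp : p.Prime) (g : T) (R : Subgroup L)
    (hA : ∀ x ∈ R, g • x ∈ R) (hg : ∀ x : L, g ^ p • x = x) :
    Nat.card R ≡ Nat.card (R ⊓ fx L g : Subgroup L) [MOD p] := by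
  have h := ncard_mod hp g (R : Set L) hA hg
  rwa [← Nat.card_coe_set_eq, ← Nat.card_coe_set_eq] at h

/-- orbit sizes through a subgroup -/
theorem o_le [Finite T] {X : Type} [MulAction T X] (H : Subgroup T) (x : X) (A : Set X)
    (hA : A.Finite) (h : ∀ g ∈ H, g • x ∈ A) : o T x ≤ H.index * A.ncard := by
  have h1 : (stabilizer T x ⊓ H).index = (stabilizer T x ⊓ H).relIndex H * H.index :=
    (Subgroup.relIndex_mul_index inf_le_right).symm
  have h2 : (stabilizer T x ⊓ H).relIndex H = (orbit H x).ncard := by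
    rw [← index_stabilizer H x, Subgroup.inf_relIndex_right, Subgroup.relIndex]
    congr 1
  have h3 : (orbit H x).ncard ≤ A.ncard := Set.ncard_le_ncard (by
    rintro _ ⟨g, rfl⟩
    exact h g g.2) hA
  have h4 : (stabilizer T x).index ≤ (stabilizer T x ⊓ H).index :=
    Subgroup.index_antitone inf_le_left
  rw [h1, h2, mul_comm] at h4
  exact h4.trans (Nat.mul_le_mul_left _ h3)

theorem ncard_diff_one [Finite L] (R : Subgroup L) : ((R : Set L) \ {1}).ncard = Nat.card R - 1 := by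
  rw [Set.ncard_sdiff_singleton_of_mem R.one_mem, ← Nat.card_coe_set_eq]
  rfl

theorem o_le_sub [Finite T] [Finite L] {H : Subgroup T} {R : Subgroup L}
    (hH : ∀ g ∈ H, ∀ x ∈ R, g • x ∈ R) {x : L} (hx : x ∈ R) (h1 : x ≠ 1) :
    o T x ≤ H.index * (Nat.card R - 1) := by
  rw [← ncard_diff_one]
  exact o_le H x _ (Set.toFinite _) fun g hg =>
    ⟨hH g hg x hx, fun e => h1 ((smul_eq_iff_eq_inv_smul g).1 e |>.trans (smul_one _))⟩

/-- an invariant set -/
def InvS (T : Type) {L : Type} [Group T] [MulAction T L] (A : Set L) : Prop :=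
  ∀ t : T, ∀ x ∈ A, t • x ∈ A

theorem InvS.o_le [Finite L] {A : Set L} (h : InvS T A) {x : L} (hx : x ∈ A) : o T x ≤ A.ncard := by
  rw [o_eq]
  exact Set.ncard_le_ncard (by rintro _ ⟨g, rfl⟩; exact h g x hx) (Set.toFinite _)

theorem InvS.diff {A : Set L} (h : InvS T A) (x : L) : InvS T (A \ orbit T x) := by
  rintro t z ⟨hz, hn⟩
  refine ⟨h t z hz, fun ⟨g, e⟩ => hn ⟨t⁻¹ * g, ?_⟩⟩
  simp only at e ⊢
  rw [mul_smul, e, inv_smul_smul]

theorem InvS.ncard_diff [Finite L] {A : Set L} (h : InvS T A) {x : L} (hx : x ∈ A) :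
    (A \ orbit T x).ncard + o T x = A.ncard := by
  rw [o_eq]
  exact Set.ncard_sdiff_add_ncard_of_subset (by rintro _ ⟨g, rfl⟩; exact h g x hx)

/-- an invariant set is empty or contains an orbit -/
theorem InvS.zero_or [Finite L] {A : Set L} (h : InvS T A) {m : ℕ} (hm : ∀ x ∈ A, m ≤ o T x) :
    A.ncard = 0 ∨ m ≤ A.ncard := by
  rcases A.eq_empty_or_nonempty with e | ⟨x, hx⟩
  · left; rw [e, Set.ncard_empty]
  · exact Or.inr ((hm x hx).trans (h.o_le hx))

theorem invS_ne : InvS T {x : L | x ≠ 1} := fun t _ hx e =>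
  hx ((smul_eq_iff_eq_inv_smul t).1 e |>.trans (smul_one _))

theorem ncard_ne [Finite L] : {x : L | x ≠ 1}.ncard = Nat.card L - 1 := by
  have := ncard_diff_one (⊤ : Subgroup L)
  rw [Subgroup.card_top] at this
  rw [← this]
  congr 1
  ext x
  simp

theorem dvd_o [Finite L] {p : ℕ} (hp : p.Prime) (g : T) (x : L) (hg : ∀ x : L, g ^ p • x = x)
    (hf : ∀ z ∈ orbit T x, g • z ≠ z) : p ∣ o T x := by
  rw [o_eq]
  refine dvd_ncard hp g _ ?_ hg hf
  rintro _ ⟨t, rfl⟩
  exact ⟨g * t, mul_smul g t x⟩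

/-- the centraliser of the action of an element -/
def cen (L : Type) [CommGroup L] [MulDistribMulAction T L] (y : T) : Subgroup T where
  carrier := {t | ∀ x : L, t • y • x = y • t • x}
  one_mem' := by simp
  mul_mem' := fun {a b} ha hb x => by rw [mul_smul, hb, ha, mul_smul]
  inv_mem' := fun {a} ha x => by
    rw [inv_smul_eq_iff, ha, smul_inv_smul]

theorem cen_index (y : T) : (cen L y).index =
    (Set.range fun t : T => MulDistribMulAction.toMulAut T L (t * y * t⁻¹)).ncard := by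
  let φ := MulDistribMulAction.toMulAut T L
  let _ : MulAction T (MulAut L) := MulAction.compHom _ ((MulAut.conj).comp φ)
  have e : ∀ (t : T) (a : MulAut L), t • a = φ t * a * (φ t)⁻¹ := fun _ _ => rfl
  have h1 : cen L y = stabilizer T (φ y) := by
    ext t
    rw [mem_stabilizer_iff, e, mul_inv_eq_iff_eq_mul]
    exact ⟨fun h => MulEquiv.ext h, fun h x => DFunLike.congr_fun h x⟩
  rw [h1, index_stabilizer]
  congr 1
  ext a
  simp only [orbit, Set.mem_range, e, map_mul, map_inv]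
  rfl

/-- a Gauss sum: the value distribution of a quadratic refinement of the form -/
theorem Sz.gauss [Finite L] (h : Sz T om) (Q : L → ℂˣ) (hQ : ∀ x y, Q (x * y) = Q x * Q y * om x y)
    (h2 : ∀ x, Q x = 1 ∨ Q x = -1) :
    ((Nat.card L : ℤ) - 2 * ({x | Q x = -1}.ncard : ℤ)) ^ 2 = Nat.card L := by
  classical
  have := Fintype.ofFinite L
  have q1 : Q 1 = 1 := by
    have := hQ 1 1
    simpa using this
  have hs : ∀ x, (Q x : ℂ) * Q x = 1 := fun x => by rcases h2 x with e | e <;> simp [e]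
  have e1 : (∑ x, (Q x : ℂ)) ^ 2 = Nat.card L := by
    rw [sq, Finset.sum_mul_sum]
    have : ∀ x : L, ∑ y, (Q x : ℂ) * Q y = ∑ z, (Q z : ℂ) * om x z := fun x => by
      rw [← Equiv.sum_comp (Equiv.mulLeft x)]
      refine Finset.sum_congr rfl fun z _ => ?_
      rw [Equiv.coe_mulLeft, hQ, Units.val_mul, Units.val_mul, ← mul_assoc, ← mul_assoc, hs, one_mul]
    simp only [this]
    rw [Finset.sum_comm, Finset.sum_eq_single (1 : L)]
    · simp [q1]
    · intro z _ hz
      rw [← Finset.mul_sum]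
      have := sum_hom_units_eq_zero ((Units.coeHom ℂ).comp (om.flip z)) fun e => hz (h.nd z fun y => by
        have e2 : ((om y z : ℂˣ) : ℂ) = 1 := DFunLike.congr_fun e y
        rw [h.skew, Units.val_eq_one.1 e2, inv_one])
      simp only [MonoidHom.comp_apply, MonoidHom.flip_apply, Units.coeHom_apply] at this
      rw [this, mul_zero]
    · simp
  have e2 : ∑ x, (Q x : ℂ) = (Nat.card L : ℂ) - 2 * ({x | Q x = -1}.ncard : ℂ) := by
    have : ∀ x, (Q x : ℂ) = 1 - 2 * (if Q x = -1 then 1 else 0) := fun x => by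
      rcases h2 x with e | e
      · have : Q x ≠ -1 := by
          rw [e]; intro e3
          have := congrArg Units.val e3
          simp only [Units.val_one, Units.val_neg] at this
          norm_num at this
        rw [if_neg this, e]; simp
      · rw [if_pos e, e]; simp; norm_num
    rw [Finset.sum_congr rfl fun x _ => this x, Finset.sum_sub_distrib, ← Finset.mul_sum,
      Finset.sum_boole, Set.ncard_eq_toFinset_card', Set.toFinset_ofPred]
    simp
  rw [e2] at e1
  exact_mod_cast e1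

theorem one_ne_neg : (1 : ℂˣ) ≠ -1 := fun e => by
  have := congrArg Units.val e
  simp only [Units.val_one, Units.val_neg] at this
  norm_num at this

theorem sq_cases {u : ℂˣ} (h : u * u = 1) : u = 1 ∨ u = -1 := by
  have : (u : ℂ) * u = 1 := by rw [← Units.val_mul, h, Units.val_one]
  rcases mul_self_eq_one_iff.1 this with e | e
  · exact Or.inl (Units.ext e)
  · exact Or.inr (Units.ext e)

theorem card_dvd_pow [Finite L] {p n : ℕ} (hp : p.Prime) (hL : Nat.card L = p ^ n) (R : Subgroup L) :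
    ∃ i ≤ n, Nat.card R = p ^ i :=
  (Nat.dvd_prime_pow hp).1 (hL ▸ Subgroup.card_subgroup_dvd_card R)

end Pool.Agent.MP_f0649b_al.Sp

end

section

/-! The index bounds for symplectic groups of order 4, 9 and 81. -/

open MulAction
open scoped Pointwise

namespace Pool.Agent.MP_f0649b_al.Sp

variable {T L : Type} [Group T] [CommGroup L] [MulDistribMulAction T L] {om : L →* L →* ℂˣ}

theorem ne_bot_of_card {R : Subgroup L} (h : Nat.card R ≠ 1) : R ≠ ⊥ := fun e => by
  rw [e] at h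
  exact h Subgroup.card_bot

theorem ne_top_of_card {R : Subgroup L} (h : Nat.card R ≠ Nat.card L) : R ≠ ⊤ := fun e => by
  rw [e] at h
  exact h Subgroup.card_top

theorem one_le_index [Finite T] (H : Subgroup T) : 1 ≤ H.index :=
  Nat.one_le_iff_ne_zero.2 Subgroup.index_ne_zero_of_finite

/-- order `q ^ 2` -/
theorem Sy.kap_sq [Finite T] [Finite L] (h : Sy T om) {q : ℕ} (hq : q.Prime)
    (hL : Nat.card L = q ^ 2) : Kap T om (2 * q) := by
  intro H R hH hR
  obtain ⟨i, -, hi⟩ := card_dvd_pow hq hL R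
  have h1 := h.card_mul_le R R hR
  have h2 := hq.two_le
  have h3 := one_le_index H
  rw [hi, hL, ← pow_add, Nat.pow_le_pow_iff_right hq.one_lt] at h1
  rcases (by omega : i = 0 ∨ i = 1) with rfl | rfl
  · rw [hi, hL]
    nlinarith
  · have := h.two_le_index hH (ne_bot_of_card (by rw [hi]; simp; omega))
      (ne_top_of_card (by rw [hi, hL]; nlinarith))
    rw [hi, hL]
    nlinarith

/-- orbits are large when an element of `Y` inverts -/
theorem o_ge_18 [Finite T] {Y : Subgroup T} (hl : LC Y 8) {y : T} (hy : y ∈ Y)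
    (hi : ∀ x : L, y • x = x⁻¹) (h3 : ∀ x : L, x ^ 3 = 1) {x : L} (hx : x ≠ 1) : 18 ≤ o T x := by
  classical
  have hne : x⁻¹ ≠ x := fun e => hx (by
    have := h3 x
    rw [pow_succ, sq] at this
    nth_rewrite 1 [← e] at this
    simpa using this)
  let S : Subgroup T :=
    { carrier := {t | t • x = x ∨ t • x = x⁻¹}
      one_mem' := Or.inl (one_smul _ _)
      mul_mem' := by
        rintro a b (ha | ha) (hb | hb)
        · left; rw [mul_smul, hb, ha]
        · right; rw [mul_smul, hb, smul_inv', ha]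
        · right; rw [mul_smul, hb, ha]
        · left; rw [mul_smul, hb, smul_inv', ha, inv_inv]
      inv_mem' := by
        rintro a (ha | ha)
        · left; rw [inv_smul_eq_iff, ha]
        · right; rw [inv_smul_eq_iff, smul_inv', ha, inv_inv] }
  have hS : 9 ≤ S.index := by
    by_contra hlt
    have := hl S (by omega) (fun t => if t • x = x then 1 else -1) ?_ y hy
    · rw [if_neg (by rw [hi]; exact hne)] at this
      exact one_ne_neg this.symm
    · rintro a (ha | ha) b (hb | hb)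
      · simp [mul_smul, ha, hb]
      · simp [mul_smul, ha, hb, hne, smul_inv']
      · simp [mul_smul, ha, hb, hne]
      · simp [mul_smul, ha, hb, hne, smul_inv']
  have hle : stabilizer T x ≤ S := fun t ht => Or.inl ht
  have h1 := Subgroup.relIndex_mul_index hle
  have h2 : (stabilizer T x).relIndex S ≠ 1 := fun e => by
    rw [Subgroup.relIndex_eq_one] at e
    have : y • x = x := e (Or.inr (hi x))
    exact hne (by rw [← hi, this])
  have h4 : (stabilizer T x).relIndex S ≠ 0 := fun e => by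
    rw [e, zero_mul] at h1
    exact Subgroup.index_ne_zero_of_finite h1.symm
  have h5 : 2 ≤ (stabilizer T x).relIndex S := by omega
  unfold o
  nlinarith

/-- three points of an affine line on three subgroups -/
def Tri (A B C : Subgroup L) (w : L) : Prop := ∃ a, a ∈ C ∧ w * a ∈ B ∧ w * (w * a) ∈ A

theorem Tri.rot (h3 : ∀ x : L, x ^ 3 = 1) {A B C : Subgroup L} {w : L} (h : Tri A B C w) :
    Tri B C A w := by
  obtain ⟨a, h1, h2, h4⟩ := h
  have e : w * (w * (w * a)) = a := by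
    rw [← mul_assoc, ← mul_assoc, ← pow_three', h3, one_mul]
  exact ⟨w * (w * a), h4, by rwa [e], by rwa [e]⟩

theorem Tri.swap (h3 : ∀ x : L, x ^ 3 = 1) {A B C : Subgroup L} {w : L} (h : Tri A B C w) :
    Tri B A C w := by
  obtain ⟨a, h1, h2, h4⟩ := h
  have e : w * (w * a)⁻¹ = a⁻¹ := by rw [mul_inv, mul_inv_cancel_left]
  have e3 : w * w * w = 1 := by rw [← pow_three', h3]
  have hw : w⁻¹ = w * w := inv_eq_of_mul_eq_one_left e3
  refine ⟨a⁻¹, C.inv_mem h1, ?_, ?_⟩
  · have := A.inv_mem h4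
    rwa [← mul_assoc, ← hw, mul_inv, inv_inv] at this
  · have := B.inv_mem h2
    rwa [mul_inv, hw, mul_assoc] at this

theorem Sy.no_three [Finite L] (h : Sy T om) (h3 : ∀ x : L, x ^ 3 = 1) {A B C : Subgroup L}
    (hA : ∀ x ∈ A, ∀ y ∈ A, om x y = 1) (hB : ∀ x ∈ B, ∀ y ∈ B, om x y = 1)
    (hC : ∀ x ∈ C, ∀ y ∈ C, om x y = 1) (hd : Disjoint B C)
    (hc : Nat.card B * Nat.card C = Nat.card L) (h0 : A ≠ ⊥)
    (hp : ∀ (t : T) (w : L), Tri (t • A) (t • B) (t • C) w → Tri A B C w) : False := by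
  let W : Subgroup L :=
    { carrier := {w | Tri A B C w}
      one_mem' := ⟨1, C.one_mem, by simp, by simp⟩
      mul_mem' := by
        rintro u v ⟨a, h1, h2, h4⟩ ⟨b, k1, k2, k4⟩
        refine ⟨a * b, C.mul_mem h1 k1, ?_, ?_⟩
        · rw [mul_mul_mul_comm]; exact B.mul_mem h2 k2
        · rw [mul_mul_mul_comm u v a b, mul_mul_mul_comm]; exact A.mul_mem h4 k4
      inv_mem' := by
        rintro u ⟨a, h1, h2, h4⟩
        refine ⟨a⁻¹, C.inv_mem h1, ?_, ?_⟩
        · rw [← mul_inv]; exact B.inv_mem h2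
        · rw [← mul_inv, ← mul_inv]; exact A.inv_mem h4 }
  have hW : ∀ t : T, ∀ w ∈ W, t • w ∈ W := by
    rintro t w ⟨a, h1, h2, h4⟩
    refine hp t _ ⟨t • a, Subgroup.smul_mem_pointwise_smul _ _ _ h1, ?_, ?_⟩
    · rw [← smul_mul']; exact Subgroup.smul_mem_pointwise_smul _ _ _ h2
    · rw [← smul_mul', ← smul_mul']; exact Subgroup.smul_mem_pointwise_smul _ _ _ h4
  obtain ⟨⟨a, ha⟩, ha1⟩ := (Subgroup.ne_bot_iff_exists_ne_one).1 h0
  have ha2 : a ≠ 1 := fun e => ha1 (Subtype.ext e)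
  have : Nontrivial L := ⟨⟨a, 1, ha2⟩⟩
  rcases h.irr W hW with e | e
  · obtain ⟨⟨⟨b, hb⟩, ⟨c, hc'⟩⟩, e2⟩ :=
      (Subgroup.isComplement'_of_card_mul_and_disjoint hc hd).2 a⁻¹
    simp only at e2
    have e3 : b * c⁻¹ * (b * c⁻¹ * c) = a := by
      have hb3 : b * b = b⁻¹ := eq_inv_of_mul_eq_one_left (by rw [← pow_three', h3])
      rw [inv_mul_cancel_right, mul_right_comm, hb3, ← mul_inv, e2, inv_inv]
    have hw : b * c⁻¹ ∈ W := ⟨c, hc', by rwa [inv_mul_cancel_right], by rwa [e3]⟩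
    rw [e, Subgroup.mem_bot, mul_inv_eq_one] at hw
    have hb1 : b = 1 := Subgroup.disjoint_def.1 hd hb (hw ▸ hc')
    rw [← hw, hb1, mul_one] at e2
    exact ha2 (inv_eq_one.1 e2.symm)
  · refine h.not_iso_top fun u v => ?_
    obtain ⟨a, h1, h2, h4⟩ : u ∈ W := e ▸ trivial
    obtain ⟨b, k1, k2, k4⟩ : v ∈ W := e ▸ trivial
    have e1 := hC a h1 b k1
    have e2 := hB _ h2 _ k2
    have e3 := hA _ h4 _ k4
    have e4 : om u v ^ 3 = 1 := by rw [← map_pow, h3, map_one]
    simp only [map_mul, MonoidHom.mul_apply, e1, mul_one] at e2 e3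
    have e5 : om u v * (om u b * om a v) = 1 := by rw [← e2]; simp only [mul_comm, mul_left_comm]
    have e6 : (om u v * (om u b * om a v)) ^ 2 * om u v ^ 2 = 1 := by
      rw [← e3]; simp only [sq, mul_comm, mul_left_comm]
    rw [e5, one_pow, one_mul] at e6
    rwa [pow_succ, e6, one_mul] at e4

/-- order 81 -/
theorem Sy.kap_81 [Finite T] [Finite L] (h : Sy T om) (hL : Nat.card L = 81)
    (h3 : ∀ x : L, x ^ 3 = 1) {Y : Subgroup T} (hl : LC Y 8) {y : T} (hy : y ∈ Y)
    (hi : ∀ x : L, y • x = x⁻¹) : Kap T om 36 := by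
  intro H R hH hR
  obtain ⟨i, -, hi'⟩ := card_dvd_pow (p := 3) (n := 4) Nat.prime_three hL R
  have h1 := h.card_mul_le R R hR
  have h2 := one_le_index H
  rw [hi', hL, ← pow_add, show 81 = 3 ^ 4 by norm_num, Nat.pow_le_pow_iff_right (by norm_num)] at h1
  rcases (by omega : i = 0 ∨ i = 1 ∨ i = 2) with rfl | rfl | rfl
  · rw [hi', hL]; omega
  · have := h.two_le_index hH (ne_bot_of_card (by rw [hi']; norm_num))
      (ne_top_of_card (by rw [hi', hL]; norm_num))
    rw [hi', hL]; omega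
  rw [hi', hL]
  by_contra hlt
  have h9 : Nat.card R = 9 := by rw [hi']; norm_num
  have hle : H ≤ stabilizer T R := fun g hg => by
    rw [mem_stabilizer_iff]
    refine le_antisymm ?_ fun x hx => ?_
    · rintro _ ⟨x, hx, rfl⟩
      exact hH g hg x hx
    · rw [Subgroup.mem_pointwise_smul_iff_inv_smul_mem]
      exact hH _ (H.inv_mem hg) x hx
  have h4 : (stabilizer T R).index ≤ H.index := Subgroup.index_antitone hle
  have hR0 : R ≠ ⊥ := ne_bot_of_card (by rw [h9]; norm_num)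
  obtain ⟨⟨x, hx⟩, hx1⟩ := (Subgroup.ne_bot_iff_exists_ne_one).1 hR0
  have h5 := o_le_sub (H := stabilizer T R) (R := R) (fun g hg z hz => by
    rw [← mem_stabilizer_iff.1 hg]; exact Subgroup.smul_mem_pointwise_smul _ _ _ hz) hx
    fun e => hx1 (Subtype.ext e)
  have h6 := o_ge_18 hl hy hi h3 (x := x) fun e => hx1 (Subtype.ext e)
  rw [h9] at h5
  have h7 : (orbit T R).ncard = 3 := by rw [← index_stabilizer]; omega
  obtain ⟨A, B, C, hAB, hAC, hBC, hO⟩ := Set.ncard_eq_three.1 h7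
  have hm : ∀ D ∈ orbit T R, Nat.card D = 9 ∧ ∀ x ∈ D, ∀ y ∈ D, om x y = 1 := by
    rintro _ ⟨t, rfl⟩
    refine ⟨?_, ?_⟩
    · rw [← h9]
      exact (Nat.card_congr (Subgroup.equivSMul t R).toEquiv).symm
    · rintro _ ⟨u, hu, rfl⟩ _ ⟨v, hv, rfl⟩
      exact (h.inv t u v).trans (hR u hu v hv)
  have hs : ∀ (t : T), ∀ D ∈ orbit T R, t • D ∈ orbit T R := by
    rintro t _ ⟨g, rfl⟩
    exact ⟨t * g, mul_smul t g R⟩
  have hA : A ∈ orbit T R := by rw [hO]; simp
  have hB : B ∈ orbit T R := by rw [hO]; simp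
  have hC : C ∈ orbit T R := by rw [hO]; simp
  have hi3 : ∀ D ∈ orbit T R, ∀ E ∈ orbit T R, D ≠ E → ((D ⊓ E : Subgroup L) : Set L).ncard ≤ 3 := by
    intro D hD E hE hne
    have e1 : Nat.card (D ⊓ E : Subgroup L) ∣ 3 ^ 2 := by
      have := Subgroup.card_dvd_of_le (inf_le_left : D ⊓ E ≤ D)
      rwa [(hm D hD).1] at this
    obtain ⟨j, hj, e2⟩ := (Nat.dvd_prime_pow Nat.prime_three).1 e1
    rw [← Nat.card_coe_set_eq]
    change Nat.card (D ⊓ E : Subgroup L) ≤ 3
    rcases (by omega : j = 0 ∨ j = 1 ∨ j = 2) with rfl | rfl | rfl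
    · omega
    · omega
    · exfalso
      have e3 : D ⊓ E = D := Subgroup.eq_of_le_of_card_ge inf_le_left (by rw [(hm D hD).1]; omega)
      have e4 : D ⊓ E = E := Subgroup.eq_of_le_of_card_ge inf_le_right (by rw [(hm E hE).1]; omega)
      exact hne (e3.symm.trans e4)
  have hp : ∀ t : T, (t • A = A ∨ t • A = B ∨ t • A = C) ∧ (t • B = A ∨ t • B = B ∨ t • B = C) ∧
      (t • C = A ∨ t • C = B ∨ t • C = C) := fun t => by
    have e1 := hs t A hA
    have e2 := hs t B hB
    have e3 := hs t C hC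
    rw [hO] at e1 e2 e3
    exact ⟨e1, e2, e3⟩
  have hd : Disjoint B C := by
    rw [Subgroup.disjoint_def]
    intro z hzB hzC
    by_contra hz
    have e1 := o_ge_18 hl hy hi h3 hz
    have e2 := o_le (⊤ : Subgroup T) z
      (((A ⊓ B : Subgroup L) : Set L) ∪ (A ⊓ C : Subgroup L) ∪ (B ⊓ C : Subgroup L))
      (Set.toFinite _) fun g _ => by
        have k1 := Subgroup.smul_mem_pointwise_smul _ g _ hzB
        have k2 := Subgroup.smul_mem_pointwise_smul _ g _ hzC
        have k3 : g • B ≠ g • C := fun e => hBC (smul_left_cancel g e)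
        obtain ⟨-, e2 | e2 | e2, e3 | e3 | e3⟩ := hp g <;> rw [e2] at k1 k3 <;> rw [e3] at k2 k3 <;>
          simp [k1, k2] at k3 ⊢
    have e3 := Set.ncard_union_le (((A ⊓ B : Subgroup L) : Set L) ∪ (A ⊓ C : Subgroup L))
      ((B ⊓ C : Subgroup L) : Set L)
    have e4 := Set.ncard_union_le ((A ⊓ B : Subgroup L) : Set L) ((A ⊓ C : Subgroup L) : Set L)
    have e5 := hi3 A hA B hB hAB
    have e6 := hi3 A hA C hC hAC
    have e7 := hi3 B hB C hC hBC
    rw [Subgroup.index_top] at e2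
    omega
  refine h.no_three h3 (hm A hA).2 (hm B hB).2 (hm C hC).2 hd
    (by rw [(hm B hB).1, (hm C hC).1, hL]) (ne_bot_of_card (by rw [(hm A hA).1]; norm_num))
    fun t w hw => ?_
  have k1 : t • A ≠ t • B := fun e => hAB (smul_left_cancel t e)
  have k2 : t • A ≠ t • C := fun e => hAC (smul_left_cancel t e)
  have k3 : t • B ≠ t • C := fun e => hBC (smul_left_cancel t e)
  obtain ⟨e1 | e1 | e1, e2 | e2 | e2, e3 | e3 | e3⟩ := hp t <;> rw [e1, e2, e3] at hw <;>
    rw [e1, e2] at k1 <;> rw [e1, e3] at k2 <;> rw [e2, e3] at k3 <;>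
    first
      | exact absurd rfl k1
      | exact absurd rfl k2
      | exact absurd rfl k3
      | exact hw
      | exact hw.rot h3
      | exact (hw.rot h3).rot h3
      | exact hw.swap h3
      | exact (hw.rot h3).swap h3
      | exact ((hw.rot h3).rot h3).swap h3

end Pool.Agent.MP_f0649b_al.Sp

end

section

/-! The symplectic group of order 64 with a normal fixed point free action of order 3. -/

open MulAction
open scoped Pointwise

namespace Pool.Agent.MP_f0649b_al.Sp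

variable {T L : Type} [Group T] [CommGroup L] [MulDistribMulAction T L] {om : L →* L →* ℂˣ}

theorem om_mul_self (h2 : ∀ x : L, x * x = 1) (x y : L) : om x y * om x y = 1 := by
  rw [← map_mul, h2, map_one]

theorem Sz.symm (h : Sz T om) (h2 : ∀ x : L, x * x = 1) (x y : L) : om y x = om x y := by
  rw [h.skew, inv_eq_of_mul_eq_one_left (om_mul_self h2 x y)]

theorem Sz.adj (h : Sz T om) (g : T) (x y : L) : om (g • x) y = om x (g⁻¹ • y) := by
  rw [← h.inv g x, smul_inv_smul]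

theorem norm_three {y : T} (hy3 : ∀ x : L, y ^ 3 • x = x) (hf : ∀ x : L, y • x = x → x = 1) (x : L) :
    x * y • x * y • y • x = 1 := hf _ (by
  have := hy3 x
  rw [pow_three, mul_smul, mul_smul] at this
  rw [smul_mul', smul_mul', this, mul_comm, mul_assoc])

/-- the numbers of singular and nonsingular vectors -/
theorem Sz.q64 [Finite L] (h : Sz T om) (hL : Nat.card L = 64) (h2 : ∀ x : L, x * x = 1) {y : T}
    (hy3 : ∀ x : L, y ^ 3 • x = x) (hf : ∀ x : L, y • x = x → x = 1)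
    (hn : ∀ t : T, (∀ x : L, (t * y * t⁻¹) • x = y • x) ∨ ∀ x : L, (t * y * t⁻¹) • x = y • y • x) :
    InvS T {x : L | om x (y • x) = -1} ∧ {x : L | om x (y • x) = -1}.ncard = 36 := by
  have e3 : ∀ x : L, y⁻¹ • x = y • y • x := fun x => by
    have := hy3 x
    rw [pow_three, mul_smul, mul_smul] at this
    rw [inv_smul_eq_iff, this]
  have hI : InvS T {x : L | om x (y • x) = -1} := by
    intro t x hx
    simp only [Set.mem_ofPred_eq] at hx ⊢
    rw [h.adj, ← mul_smul, ← mul_smul]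
    rcases hn t⁻¹ with e | e <;> rw [inv_inv] at e <;> rw [e]
    · exact hx
    · rw [← e3, ← h.adj, h.symm h2, hx]
  refine ⟨hI, ?_⟩
  have hg := h.gauss (fun x => om x (y • x)) (fun a b => by
    have e1 : om b (y • a) = om a (y • y • b) := by rw [h.symm h2, h.adj, e3]
    have e2 : om a (b * y • b * y • y • b) = 1 := by rw [norm_three hy3 hf, map_one]
    have e4 : om a (y • b) * om a (y • y • b) = om a b := by
      rw [map_mul, map_mul, mul_assoc] at e2
      rw [eq_inv_of_mul_eq_one_right e2, inv_eq_of_mul_eq_one_left (om_mul_self h2 a b)]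
    simp only [smul_mul', map_mul, MonoidHom.mul_apply, e1, ← e4]
    simp only [mul_comm, mul_left_comm]) fun x => sq_cases (om_mul_self h2 _ _)
  have hd := dvd_ncard Nat.prime_three y {x : L | om x (y • x) = -1} (hI y) hy3 fun x hx e => by
    rw [Set.mem_ofPred_eq, e, h.alt] at hx
    exact one_ne_neg hx
  rw [hL] at hg
  have : ((64 : ℤ) - 2 * ({x : L | om x (y • x) = -1}.ncard : ℤ)) ^ 2 = 8 ^ 2 := by
    simpa using hg
  rcases sq_eq_sq_iff_eq_or_eq_neg.1 this with e | e <;> omega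

theorem Sz.kap_64 [Finite T] [Finite L] (h : Sz T om) (hL : Nat.card L = 64) {Y : Subgroup T}
    (hg : GP Y 4) {y : T} (hy : y ∈ Y) (hy3 : ∀ x : L, y ^ 3 • x = x)
    (hf : ∀ x : L, y • x = x → x = 1) (h12 : ∀ x : L, x ≠ 1 → 12 ≤ o T x) : Kap T om 36 := by
  intro H R hH hR
  obtain ⟨i, -, hi'⟩ := card_dvd_pow (p := 2) (n := 6) Nat.prime_two hL R
  have h1 := h.card_mul_le R R hR
  have h2 := one_le_index H
  rw [hi', hL, ← pow_add, show 64 = 2 ^ 6 by norm_num, Nat.pow_le_pow_iff_right (by norm_num)] at h1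
  have h3 : R ≠ ⊥ → 12 ≤ H.index * (Nat.card R - 1) := fun h0 => by
    obtain ⟨⟨x, hx⟩, hx1⟩ := (Subgroup.ne_bot_iff_exists_ne_one).1 h0
    have hx2 : x ≠ 1 := fun e => hx1 (Subtype.ext e)
    exact (h12 x hx2).trans (o_le_sub hH hx hx2)
  rcases (by omega : i = 0 ∨ i = 1 ∨ i = 2 ∨ i = 3) with rfl | rfl | rfl | rfl
  · rw [hi', hL]; omega
  · have := h3 (ne_bot_of_card (by rw [hi']; norm_num))
    rw [hi'] at this
    rw [hi', hL]; omega
  · have := h3 (ne_bot_of_card (by rw [hi']; norm_num))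
    rw [hi'] at this
    rw [hi', hL]; omega
  · rw [hi', hL]
    by_contra hlt
    have := card_mod_one Nat.prime_three y R (hH y (hg H (by omega) hy)) hy3 fun x _ => hf x
    rw [hi'] at this
    exact absurd this (by decide)

theorem Sz.orb_64 [Finite T] [Finite L] (h : Sz T om) (hL : Nat.card L = 64)
    (h2 : ∀ x : L, x * x = 1) {y : T}
    (hy3 : ∀ x : L, y ^ 3 • x = x) (hf : ∀ x : L, y • x = x → x = 1)
    (hn : ∀ t : T, (∀ x : L, (t * y * t⁻¹) • x = y • x) ∨ ∀ x : L, (t * y * t⁻¹) • x = y • y • x)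
    (h12 : ∀ x : L, x ≠ 1 → 12 ≤ o T x) :
    ∃ x x' : L, x ≠ 1 ∧ x' ≠ 1 ∧ ((o T x = 12 ∧ o T x' = 15) ∨
      (o T x = 27 ∧ (o T x' = 12 ∨ o T x' = 15 ∨ o T x' = 18 ∨ o T x' = 36))) := by
  obtain ⟨hI, hc⟩ := h.q64 hL h2 hy3 hf hn
  set N := {x : L | om x (y • x) = -1} with hN
  have hN1 : ∀ x ∈ N, x ≠ 1 := fun x hx e => by
    rw [e, hN, Set.mem_ofPred_eq, map_one] at hx
    exact one_ne_neg hx
  have hd : ∀ x : L, x ≠ 1 → 3 ∣ o T x := fun x hx =>
    dvd_o Nat.prime_three y x hy3 fun z hz e => by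
      obtain ⟨t, rfl⟩ := hz
      exact invS_ne t x hx (hf _ e)
  have hS : InvS T ({x : L | x ≠ 1} \ N) := fun t x hx =>
    ⟨invS_ne t x hx.1, fun e => hx.2 (by simpa using hI t⁻¹ _ e)⟩
  have hSc : ({x : L | x ≠ 1} \ N).ncard = 27 := by
    have := Set.ncard_sdiff_add_ncard_of_subset (show N ⊆ {x : L | x ≠ 1} from hN1)
    rw [ncard_ne, hL, hc] at this
    omega
  obtain ⟨x, hx⟩ : ({x : L | x ≠ 1} \ N).Nonempty := Set.nonempty_of_ncard_ne_zero (by omega)
  have a1 := hS.ncard_diff hx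
  have a2 := h12 x hx.1
  have a3 := hd x hx.1
  by_cases e : o T x = 27
  · obtain ⟨z, hz⟩ : N.Nonempty := Set.nonempty_of_ncard_ne_zero (by omega)
    have b1 := hI.ncard_diff hz
    have b2 := h12 z (hN1 z hz)
    have b3 := hd z (hN1 z hz)
    by_cases e2 : o T z ≤ 18 ∨ o T z = 36
    · exact ⟨x, z, hx.1, hN1 z hz, Or.inr ⟨e, by omega⟩⟩
    · obtain ⟨w, hw⟩ : (N \ orbit T z).Nonempty := Set.nonempty_of_ncard_ne_zero (by omega)
      have c1 := (hI.diff z).o_le hw
      have c2 := h12 w (hN1 w hw.1)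
      have c3 := hd w (hN1 w hw.1)
      exact ⟨x, w, hx.1, hN1 w hw.1, Or.inr ⟨e, by omega⟩⟩
  · obtain ⟨z, hz⟩ : (({x : L | x ≠ 1} \ N) \ orbit T x).Nonempty :=
      Set.nonempty_of_ncard_ne_zero (by omega)
    have b1 := (hS.diff x).ncard_diff hz
    have b2 := h12 z hz.1.1
    have b3 := hd z hz.1.1
    have b4 := ((hS.diff x).diff z).zero_or fun w hw => h12 w hw.1.1.1
    by_cases e2 : o T x = 12
    · exact ⟨x, z, hx.1, hz.1.1, Or.inl ⟨e2, by omega⟩⟩
    · exact ⟨z, x, hz.1.1, hx.1, Or.inl ⟨by omega, by omega⟩⟩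

end Pool.Agent.MP_f0649b_al.Sp

end

section

/-! The symplectic group of order 16 with a normal abelian action of odd exponent. -/

open MulAction
open scoped Pointwise

namespace Pool.Agent.MP_f0649b_al.Sp

variable {T L : Type} [Group T] [CommGroup L] [MulDistribMulAction T L] {om : L →* L →* ℂˣ}

/-- the elements of `Y` whose `s`-th power acts trivially -/
def Jz (L : Type) [CommGroup L] [MulDistribMulAction T L] (Y : Subgroup T) (s : ℕ)
    (ab : ∀ u ∈ Y, ∀ v ∈ Y, ∀ x : L, u • v • x = v • u • x) : Subgroup T where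
  carrier := {u | u ∈ Y ∧ ∀ x : L, u ^ s • x = x}
  one_mem' := ⟨Y.one_mem, by simp⟩
  mul_mem' := fun {a b} ha hb => ⟨Y.mul_mem ha.1 hb.1, fun x => by
    have c : Commute (MulDistribMulAction.toMulAut T L a) (MulDistribMulAction.toMulAut T L b) :=
      MulEquiv.ext (ab a ha.1 b hb.1)
    have e := DFunLike.congr_fun (c.mul_pow s) x
    rw [← map_mul, ← map_pow, ← map_pow, ← map_pow] at e
    have e2 : (a * b) ^ s • x = a ^ s • b ^ s • x := e
    rw [e2, hb.2, ha.2]⟩
  inv_mem' := fun {a} ha => ⟨Y.inv_mem ha.1, fun x => by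
    rw [inv_pow, inv_smul_eq_iff, ha.2]⟩

theorem Jz_conj {Y : Subgroup T} [hY : Y.Normal] {s : ℕ}
    {ab : ∀ u ∈ Y, ∀ v ∈ Y, ∀ x : L, u • v • x = v • u • x} {u : T} (hu : u ∈ Jz L Y s ab) (t : T) :
    t * u * t⁻¹ ∈ Jz L Y s ab :=
  ⟨hY.conj_mem u hu.1 t, fun x => by rw [conj_pow, mul_smul, mul_smul, hu.2, smul_inv_smul]⟩

/-- the data of the case of order 16 -/
structure D16 (om : L →* L →* ℂˣ) (Y : Subgroup T) (s : ℕ) : Prop where
  sy : Sy T om
  card : Nat.card L = 16
  two : ∀ x : L, x * x = 1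
  gp : GP Y 4
  ab : ∀ u ∈ Y, ∀ v ∈ Y, ∀ x : L, u • v • x = v • u • x
  nt : ∃ y ∈ Y, (∀ x : L, y ^ s • x = x) ∧ ∃ x : L, y • x ≠ x
  cz : ∀ S : Subgroup T,
    (∀ t ∈ S, ∀ u ∈ Y, (∀ x : L, u ^ s • x = x) → ∀ x : L, t • u • x = u • t • x) → 4 ≤ S.index

namespace D16
variable {Y : Subgroup T} {s : ℕ}

theorem fpf [Y.Normal] (d : D16 om Y s) (x : L) (hx : ∀ u ∈ Jz L Y s d.ab, u • x = x) : x = 1 := by
  let F : Subgroup L :=
    { carrier := {x | ∀ u ∈ Jz L Y s d.ab, u • x = x}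
      one_mem' := fun u _ => smul_one u
      mul_mem' := fun {a b} ha hb u hu => by rw [smul_mul', ha u hu, hb u hu]
      inv_mem' := fun {a} ha u hu => by rw [smul_inv', ha u hu] }
  rcases d.sy.irr F (fun t z hz u hu => by
    have := hz _ (Jz_conj hu t⁻¹)
    rwa [inv_inv, mul_smul, mul_smul, inv_smul_eq_iff] at this) with e | e
  · have : x ∈ F := hx
    rwa [e, Subgroup.mem_bot] at this
  · obtain ⟨y, hy, hs, z, hz⟩ := d.nt
    exact absurd ((e ▸ trivial : z ∈ F) y ⟨hy, hs⟩) hz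

theorem five_le [Y.Normal] (d : D16 om Y s) {x : L} (hx : x ≠ 1) : 5 ≤ o T x := by
  by_contra hlt
  exact hx (d.fpf x fun u hu => d.gp (stabilizer T x) (by unfold o at hlt; omega) hu.1)

/-- the image of `Jz` in the automorphism group -/
def im (d : D16 om Y s) : Subgroup (MulAut L) :=
  (Jz L Y s d.ab).map (MulDistribMulAction.toMulAut T L)

theorem im_p (d : D16 om Y s) : IsPGroup s d.im := by
  rintro ⟨_, u, hu, rfl⟩
  refine ⟨1, Subtype.ext ?_⟩
  rw [pow_one, Subgroup.coe_pow, ← map_pow]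
  exact MulEquiv.ext hu.2

theorem s_cases [Finite L] [Y.Normal] (d : D16 om Y s) (hs : s.Prime) : s = 3 ∨ s = 5 := by
  have := Fact.mk hs
  have h := d.im_p.card_modEq_card_fixedPoints L
  have e : fixedPoints d.im L = {1} := by
    ext x
    refine ⟨fun hx => d.fpf x fun u hu => hx ⟨_, u, hu, rfl⟩, fun hx g => ?_⟩
    rw [hx]
    exact map_one (g : MulAut L)
  rw [e, d.card, Nat.card_unique] at h
  have h2 : s ∣ 3 * 5 := (Nat.modEq_iff_dvd' (by norm_num)).1 h.symm
  rcases (hs.dvd_mul).1 h2 with h3 | h3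
  · exact Or.inl ((Nat.prime_dvd_prime_iff_eq hs Nat.prime_three).1 h3)
  · exact Or.inr ((Nat.prime_dvd_prime_iff_eq hs Nat.prime_five).1 h3)

theorem card_fx [Finite L] (d : D16 om Y s) (hs : s.Prime) {k : T} (h1 : ∀ x : L, k ^ s • x = x)
    (h2 : ∃ x : L, k • x ≠ x) : (Nat.card (fx L k) = 1 ∨ Nat.card (fx L k) = 2 ∨
      Nat.card (fx L k) = 4 ∨ Nat.card (fx L k) = 8) ∧ 16 ≡ Nat.card (fx L k) [MOD s] := by
  have h := card_fx_mod hs k (⊤ : Subgroup L) (fun _ _ => trivial) h1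
  rw [top_inf_eq, Subgroup.card_top, d.card] at h
  refine ⟨?_, h⟩
  obtain ⟨i, hi, e⟩ := card_dvd_pow (p := 2) (n := 4) Nat.prime_two d.card (fx L k)
  rcases (by omega : i = 0 ∨ i = 1 ∨ i = 2 ∨ i = 3 ∨ i = 4) with rfl | rfl | rfl | rfl | rfl
  · omega
  · omega
  · omega
  · omega
  · obtain ⟨x, hx⟩ := h2
    have : fx L k = ⊤ := Subgroup.eq_top_of_card_eq _ (by rw [e, d.card]; norm_num)
    exact absurd (this ▸ trivial : x ∈ fx L k) hx

/-- the index bound follows once no Lagrangian subgroup is normalised by `Y` -/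
theorem kap [Finite T] [Finite L] (d : D16 om Y s)
    (h4 : ∀ R : Subgroup L, Nat.card R = 4 → (∀ x ∈ R, ∀ y ∈ R, om x y = 1) →
      ¬ ∀ u ∈ Y, ∀ x ∈ R, u • x ∈ R) : Kap T om 10 := by
  intro H R hH hR
  obtain ⟨i, -, hi'⟩ := card_dvd_pow (p := 2) (n := 4) Nat.prime_two d.card R
  have h1 := d.sy.card_mul_le R R hR
  have h2 := one_le_index H
  rw [hi', d.card, ← pow_add, show 16 = 2 ^ 4 by norm_num,
    Nat.pow_le_pow_iff_right (by norm_num)] at h1
  rcases (by omega : i = 0 ∨ i = 1 ∨ i = 2) with rfl | rfl | rfl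
  · rw [hi', d.card]; omega
  · have := d.sy.two_le_index hH (ne_bot_of_card (by rw [hi']; norm_num))
      (ne_top_of_card (by rw [hi', d.card]; norm_num))
    rw [hi', d.card]; omega
  · rw [hi', d.card]
    by_contra hlt
    exact h4 R hi' hR fun u hu => hH u (d.gp H (by omega) hu)

end D16

end Pool.Agent.MP_f0649b_al.Sp

end

section

/-! Order 16, the prime 3. -/

open MulAction
open scoped Pointwise

namespace Pool.Agent.MP_f0649b_al.Sp

variable {T L : Type} [Group T] [CommGroup L] [MulDistribMulAction T L] {om : L →* L →* ℂˣ}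

theorem pow_mod_smul {g : T} {p : ℕ} (hg : ∀ x : L, g ^ p • x = x) (n : ℕ) (x : L) :
    g ^ n • x = g ^ (n % p) • x := by
  conv_lhs => rw [← Nat.mod_add_div n p, pow_add, pow_mul, mul_smul, pow_smul_fix (hg x)]

/-- a vector with trivial stabiliser in a group of type (3,3) has nine images -/
theorem nine [Finite L] {y v : T} (hy : ∀ x : L, y ^ 3 • x = x) (hv : ∀ x : L, v ^ 3 • x = x)
    (c : ∀ x : L, y • v • x = v • y • x) {x : L} (h1 : y • x ≠ x) (h2 : v • x ≠ x)
    (h3 : (v * y) • x ≠ x) (h4 : (v * y * y) • x ≠ x) (A : Set L) (hx : x ∈ A)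
    (ay : ∀ z ∈ A, y • z ∈ A) (av : ∀ z ∈ A, v • z ∈ A) : 9 ≤ A.ncard := by
  have y3 : ∀ z : L, y • y • y • z = z := fun z => by simpa [pow_three, mul_smul] using hy z
  have v3 : ∀ z : L, v • v • v • z = z := fun z => by simpa [pow_three, mul_smul] using hv z
  rw [mul_smul] at h3
  rw [mul_smul, mul_smul] at h4
  have cp : ∀ (i j : ℕ) (z : L), y ^ i • v ^ j • z = v ^ j • y ^ i • z := fun i j z => by
    have c' : Commute (MulDistribMulAction.toMulAut T L y) (MulDistribMulAction.toMulAut T L v) :=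
      MulEquiv.ext c
    have e := DFunLike.congr_fun (c'.pow_pow i j).eq z
    rw [← map_pow, ← map_pow] at e
    exact e
  have key : ∀ a b : ℕ, v ^ a • y ^ b • x = x → a % 3 = 0 ∧ b % 3 = 0 := by
    intro a b e
    rw [pow_mod_smul hv, pow_mod_smul hy] at e
    have ha : a % 3 = 0 ∨ a % 3 = 1 ∨ a % 3 = 2 := by omega
    have hb : b % 3 = 0 ∨ b % 3 = 1 ∨ b % 3 = 2 := by omega
    rcases ha with ha | ha | ha <;> rcases hb with hb | hb | hb <;> rw [ha, hb] at e <;>
      simp only [pow_zero, one_smul, pow_one, sq, mul_smul] at e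
    · exact ⟨ha, hb⟩
    · exact absurd e h1
    · exact absurd (by have := congrArg (y • ·) e; simpa [y3] using this.symm) h1
    · exact absurd e h2
    · exact absurd e h3
    · exact absurd e h4
    · exact absurd (by have := congrArg (v • ·) e; simpa [v3] using this.symm) h2
    · refine absurd ?_ h4
      have e2 : v • x = y • x := by have := congrArg (v • ·) e; simpa [v3] using this.symm
      rw [← c, ← c, e2, y3]
    · refine absurd ?_ h3
      have e2 : v • x = y • y • x := by have := congrArg (v • ·) e; simpa [v3] using this.symm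
      rw [← c, e2, y3]
  have hp : ∀ (g : T), (∀ z ∈ A, g • z ∈ A) → ∀ (n : ℕ), ∀ z ∈ A, g ^ n • z ∈ A := by
    intro g hg n
    induction n with
    | zero => simp
    | succ n ih => intro z hz; rw [pow_succ, mul_smul]; exact ih _ (hg z hz)
  let f : Fin 3 × Fin 3 → A := fun p => ⟨v ^ (p.1 : ℕ) • y ^ (p.2 : ℕ) • x, hp v av _ _ (hp y ay _ _ hx)⟩
  have hf : Function.Injective f := by
    rintro ⟨i, j⟩ ⟨i', j'⟩ e
    have e1 : v ^ (i : ℕ) • y ^ (j : ℕ) • x = v ^ (i' : ℕ) • y ^ (j' : ℕ) • x := congrArg Subtype.val e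
    have e2 := key (3 - i' + i) (3 - j' + j) (by
      rw [pow_add, pow_add, mul_smul, mul_smul, ← cp, e1, cp, ← mul_smul, ← mul_smul (y ^ _),
        ← pow_add, ← pow_add, Nat.sub_add_cancel i'.2.le, Nat.sub_add_cancel j'.2.le, hv, hy])
    have := i.2
    have := i'.2
    have := j.2
    have := j'.2
    exact Prod.ext (Fin.ext (by simp only; omega)) (Fin.ext (by simp only; omega))
  have := Nat.card_le_card_of_injective f hf
  rwa [Nat.card_coe_set_eq, Nat.card_prod, Nat.card_eq_fintype_card, Fintype.card_fin] at this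

namespace D16
variable {Y : Subgroup T}

theorem two_gen [Finite T] [Y.Normal] (d : D16 om Y 3) : ∃ y ∈ Jz L Y 3 d.ab, ∃ v ∈ Jz L Y 3 d.ab,
    (∃ x : L, y • x ≠ x) ∧ (∃ x : L, v • x ≠ x) ∧ (∃ x : L, (v * y) • x ≠ x) ∧
      ∃ x : L, (v * y * y) • x ≠ x := by
  obtain ⟨y, hy, hs, x0, hx0⟩ := d.nt
  have y3 : ∀ z : L, y • y • y • z = z := fun z => by simpa [pow_three, mul_smul] using hs z
  refine ⟨y, ⟨hy, hs⟩, ?_⟩
  by_contra hc
  push Not at hc
  have hu : ∀ u ∈ Jz L Y 3 d.ab, (∀ x : L, u • x = x) ∨ (∀ x : L, u • x = y • x) ∨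
      ∀ x : L, u • x = y • y • x := fun u hu => by
    by_cases e1 : ∃ x : L, u • x ≠ x
    · by_cases e2 : ∃ x : L, (u * y) • x ≠ x
      · refine Or.inr (Or.inl fun x => ?_)
        have := hc u hu ⟨x0, hx0⟩ e1 e2 (y • x)
        rwa [mul_smul, mul_smul, y3] at this
      · push Not at e2
        refine Or.inr (Or.inr fun x => ?_)
        have := e2 (y • y • x)
        rwa [mul_smul, y3] at this
    · push Not at e1
      exact Or.inl e1
  have h4 := d.cz (cen L y) fun t ht u hu1 hu2 x => by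
    rcases hu u ⟨hu1, hu2⟩ with e | e | e
    · rw [e, e]
    · rw [e, e, ht]
    · rw [e, e, ht, ht]
  rw [cen_index] at h4
  have h5 := Set.ncard_le_ncard (t := {MulDistribMulAction.toMulAut T L y,
      MulDistribMulAction.toMulAut T L (y * y)})
    (s := Set.range fun t : T => MulDistribMulAction.toMulAut T L (t * y * t⁻¹)) (by
      rintro _ ⟨t, rfl⟩
      rcases hu _ (Jz_conj (ab := d.ab) ⟨hy, hs⟩ t) with e | e | e
      · have := e (t • x0)
        rw [mul_smul, mul_smul, inv_smul_smul, smul_left_cancel_iff] at this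
        exact absurd this hx0
      · exact Or.inl (MulEquiv.ext e)
      · exact Or.inr (MulEquiv.ext fun x => (e x).trans (mul_smul y y x).symm))
  have h6 := Set.ncard_insert_le (MulDistribMulAction.toMulAut T L y)
    {MulDistribMulAction.toMulAut T L (y * y)}
  rw [Set.ncard_singleton] at h6
  omega

theorem fx_le [Finite L] (d : D16 om Y 3) {k : T} (hk : k ∈ Jz L Y 3 d.ab)
    (h2 : ∃ x : L, k • x ≠ x) : Nat.card (fx L k) ≤ 4 := by
  obtain ⟨h3, h4⟩ := d.card_fx Nat.prime_three hk.2 h2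
  unfold Nat.ModEq at h4
  omega

theorem kap3 [Finite T] [Finite L] [Y.Normal] (d : D16 om Y 3) : Kap T om 10 := by
  refine d.kap fun R hR hi hY => ?_
  obtain ⟨y, hy, v, hv, n1, n2, n3, n4⟩ := d.two_gen
  obtain ⟨⟨r, hr⟩, hr1⟩ := (Subgroup.ne_bot_iff_exists_ne_one).1
    (ne_bot_of_card (R := R) (by rw [hR]; norm_num))
  have key : ∀ k ∈ Jz L Y 3 d.ab, (∃ x : L, k • x ≠ x) → k • r ≠ r := by
    rintro k hk ⟨z, hz⟩ e
    have h1 := card_fx_mod Nat.prime_three k R (hY k hk.1) hk.2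
    obtain ⟨i, hi2, e2⟩ := (Nat.dvd_prime_pow Nat.prime_two (m := 2)).1
      (hR ▸ Subgroup.card_dvd_of_le (inf_le_left : R ⊓ fx L k ≤ R))
    have h2 : Nat.card (R ⊓ fx L k : Subgroup L) ≠ 1 := fun e3 => by
      have : r ∈ R ⊓ fx L k := ⟨hr, e⟩
      rw [Subgroup.card_eq_one.1 e3, Subgroup.mem_bot] at this
      exact hr1 (Subtype.ext this)
    have h3 : R ⊓ fx L k = R := Subgroup.eq_of_le_of_card_ge inf_le_left (by
      rw [hR, e2] at h1
      rw [e2] at h2
      rw [hR, e2]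
      unfold Nat.ModEq at h1
      rcases (by omega : i = 0 ∨ i = 1 ∨ i = 2) with rfl | rfl | rfl <;> omega)
    have h4 : ∀ x ∈ R, k • x = x := fun x hx => (h3.ge hx).2
    have h5 := h4 _ (d.sy.mem_of_perp hi (by rw [hR, d.card]) (z := k • z * z) fun x hx => by
      rw [map_mul]
      nth_rewrite 1 [← h4 x hx]
      rw [d.sy.inv, om_mul_self d.two])
    rw [smul_mul', mul_comm, mul_right_inj] at h5
    have h6 := hk.2 z
    rw [pow_three, mul_smul, mul_smul, h5] at h6
    exact hz h6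
  have := nine hy.2 hv.2 (d.ab y hy.1 v hv.1) (key y hy n1) (key v hv n2)
    (key _ (mul_mem hv hy) n3) (key _ (mul_mem (mul_mem hv hy) hy) n4) R hr (hY y hy.1) (hY v hv.1)
  rw [← Nat.card_coe_set_eq] at this
  have h7 : 9 ≤ Nat.card R := this
  omega

theorem orb3 [Finite T] [Finite L] [Y.Normal] (d : D16 om Y 3) :
    ∃ x x' : L, x ≠ 1 ∧ x' ≠ 1 ∧ o T x = 6 ∧ o T x' = 9 := by
  obtain ⟨y, hy, v, hv, n1, n2, n3, n4⟩ := d.two_gen
  have c := d.ab y hy.1 v hv.1
  have m3 := mul_mem hv hy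
  have m4 := mul_mem m3 hy
  have hb : ∀ k ∈ Jz L Y 3 d.ab, (∃ x : L, k • x ≠ x) → ((fx L k : Set L) \ {1}).ncard ≤ 3 :=
    fun k hk h2 => by
      have := d.fx_le hk h2
      rw [ncard_diff_one]
      omega
  obtain ⟨x, hx1, hx⟩ : ∃ x ∈ {x : L | x ≠ 1}, x ∉ ((fx L y : Set L) \ {1}) ∪ ((fx L v : Set L) \ {1}) ∪
      ((fx L (v * y) : Set L) \ {1}) ∪ ((fx L (v * y * y) : Set L) \ {1}) := by
    refine Set.exists_mem_notMem_of_ncard_lt_ncard ?_
    have e1 := Set.ncard_union_le (((fx L y : Set L) \ {1}) ∪ ((fx L v : Set L) \ {1}) ∪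
      ((fx L (v * y) : Set L) \ {1})) ((fx L (v * y * y) : Set L) \ {1})
    have e2 := Set.ncard_union_le (((fx L y : Set L) \ {1}) ∪ ((fx L v : Set L) \ {1}))
      ((fx L (v * y) : Set L) \ {1})
    have e3 := Set.ncard_union_le ((fx L y : Set L) \ {1}) ((fx L v : Set L) \ {1})
    have := hb y hy n1
    have := hb v hv n2
    have := hb _ m3 n3
    have := hb _ m4 n4
    rw [ncard_ne, d.card]
    omega
  have h9 := nine hy.2 hv.2 c (x := x) (fun e => hx (Or.inl (Or.inl (Or.inl ⟨e, hx1⟩))))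
    (fun e => hx (Or.inl (Or.inl (Or.inr ⟨e, hx1⟩)))) (fun e => hx (Or.inl (Or.inr ⟨e, hx1⟩)))
    fun e => hx (Or.inr ⟨e, hx1⟩)
  have hfree : ∀ z ∈ orbit T x, ∀ k ∈ Jz L Y 3 d.ab, (∃ w : L, k • w ≠ w) → k • z ≠ z := by
    rintro _ ⟨t, rfl⟩ k hk ⟨w, hw⟩ e
    have hk' := Jz_conj hk t⁻¹
    rw [inv_inv] at hk'
    have e1 := d.fx_le hk' ⟨t⁻¹ • w, fun e2 => hw (by
      rwa [mul_smul, mul_smul, smul_inv_smul, smul_left_cancel_iff] at e2)⟩
    have e2 := h9 (fx L (t⁻¹ * k * t)) (by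
        change (t⁻¹ * k * t) • x = x
        rw [mul_smul, mul_smul, inv_smul_eq_iff]; exact e)
      (fun z hz => by
        change _ • y • z = y • z
        rw [d.ab _ hk'.1 y hy.1, mem_fx.1 hz])
      (fun z hz => by
        change _ • v • z = v • z
        rw [d.ab _ hk'.1 v hv.1, mem_fx.1 hz])
    rw [← Nat.card_coe_set_eq] at e2
    have e3 : 9 ≤ Nat.card (fx L (t⁻¹ * k * t)) := e2
    omega
  have a1 : 9 ≤ o T x := by
    rw [o_eq]
    refine h9 _ (mem_orbit_self x) ?_ ?_ <;> rintro _ ⟨t, rfl⟩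
    exacts [⟨y * t, mul_smul y t x⟩, ⟨v * t, mul_smul v t x⟩]
  have a2 := dvd_o Nat.prime_three y x hy.2 fun z hz => hfree z hz y hy n1
  obtain ⟨z, hz1, hz⟩ : ∃ z : L, z ≠ 1 ∧ z ∉ orbit T x := by
    by_contra hc
    push Not at hc
    have hf : ∀ k ∈ Jz L Y 3 d.ab, (∃ w : L, k • w ≠ w) → ∀ z : L, k • z = z → z = 1 :=
      fun k hk h z e => by
        by_contra h1
        exact hfree z (hc z h1) k hk h e
    have y3 : ∀ z : L, y • y • y • z = z := fun z => by simpa [pow_three, mul_smul] using hy.2 z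
    have v3 : ∀ z : L, v • v • v • z = z := fun z => by simpa [pow_three, mul_smul] using hv.2 z
    have ny := norm_three hy.2 (hf y hy n1) x
    have nv := norm_three hv.2 (hf v hv n2) x
    have sq : ∀ a b : L, a * b = 1 → a = b := fun a b e => by
      rw [eq_inv_of_mul_eq_one_left e, inv_eq_of_mul_eq_one_left (d.two b)]
    have e1 : v • x * v • v • x = x := (sq _ _ (by rw [← mul_assoc, nv])).symm
    have e2 : y • (y • x * v • v • x) = v • (y • x * v • v • x) := sq _ _ (by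
      have e4 : y • v • x * y • v • v • x = y • x := by rw [← smul_mul', e1]
      rw [smul_mul', smul_mul', v3, ← c x]
      calc _ = x * (y • v • x * y • v • v • x) * y • y • x := by
            simp only [mul_assoc, mul_comm, mul_left_comm]
        _ = 1 := by rw [e4, ny])
    have e3 := hf _ m4 n4 (y • x * v • v • x) (by rw [mul_smul, mul_smul, ← c, ← c, ← e2, y3])
    exact hx1 (hf _ m3 n3 x (by rw [mul_smul, sq _ _ e3, v3]))
  have b1 := (invS_ne (T := T) (L := L)).ncard_diff hx1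
  have hz2 : z ∈ {x : L | x ≠ 1} \ orbit T x := ⟨hz1, hz⟩
  have b2 := ((invS_ne (T := T) (L := L)).diff x).ncard_diff hz2
  have b3 := d.five_le hz1
  have b4 := (((invS_ne (T := T) (L := L)).diff x).diff z).zero_or fun w hw => d.five_le hw.1.1
  rw [ncard_ne, d.card] at b1
  exact ⟨z, x, hz1, hx1, by omega, by omega⟩

end D16

end Pool.Agent.MP_f0649b_al.Sp

end

section

/-! Order 16, the prime 5. -/

open MulAction
open scoped Pointwise

namespace Pool.Agent.MP_f0649b_al.Sp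

variable {T L : Type} [Group T] [CommGroup L] [MulDistribMulAction T L] {om : L →* L →* ℂˣ}

namespace D16
variable {Y : Subgroup T}

theorem fpf5 [Finite L] (d : D16 om Y 5) {k : T} (hk : ∀ x : L, k ^ 5 • x = x)
    (h2 : ∃ x : L, k • x ≠ x) (x : L) (hx : k • x = x) : x = 1 := by
  obtain ⟨h3, h4⟩ := d.card_fx Nat.prime_five hk h2
  unfold Nat.ModEq at h4
  have : x ∈ fx L k := hx
  rwa [Subgroup.card_eq_one.1 (by omega : Nat.card (fx L k) = 1), Subgroup.mem_bot] at this

theorem kap5 [Finite T] [Finite L] (d : D16 om Y 5) : Kap T om 10 := by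
  refine d.kap fun R hR _ hY => ?_
  obtain ⟨y, hy, hs, h⟩ := d.nt
  have := card_mod_one Nat.prime_five y R (hY y hy) hs fun x _ => d.fpf5 hs h x
  rw [hR] at this
  exact absurd this (by decide)

theorem irr5 [Finite L] (d : D16 om Y 5) (M : Subgroup L) (hY : ∀ u ∈ Y, ∀ x ∈ M, u • x ∈ M) :
    M = ⊥ ∨ M = ⊤ := by
  obtain ⟨y, hy, hs, h⟩ := d.nt
  have h1 := card_mod_one Nat.prime_five y M (hY y hy) hs fun x _ => d.fpf5 hs h x
  obtain ⟨i, hi, e⟩ := card_dvd_pow (p := 2) (n := 4) Nat.prime_two d.card M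
  unfold Nat.ModEq at h1
  rcases (by omega : i = 0 ∨ i = 1 ∨ i = 2 ∨ i = 3 ∨ i = 4) with rfl | rfl | rfl | rfl | rfl
  · exact Or.inl (Subgroup.card_eq_one.1 e)
  · omega
  · omega
  · omega
  · exact Or.inr (Subgroup.eq_top_of_card_eq _ (by rw [e, d.card]; norm_num))

theorem cyc5 [Finite L] (d : D16 om Y 5) {y : T} (hy : y ∈ Jz L Y 5 d.ab) (h : ∃ x : L, y • x ≠ x)
    {u : T} (hu : u ∈ Jz L Y 5 d.ab) : ∃ i : ℕ, ∀ x : L, u • x = y ^ i • x := by
  have := Fact.mk Nat.prime_five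
  obtain ⟨x, hx⟩ := h
  have hx1 : x ≠ 1 := fun e => hx (by rw [e, smul_one])
  have h1 : stabilizer d.im x = ⊥ := by
    rw [eq_bot_iff]
    rintro ⟨_, k, hk, rfl⟩ e
    rw [Subgroup.mem_bot]
    refine Subtype.ext (MulEquiv.ext fun z => ?_)
    by_contra hz
    exact hx1 (d.fpf5 hk.2 ⟨z, hz⟩ x e)
  have h2 : Nat.card d.im ≤ 16 := by
    rw [← Subgroup.index_bot, ← h1, index_stabilizer, ← d.card]
    exact Set.ncard_le_card _
  obtain ⟨n, hn⟩ := IsPGroup.iff_card.1 d.im_p
  have h3 : n ≤ 1 := by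
    by_contra hlt
    have := Nat.pow_le_pow_right (by norm_num : 0 < 5) (by omega : 2 ≤ n)
    omega
  have h4 : orderOf (MulDistribMulAction.toMulAut T L y) = 5 :=
    orderOf_eq_prime (by rw [← map_pow]; exact MulEquiv.ext hy.2) fun e => hx (DFunLike.congr_fun e x)
  have h5 : Subgroup.zpowers (MulDistribMulAction.toMulAut T L y) = d.im :=
    Subgroup.eq_of_le_of_card_ge ((Subgroup.zpowers_le).2 ⟨y, hy, rfl⟩) (by
      rw [Nat.card_zpowers, h4, hn]
      exact Nat.pow_le_pow_right (by norm_num : 0 < 5) h3)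
  have h6 : MulDistribMulAction.toMulAut T L u ∈ Subgroup.zpowers (MulDistribMulAction.toMulAut T L y) :=
    h5 ▸ ⟨u, hu, rfl⟩
  obtain ⟨i, hi⟩ := (mem_powers_iff_mem_zpowers).2 h6
  refine ⟨i, fun z => ?_⟩
  have := DFunLike.congr_fun hi z
  simp only [← map_pow] at this
  exact this.symm

theorem conj5 [Finite L] [Y.Normal] (d : D16 om Y 5) {y : T} (hy : y ∈ Jz L Y 5 d.ab)
    (h : ∃ x : L, y • x ≠ x) (t : T) : ∃ i : ℕ, (i = 1 ∨ i = 2 ∨ i = 3 ∨ i = 4) ∧
      ∀ x : L, (t * y * t⁻¹) • x = y ^ i • x := by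
  obtain ⟨i, hi⟩ := d.cyc5 hy h (Jz_conj hy t)
  refine ⟨i % 5, ?_, fun x => by rw [hi, pow_mod_smul hy.2]⟩
  have : i % 5 ≠ 0 := fun e => by
    obtain ⟨x, hx⟩ := h
    have := hi (t • x)
    rw [pow_mod_smul hy.2, e, pow_zero, one_smul, mul_smul, mul_smul, inv_smul_smul,
      smul_left_cancel_iff] at this
    exact hx this
  omega

theorem sq5 [Finite T] [Finite L] [Y.Normal] (d : D16 om Y 5) {y : T} (hy : y ∈ Jz L Y 5 d.ab)
    (h : ∃ x : L, y • x ≠ x) : ∃ t : T, ∀ x : L, t • y • x = y • y • t • x := by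
  classical
  have h4 := d.cz (cen L y) fun t ht u hu1 hu2 x => by
    obtain ⟨i, hi⟩ := d.cyc5 hy h ⟨hu1, hu2⟩
    rw [hi, hi]
    clear hi
    induction i with
    | zero => simp
    | succ n ih => rw [pow_succ', mul_smul, mul_smul, ht, ih]
  rw [cen_index] at h4
  set φ := MulDistribMulAction.toMulAut T L with hφ
  have h5 : (Set.range fun t : T => φ (t * y * t⁻¹)) ⊆ {φ (y ^ 1), φ (y ^ 2), φ (y ^ 3), φ (y ^ 4)} := by
    rintro _ ⟨t, rfl⟩
    obtain ⟨i, hi, e⟩ := d.conj5 hy h t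
    have e2 : φ (t * y * t⁻¹) = φ (y ^ i) := MulEquiv.ext e
    rcases hi with rfl | rfl | rfl | rfl <;> simp only [e2] <;> simp
  have h6 := Set.eq_of_subset_of_ncard_le h5 (le_trans (by
    rw [← Finset.coe_singleton, ← Finset.coe_insert, ← Finset.coe_insert, ← Finset.coe_insert,
      Set.ncard_coe_finset]
    exact Finset.card_le_four) h4)
  obtain ⟨t, ht⟩ : φ (y ^ 2) ∈ Set.range fun t : T => φ (t * y * t⁻¹) := by rw [h6]; simp
  refine ⟨t, fun x => ?_⟩
  have : (t * y * t⁻¹) • t • x = y ^ 2 • t • x := DFunLike.congr_fun ht (t • x)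
  rwa [mul_smul, mul_smul, inv_smul_smul, sq, mul_smul] at this

theorem orb5 [Finite T] [Finite L] [Y.Normal] (d : D16 om Y 5) :
    ∃ x x' : L, x ≠ 1 ∧ x' ≠ 1 ∧ o T x = 5 ∧ o T x' = 10 := by
  obtain ⟨y, hy0, hs, h⟩ := d.nt
  have hy : y ∈ Jz L Y 5 d.ab := ⟨hy0, hs⟩
  have hf := d.fpf5 hs h
  have y5 : ∀ z : L, y • y • y • y • y • z = z := fun z => by
    simpa [pow_succ, mul_smul] using hs z
  have sq : ∀ a b : L, a * b = 1 → a = b := fun a b e => by
    rw [eq_inv_of_mul_eq_one_left e, inv_eq_of_mul_eq_one_left (d.two b)]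
  have nm : ∀ z : L, z * y • z * y • y • z * y • y • y • z * y • y • y • y • z = 1 := fun z =>
    hf _ (by
      simp only [smul_mul', y5]
      simp only [mul_assoc, mul_comm])
  have s1 : ∀ a b : L, om b (y • a) = om a (y • y • y • y • b) := fun a b => by
    rw [d.sy.symm d.two, ← d.sy.inv y a, y5]
  have s2 : ∀ a b : L, om b (y • y • a) = om a (y • y • y • b) := fun a b => by
    rw [d.sy.symm d.two, ← d.sy.inv y a, ← d.sy.inv y (y • a), y5]
  let Q : L → ℂˣ := fun x => om x (y • x) * om x (y • y • x)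
  have hQ : ∀ (t : T) (x : L), Q (t • x) = Q x := fun t x => by
    obtain ⟨i, hi, e⟩ := d.conj5 hy h t⁻¹
    have e1 : ∀ z : L, t⁻¹ • y • t • z = y ^ i • z := fun z => by
      rw [← e, inv_inv, mul_smul, mul_smul]
    have e2 : t⁻¹ • y • y • t • x = y ^ i • y ^ i • x := by
      rw [← e1, ← e1, smul_inv_smul]
    simp only [Q, d.sy.adj, e1, e2]
    rcases hi with rfl | rfl | rfl | rfl <;> simp only [pow_succ, pow_zero, one_mul, mul_smul, y5]
    · rw [← s1, mul_comm]
    · rw [← s2, mul_comm]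
    · rw [← s1, ← s2]
  have hg := d.sy.gauss Q (fun a b => by
    have e2 : om a (b * y • b * y • y • b * y • y • y • b * y • y • y • y • b) = 1 := by
      rw [nm, map_one]
    have e4 : om a (y • b) * om a (y • y • b) * om a (y • y • y • b) * om a (y • y • y • y • b) =
        om a b := by
      simp only [map_mul, mul_assoc] at e2
      simp only [mul_assoc]
      rw [eq_inv_of_mul_eq_one_right e2, inv_eq_of_mul_eq_one_left (om_mul_self d.two a b)]
    simp only [Q, smul_mul', map_mul, MonoidHom.mul_apply, ← e4]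
    rw [s1 a b, s2 a b]
    simp only [mul_comm, mul_left_comm]) fun x => sq_cases (by
      simp only [Q]
      rw [mul_mul_mul_comm, om_mul_self d.two, om_mul_self d.two, one_mul])
  set N := {x : L | Q x = -1} with hN
  have hI : InvS T N := fun t x hx => by
    rw [hN, Set.mem_ofPred_eq, hQ]
    exact hx
  have hN1 : ∀ x ∈ N, x ≠ 1 := fun x hx e => by
    rw [e, hN, Set.mem_ofPred_eq] at hx
    simp only [Q, map_one, MonoidHom.one_apply, mul_one] at hx
    exact one_ne_neg hx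
  have hd := dvd_ncard Nat.prime_five y N (hI y) hs fun x hx e => hN1 x hx (hf x e)
  have hc : N.ncard = 10 := by
    rw [d.card] at hg
    have : ((16 : ℤ) - 2 * (N.ncard : ℤ)) ^ 2 = 4 ^ 2 := by simpa using hg
    rcases sq_eq_sq_iff_eq_or_eq_neg.1 this with e | e <;> omega
  have hS : InvS T ({x : L | x ≠ 1} \ N) := fun t x hx =>
    ⟨invS_ne t x hx.1, fun e => hx.2 (by simpa using hI t⁻¹ _ e)⟩
  have hSc : ({x : L | x ≠ 1} \ N).ncard = 5 := by
    have := Set.ncard_sdiff_add_ncard_of_subset (show N ⊆ {x : L | x ≠ 1} from hN1)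
    rw [ncard_ne, d.card, hc] at this
    omega
  have h5 : ∀ x ∈ {x : L | x ≠ 1} \ N, o T x = 5 := fun x hx => by
    have := hS.o_le hx
    have := d.five_le hx.1
    omega
  have ho : ∀ x : L, x ≠ 1 → o T x = 5 → ∀ t : T, ∃ i < 5, t • x = y ^ i • x := by
    intro x hx e t
    have e1 : (Set.range fun n : ℕ => y ^ n • x) ⊆ orbit T x := by
      rintro _ ⟨n, rfl⟩
      exact ⟨y ^ n, rfl⟩
    have e2 := dvd_ncard Nat.prime_five y (Set.range fun n : ℕ => y ^ n • x) (by
      rintro _ ⟨n, rfl⟩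
      exact ⟨n + 1, by simp only [pow_succ', mul_smul]⟩) hs (by
      rintro _ ⟨n, rfl⟩ e3
      exact invS_ne (y ^ n) x hx (hf _ e3))
    have e3 : (Set.range fun n : ℕ => y ^ n • x).ncard ≠ 0 :=
      Set.ncard_ne_zero_of_mem (a := x) ⟨0, by simp⟩
    have e4 := Set.eq_of_subset_of_ncard_le e1 (by rw [← o_eq]; omega)
    obtain ⟨n, hn⟩ : t • x ∈ Set.range fun n : ℕ => y ^ n • x := e4 ▸ ⟨t, rfl⟩
    exact ⟨n % 5, Nat.mod_lt _ (by norm_num), by rw [← pow_mod_smul hs]; exact hn.symm⟩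
  obtain ⟨x, hx⟩ : ({x : L | x ≠ 1} \ N).Nonempty := Set.nonempty_of_ncard_ne_zero (by omega)
  obtain ⟨t0, ht0⟩ := d.sq5 hy h
  obtain ⟨i, -, hi⟩ := ho x hx.1 (h5 x hx) t0
  have cy : ∀ z : L, (y ^ i)⁻¹ • y • z = y • (y ^ i)⁻¹ • z := fun z => by
    rw [← mul_smul, ← mul_smul, ((Commute.refl y).pow_left i).inv_left.eq]
  have hz1 : x * y • x ≠ 1 := fun e => hx.1 (hf x (sq _ _ e).symm)
  have hz : o T (x * y • x) ≠ 5 := fun e => by
    obtain ⟨j, hj, e1⟩ := ho _ hz1 e ((y ^ i)⁻¹ * t0)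
    have e2 : ((y ^ i)⁻¹ * t0) • (x * y • x) = x * y • x * y • (x * y • x) := by
      rw [mul_smul, smul_mul', ht0, hi, smul_mul', cy, cy, inv_smul_smul, smul_mul', mul_assoc,
        ← mul_assoc (y • x), d.two, one_mul]
    rw [e2] at e1
    generalize x * y • x = z at e1 hz1
    have n := nm z
    rw [e1] at n
    apply hz1
    interval_cases j <;> simp only [pow_succ, pow_zero, one_mul, mul_smul, one_smul] at e1 n
    · exact (smul_eq_iff_eq_inv_smul y).1 (mul_eq_left.1 e1) |>.trans (smul_one _)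
    · simpa using e1
    · rw [d.two, one_mul] at n
      exact hf z (by simpa using (sq _ _ n).symm)
    · rw [mul_comm (y • y • y • z), mul_assoc (y • y • z), d.two, mul_one] at n
      have e3 : y • y • z = z := by simpa using (sq _ _ n).symm
      have e4 := y5 z
      rw [e3, e3] at e4
      exact hf z e4
    · rw [mul_comm _ (y • y • y • y • z), ← mul_assoc, ← mul_assoc, d.two, one_mul] at n
      exact hf z (by simpa using (sq _ _ n).symm)
  have hzN : x * y • x ∈ N := by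
    by_contra e
    exact hz (h5 _ ⟨hz1, e⟩)
  have b1 := hI.ncard_diff hzN
  have b2 := d.five_le hz1
  have b3 := (hI.diff (x * y • x)).zero_or fun w hw => d.five_le (hN1 w hw.1)
  exact ⟨x, _, hx.1, hz1, h5 x hx, by omega⟩

/-- the case of order 16 -/
theorem main [Finite T] [Finite L] [Y.Normal] {s : ℕ} (d : D16 om Y s) (hs : s.Prime) :
    Kap T om 10 ∧ ∃ x x' : L, x ≠ 1 ∧ x' ≠ 1 ∧ ((o T x = 6 ∧ o T x' = 9) ∨
      (o T x = 5 ∧ o T x' = 10 ∧
        ∀ M : Subgroup L, (∀ u ∈ Y, ∀ x ∈ M, u • x ∈ M) → M = ⊥ ∨ M = ⊤)) := by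
  rcases d.s_cases hs with rfl | rfl
  · obtain ⟨x, x', h1, h2, h3⟩ := d.orb3
    exact ⟨d.kap3, x, x', h1, h2, Or.inl h3⟩
  · obtain ⟨x, x', h1, h2, h3, h4⟩ := d.orb5
    exact ⟨d.kap5, x, x', h1, h2, Or.inr ⟨h3, h4, d.irr5⟩⟩

end D16

end Pool.Agent.MP_f0649b_al.Sp

end
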