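import Pool.Agent.Mg.Ff0649b.Ge0f87c

section

open Module
open scoped commutatorElement

namespace Pool.Agent.MP_f0649b_al.F

namespace BurnAux

variable {k G V : Type} [Field k] [Group G] [AddCommGroup V] [Module k V]

/-- the span of the image as a subalgebra -/
def alg (ρ : Representation k G V) : Subalgebra k (Module.End k V) :=
  (Submodule.span k (Set.range fun g => (ρ g : Module.End k V))).toSubalgebra
    (Submodule.subset_span ⟨1, map_one ρ⟩) (by
      intro x y hx hy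
      induction hx using Submodule.span_induction with
      | mem x hx =>
        obtain ⟨a, rfl⟩ := hx
        induction hy using Submodule.span_induction with
        | mem y hy =>
          obtain ⟨b, rfl⟩ := hy
          exact Submodule.subset_span ⟨a * b, map_mul ρ a b⟩
        | zero => rw [mul_zero]; exact zero_mem _
        | add y z _ _ h1 h2 => rw [mul_add]; exact add_mem h1 h2
        | smul c y _ h => rw [mul_smul_comm]; exact Submodule.smul_mem _ c h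
      | zero => rw [zero_mul]; exact zero_mem _
      | add x z _ _ h1 h2 => rw [add_mul]; exact add_mem h1 h2
      | smul c x _ h => rw [smul_mul_assoc]; exact Submodule.smul_mem _ c h)

theorem simple {ρ : Representation k G V} (h : Irr ρ) : IsSimpleModule (alg ρ) V := by
  have := h.1
  refine { eq_bot_or_eq_top := fun U => ?_ }
  rcases h.2 (U.restrictScalars k) (fun g v hv =>
    U.smul_mem (⟨ρ g, Submodule.subset_span ⟨g, rfl⟩⟩ : alg ρ) hv) with e | e
  · exact Or.inl ((Submodule.restrictScalars_eq_bot_iff k _ _).1 e)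
  · exact Or.inr ((Submodule.restrictScalars_eq_top_iff k _ _).1 e)

end BurnAux

theorem burn_main : BURN_st := by
  intro k G V _ _ _ _ _ _ ρ h
  have := BurnAux.simple h
  rw [eq_top_iff]
  intro T _
  have hs := (IsSimpleModule.algebraMap_end_bijective_of_isAlgClosed (A := BurnAux.alg ρ)
    (V := V) k).2
  let f : Module.End (Module.End (BurnAux.alg ρ) V) V :=
    { toFun := T
      map_add' := T.map_add
      map_smul' := fun φ v => by
        obtain ⟨c, rfl⟩ := hs φ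
        simp }
  classical
  let b := Module.finBasis k V
  obtain ⟨r, hr⟩ := jacobson_density f (Finset.univ.image b)
  have h1 : T = r.1 := b.ext fun i => hr (b i) (Finset.mem_image_of_mem _ (Finset.mem_univ i))
  rw [h1]
  exact r.2

theorem sq_of (h1 : BURN_st) (h2 : LI_st) (h3 : SCH_st) : SQ_st := by
  intro k G V _ _ _ _ _ _ _ ρ B Z S hi hc hZ
  refine le_antisymm ?_ (h2 ρ B Z S hi.2.1 hi.1 hc fun a ha h => (hZ a ha).2 h)
  classical
  have hb := h1 (res ρ B S hi.2.1) ((irr_res hi.2.1).2 hi)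
  have := Fintype.ofFinite (B ⧸ Z.subgroupOf B)
  have h4 : Submodule.span k (Set.range fun q : B ⧸ Z.subgroupOf B =>
      (res ρ B S hi.2.1 q.out : Module.End k S)) = ⊤ := by
    rw [eq_top_iff, ← hb, Submodule.span_le]
    rintro _ ⟨b, rfl⟩
    have hz : (QuotientGroup.mk b : B ⧸ Z.subgroupOf B).out⁻¹ * b ∈ Z.subgroupOf B :=
      QuotientGroup.eq.1 (QuotientGroup.out_eq' _)
    have hq : res ρ B S hi.2.1 (QuotientGroup.mk b : B ⧸ Z.subgroupOf B).out ∈
        Submodule.span k (Set.range fun q : B ⧸ Z.subgroupOf B =>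
          (res ρ B S hi.2.1 q.out : Module.End k S)) := Submodule.subset_span ⟨_, rfl⟩
    generalize (QuotientGroup.mk b : B ⧸ Z.subgroupOf B).out = u at hz hq
    obtain ⟨z, rfl⟩ : ∃ z, b = u * z := ⟨u⁻¹ * b, by group⟩
    rw [inv_mul_cancel_left] at hz
    obtain ⟨c, hc'⟩ := h3 ρ B S hi (ρ z) (hi.2.1 z z.2) fun h hh v hv => by
      have h5 := (hZ z z.2).1 hz h hh _ (hi.2.1 h hh _ (hi.2.1 z z.2 v hv))
      rw [← h5, ← rho_mul, ← rho_mul, ← rho_mul, commutatorElement_def]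
      congr 2
      group
    have h6 : (res ρ B S hi.2.1 (u * z) : Module.End k S) = c • res ρ B S hi.2.1 u := by
      ext v
      rw [res_apply, Subgroup.coe_mul, rho_mul, hc' v v.2, map_smul]
      rfl
    change (res ρ B S hi.2.1 (u * z) : Module.End k S) ∈ Submodule.span k _
    rw [h6]
    exact Submodule.smul_mem _ c hq
  have h5 := finrank_range_le_card (R := k) fun q : B ⧸ Z.subgroupOf B =>
    (res ρ B S hi.2.1 q.out : Module.End k S)
  rw [Set.finrank, h4, finrank_top, Module.finrank_linearMap, ← sq] at h5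
  rwa [Subgroup.relIndex, Subgroup.index, Nat.card_eq_fintype_card]

end Pool.Agent.MP_f0649b_al.F

end

section

open Module
open scoped commutatorElement

namespace Pool.Agent.MP_f0649b_al.F

namespace AbsAux

variable {k G V : Type} [Field k] [Group G] [AddCommGroup V] [Module k V]
  {ρ : Representation k G V}

theorem le_stab {K : Subgroup G} {W : Submodule k V} (h : Inv ρ K W) : K ≤ stabS ρ W :=
  fun g hg v => ⟨h g hg v, fun e => by
    have := h g⁻¹ (K.inv_mem hg) _ e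
    rwa [rho_inv_apply] at this⟩

theorem inv_stab (W : Submodule k V) : Inv ρ (stabS ρ W) W := fun _ hg v hv => (hg v).1 hv

theorem inv_eig {A : Subgroup G} {l : G → kˣ} {W : Submodule k V} (h : W ≤ Eig ρ A l) :
    Inv ρ A W := fun a ha v hv => by
  rw [h hv a ha]
  exact W.smul_mem _ hv

theorem stab_eig {H A : Subgroup G} {l : G → kˣ} {S : Submodule k V} (hn : NormBy H A)
    (hS : Inv ρ H S) {h : G} (hh : h ∈ H) (e : ∀ a ∈ A, l (h⁻¹ * a * h) = l a) :
    h ∈ stabS ρ (Eig ρ A l ⊓ S) := by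
  have key : ∀ g ∈ H, (∀ a ∈ A, l (g⁻¹ * a * g) = l a) → ∀ v ∈ Eig ρ A l ⊓ S,
      ρ g v ∈ Eig ρ A l ⊓ S := by
    intro g hg eg v hv
    refine ⟨fun a ha => ?_, hS g hg v hv.2⟩
    rw [← eg a ha, ← map_smul, ← hv.1 _ (hn.inv hg ha), ← rho_mul, ← rho_mul]
    congr 2
    group
  intro v
  refine ⟨key h hh e v, fun hv => ?_⟩
  have := key h⁻¹ (H.inv_mem hh) (fun a ha => by
    rw [inv_inv, ← e _ (hn h hh a ha)]
    congr 1
    group) _ hv
  rwa [rho_inv_apply] at this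

/-- the product of a subgroup and a subgroup that normalises it -/
def prod (A U : Subgroup G) (hn : NormBy U A) : Subgroup G where
  carrier := {g | ∃ a ∈ A, ∃ u ∈ U, g = a * u}
  one_mem' := ⟨1, A.one_mem, 1, U.one_mem, by simp⟩
  mul_mem' := by
    rintro _ _ ⟨a, ha, u, hu, rfl⟩ ⟨b, hb, w, hw, rfl⟩
    exact ⟨a * (u * b * u⁻¹), A.mul_mem ha (hn u hu b hb), u * w, U.mul_mem hu hw, by group⟩
  inv_mem' := by
    rintro _ ⟨a, ha, u, hu, rfl⟩
    exact ⟨u⁻¹ * a⁻¹ * u, hn.inv hu (A.inv_mem ha), u⁻¹, U.inv_mem hu, by group⟩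

/-- the sum of the translates -/
def tr (ρ : Representation k G V) (H : Subgroup G) (S : Submodule k V) : Submodule k V :=
  ⨆ h : H, S.map (ρ h)

theorem mem_tr {H : Subgroup G} {S : Submodule k V} {h : G} (hh : h ∈ H) {v : V} (hv : v ∈ S) :
    ρ h v ∈ tr ρ H S :=
  Submodule.mem_iSup_of_mem (⟨h, hh⟩ : H) (Submodule.mem_map_of_mem hv)

theorem tr_le {H : Subgroup G} {S W : Submodule k V} (h : ∀ g ∈ H, ∀ v ∈ S, ρ g v ∈ W) :
    tr ρ H S ≤ W :=
  iSup_le fun g => by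
    rintro _ ⟨v, hv, rfl⟩
    exact h g g.2 v hv

theorem tr_inv (H : Subgroup G) (S : Submodule k V) : Inv ρ H (tr ρ H S) := fun g hg =>
  tr_le (W := (tr ρ H S).comap (ρ g)) fun h hh v hv => by
    rw [Submodule.mem_comap, ← rho_mul]
    exact mem_tr (H.mul_mem hg hh) hv

theorem tr_rank [Finite G] [FiniteDimensional k V] {H U : Subgroup G} {S : Submodule k V}
    (hS : Inv ρ U S) : finrank k (tr ρ H S) ≤ U.relIndex H * finrank k S := by
  classical
  haveI := Fintype.ofFinite (H ⧸ U.subgroupOf H)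
  let Φ : ((H ⧸ U.subgroupOf H) → S) →ₗ[k] V :=
    ∑ q : H ⧸ U.subgroupOf H, ρ (q.out : H) ∘ₗ S.subtype ∘ₗ LinearMap.proj q
  have h1 : tr ρ H S ≤ LinearMap.range Φ := tr_le fun g hg v hv => by
    obtain ⟨u, hu⟩ := QuotientGroup.mk_out_eq_mul (U.subgroupOf H) (⟨g, hg⟩ : H)
    have hu' : ((u : H) : G) ∈ U := u.2
    refine ⟨Pi.single (QuotientGroup.mk (⟨g, hg⟩ : H)) ⟨_, hS _ (U.inv_mem hu') v hv⟩, ?_⟩
    rw [LinearMap.sum_apply, Finset.sum_eq_single (QuotientGroup.mk (⟨g, hg⟩ : H))]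
    · simp only [LinearMap.comp_apply, LinearMap.proj_apply, Pi.single_eq_same,
        Submodule.subtype_apply, hu, Subgroup.coe_mul]
      rw [rho_mul, rho_apply_inv]
    · intro q _ hq
      simp [Pi.single_eq_of_ne hq]
    · intro h
      exact absurd (Finset.mem_univ _) h
  refine (Submodule.finrank_mono h1).trans ((LinearMap.finrank_range_le Φ).trans (le_of_eq ?_))
  rw [finrank_pi_fintype, Finset.sum_const, Finset.card_univ, smul_eq_mul,
    ← Nat.card_eq_fintype_card]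
  rfl

theorem eig_rank [Finite G] [CharZero k] [FiniteDimensional k V] {A U : Subgroup G}
    (hn : NormBy U A) {S : Submodule k V} (hS : Inv ρ U S) {l : G → kˣ} (hl : IsChar A l) :
    finrank k (Eig ρ A l ⊓ tr ρ (prod A U hn) S : Submodule k V) ≤ finrank k S := by
  haveI := Fintype.ofFinite A
  let e : V →ₗ[k] V := ∑ a : A, (((l a)⁻¹ : kˣ) : k) • ρ a
  have he : ∀ v, e v = ∑ a : A, (((l a)⁻¹ : kˣ) : k) • ρ a v := fun v => by
    simp only [e, LinearMap.sum_apply, LinearMap.smul_apply]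
  have h1 : ∀ b ∈ A, ∀ v, e (ρ b v) = (l b : k) • e v := by
    intro b hb v
    rw [he, he, Finset.smul_sum, ← Equiv.sum_comp (Equiv.mulRight (⟨b, hb⟩ : A))
      fun a : A => (l b : k) • (((l a)⁻¹ : kˣ) : k) • ρ a v]
    refine Finset.sum_congr rfl fun a _ => ?_
    simp only [Equiv.coe_mulRight, Subgroup.coe_mul]
    rw [hl a a.2 b hb, rho_mul, smul_smul]
    congr 1
    simp
  have h2 : tr ρ (prod A U hn) S ≤ (S.map e).comap e := tr_le fun g hg v hv => by
    obtain ⟨a, ha, u, hu, rfl⟩ := hg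
    rw [Submodule.mem_comap, rho_mul, h1 a ha]
    exact Submodule.smul_mem _ _ (Submodule.mem_map_of_mem (hS u hu v hv))
  refine (Submodule.finrank_mono fun v hv => ?_).trans (Submodule.finrank_map_le e S)
  have h3 : e v = (Fintype.card A : k) • v := by
    rw [he, Finset.sum_congr rfl fun (a : A) _ => show (((l a)⁻¹ : kˣ) : k) • ρ a v = v by
      rw [hv.1 a a.2, smul_smul, Units.inv_mul, one_smul]]
    rw [Finset.sum_const, Finset.card_univ, Nat.cast_smul_eq_nsmul]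
  have h4 := h2 hv.2
  rw [Submodule.mem_comap, h3] at h4
  exact (Submodule.smul_mem_iff _ (Nat.cast_ne_zero.2 Fintype.card_ne_zero)).1 h4

end AbsAux

open AbsAux

theorem abs_of (h0 : L0) : ABS_st := by
  intro G _ _ R T0 A U W0 S hW hA hn hc hU hS hS0 hUS
  have hn' : NormBy U A := fun u hu => hn u (hU hu)
  have hAH : A ≤ prod A U hn' := fun a ha => ⟨a, ha, 1, U.one_mem, (mul_one a).symm⟩
  have hUH : U ≤ prod A U hn' := fun u hu => ⟨1, A.one_mem, u, hu, (one_mul u).symm⟩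
  have hHT : prod A U hn' ≤ T0 := by
    rintro _ ⟨a, ha, u, hu, rfl⟩
    exact T0.mul_mem (hA ha) (hU hu)
  have r2 := fun l => eig_rank (ρ := R.ρ) (l := l) hn' hUS
  generalize prod A U hn' = H at hAH hUH hHT r2
  have hnH : NormBy H A := fun h hh => hn h (hHT hh)
  have t1 : tr R.ρ H S ≤ W0 := tr_le fun g hg v hv => hW g (hHT hg) v (hS hv)
  have t2 : S ≤ tr R.ρ H S := fun v hv => by simpa using mem_tr (ρ := R.ρ) H.one_mem hv
  obtain ⟨α, hα, hne⟩ := h0.eigv R.ρ A (tr R.ρ H S) (fun e => hS0 (le_bot_iff.1 (e ▸ t2)))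
    ((tr_inv H S).mono hAH) fun a ha b hb v hv => hc a ha b hb v (t1 hv)
  have hi : Inv R.ρ (H ⊓ stabS R.ρ (Eig R.ρ A α ⊓ tr R.ρ H S)) (Eig R.ρ A α ⊓ tr R.ρ H S) :=
    (inv_stab _).mono inf_le_right
  have r0 := h0.sum R.ρ H _ _ _ (tr_inv H S) inf_le_left inf_le_right hi
    (sep_eig hnH inf_le_left fun h hh e => ⟨hh, stab_eig hnH (tr_inv H S) hh e⟩)
  have r1 := tr_rank (H := H) hUS
  refine ⟨_, _, α, le_inf hAH (le_stab (inv_eig inf_le_left)), inf_le_left.trans hHT,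
    inf_le_right.trans t1, hne, hi, hα, inf_le_left, fun u hu a ha => ?_, ?_⟩
  · obtain ⟨v, hv, hv0⟩ := (Submodule.ne_bot_iff _).1 hne
    have e1 := (hi u hu v hv).1 _ (hnH u hu.1 a ha)
    rw [rho_mul, rho_inv_apply, rho_mul, hv.1 a ha, map_smul] at e1
    exact Units.ext (smul_left_injective ℂ (rho_ne_zero R.ρ u hv0) e1).symm
  · rw [← Subgroup.relIndex_mul_index (inf_le_left : H ⊓ _ ≤ H),
      ← Subgroup.relIndex_mul_index hUH]
    have e := Nat.mul_le_mul (Nat.mul_le_mul (r0.trans r1) (r2 α hα)) (le_refl H.index)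
    calc _ = _ := by ring
      _ ≤ _ := e
      _ = _ := by ring

theorem cl2_of (h0 : L0) : CL2_st := by
  intro G _ _ R Y _ hR hT
  haveI := hR.1
  have hn : NormBy ⊤ ⁅Y, Y⁆ := NormBy.of_normal _ _
  have hi : ∀ K : Subgroup G, Inv R.ρ K ⊤ := fun _ _ _ _ _ => trivial
  obtain ⟨l, hl, hne⟩ := h0.eigv R.ρ ⁅Y, Y⁆ ⊤ top_ne_bot (hi _) fun a ha b hb v _ => by
    have e : R.ρ ⁅a, b⁆ = 1 := hT _ (Subgroup.commutator_mem_commutator ha hb)
    rw [← rho_mul, ← rho_mul, show a * b = ⁅a, b⁆ * (b * a) by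
      rw [commutatorElement_def]; group, rho_mul, e, Module.End.one_apply]
  have r0 := h0.sum R.ρ ⊤ _ ⊤ _ (hi _) le_top le_top (inv_stab _)
    (sep_eig (l := l) hn inf_le_left fun h hh e => stab_eig hn (hi _) hh e)
  refine ⟨_, le_stab (inv_eig (inf_le_left : Eig R.ρ ⁅Y, Y⁆ l ⊓ ⊤ ≤ _)), ?_, fun hY => ?_⟩
  · rw [Subgroup.relIndex_top_right, finrank_top] at r0
    exact (Nat.le_mul_of_pos_right _ (Nat.pos_of_ne_zero fun e =>
      hne (Submodule.finrank_eq_zero.1 e))).trans r0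
  · obtain ⟨v, hv, hv0⟩ := (Submodule.ne_bot_iff _).1 hne
    have h1 : ⁅⁅Y, Y⁆, Y⁆ ≤ stab R.ρ v := by
      rw [Subgroup.commutator_le]
      intro z hz y hy
      have e1 := (inv_stab _ _ (hY (Y.inv_mem hy)) v hv).1 _ ((⁅Y, Y⁆ : Subgroup G).inv_mem hz)
      rw [mem_stab, commutatorElement_def, rho_mul, rho_mul, e1, map_smul, rho_mul, rho_apply_inv,
        hv.1 z hz, hl.inv hz, smul_smul, Units.inv_mul, one_smul]
    exact h0.nt R.ρ _ hR v hv0 fun g hg => h1 hg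

end Pool.Agent.MP_f0649b_al.F

end

section

open Module
open scoped commutatorElement

namespace Pool.Agent.MP_f0649b_al.F

namespace NuAux

variable {G : Type} [Group G] (F : Frame G)

theorem mem_Z (a : F.B) {g : G} (hg : g ∈ F.T ⊓ MulAction.stabilizer G (F.chi a)) :
    (a : G)⁻¹ * (g * a * g⁻¹) ∈ F.Z := by
  have h : g • F.chi a = F.chi a := hg.2
  rw [F.smul_chi hg.1] at h
  refine (F.chi_eq_one (a⁻¹ * ⟨g * a * g⁻¹, F.conj_mem a.2 g⟩)).1 ?_
  rw [map_mul, h, map_inv, inv_mul_cancel]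

/-- the common kernel of the conjugates of `x` -/
def ker (x : F.X) : Subgroup G where
  carrier := {c | ∃ hc : c ∈ F.B, ∀ g : G, F.ev (g • x) ⟨c, hc⟩ = 1}
  one_mem' := ⟨F.B.one_mem, fun g => map_one (F.ev (g • x))⟩
  mul_mem' := by
    rintro a b ⟨ha, h1⟩ ⟨hb, h2⟩
    refine ⟨F.B.mul_mem ha hb, fun g => ?_⟩
    have e : (⟨a * b, F.B.mul_mem ha hb⟩ : F.B) = ⟨a, ha⟩ * ⟨b, hb⟩ := rfl
    rw [e, map_mul, h1, h2, mul_one]
  inv_mem' := by
    rintro a ⟨ha, h1⟩
    refine ⟨F.B.inv_mem ha, fun g => ?_⟩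
    have e : (⟨a⁻¹, F.B.inv_mem ha⟩ : F.B) = (⟨a, ha⟩ : F.B)⁻¹ := rfl
    rw [e, map_inv, h1, inv_one]

instance ker_normal (x : F.X) : (ker F x).Normal where
  conj_mem := by
    rintro c ⟨hc, h1⟩ h
    refine ⟨F.conj_mem hc h, fun g => ?_⟩
    rw [← h1 (h⁻¹ * g), F.ev_smul, F.ev_smul]
    congr 2
    group

theorem comm_le_ker (x : F.X) : ⁅F.B, F.B⁆ ≤ ker F x := by
  rw [Subgroup.commutator_le]
  intro a ha b hb
  refine ⟨(⁅(⟨a, ha⟩ : F.B), (⟨b, hb⟩ : F.B)⁆ : F.B).2, fun g => ?_⟩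
  change F.ev (g • x) ⁅(⟨a, ha⟩ : F.B), (⟨b, hb⟩ : F.B)⁆ = 1
  rw [map_commutatorElement, commutatorElement_eq_one_iff_mul_comm, mul_comm]

theorem pow_mem_ker {x : F.X} {e : ℕ} (h : x ^ e = 1) {b : G} (hb : b ∈ F.B) :
    b ^ e ∈ ker F x := by
  refine ⟨F.B.pow_mem hb e, fun g => ?_⟩
  change F.ev (g • x) ((⟨b, hb⟩ : F.B) ^ e) = 1
  rw [map_pow, ← F.ev_pow, ← smul_pow', h, smul_one, F.ev_one]

end NuAux

theorem nu_main : NU_st := by
  rintro G _ _ F _ ⟨a, rfl⟩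
  refine ⟨fun g => F.ζ ((a : G)⁻¹ * (g * a * g⁻¹)), fun g hg h hh => ?_, fun b => ?_⟩
  · have h1 := NuAux.mem_Z F a hg
    have h2 := F.T_conj hg.1 (NuAux.mem_Z F a hh)
    have e : (a : G)⁻¹ * (g * h * a * (g * h)⁻¹) =
        (a : G)⁻¹ * (g * a * g⁻¹) * (g * ((a : G)⁻¹ * (h * a * h⁻¹)) * g⁻¹) := by group
    change F.ζ ((a : G)⁻¹ * (g * h * a * (g * h)⁻¹)) = _
    rw [e, F.chr _ h1 _ h2.1, h2.2]
  · rw [← F.ev_inv, ← map_inv, F.ev_chi]
    change F.ζ ((a : G)⁻¹ * (b * a * (b : G)⁻¹)) = F.ζ ⁅(a : G)⁻¹, (b : G)⁆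
    congr 1
    rw [commutatorElement_def]
    group

theorem ca_of (h1 : NU_st) : CA_st := by
  intro G _ _ F Y hY hB x hx hf
  obtain ⟨ν, c1, c2⟩ := h1 F x hx
  have hle : Y ≤ F.T ⊓ MulAction.stabilizer G x := fun y hy => ⟨hY hy, hf y hy⟩
  refine F.X_ext fun b => ?_
  have := c1.comm hle b (hB b.2)
  rw [c2, inv_eq_one] at this
  rw [this, F.ev_one]

theorem monx_of (h0 : L0) (h1 : MON_st) (h2 : NU_st) : MONX_st := by
  intro G _ _ F x hx hx1 p hp
  obtain ⟨ν, c1, c2⟩ := h2 F x hx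
  obtain ⟨R, r1, r2, r3, r4, r5⟩ := h1 _ ν c1 p hp
  rw [← orb_mul_index] at r3 r4 r5
  obtain ⟨v, hv, hv0⟩ := (Submodule.ne_bot_iff _).1 r2
  have hB : F.B ≤ F.T ⊓ MulAction.stabilizer G x := fun b hb =>
    ⟨F.B_le_T hb, F.smul_of_mem_B hb x⟩
  have hvB : v ∈ Eig R.ρ F.B ν := fun b hb => hv b (hB hb)
  have hK : Triv R.ρ (NuAux.ker F x) := h0.nt R.ρ _ r1 v hv0 (by
    rintro c ⟨hc, e⟩
    have e1 := e 1
    rw [one_smul] at e1
    rw [hvB c hc, c2 ⟨c, hc⟩, e1, inv_one, Units.val_one, one_smul])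
  have hν : ∀ (g : G) (b : F.B), ν (g⁻¹ * b * g) = (F.ev (g • x) b)⁻¹ := fun g b =>
    c2 ⟨g⁻¹ * b * g, F.conj_mem' b.2 g⟩
  refine ⟨R, r1, hK.mono (NuAux.comm_le_ker F x), fun hT => hx1 (F.X_ext fun b => ?_), r5, r3, r4,
    fun e he b hb => hK _ (NuAux.pow_mem_ker F he hb), finrank ℂ (Eig R.ρ F.B ν), ?_⟩
  · have e := hvB b b.2
    rw [hT b b.2, Module.End.one_apply, c2] at e
    have e1 : ((1 : ℂ) - ((F.ev x b)⁻¹ : ℂˣ)) • v = 0 := by rw [sub_smul, one_smul, ← e, sub_self]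
    have e2 := sub_eq_zero.1 ((smul_eq_zero.1 e1).resolve_right hv0)
    have e3 : (F.ev x b)⁻¹ = 1 := Units.ext e2.symm
    rw [inv_eq_one.1 e3, F.ev_one]
  · have h := (h0.clif R.ρ ⊤ (MulAction.stabilizer G x) ⊤ (Eig R.ρ F.B ν) ((irr_iff _).1 r1)
      le_top le_top ((Submodule.ne_bot_iff _).2 ⟨v, hvB, hv0⟩) (by
        intro g hg w hw b hb
        have e : b * g = g * (g⁻¹ * b * g) := by group
        have hg' : g • x = x := hg
        rw [← rho_mul, e, rho_mul, hw _ (F.conj_mem' hb g), map_smul, hν g ⟨b, hb⟩, hg',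
          c2 ⟨b, hb⟩])
      (sep_eig (NormBy.of_normal ⊤ F.B) le_rfl fun g _ e => F.X_ext fun b => by
        have := e b b.2
        rw [hν, c2] at this
        exact inv_injective this)).1
    rw [finrank_top, Subgroup.relIndex_top_right] at h
    rw [Rp.dim_def, h, mul_comm]

end Pool.Agent.MP_f0649b_al.F

end

section

open Module
open scoped commutatorElement

namespace Pool.Agent.MP_f0649b_al.F

namespace DescAux

section
variable {X : Type} [CommGroup X]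

/-- the elements of `p`-power order -/
def pp (X : Type) [CommGroup X] (p : ℕ) : Subgroup X where
  carrier := {x | ∃ e : ℕ, x ^ p ^ e = 1}
  one_mem' := ⟨0, one_pow _⟩
  mul_mem' := fun {a b} ⟨e, he⟩ ⟨f, hf⟩ => ⟨e + f, by
    rw [mul_pow, pow_add, pow_mul, he, one_pow, mul_comm (p ^ e), pow_mul, hf, one_pow, mul_one]⟩
  inv_mem' := fun {a} ⟨e, he⟩ => ⟨e, by rw [inv_pow, he, inv_one]⟩

theorem card_pp {p : ℕ} (hp : p.Prime) (Q : Subgroup X) [Finite Q] :
    ∃ k, Nat.card (pp X p ⊓ Q : Subgroup X) = p ^ k := by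
  have := Fact.mk hp
  have : Finite (pp X p ⊓ Q : Subgroup X) :=
    Finite.of_injective _ (Subgroup.inclusion_injective inf_le_right)
  exact IsPGroup.iff_card.1 fun ⟨x, ⟨e, he⟩, _⟩ => ⟨e, Subtype.ext he⟩

theorem card_mul (P Q : Subgroup X) :
    Nat.card (P ⊓ Q : Subgroup X) * P.relIndex Q = Nat.card Q := by
  rw [← Nat.card_congr (Subgroup.subgroupOfEquivOfLe (inf_le_right : P ⊓ Q ≤ Q)).toEquiv,
    Subgroup.inf_subgroupOf_right, Subgroup.relIndex, Subgroup.card_mul_index]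

theorem not_dvd {p : ℕ} (hp : p.Prime) (Q : Subgroup X) [Finite Q] :
    ¬ p ∣ (pp X p).relIndex Q := by
  intro h
  have := Fact.mk hp
  obtain ⟨y, hy⟩ := exists_prime_orderOf_dvd_card' (G := Q ⧸ (pp X p).subgroupOf Q) p h
  obtain ⟨x, rfl⟩ := QuotientGroup.mk_surjective y
  have h1 : ((x ^ p : Q) : Q ⧸ (pp X p).subgroupOf Q) = 1 := by
    have := pow_orderOf_eq_one (x : Q ⧸ (pp X p).subgroupOf Q)
    rwa [hy] at this
  obtain ⟨e, he⟩ := (QuotientGroup.eq_one_iff _).1 h1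
  have h2 : (x : Q ⧸ (pp X p).subgroupOf Q) = 1 :=
    (QuotientGroup.eq_one_iff _).2 ⟨e + 1, by
      rw [pow_succ', pow_mul]
      exact he⟩
  rw [h2, orderOf_one] at hy
  exact hp.one_lt.ne hy

end

variable {G X : Type} [Group G] [CommGroup X] [MulDistribMulAction G X]

theorem sInv_pp {H : Subgroup G} {Q : Subgroup X} (p : ℕ) (h : SInv H Q) :
    SInv H (pp X p ⊓ Q) := fun g hg x ⟨⟨e, he⟩, hx⟩ =>
  ⟨⟨e, by rw [← smul_pow', he, smul_one]⟩, h g hg x hx⟩

theorem orb_ex (h0 : L0) [Finite G] {H : Subgroup G} {Q : Subgroup X} {p k : ℕ} (hp : p.Prime)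
    (hk : 0 < k) (hQ : SInv H Q) (hc : Nat.card Q = p ^ k) :
    ∃ x ∈ Q, x ≠ 1 ∧ ¬ p ∣ orb H x ∧ orb H x + 1 ≤ p ^ k := by
  have : Finite Q := Nat.finite_of_card_ne_zero (by rw [hc]; exact pow_ne_zero _ hp.ne_zero)
  have hf : (Q : Set X).Finite := Set.toFinite _
  obtain ⟨h, h'⟩ := (h0.orb H).2.1 ((Q : Set X) \ {1}) hf.sdiff (fun h hh y hy =>
    ⟨hQ h hh y hy.1, fun e => hy.2 (by
      rw [Set.mem_singleton_iff] at e ⊢
      rw [← inv_smul_smul h y, e, smul_one])⟩)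
  have h2 := Set.ncard_sdiff_singleton_add_one (Q.one_mem : (1 : X) ∈ (Q : Set X)) hf
  have h3 : Nat.card Q = (Q : Set X).ncard := (Nat.card_coe_set_eq _)
  rw [← h3, hc] at h2
  by_contra hn
  have h4 := h' p fun x hx => by
    by_contra e
    exact hn ⟨x, hx.1, hx.2, e, by have := h x hx; rw [orb]; omega⟩
  have h5 : p ∣ p ^ k := dvd_pow_self p hk.ne'
  rw [← h2] at h5
  exact hp.one_lt.ne' (Nat.dvd_one.1 ((Nat.dvd_add_right h4).1 h5))

theorem orb_dvd {H T : Subgroup G} (h : H ≤ T) (x : X) :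
    orb T x * T.index ∣ orb H x * H.index := by
  rw [orb_mul_index, orb_mul_index]
  exact Subgroup.index_dvd_of_le (inf_le_inf_right _ h)

theorem orb_ne [Finite G] (H : Subgroup G) (x : X) : orb H x ≠ 0 :=
  Subgroup.index_ne_zero_of_finite

theorem val_lt {p i c : ℕ} (hp : p.Prime) (hi : i ≠ 0) (h : i < p ^ c) : padicValNat p i < c :=
  (Nat.pow_lt_pow_iff_right hp.one_lt).1
    (lt_of_le_of_lt (Nat.le_of_dvd (Nat.pos_of_ne_zero hi) pow_padicValNat_dvd) h)

end DescAux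

open DescAux in
theorem desc2_of (h0 : L0) (h1 : L1) (h2 : L2) : DESC2_st := by
  intro G _ _ F R p N hp hR hV ⟨H, Q, hH, hQ, hI, hn⟩ hpL
  have := Fact.mk hp
  have hfL : Finite F.L := F.sym.fin
  have hfL' : Finite F.sym.L := F.sym.fin
  have hfQ : Finite Q := Finite.of_injective _ (Subgroup.inclusion_injective hQ.1)
  obtain ⟨hdim, -, -⟩ := h2.comp F R hR hV
  have hE := (h2.eig F R (F.Vz R) le_rfl ((F.inv_Vz R).mono F.B_le_T)).1
  set d := finrank ℂ (F.Vz R) with hd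
  have hd0 : d ≠ 0 := fun e => hV (Submodule.finrank_eq_zero.1 e)
  have hm0 : F.T.index ≠ 0 := Subgroup.index_ne_zero_of_finite
  have hpd : p ∣ d := by
    obtain ⟨x, hx⟩ := exists_prime_orderOf_dvd_card' (G := F.L) p hpL
    have hx' : orderOf (x : F.X) = p := by rw [Subgroup.orderOf_coe, hx]
    have hfin : IsOfFinOrder (x : F.X) := orderOf_pos_iff.1 (hx' ▸ hp.pos)
    have := hE (Subgroup.zpowers (x : F.X)) ⟨(Subgroup.zpowers_le (H := F.L)).2 x.2, by
      intro y hy z hz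
      obtain ⟨i, rfl⟩ := (Submonoid.mem_powers_iff _ _).1 (hfin.mem_powers_iff_mem_zpowers.2 hy)
      obtain ⟨j, rfl⟩ := (Submonoid.mem_powers_iff _ _).1 (hfin.mem_powers_iff_mem_zpowers.2 hz)
      rw [F.sym.om_pow_left x.2 (F.L.pow_mem x.2 j), F.sym.om_pow_right x.2 x.2,
        F.sym.om_self _ x.2, one_pow, one_pow]⟩
    rwa [Nat.card_zpowers, hx'] at this
  refine ⟨by rw [hdim, mul_comm]; exact Nat.mul_le_mul_left _ (Nat.le_of_dvd (by omega) hpd), ?_⟩
  obtain ⟨a, ha⟩ := card_pp hp F.L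
  obtain ⟨c, hc⟩ := card_pp hp Q
  have eL := card_mul (pp F.X p) F.L
  have eQ := card_mul (pp F.X p) Q
  have nL := not_dvd hp F.L
  have iL0 : (pp F.X p).relIndex F.L ≠ 0 := fun e => nL (e ▸ dvd_zero p)
  have iQL : (pp F.X p).relIndex Q ≤ (pp F.X p).relIndex F.L :=
    Subgroup.relIndex_le_of_le_right hQ.1 iL0
  rw [ha] at eL
  rw [hc] at eQ
  have hQ' : F.sym.Iso (pp F.X p ⊓ Q) :=
    ⟨inf_le_right.trans hQ.1, fun x hx y hy => hQ.2 x hx.2 y hy.2⟩
  have hcd : p ^ c ∣ d := hc ▸ hE _ hQ'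
  have hcv : c ≤ padicValNat p d := (padicValNat_dvd_iff_le hd0).1 hcd
  have hv1 : 1 ≤ padicValNat p d := (padicValNat_dvd_iff_le hd0).1 (by rwa [pow_one])
  have ha0 : 0 < a := Nat.pos_of_ne_zero fun e => by
    rw [e, pow_zero, one_mul] at eL
    exact nL (eL ▸ hpL)
  have hca : p ^ c * p ^ c ≤ p ^ a := by
    have := (h1.sym F.sym).2.1 _ hQ'
    rw [hc, Frame.sym_L, ← eL, ← pow_mul] at this
    have h3 := ((Nat.Coprime.pow_left _ ((Nat.Prime.coprime_iff_not_dvd hp).2 nL))).dvd_of_dvd_mul_right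
      this
    rw [← pow_add, ← mul_two]
    exact Nat.le_of_dvd (pow_pos hp.pos _) h3
  have hN : H.index * p ^ a ≤ N * p ^ c := by
    apply Nat.le_of_mul_le_mul_right _ (Nat.pos_of_ne_zero iL0)
    rw [mul_assoc, eL, mul_assoc]
    refine hn.trans (Nat.mul_le_mul_left _ ?_)
    rw [← eQ]
    exact Nat.mul_le_mul_left _ iQL
  have hi := Subgroup.relIndex_mul_index hH
  set i := H.relIndex F.T
  have hi0 : i ≠ 0 := Subgroup.index_ne_zero_of_finite
  have hpc : 0 < p ^ c := pow_pos hp.pos _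
  have hvd : padicValNat p R.dim = padicValNat p F.T.index + padicValNat p d := by
    rw [hdim, padicValNat.mul hm0 hd0]
  by_cases hic : p ^ c ≤ i
  · obtain ⟨x, hx, hx1, hpx, hle⟩ := orb_ex h0 hp ha0 (sInv_pp p F.sym.inv) ha
    rw [Frame.sym_T] at hpx hle
    refine ⟨x, hx.2, hx1, hx.1, ?_, ?_⟩
    · have : F.T.index * p ^ a ≤ N := by
        apply Nat.le_of_mul_le_mul_right _ hpc
        calc F.T.index * p ^ a * p ^ c ≤ F.T.index * p ^ a * i := Nat.mul_le_mul_left _ hic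
          _ = H.index * p ^ a := by rw [← hi]; ring
          _ ≤ _ := hN
      nlinarith
    · rw [padicValNat.mul (orb_ne _ _) hm0, padicValNat.eq_zero_of_not_dvd hpx, hvd]
      omega
  · have hc0 : 0 < c := Nat.pos_of_ne_zero fun e => by
      rw [e, pow_zero] at hic
      omega
    obtain ⟨x, hx, hx1, hpx, hle⟩ := orb_ex h0 hp hc0 (sInv_pp p hI) hc
    have hH0 : H.index ≠ 0 := Subgroup.index_ne_zero_of_finite
    have hne : orb H x * H.index ≠ 0 := mul_ne_zero (orb_ne _ _) hH0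
    refine ⟨x, hQ.1 hx.2, hx1, hx.1, (Nat.le_of_dvd (Nat.pos_of_ne_zero hne) (orb_dvd hH x)).trans ?_,
      lt_of_le_of_lt (b := padicValNat p (orb H x * H.index)) ((padicValNat_dvd_iff_le hne).1
        (pow_padicValNat_dvd.trans (orb_dvd hH x))) ?_⟩
    · have : H.index * p ^ c ≤ N := by
        apply Nat.le_of_mul_le_mul_right _ hpc
        rw [mul_assoc]
        exact (Nat.mul_le_mul_left _ hca).trans hN
      nlinarith
    · have := val_lt hp hi0 (not_le.1 hic)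
      rw [padicValNat.mul (orb_ne _ _) hH0, padicValNat.eq_zero_of_not_dvd hpx, hvd, ← hi,
        padicValNat.mul hi0 hm0]
      omega

theorem step_of (h1 : L1) (h2 : L2) (h3 : GPL_st) (h4 : DESC2_st) : STEP_st := by
  intro G _ _ _ R Y _ p N μ hp hR hW hT hP hL hle
  obtain ⟨S, -, hi, hS'⟩ := h1.cl2 R Y hR hT
  obtain ⟨F, hB, hV, hrd⟩ := h2.lemr R Y N (hS' ((h3 Y μ hL).1 S (hi.trans hle))) hW
  have hpL := h2.pl F R p hp hR hV (hB ▸ hP)
  obtain ⟨a1, x, hx, hx1, ⟨e, he⟩, a2, a3⟩ := h4 F R p N hp hR hV hrd hpL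
  obtain ⟨R', b1, b2, b3, b4, -, b5, b6, f, b7⟩ := h2.monx F x hx hx1 p hp
  refine ⟨F, hB, hV, hrd, hpL, a1, x, hx, hx1, R', b1, b4.mono a2, hB ▸ b2, ?_, b5.trans_lt a3, ?_⟩
  · by_contra hc
    refine b3 fun b hb => ?_
    by_contra e'
    exact hc ⟨b, hB ▸ hb, e', e, b6 _ he b hb⟩
  · have := Rp.dim_pos b1
    rw [b7] at this ⊢
    exact Nat.le_mul_of_pos_left _ (Nat.pos_of_mul_pos_right this)

end Pool.Agent.MP_f0649b_al.F

end
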