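import Pool.Agent.Mg.Ff0649b.G495e50

section

/-! Lifting representations to characteristic zero: definitions. -/

open Module

namespace Pool.Agent.MP_f0649b_al.FS

variable {k G V W : Type} [Field k] [Group G] [AddCommGroup V] [Module k V] [AddCommGroup W]
  [Module k W]

/-- the elements that act as scalars -/
def scal (ρ : Representation k G V) : Subgroup G where
  carrier := {g | ∃ c : kˣ, ρ g = (c : k) • (1 : Module.End k V)}
  one_mem' := ⟨1, by simp⟩
  mul_mem' := by
    rintro a b ⟨c, hc⟩ ⟨d, hd⟩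
    exact ⟨c * d, by simp [hc, hd, smul_smul, mul_comm]⟩
  inv_mem' := by
    rintro a ⟨c, hc⟩
    refine ⟨c⁻¹, ?_⟩
    have h : ρ a⁻¹ * ρ a = 1 := by rw [← map_mul, inv_mul_cancel, map_one]
    rw [hc, mul_smul_comm, mul_one] at h
    rw [← h, smul_smul]
    simp

theorem mem_scal {ρ : Representation k G V} {g : G} :
    g ∈ scal ρ ↔ ∃ c : kˣ, ρ g = (c : k) • (1 : Module.End k V) := Iff.rfl

instance scal_normal (ρ : Representation k G V) : (scal ρ).Normal := ⟨by
  rintro a ⟨c, hc⟩ g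
  refine ⟨c, ?_⟩
  rw [map_mul, map_mul, hc, mul_smul_comm, mul_one, smul_mul_assoc, ← map_mul, mul_inv_cancel,
    map_one]⟩

/-- normal subgroups with commutative image act by scalars -/
def QP (ρ : Representation k G V) : Prop :=
  ∀ A : Subgroup G, A.Normal → (∀ x ∈ A, ∀ y ∈ A, Commute (ρ x) (ρ y)) → A ≤ scal ρ

/-- the transport of roots of unity -/
structure Th (s : ℕ) (θ : kˣ →* ℂˣ) : Prop where
  inj : ∀ (c : kˣ) (e : ℕ), c ^ s ^ e = 1 → θ c = 1 → c = 1
  triv : ∀ (c : kˣ) (n : ℕ), ¬ s ∣ n → c ^ n = 1 → θ c = 1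

/-- the conclusion of the lifting theorem -/
def Concl (s : ℕ) (θ : kˣ →* ℂˣ) (ρ : Representation k G V) : Prop :=
  ∃ (U : Subgroup G) (M : Type) (_ : AddCommGroup M) (_ : Module ℂ M) (_ : FiniteDimensional ℂ M)
    (σ : Representation ℂ U M) (e : ℕ), U.index * finrank ℂ M ≤ finrank k V ∧
    finrank ℂ M = s ^ e ∧ s ^ e ∣ finrank k V ∧
    ∀ (g : G) (c : kˣ), ρ g = (c : k) • (1 : Module.End k V) →
      ∃ h : g ∈ U, σ ⟨g, h⟩ = (θ c : ℂ) • (1 : Module.End ℂ M)

/-- a finite cover of `G` acting on an irreducible module of a normal subgroup -/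
structure Cov (E : Subgroup G) [hE : E.Normal] (τ : Representation k E W) {Γ : Type} [Group Γ]
    (π : Γ →* G) (α : Representation k Γ W) : Prop where
  surj : Function.Surjective π
  inj : ∀ γ γ', π γ = π γ' → α γ = α γ' → γ = γ'
  conj : ∀ γ (e : E), α γ * τ e = τ ⟨π γ * e * (π γ)⁻¹, hE.conj_mem _ e.2 _⟩ * α γ
  det : ∀ γ, LinearMap.det (α γ) = 1
  ker : ∀ γ, π γ = 1 → ∃ c : kˣ, c ^ finrank k W = 1 ∧ α γ = (c : k) • (1 : Module.End k W)
  one : ∀ g : G, (∀ e : E, τ ⟨g * e * g⁻¹, hE.conj_mem _ e.2 _⟩ = τ e) → ∃ γ, π γ = g ∧ α γ = 1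

end Pool.Agent.MP_f0649b_al.FS

end

section

/-! Reduction to a primitive representation over an algebraically closed field. -/

open Module

namespace Pool.Agent.MP_f0649b_al.FS

variable {k G V W : Type} [Field k] [Group G] [AddCommGroup V] [Module k V] [AddCommGroup W]
  [Module k W]

theorem schurK [IsAlgClosed k] [FiniteDimensional k V] {ρ : Representation k G V} (hρ : Irr ρ)
    (T : Module.End k V) (hT : ∀ g, T * ρ g = ρ g * T) :
    ∃ c : k, T = c • (1 : Module.End k V) := by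
  have := hρ.1
  obtain ⟨c, hc⟩ := Module.End.exists_eigenvalue T
  refine ⟨c, ?_⟩
  have hinv : ∀ g, ∀ v ∈ T.eigenspace c, ρ g v ∈ T.eigenspace c := by
    intro g v hv
    rw [Module.End.mem_eigenspace_iff] at hv ⊢
    rw [← Module.End.mul_apply, hT, Module.End.mul_apply, hv, map_smul]
  rcases hρ.2 _ hinv with h | h
  · exact absurd h hc
  · ext v
    have hv : v ∈ T.eigenspace c := h ▸ Submodule.mem_top
    rw [Module.End.mem_eigenspace_iff] at hv
    simpa using hv

theorem exists_irr_sub [FiniteDimensional k V] [Nontrivial V] (ρ : Representation k G V) :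
    ∃ (W : Type) (_ : AddCommGroup W) (_ : Module k W) (_ : FiniteDimensional k W)
      (τ : Representation k G W) (ι : W →ₗ[k] V), Irr τ ∧ Function.Injective ι ∧
      ∀ g w, ι (τ g w) = ρ g (ι w) := by
  obtain ⟨U, ⟨h0, hU⟩, hmin⟩ := exists_minimal_of_wellFoundedLT
    (fun U : Submodule k V => U ≠ ⊥ ∧ ∀ g, ∀ v ∈ U, ρ g v ∈ U)
    ⟨⊤, top_ne_bot, fun _ _ _ => trivial⟩
  let σ : Representation k G U := Representation.subrepresentation ρ U fun g v hv => hU g v hv
  have hb : ∀ U' : Submodule k U, U' ≠ ⊥ → U'.map U.subtype ≠ ⊥ := fun U' h e =>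
    h (Submodule.map_injective_of_injective U.injective_subtype (e.trans (Submodule.map_bot _).symm))
  refine ⟨U, inferInstance, inferInstance, inferInstance, σ, U.subtype,
    ⟨Submodule.nontrivial_iff_ne_bot.2 h0, fun U' hU' => or_iff_not_imp_left.2 fun h => ?_⟩,
    U.injective_subtype, fun _ _ => rfl⟩
  have h1 : U ≤ U'.map U.subtype := hmin (y := U'.map U.subtype) ⟨hb U' h, by
    rintro g _ ⟨v, hv, rfl⟩
    exact ⟨σ g v, hU' _ v hv, rfl⟩⟩ (Submodule.map_subtype_le U U')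
  rw [eq_top_iff]
  intro v _
  obtain ⟨w, hw, e⟩ := h1 v.2
  rwa [← show w = v from Subtype.ext e]

/-- the sum of the translates of a subspace by coset representatives -/
noncomputable def PrimK_sum (ρ : Representation k G V) (H : Subgroup G) [Fintype (G ⧸ H)]
    (U : Submodule k V) : (G ⧸ H → U) →ₗ[k] V :=
  ∑ c : G ⧸ H, (ρ c.out) ∘ₗ U.subtype ∘ₗ LinearMap.proj c

theorem PrimK_sum_apply (ρ : Representation k G V) (H : Subgroup G) [Fintype (G ⧸ H)]
    (U : Submodule k V) (f : G ⧸ H → U) : PrimK_sum ρ H U f = ∑ c : G ⧸ H, ρ c.out (f c) := by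
  simp [PrimK_sum]

theorem PrimK_dim [FiniteDimensional k V] (H : Subgroup G) [Fintype (G ⧸ H)] (U : Submodule k V) :
    finrank k (G ⧸ H → U) = H.index * finrank k U := by
  rw [Module.finrank_pi_fintype, Finset.sum_const, smul_eq_mul, Finset.card_univ,
    Subgroup.index_eq_card, Nat.card_eq_fintype_card]

theorem PrimK_lower [Finite G] [FiniteDimensional k V] {ρ : Representation k G V} (hρ : Irr ρ)
    (H : Subgroup G) (U : Submodule k V) (h0 : U ≠ ⊥) (hU : ∀ h ∈ H, ∀ v ∈ U, ρ h v ∈ U) :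
    finrank k V ≤ H.index * finrank k U := by
  classical
  have := Fintype.ofFinite (G ⧸ H)
  have h1 : ∀ x : G, ∀ w ∈ U, ρ x w ∈ LinearMap.range (PrimK_sum ρ H U) := by
    intro x w hw
    obtain ⟨h, hh⟩ := QuotientGroup.mk_out_eq_mul H x
    refine ⟨Pi.single (x : G ⧸ H) ⟨ρ (h⁻¹ : H) w, hU _ (h⁻¹ : H).2 w hw⟩, ?_⟩
    rw [PrimK_sum_apply, Finset.sum_eq_single (x : G ⧸ H) (fun b _ hb => by simp [hb]) (by simp),
      Pi.single_eq_same, hh, ← Module.End.mul_apply, ← map_mul]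
    simp
  have h2 : LinearMap.range (PrimK_sum ρ H U) = ⊤ := by
    refine (hρ.2 _ ?_).resolve_left fun h => h0 ?_
    · rintro g _ ⟨f, rfl⟩
      rw [PrimK_sum_apply, map_sum]
      refine Submodule.sum_mem _ fun c _ => ?_
      rw [← Module.End.mul_apply, ← map_mul]
      exact h1 _ _ (f c).2
    · rw [eq_bot_iff]
      intro w hw
      have := h1 1 w hw
      rwa [h, map_one] at this
  rw [← PrimK_dim, ← finrank_top k V, ← h2]
  exact LinearMap.finrank_range_le _

/-- the weight space -/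
def PrimK_wt (ρ : Representation k G V) (A : Subgroup G) (χ : A → k) : Submodule k V :=
  ⨅ a : A, Module.End.eigenspace (ρ a) (χ a)

theorem PrimK_mem {ρ : Representation k G V} {A : Subgroup G} {χ : A → k} {v : V} :
    v ∈ PrimK_wt ρ A χ ↔ ∀ a : A, ρ a v = χ a • v := by
  simp [PrimK_wt]

/-- the conjugate weight -/
def PrimK_cj (A : Subgroup G) [hA : A.Normal] (χ : A → k) (g : G) (a : A) : k :=
  χ ⟨g⁻¹ * a * g, hA.conj_mem' _ a.2 g⟩

theorem PrimK_cj_mul (A : Subgroup G) [A.Normal] (χ : A → k) (g h : G) :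
    PrimK_cj A χ (g * h) = PrimK_cj A (PrimK_cj A χ h) g := by
  funext a
  simp [PrimK_cj, mul_assoc]

theorem PrimK_cj_one (A : Subgroup G) [A.Normal] (χ : A → k) : PrimK_cj A χ 1 = χ := by
  funext a
  simp [PrimK_cj]

theorem PrimK_move {ρ : Representation k G V} {A : Subgroup G} [A.Normal] {χ : A → k} {v : V}
    (hv : v ∈ PrimK_wt ρ A χ) (g : G) : ρ g v ∈ PrimK_wt ρ A (PrimK_cj A χ g) := by
  rw [PrimK_mem] at hv ⊢
  intro a
  rw [← map_smul, PrimK_cj, ← hv, ← Module.End.mul_apply, ← Module.End.mul_apply, ← map_mul,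
    ← map_mul]
  simp [mul_assoc]

/-- the stabiliser of a weight -/
def PrimK_st (A : Subgroup G) [A.Normal] (χ : A → k) : Subgroup G where
  carrier := {g | PrimK_cj A χ g = χ}
  one_mem' := PrimK_cj_one A χ
  mul_mem' := by
    intro g h hg hh
    change PrimK_cj A χ _ = χ at hg hh ⊢
    rw [PrimK_cj_mul, hh, hg]
  inv_mem' := by
    intro g hg
    change PrimK_cj A χ _ = χ at hg ⊢
    conv_lhs => rw [← hg]
    rw [← PrimK_cj_mul, inv_mul_cancel, PrimK_cj_one]

theorem PrimK_upper [Finite G] [FiniteDimensional k V] (ρ : Representation k G V) (A : Subgroup G)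
    [A.Normal] (χ : A → k) :
    (PrimK_st A χ).index * finrank k (PrimK_wt ρ A χ) ≤ finrank k V := by
  classical
  have := Fintype.ofFinite (G ⧸ PrimK_st A χ)
  have h1 : Function.Injective fun c : G ⧸ PrimK_st A χ => PrimK_cj A χ c.out := by
    intro c d h
    rw [← c.out_eq', ← d.out_eq', QuotientGroup.eq]
    change PrimK_cj A χ _ = χ
    change PrimK_cj A χ _ = PrimK_cj A χ _ at h
    rw [PrimK_cj_mul, ← h, ← PrimK_cj_mul, inv_mul_cancel, PrimK_cj_one]
  have h2 := (iSupIndep_iff_finsetSum_eq_zero_imp_eq_zero _).1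
    ((eig_indep fun a : A => ρ a).comp h1)
  rw [← PrimK_dim]
  refine LinearMap.finrank_le_finrank_of_injective (f := PrimK_sum ρ _ _) ?_
  rw [injective_iff_map_eq_zero]
  intro f hf
  rw [PrimK_sum_apply] at hf
  funext c
  have h3 := h2 Finset.univ _ (fun c _ => PrimK_move (f c).2 c.out) hf c (Finset.mem_univ c)
  have h4 := congrArg (ρ c.out⁻¹) h3
  rw [← Module.End.mul_apply, ← map_mul, inv_mul_cancel, map_one, map_zero] at h4
  exact Subtype.ext h4

theorem PrimK_eig [IsAlgClosed k] [FiniteDimensional k V] [Nontrivial V]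
    (ρ : Representation k G V) (A : Subgroup G) (h : ∀ x ∈ A, ∀ y ∈ A, Commute (ρ x) (ρ y)) :
    ∃ χ : A → k, PrimK_wt ρ A χ ≠ ⊥ := by
  obtain ⟨V', _, _, _, ρ', ι, hi, hι, hc⟩ := exists_irr_sub (ρ.comp A.subtype)
  have h1 : ∀ a : A, ∃ c : k, ρ' a = c • (1 : Module.End k V') := fun x =>
    schurK hi _ fun y => LinearMap.ext fun v => hι (by
      rw [Module.End.mul_apply, Module.End.mul_apply, hc, hc, hc, hc]
      exact LinearMap.congr_fun (h x x.2 y y.2) (ι v))
  choose c hcv using h1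
  have := hi.1
  obtain ⟨v, hv⟩ := exists_ne (0 : V')
  refine ⟨c, (Submodule.ne_bot_iff _).2 ⟨ι v, PrimK_mem.2 fun a => ?_,
    fun h0 => hv (hι (by rw [h0, map_zero]))⟩⟩
  have h2 := hc a v
  rw [hcv, LinearMap.smul_apply, Module.End.one_apply, map_smul] at h2
  exact h2.symm

theorem PrimK_fix {ρ : Representation k G V} {A : Subgroup G} [A.Normal] {χ : A → k}
    (hχ : PrimK_wt ρ A χ ≠ ⊥) {g : G} {c : kˣ} (hg : ρ g = (c : k) • (1 : Module.End k V)) :
    g ∈ PrimK_st A χ := by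
  obtain ⟨v, hv, hv0⟩ := (Submodule.ne_bot_iff _).1 hχ
  have h1 := PrimK_move hv g
  rw [hg, LinearMap.smul_apply, Module.End.one_apply,
    Submodule.smul_mem_iff _ c.ne_zero] at h1
  change PrimK_cj A χ g = χ
  funext a
  exact smul_left_injective k hv0 ((PrimK_mem.1 h1 a).symm.trans (PrimK_mem.1 hv a))

theorem primk [IsAlgClosed k] [Finite G] [FiniteDimensional k V] {ρ : Representation k G V}
    (hρ : Irr ρ) :
    ∃ (H : Subgroup G) (W : Type) (_ : AddCommGroup W) (_ : Module k W)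
      (_ : FiniteDimensional k W) (σ : Representation k H W) (ι : W →ₗ[k] V), Irr σ ∧ QP σ ∧
      H.index * finrank k W = finrank k V ∧ scal ρ ≤ H ∧ Function.Injective ι ∧
      ∀ (h : H) w, ι (σ h w) = ρ h (ι w) := by
  have := hρ.1
  obtain ⟨⟨H, U⟩, ⟨h0, hU, hle, hs⟩, hmin⟩ := exists_minimalFor_of_wellFoundedLT
    (fun p : Subgroup G × Submodule k V => p.2 ≠ ⊥ ∧ (∀ h ∈ p.1, ∀ v ∈ p.2, ρ h v ∈ p.2) ∧
      p.1.index * finrank k p.2 ≤ finrank k V ∧ scal ρ ≤ p.1) Prod.fst
    ⟨(⊤, ⊤), top_ne_bot, fun _ _ _ _ => trivial, by simp, le_top⟩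
  dsimp only at h0 hU hle hs
  let σ : Representation k H U :=
    Representation.subrepresentation (ρ.comp H.subtype) U fun g v hv => hU g g.2 v hv
  have hσ : ∀ (g : H) (v : U), (σ g v : V) = ρ g v := fun _ _ => rfl
  have hb : ∀ U' : Submodule k U, U' ≠ ⊥ → U'.map U.subtype ≠ ⊥ := fun U' h e =>
    h (Submodule.map_injective_of_injective U.injective_subtype (e.trans (Submodule.map_bot _).symm))
  have hnt : Nontrivial U := Submodule.nontrivial_iff_ne_bot.2 h0
  have hirr : Irr σ := by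
    refine ⟨hnt, fun U' hU' => or_iff_not_imp_left.2 fun h => ?_⟩
    have h1 := PrimK_lower hρ H _ (hb U' h) (by
      rintro g hg _ ⟨v, hv, rfl⟩
      exact ⟨σ ⟨g, hg⟩ v, hU' _ v hv, rfl⟩)
    rw [Submodule.finrank_map_subtype_eq] at h1
    exact Submodule.eq_top_of_finrank_eq (le_antisymm U'.finrank_le
      (Nat.le_of_mul_le_mul_left (hle.trans h1) (Nat.pos_of_ne_zero H.index_ne_zero_of_finite)))
  refine ⟨H, U, inferInstance, inferInstance, inferInstance, σ, U.subtype, hirr,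
    fun A hA hc x hx => ?_, le_antisymm hle (PrimK_lower hρ H U h0 hU), hs, U.injective_subtype,
    fun _ _ => rfl⟩
  obtain ⟨χ, hχ⟩ := PrimK_eig σ A hc
  have h1 : ∀ g ∈ PrimK_st A χ, ∀ v ∈ PrimK_wt σ A χ, σ g v ∈ PrimK_wt σ A χ := fun g hg v hv => by
    have := PrimK_move hv g
    rwa [show PrimK_cj A χ g = χ from hg] at this
  have h2 : H ≤ (PrimK_st A χ).map H.subtype :=
    hmin (j := ((PrimK_st A χ).map H.subtype, (PrimK_wt σ A χ).map U.subtype))
      ⟨hb _ hχ, by
        rintro _ ⟨g, hg, rfl⟩ _ ⟨v, hv, rfl⟩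
        exact ⟨σ g v, h1 g hg v hv, rfl⟩, by
        rw [Subgroup.index_map_subtype, Submodule.finrank_map_subtype_eq, mul_right_comm,
          mul_comm]
        exact (Nat.mul_le_mul_left _ (PrimK_upper σ A χ)).trans hle, by
        rintro g ⟨c, hg⟩
        refine ⟨⟨g, hs ⟨c, hg⟩⟩, PrimK_fix hχ (c := c) (LinearMap.ext fun v => Subtype.ext ?_), rfl⟩
        rw [hσ, hg]
        rfl⟩ (Subgroup.map_subtype_le _)
  have h3 : PrimK_wt σ A χ = ⊤ := (hirr.2 _ fun g => h1 g (by
    obtain ⟨g', hg', e⟩ := h2 g.2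
    rwa [← show g' = g from Subtype.ext e])).resolve_left hχ
  have h4 : σ x = χ ⟨x, hx⟩ • (1 : Module.End k U) := LinearMap.ext fun v =>
    PrimK_mem.1 (h3 ▸ Submodule.mem_top : v ∈ PrimK_wt σ A χ) ⟨x, hx⟩
  have h5 : χ ⟨x, hx⟩ ≠ 0 := by
    intro e
    have h6 : σ x⁻¹ * σ x = 1 := by rw [← map_mul, inv_mul_cancel, map_one]
    rw [h4, e, zero_smul, mul_zero] at h6
    exact zero_ne_one h6
  exact ⟨Units.mk0 _ h5, h4⟩

end Pool.Agent.MP_f0649b_al.FS

end

section

/-! Linear independence, spanning, and uniqueness of modules. -/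

open Module

namespace Pool.Agent.MP_f0649b_al.FS

variable {k G V W : Type} [Field k] [Group G] [AddCommGroup V] [Module k V] [AddCommGroup W]
  [Module k W]

theorem SN_inv_mul (τ : Representation k G V) (x : G) : τ x⁻¹ * τ x = 1 := by
  rw [← map_mul, inv_mul_cancel, map_one]

theorem SN_ne_zero [Nontrivial V] (τ : Representation k G V) (x : G) : τ x ≠ 0 := fun h => by
  have := SN_inv_mul τ x
  rw [h, mul_zero] at this
  exact zero_ne_one this

/-- the span of the image as a subalgebra -/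
def SN_alg (ρ : Representation k G V) : Subalgebra k (Module.End k V) :=
  (Submodule.span k (Set.range ρ)).toSubalgebra
    (Submodule.subset_span ⟨1, map_one ρ⟩) (by
      intro x y hx hy
      induction hx using Submodule.span_induction with
      | mem x hx =>
        obtain ⟨a, rfl⟩ := hx
        induction hy using Submodule.span_induction with
        | mem y hy =>
          obtain ⟨b, rfl⟩ := hy
          exact Submodule.subset_span ⟨a * b, map_mul ρ a b⟩
        | zero => rw [mul_zero]; exact zero_mem _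
        | add y z _ _ h1 h2 => rw [mul_add]; exact add_mem h1 h2
        | smul c y _ h => rw [mul_smul_comm]; exact Submodule.smul_mem _ c h
      | zero => rw [zero_mul]; exact zero_mem _
      | add x z _ _ h1 h2 => rw [add_mul]; exact add_mem h1 h2
      | smul c x _ h => rw [smul_mul_assoc]; exact Submodule.smul_mem _ c h)

theorem SN_simple {ρ : Representation k G V} (h : Irr ρ) : IsSimpleModule (SN_alg ρ) V := by
  have := h.1
  refine { eq_bot_or_eq_top := fun U => ?_ }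
  rcases h.2 (U.restrictScalars k) (fun g v hv =>
    U.smul_mem (⟨ρ g, Submodule.subset_span ⟨g, rfl⟩⟩ : SN_alg ρ) hv) with e | e
  · exact Or.inl ((Submodule.restrictScalars_eq_bot_iff k _ _).1 e)
  · exact Or.inr ((Submodule.restrictScalars_eq_top_iff k _ _).1 e)

theorem li [Nontrivial V] (τ : Representation k G V) (Z : Subgroup G)
    (hc : commutator G ≤ scal τ) (hZ : ∀ x, (∀ y, Commute (τ x) (τ y)) → x ∈ Z) :
    LinearIndependent k (fun c : G ⧸ Z => τ c.out) := by
  have h1 : ∀ y x : G, ∃ c : k, τ (y * x * y⁻¹) = c • τ x := fun y x => by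
    obtain ⟨c, h⟩ := hc (Subgroup.commutator_mem_commutator (Subgroup.mem_top y)
      (Subgroup.mem_top x))
    refine ⟨c, ?_⟩
    rw [← one_mul (τ x), ← smul_mul_assoc, ← h, ← map_mul, commutatorElement_def,
      inv_mul_cancel_right]
  choose ω hω using h1
  refine eig_li (fun y => LinearMap.mulLeftRight k (τ y, τ y⁻¹)) (fun c y => ω y c.out)
    (fun c c' e => ?_) _ (fun c => SN_ne_zero τ _) fun c y => ?_
  · rw [← c.out_eq', ← c'.out_eq']
    refine QuotientGroup.eq.2 (hZ _ fun y => ?_)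
    have e1 : ω y c.out = ω y c'.out := congrFun e y
    generalize c.out = x at e1
    generalize c'.out = x' at e1
    have e2 : τ (y * (x⁻¹ * x') * y⁻¹) = τ (x⁻¹ * x') := by
      calc τ (y * (x⁻¹ * x') * y⁻¹) = τ (y * x * y⁻¹)⁻¹ * τ (y * x' * y⁻¹) := by
            rw [← map_mul]; congr 1; group
        _ = τ (y * x * y⁻¹)⁻¹ * (τ (y * x * y⁻¹) * τ (x⁻¹ * x')) := by
            rw [hω y x', hω y x, e1, smul_mul_assoc, ← map_mul, mul_inv_cancel_left]
        _ = τ (x⁻¹ * x') := by rw [← mul_assoc, SN_inv_mul, one_mul]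
    change τ (x⁻¹ * x') * τ y = τ y * τ (x⁻¹ * x')
    conv_lhs => rw [← e2]
    rw [← map_mul, ← map_mul, inv_mul_cancel_right]
  · rw [LinearMap.mulLeftRight_apply, ← hω, map_mul, map_mul]

theorem burn [IsAlgClosed k] [FiniteDimensional k V] {τ : Representation k G V} (hτ : Irr τ) :
    Submodule.span k (Set.range τ) = ⊤ := by
  have := SN_simple hτ
  rw [eq_top_iff]
  intro T _
  have hs := (IsSimpleModule.algebraMap_end_bijective_of_isAlgClosed (A := SN_alg τ)
    (V := V) k).2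
  let f : Module.End (Module.End (SN_alg τ) V) V :=
    { toFun := T
      map_add' := T.map_add
      map_smul' := fun φ v => by
        obtain ⟨c, rfl⟩ := hs φ
        simp }
  classical
  let b := Module.finBasis k V
  obtain ⟨r, hr⟩ := jacobson_density f (Finset.univ.image b)
  have h1 : T = r.1 := b.ext fun i => hr (b i) (Finset.mem_image_of_mem _ (Finset.mem_univ i))
  rw [h1]
  exact r.2

theorem sq [IsAlgClosed k] [Finite G] [FiniteDimensional k V] {τ : Representation k G V}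
    (hτ : Irr τ) (hc : commutator G ≤ scal τ) : (scal τ).index = finrank k V ^ 2 := by
  have := hτ.1
  have h1 := li τ (scal τ) hc fun x hx => by
    obtain ⟨c, h⟩ := schurK hτ (τ x) hx
    have h0 : c ≠ 0 := by
      rintro rfl
      exact SN_ne_zero τ x (by rw [h, zero_smul])
    exact ⟨Units.mk0 c h0, h⟩
  have h2 : ⊤ ≤ Submodule.span k (Set.range fun c : G ⧸ scal τ => τ c.out) := by
    rw [← burn hτ, Submodule.span_le]
    rintro _ ⟨g, rfl⟩
    obtain ⟨z, hz⟩ := QuotientGroup.mk_out_eq_mul (scal τ) g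
    obtain ⟨c, h⟩ := (scal τ).inv_mem z.2
    have e : τ g = (c : k) • τ (g : G ⧸ scal τ).out := by
      rw [hz, ← mul_one (τ (g * z)), ← mul_smul_comm, ← h, ← map_mul, mul_inv_cancel_right]
    rw [e]
    exact Submodule.smul_mem _ _ (Submodule.subset_span ⟨_, rfl⟩)
  rw [Subgroup.index, ← finrank_eq_nat_card_basis (Basis.mk h1 h2), Module.finrank_linearMap,
    pow_two]

theorem sn [Finite G] {τ τ' : Representation k G V} (h : Irr τ) (h' : Irr τ') (Z : Subgroup G)
    [Z.Normal] (hZ : ∀ z ∈ Z, ∃ c : k, τ z = c • (1 : Module.End k V) ∧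
      τ' z = c • (1 : Module.End k V))
    (hli : LinearIndependent k (fun c : G ⧸ Z => τ c.out)) :
    ∃ A : V ≃ₗ[k] V, ∀ g v, A (τ g v) = τ' g (A v) := by
  have := h.1
  have := Fintype.ofFinite (G ⧸ Z)
  obtain ⟨φ, hφ⟩ : ∃ φ : Module.End k V, ∑ c : G ⧸ Z, τ' c.out⁻¹ * φ * τ c.out ≠ 0 := by
    by_contra h0
    push Not at h0
    obtain ⟨w, hw⟩ := exists_ne (0 : V)
    have h1 : τ' (1 : G ⧸ Z).out⁻¹ w = 0 := by
      refine (forall_dual_apply_eq_zero_iff k _).1 fun g => ?_
      refine Fintype.linearIndependent_iff.1 hli (fun c => g (τ' c.out⁻¹ w))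
        (LinearMap.ext fun v => (forall_dual_apply_eq_zero_iff k _).1 fun f => ?_) 1
      have h2 := congrArg g (LinearMap.congr_fun (h0 (f.smulRight w)) v)
      simpa [mul_comm] using h2
    have h2 := LinearMap.congr_fun (SN_inv_mul τ' (1 : G ⧸ Z).out⁻¹) w
    rw [Module.End.mul_apply, h1, map_zero] at h2
    exact hw h2.symm
  have h1 : ∀ a b : G, (a : G ⧸ Z) = b → τ' b⁻¹ * φ * τ b = τ' a⁻¹ * φ * τ a := fun a b e => by
    obtain ⟨c, c1, c2⟩ := hZ _ (QuotientGroup.eq.1 e)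
    obtain ⟨z, rfl⟩ : ∃ z, b = a * z := ⟨a⁻¹ * b, by group⟩
    rw [inv_mul_cancel_left] at c1 c2
    have c3 := SN_inv_mul τ' z
    rw [c2, mul_smul_comm, mul_one] at c3
    rw [mul_inv_rev, map_mul, map_mul, c1, mul_smul_comm, mul_smul_comm, mul_one,
      ← smul_mul_assoc, ← smul_mul_assoc, ← smul_mul_assoc, c3, one_mul]
  set A := ∑ c : G ⧸ Z, τ' c.out⁻¹ * φ * τ c.out with hA
  have h2 : ∀ x, A * τ x = τ' x * A := fun x => by
    conv_rhs => rw [hA, ← Equiv.sum_comp (Equiv.mulRight (x : G ⧸ Z))]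
    rw [hA, Finset.sum_mul, Finset.mul_sum]
    refine Finset.sum_congr rfl fun c _ => ?_
    rw [h1 (c.out * x) (Equiv.mulRight (x : G ⧸ Z) c).out (by simp), mul_inv_rev, map_mul, map_mul]
    simp only [← mul_assoc]
    rw [← map_mul τ' x, mul_inv_cancel, map_one, one_mul]
  have h3 : ∀ x v, A (τ x v) = τ' x (A v) := fun x v => LinearMap.congr_fun (h2 x) v
  have h4 : LinearMap.ker A = ⊥ := (h.2 _ fun g v hv => by
    rw [LinearMap.mem_ker] at hv ⊢
    rw [h3, hv, map_zero]).resolve_right fun e => hφ (LinearMap.ker_eq_top.1 e)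
  have h5 : LinearMap.range A = ⊤ := (h'.2 _ (by
    rintro g _ ⟨v, rfl⟩
    exact ⟨_, h3 g v⟩)).resolve_left fun e => hφ (LinearMap.range_eq_bot.1 e)
  exact ⟨LinearEquiv.ofBijective A ⟨LinearMap.ker_eq_bot.1 h4, LinearMap.range_eq_top.1 h5⟩, h3⟩

end Pool.Agent.MP_f0649b_al.FS

end

section

/-! The finite cover that extends an invariant module. -/

open Module

namespace Pool.Agent.MP_f0649b_al.FS

variable {k G V W : Type} [Field k] [Group G] [AddCommGroup V] [Module k V] [AddCommGroup W]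
  [Module k W]

theorem Cover_cj (E : Subgroup G) [hE : E.Normal] (g : G) (e : E) :
    (⟨g * e * g⁻¹, hE.conj_mem _ e.2 _⟩ : E) = MulAut.conjNormal g e :=
  Subtype.ext (MulAut.conjNormal_apply g e).symm

/-- the pairs that intertwine the module with its conjugate -/
def Cover_grp (E : Subgroup G) [E.Normal] (τ : Representation k E W) :
    Subgroup (G × (Module.End k W)ˣ) where
  carrier := {x | (∀ e : E, (x.2 : Module.End k W) * τ e = τ (MulAut.conjNormal x.1 e) * x.2) ∧
    LinearMap.det (x.2 : Module.End k W) = 1}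
  one_mem' := ⟨fun e => by simp, by simp⟩
  mul_mem' := by
    rintro x y ⟨hx, hx'⟩ ⟨hy, hy'⟩
    refine ⟨fun e => ?_, ?_⟩
    · rw [Prod.snd_mul, Prod.fst_mul, Units.val_mul, mul_assoc, hy, ← mul_assoc, hx, map_mul,
        MulAut.mul_apply, mul_assoc]
    · rw [Prod.snd_mul, Units.val_mul, map_mul, hx', hy', mul_one]
  inv_mem' := by
    rintro x ⟨hx, hx'⟩
    refine ⟨fun e => ?_, ?_⟩
    · have h := hx (MulAut.conjNormal x.1⁻¹ e)
      rw [← MulAut.mul_apply, ← map_mul, mul_inv_cancel, map_one, MulAut.one_apply] at h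
      rw [Prod.snd_inv, Prod.fst_inv, Units.inv_mul_eq_iff_eq_mul, ← mul_assoc, h,
        Units.mul_inv_cancel_right]
    · have h := congrArg LinearMap.det (Units.mul_inv x.2)
      rw [map_one] at h
      rwa [map_mul, hx', one_mul] at h

theorem Cover_finite [Finite G] [FiniteDimensional k W] [Nontrivial W] {E : Subgroup G} [E.Normal]
    {τ : Representation k E W} {Γ : Type} [Group Γ] {π : Γ →* G} {α : Representation k Γ W}
    (h : Cov E τ π α) : Finite Γ := by
  have : NeZero (finrank k W) := ⟨Module.finrank_pos.ne'⟩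
  refine π.finite_iff_finite_ker_range.2 ⟨?_, inferInstance⟩
  choose c hc using fun γ : π.ker => h.ker γ γ.2
  refine Finite.of_injective (β := rootsOfUnity (finrank k W) k)
    (fun γ => ⟨c γ, (hc γ).1⟩) fun γ γ' e => Subtype.ext (h.inj _ _ (γ.2.trans γ'.2.symm) ?_)
  rw [(hc γ).2, (hc γ').2, show c γ = c γ' from congrArg Subtype.val e]

theorem cover [IsAlgClosed k] [Finite G] [FiniteDimensional k W] (E : Subgroup G) [hE : E.Normal]
    {τ : Representation k E W} (hτ : Irr τ)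
    (hA : ∀ g : G, ∃ A : W ≃ₗ[k] W, ∀ (e : E) w,
      A (τ e w) = τ ⟨g * e * g⁻¹, hE.conj_mem _ e.2 _⟩ (A w)) :
    ∃ (Γ : Type) (_ : Group Γ) (_ : Finite Γ) (π : Γ →* G) (α : Representation k Γ W),
      Cov E τ π α := by
  have := hτ.1
  have hn : 0 < finrank k W := Module.finrank_pos
  have key : Cov E τ ((MonoidHom.fst _ _).comp (Cover_grp E τ).subtype)
      ((Units.coeHom (Module.End k W)).comp ((MonoidHom.snd _ _).comp (Cover_grp E τ).subtype)) := by
    refine ⟨fun g => ?_, fun γ γ' h1 h2 => Subtype.ext (Prod.ext h1 (Units.ext h2)),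
      fun γ e => ?_, fun γ => γ.2.2, fun γ hγ => ?_, fun g hg => ?_⟩
    · obtain ⟨A, hA⟩ := hA g
      have hd : LinearMap.det (A : Module.End k W) ≠ 0 := (LinearEquiv.isUnit_det' A).ne_zero
      obtain ⟨c, hc⟩ := IsAlgClosed.exists_pow_nat_eq (LinearMap.det (A : Module.End k W))⁻¹ hn
      have h1 : LinearMap.det (c • (A : Module.End k W)) = 1 := by
        rw [LinearMap.det_smul, hc, inv_mul_cancel₀ hd]
      have h2 : IsUnit (c • (A : Module.End k W)) :=
        (LinearMap.isUnit_iff_isUnit_det _).2 (h1 ▸ isUnit_one)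
      refine ⟨⟨(g, h2.unit), fun e => ?_, h1⟩, rfl⟩
      change (c • (A : Module.End k W)) * τ e = τ (MulAut.conjNormal g e) * (c • (A : Module.End k W))
      rw [smul_mul_assoc, mul_smul_comm, ← Cover_cj]
      congr 1
      ext w
      exact hA e w
    · rw [Cover_cj]
      exact γ.2.1 e
    · have h1 : γ.1.1 = 1 := hγ
      obtain ⟨c, hc⟩ := schurK hτ (γ.1.2 : Module.End k W) fun e => by
        have h2 := γ.2.1 e
        rwa [h1, map_one, MulAut.one_apply] at h2
      have h2 : c ^ finrank k W = 1 := by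
        have h3 := γ.2.2
        rwa [hc, LinearMap.det_smul, map_one, mul_one] at h3
      have h3 : c ≠ 0 := by
        rintro rfl
        rw [zero_pow hn.ne'] at h2
        exact zero_ne_one h2
      exact ⟨Units.mk0 c h3, Units.ext (by simpa using h2), hc⟩
    · refine ⟨⟨(g, 1), fun e => ?_, by simp⟩, rfl, rfl⟩
      rw [← Cover_cj, hg e]
      simp
  exact ⟨Cover_grp E τ, inferInstance, Cover_finite key, _, _, key⟩

theorem Cov.central {E : Subgroup G} [E.Normal] {τ : Representation k E W} {Γ : Type} [Group Γ]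
    {π : Γ →* G} {α : Representation k Γ W} (h : Cov E τ π α) {γ : Γ}
    (h1 : π γ ∈ Subgroup.center G) (h2 : γ ∈ scal α) : γ ∈ Subgroup.center Γ := by
  obtain ⟨c, hc⟩ := h2
  rw [Subgroup.mem_center_iff] at h1 ⊢
  intro γ'
  refine h.inj _ _ ?_ ?_
  · rw [map_mul, map_mul, h1]
  · rw [map_mul, map_mul, hc, mul_smul_comm, smul_mul_assoc, mul_one, one_mul]

theorem Cov.solvable [Group.IsSolvable G] {E : Subgroup G} [E.Normal] {τ : Representation k E W}
    {Γ : Type} [Group Γ] {π : Γ →* G} {α : Representation k Γ W} (h : Cov E τ π α) :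
    Group.IsSolvable Γ := by
  have : Group.IsSolvable (Subgroup.center Γ) := Group.isSolvable_of_comm fun a b =>
    Subtype.ext (Subgroup.mem_center_iff.1 b.2 a)
  refine Group.isSolvable_of_ker_le_range (Subgroup.center Γ).subtype π fun γ hγ => ?_
  rw [Subgroup.range_subtype]
  obtain ⟨c, -, hc⟩ := h.ker γ hγ
  exact h.central (by rw [show π γ = 1 from hγ]; exact one_mem _) ⟨c, hc⟩

/-- elements over `E` act as multiples of the given operators -/
theorem Cov.over [IsAlgClosed k] [FiniteDimensional k W] {E : Subgroup G} [E.Normal]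
    {τ : Representation k E W} (hτ : Irr τ) {Γ : Type} [Group Γ] {π : Γ →* G}
    {α : Representation k Γ W} (h : Cov E τ π α) (γ : Γ) (hγ : π γ ∈ E) :
    ∃ c : kˣ, α γ = (c : k) • τ ⟨π γ, hγ⟩ := by
  have := hτ.1
  obtain ⟨c, hc⟩ := schurK hτ (τ (⟨π γ, hγ⟩ : E)⁻¹ * α γ) fun e => by
    rw [mul_assoc, h.conj, ← mul_assoc, ← mul_assoc, ← map_mul, ← map_mul]
    congr 2
    ext
    simp [mul_assoc]
  have h1 : α γ = c • τ ⟨π γ, hγ⟩ := by
    have h2 := congrArg (τ ⟨π γ, hγ⟩ * ·) hc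
    rwa [← mul_assoc, ← map_mul, mul_inv_cancel, map_one, one_mul, mul_smul_comm, mul_one] at h2
  have h2 : c ≠ 0 := by
    rintro rfl
    have h3 : α γ⁻¹ * α γ = 1 := by rw [← map_mul, inv_mul_cancel, map_one]
    rw [h1, zero_smul, mul_zero] at h3
    exact zero_ne_one h3
  exact ⟨Units.mk0 c h2, h1⟩

end Pool.Agent.MP_f0649b_al.FS

end

section

/-! Splitting the cover by transfer. -/

open Module

namespace Pool.Agent.MP_f0649b_al.FS

variable {k G V W : Type} [Field k] [Group G] [AddCommGroup V] [Module k V] [AddCommGroup W]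
  [Module k W]

theorem Split_uniq [Nontrivial V] {H : Type} [Group H] (σ : Representation k H V) (h : H)
    {c d : k} (e : c • σ h = d • σ h) : c = d := by
  have h1 : σ h * σ h⁻¹ = 1 := by rw [← map_mul, mul_inv_cancel, map_one]
  have h2 : c • (1 : Module.End k V) = d • (1 : Module.End k V) := by
    rw [← h1, ← smul_mul_assoc, ← smul_mul_assoc, e]
  obtain ⟨v, hv⟩ := exists_ne (0 : V)
  have h3 : c • v = d • v := by simpa using LinearMap.congr_fun h2 v
  exact smul_left_injective k hv h3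

theorem Split_desc {Γ M : Type} [Group Γ] [Monoid M] (π : Γ →* G) (hπ : Function.Surjective π)
    (β : Γ →* M) (hβ : ∀ γ, π γ = 1 → β γ = 1) : ∃ ξ : G →* M, ∀ γ, ξ (π γ) = β γ := by
  have key : ∀ γ δ, π γ = π δ → β γ = β δ := by
    intro γ δ h
    have h1 : β (δ⁻¹ * γ) = 1 := hβ _ (by rw [map_mul, map_inv, h, inv_mul_cancel])
    calc β γ = β (δ * (δ⁻¹ * γ)) := by rw [mul_inv_cancel_left]
      _ = β δ := by rw [map_mul, h1, mul_one]
  choose f hf using hπ
  refine ⟨{ toFun := fun g => β (f g), map_one' := hβ _ (hf 1), map_mul' := ?_ }, ?_⟩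
  · intro a b
    rw [← map_mul]
    exact key _ _ (by rw [map_mul, hf, hf, hf])
  · intro γ
    exact key _ _ (hf _)

theorem Split_psi {Γ A : Type} [Group Γ] [CommGroup A] (H : Subgroup Γ) [H.FiniteIndex]
    (φ : H →* A) {n : ℕ} (hn : n ≠ 0) (hc : Nat.Coprime H.index n) :
    ∃ ψ : Γ →* A, ∀ (γ : Γ) (hγ : γ ∈ H), γ ∈ Subgroup.center Γ → φ ⟨γ, hγ⟩ ^ n = 1 →
      ψ γ = φ ⟨γ, hγ⟩ := by
  obtain ⟨u, -, hu⟩ := Nat.exists_mul_mod_eq_of_coprime 1 hc hn
  refine ⟨(MonoidHom.transfer φ) ^ u, ?_⟩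
  intro γ hγ hz hp
  have key : ∀ (m : ℕ) (g₀ : Γ), g₀⁻¹ * γ ^ m * g₀ ∈ H → g₀⁻¹ * γ ^ m * g₀ = γ ^ m := by
    intro m g₀ _
    have h1 := Subgroup.mem_center_iff.1 (Subgroup.pow_mem _ hz m) g₀
    rw [mul_assoc, ← h1, inv_mul_cancel_left]
  have h2 : MonoidHom.transfer φ γ = φ ⟨γ, hγ⟩ ^ H.index := by
    rw [MonoidHom.transfer_eq_pow φ γ key, ← map_pow]
    rfl
  rw [MonoidHom.pow_apply, h2, ← pow_mul, pow_eq_pow_mod _ hp, hu, ← pow_eq_pow_mod _ hp, pow_one]

theorem Split_phi [IsAlgClosed k] [FiniteDimensional k W] (P E : Subgroup G) [hE : E.Normal]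
    (hEP : E ≤ P) (σ : Representation k P W) (hτ : Irr (σ.comp (Subgroup.inclusion hEP)))
    {Γ : Type} [Group Γ] {π : Γ →* G} {α : Representation k Γ W}
    (h : Cov E (σ.comp (Subgroup.inclusion hEP)) π α) :
    ∃ φ : P.comap π →* kˣ, ∀ γ : P.comap π, α γ = (φ γ : k) • σ ⟨π γ, γ.2⟩ := by
  have : Nontrivial W := hτ.1
  have ex : ∀ γ : P.comap π, ∃ c : kˣ, α γ = (c : k) • σ ⟨π γ, γ.2⟩ := by
    intro γ
    set p : P := ⟨π γ, γ.2⟩ with hp
    have hpp : σ p * σ p⁻¹ = 1 := by rw [← map_mul, mul_inv_cancel, map_one]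
    obtain ⟨c, hc⟩ := schurK hτ (σ p⁻¹ * α γ) (by
      intro e
      have h1 := h.conj γ e
      rw [mul_assoc, h1, ← mul_assoc, ← mul_assoc]
      congr 1
      change σ p⁻¹ * σ _ = σ _ * σ p⁻¹
      rw [← map_mul, ← map_mul]
      congr 1
      apply Subtype.ext
      simp [hp, mul_assoc])
    have h2 : α γ = c • σ p := by
      calc α γ = σ p * (σ p⁻¹ * α γ) := by rw [← mul_assoc, hpp, one_mul]
        _ = c • σ p := by rw [hc, mul_smul_comm, mul_one]
    have hc0 : c ≠ 0 := by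
      rintro rfl
      have h3 : α γ * α (γ : Γ)⁻¹ = 1 := by rw [← map_mul, mul_inv_cancel, map_one]
      rw [h2, zero_smul, zero_mul] at h3
      exact zero_ne_one h3
    exact ⟨Units.mk0 c hc0, h2⟩
  choose f hf using ex
  refine ⟨MonoidHom.mk' f ?_, hf⟩
  intro a b
  apply Units.ext
  apply Split_uniq σ ⟨π (a * b : P.comap π), (a * b).2⟩
  have h1 : α ((a * b : P.comap π) : Γ) = α a * α b := map_mul α (a : Γ) (b : Γ)
  rw [← hf, h1, hf, hf, smul_mul_assoc, mul_smul_comm, smul_smul, ← map_mul, Units.val_mul]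
  congr 2
  apply Subtype.ext
  simp

theorem split [Finite G] {s b : ℕ} [Fact s.Prime] (P : Sylow s G) (E : Subgroup G)
    [hE : E.Normal] (hEP : E ≤ P) {X : Type} [AddCommGroup X] [Module ℂ X]
    [FiniteDimensional ℂ X] (σ : Representation ℂ (P : Subgroup G) X) (hn : finrank ℂ X = s ^ b)
    (hτ : Irr (σ.comp (Subgroup.inclusion hEP)))
    (hA : ∀ g : G, ∃ A : X ≃ₗ[ℂ] X, ∀ (e : E) w,
      A (σ ⟨e, hEP e.2⟩ w) = σ ⟨g * e * g⁻¹, hEP (hE.conj_mem _ e.2 _)⟩ (A w)) :
    ∃ ξ : Representation ℂ G X, ∀ (g : (P : Subgroup G)) (c : ℂˣ),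
      (g : G) ∈ Subgroup.center G → c ^ s ^ b = 1 → σ g = (c : ℂ) • (1 : Module.End ℂ X) →
      ξ g = (c : ℂ) • (1 : Module.End ℂ X) := by
  have : Nontrivial X := hτ.1
  have hs : s.Prime := Fact.out
  obtain ⟨Γ, _, _, π, α, h⟩ := cover E hτ hA
  obtain ⟨φ, hφ⟩ := Split_phi (P : Subgroup G) E hEP σ hτ h
  have hidx : ((P : Subgroup G).comap π).index = (P : Subgroup G).index :=
    Subgroup.index_comap_of_surjective _ h.surj
  have hcop : Nat.Coprime ((P : Subgroup G).comap π).index (s ^ b) := by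
    rw [hidx]
    exact Nat.Coprime.pow_right _ ((Nat.Prime.coprime_iff_not_dvd hs).2 P.not_dvd_index).symm
  obtain ⟨ψ, hψ⟩ := Split_psi ((P : Subgroup G).comap π) φ (pow_ne_zero b hs.ne_zero) hcop
  let β : Γ →* Module.End ℂ X :=
    { toFun := fun γ => (((ψ γ)⁻¹ : ℂˣ) : ℂ) • α γ
      map_one' := by simp
      map_mul' := by
        intro a b
        rw [map_mul, map_mul, smul_mul_assoc, mul_smul_comm, smul_smul, mul_inv, Units.val_mul] }
  have hβ : ∀ γ, π γ = 1 → β γ = 1 := by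
    intro γ hγ
    obtain ⟨c, hc, hα⟩ := h.ker γ hγ
    have hm : γ ∈ (P : Subgroup G).comap π := by
      rw [Subgroup.mem_comap, hγ]
      exact Subgroup.one_mem _
    have hz : γ ∈ Subgroup.center Γ :=
      h.central (by rw [hγ]; exact Subgroup.one_mem _) ⟨c, hα⟩
    have h1 : (⟨π γ, hm⟩ : (P : Subgroup G)) = 1 := Subtype.ext hγ
    have h2 : φ ⟨γ, hm⟩ = c := by
      apply Units.ext
      apply Split_uniq σ 1
      have h3 := hφ ⟨γ, hm⟩
      change α γ = _ • σ ⟨π γ, hm⟩ at h3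
      rw [h1] at h3
      rw [← h3, hα, map_one]
    have h4 : ψ γ = c := by
      rw [hψ γ hm hz (by rw [h2, ← hn, hc]), h2]
    change (((ψ γ)⁻¹ : ℂˣ) : ℂ) • α γ = 1
    rw [h4, hα, smul_smul]
    simp
  obtain ⟨ξ, hξ⟩ := Split_desc π h.surj β hβ
  refine ⟨ξ, ?_⟩
  intro g c hg hc hσ
  obtain ⟨γ, hγ, hα⟩ := h.one (g : G) (by
    intro e
    congr 1
    apply Subtype.ext
    have h1 := Subgroup.mem_center_iff.1 hg e
    change (g : G) * e * (g : G)⁻¹ = e
    rw [← h1, mul_inv_cancel_right])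
  have hm : γ ∈ (P : Subgroup G).comap π := by
    rw [Subgroup.mem_comap, hγ]
    exact g.2
  have hz : γ ∈ Subgroup.center Γ :=
    h.central (by rw [hγ]; exact hg) ⟨1, by rw [hα]; simp⟩
  have h1 : (⟨π γ, hm⟩ : (P : Subgroup G)) = g := Subtype.ext hγ
  have h2 : φ ⟨γ, hm⟩ = c⁻¹ := by
    apply Units.ext
    apply Split_uniq σ g
    have h3 := hφ ⟨γ, hm⟩
    change α γ = _ • σ ⟨π γ, hm⟩ at h3
    rw [h1] at h3
    rw [← h3, hα, hσ, smul_smul]
    simp
  have h4 : ψ γ = c⁻¹ := by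
    rw [hψ γ hm hz (by rw [h2, inv_pow, hc, inv_one]), h2]
  rw [← hγ, hξ]
  change (((ψ γ)⁻¹ : ℂˣ) : ℂ) • α γ = _
  rw [h4, hα, inv_inv]

end Pool.Agent.MP_f0649b_al.FS

end

section

/-! The multiplicity space. -/

open Module

namespace Pool.Agent.MP_f0649b_al.FS

variable {k G V W : Type} [Field k] [Group G] [AddCommGroup V] [Module k V] [AddCommGroup W]
  [Module k W]

/-- the space of `E`-equivariant maps -/
def Tens_Y (ρ : Representation k G V) {E : Subgroup G} (τ : Representation k E W) :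
    Submodule k (W →ₗ[k] V) where
  carrier := {φ | ∀ (e : E) w, φ (τ e w) = ρ e (φ w)}
  add_mem' := fun {a b} ha hb e w => by
    rw [LinearMap.add_apply, LinearMap.add_apply, ha, hb, map_add]
  zero_mem' := fun e w => by simp
  smul_mem' := fun c a ha e w => by
    rw [LinearMap.smul_apply, LinearMap.smul_apply, ha, map_smul]

theorem Tens_stable (ρ : Representation k G V) {E : Subgroup G} [E.Normal]
    {τ : Representation k E W} {Γ : Type} [Group Γ] {π : Γ →* G} {α : Representation k Γ W}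
    (h : Cov E τ π α) (γ : Γ) :
    Tens_Y ρ τ ≤ (Tens_Y ρ τ).comap (Representation.linHom α (ρ.comp π) γ) := by
  intro φ hφ e w
  change ρ (π γ) (φ (α γ⁻¹ (τ e w))) = ρ e (ρ (π γ) (φ (α γ⁻¹ w)))
  have h1 : α γ⁻¹ (τ e w) = τ _ (α γ⁻¹ w) := DFunLike.congr_fun (h.conj γ⁻¹ e) w
  rw [h1, hφ, ← Module.End.mul_apply, ← Module.End.mul_apply, ← map_mul, ← map_mul]
  congr 2
  simp [mul_assoc]

/-- the evaluation map -/
def Tens_ev {n : ℕ} (Y : Submodule k (W →ₗ[k] V)) (b : Fin n → W) : (Fin n → Y) →ₗ[k] V where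
  toFun φ := ∑ j, (φ j : W →ₗ[k] V) (b j)
  map_add' φ ψ := by simp [Finset.sum_add_distrib]
  map_smul' c φ := by simp [Finset.smul_sum]

theorem Tens_inj [IsAlgClosed k] [FiniteDimensional k W] (ρ : Representation k G V)
    {E : Subgroup G} {τ : Representation k E W} (hτ : Irr τ) {n : ℕ} (b : Basis (Fin n) k W) :
    Function.Injective (Tens_ev (Tens_Y ρ τ) b) := by
  rw [injective_iff_map_eq_zero]
  intro φ hφ
  have h1 : ∀ T : Module.End k W, ∑ j, (φ j : W →ₗ[k] V) (T (b j)) = 0 := by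
    intro T
    have hT : T ∈ Submodule.span k (Set.range τ) := burn hτ ▸ Submodule.mem_top
    induction hT using Submodule.span_induction with
    | mem x hx =>
      obtain ⟨e, rfl⟩ := hx
      rw [Finset.sum_congr rfl fun j _ => (φ j).2 e (b j), ← map_sum]
      exact (congrArg (ρ e) hφ).trans (map_zero _)
    | zero => simp
    | add x y _ _ hx hy => simp [Finset.sum_add_distrib, hx, hy]
    | smul c x _ hx => simp [← Finset.smul_sum, hx]
  funext j
  ext w
  have h2 := h1 ((b.coord j).smulRight w)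
  rw [Finset.sum_eq_single j (fun i _ hi => by simp [hi]) (by simp)] at h2
  simpa using h2

theorem Tens_mem (Y : Submodule k (W →ₗ[k] V)) {n : ℕ} (b : Basis (Fin n) k W) (φ : Y) (w : W) :
    (φ : W →ₗ[k] V) w ∈ LinearMap.range (Tens_ev Y b) := by
  refine ⟨fun j => b.repr w j • φ, ?_⟩
  conv_rhs => rw [← b.sum_repr w, map_sum]
  change ∑ j, b.repr w j • (φ : W →ₗ[k] V) (b j) = _
  simp only [map_smul]

theorem tens [IsAlgClosed k] [FiniteDimensional k V] [FiniteDimensional k W]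
    {ρ : Representation k G V} (hρ : Irr ρ) {E : Subgroup G} [E.Normal]
    {τ : Representation k E W} (hτ : Irr τ) (ι : W →ₗ[k] V) (hι : Function.Injective ι)
    (hc : ∀ (e : E) w, ι (τ e w) = ρ e (ι w)) {Γ : Type} [Group Γ] {π : Γ →* G}
    {α : Representation k Γ W} (h : Cov E τ π α) :
    ∃ (Y : Type) (_ : AddCommGroup Y) (_ : Module k Y) (_ : FiniteDimensional k Y)
      (β : Representation k Γ Y), finrank k W * finrank k Y = finrank k V ∧
      ∀ (γ : Γ) (c d : kˣ), α γ = (c : k) • (1 : Module.End k W) →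
        ρ (π γ) = (d : k) • (1 : Module.End k V) →
        β γ = ((d * c⁻¹ : kˣ) : k) • (1 : Module.End k Y) := by
  let β := (Representation.linHom α (ρ.comp π)).subrepresentation (Tens_Y ρ τ) (Tens_stable ρ h)
  have hβ : ∀ γ (φ : Tens_Y ρ τ) w, (β γ φ : W →ₗ[k] V) w = ρ (π γ) (φ.1 (α γ⁻¹ w)) :=
    fun _ _ _ => rfl
  have hα : ∀ γ w, α γ⁻¹ (α γ w) = w := fun γ w => by
    rw [← Module.End.mul_apply, ← map_mul, inv_mul_cancel, map_one, Module.End.one_apply]
  let b := Module.finBasis k W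
  have hs : LinearMap.range (Tens_ev (Tens_Y ρ τ) b) = ⊤ := by
    refine (hρ.2 _ ?_).resolve_left fun e => ?_
    · rintro g _ ⟨φ, rfl⟩
      obtain ⟨γ, rfl⟩ := h.surj g
      change ρ (π γ) (∑ j, (φ j : W →ₗ[k] V) (b j)) ∈ _
      rw [map_sum]
      refine Submodule.sum_mem _ fun j _ => ?_
      have h1 := Tens_mem _ b (β γ (φ j)) (α γ (b j))
      rwa [hβ, hα] at h1
    · have := hτ.1
      obtain ⟨w, hw⟩ := exists_ne (0 : W)
      have h1 := Tens_mem (Tens_Y ρ τ) b ⟨ι, hc⟩ w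
      rw [e, Submodule.mem_bot] at h1
      exact hw (hι (h1.trans (map_zero ι).symm))
  refine ⟨Tens_Y ρ τ, inferInstance, inferInstance, inferInstance, β, ?_, fun γ c d h1 h2 => ?_⟩
  · rw [← (LinearEquiv.ofBijective _
      ⟨Tens_inj ρ hτ b, LinearMap.range_eq_top.1 hs⟩).finrank_eq, Module.finrank_pi_fintype]
    simp
  · ext φ w
    have h3 : α γ⁻¹ w = ((c⁻¹ : kˣ) : k) • w := by
      have h4 := hα γ (((c⁻¹ : kˣ) : k) • w)
      rw [h1] at h4
      rw [← h4]
      simp [smul_smul]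
    rw [hβ, h2, h3]
    simp [smul_smul, mul_comm]

end Pool.Agent.MP_f0649b_al.FS

end

section

/-! Reduction steps for the lifting theorem. -/

open Module

namespace Pool.Agent.MP_f0649b_al.FS

variable {k G V W : Type} [Field k] [Group G] [AddCommGroup V] [Module k V] [AddCommGroup W]
  [Module k W]

theorem red_piece [FiniteDimensional k V] [Nontrivial V] {s : ℕ} [Fact s.Prime]
    (ρ : Representation k G V) (h : ¬ Irr ρ) :
    ∃ (W : Type) (_ : AddCommGroup W) (_ : Module k W) (_ : FiniteDimensional k W)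
      (_ : Nontrivial W) (τ : Representation k G W), finrank k W < finrank k V ∧
      (∀ e, s ^ e ∣ finrank k W → s ^ e ∣ finrank k V) ∧
      ∀ (g : G) (c : k), ρ g = c • (1 : Module.End k V) → τ g = c • (1 : Module.End k W) := by
  obtain ⟨U, hU, h1, h2⟩ : ∃ U : Submodule k V, (∀ g, ∀ v ∈ U, ρ g v ∈ U) ∧ U ≠ ⊥ ∧ U ≠ ⊤ := by
    by_contra h'
    push Not at h'
    exact h ⟨inferInstance, fun U hU => or_iff_not_imp_left.2 (h' U hU)⟩
  have hU' : ∀ g, U ≤ U.comap (ρ g) := fun g v hv => hU g v hv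
  have hadd := U.finrank_quotient_add_finrank
  have a1 : Nontrivial U := Submodule.nontrivial_iff_ne_bot.2 h1
  have a2 : Nontrivial (V ⧸ U) := Submodule.Quotient.nontrivial_iff.2 h2
  have b1 : 0 < finrank k U := finrank_pos
  have b2 : 0 < finrank k (V ⧸ U) := finrank_pos
  by_cases hc : ∀ e, s ^ e ∣ finrank k U → s ^ e ∣ finrank k V
  · exact ⟨U, inferInstance, inferInstance, inferInstance, a1, ρ.subrepresentation U hU',
      by omega, hc, fun g c e => LinearMap.ext fun v => Subtype.ext (LinearMap.congr_fun e v)⟩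
  · push Not at hc
    obtain ⟨e1, c1, c2⟩ := hc
    refine ⟨V ⧸ U, inferInstance, inferInstance, inferInstance, a2, ρ.quotient U hU', by omega,
      fun e c3 => ?_, fun g c e => LinearMap.ext fun v => ?_⟩
    · rw [← hadd] at c2 ⊢
      rcases le_total e e1 with h3 | h3
      · exact dvd_add c3 ((pow_dvd_pow s h3).trans c1)
      · exact absurd (dvd_add ((pow_dvd_pow s h3).trans c3) c1) c2
    · obtain ⟨w, rfl⟩ := U.mkQ_surjective v
      change U.mkQ (ρ g w) = c • U.mkQ w
      rw [e, ← map_smul]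
      rfl

theorem red_ind {s : ℕ} {θ : kˣ →* ℂˣ} (ρ : Representation k G V) (H : Subgroup G)
    (σ : Representation k H W) (ι : W →ₗ[k] V) (hd : H.index * finrank k W = finrank k V)
    (hs : scal ρ ≤ H) (hι : Function.Injective ι) (hc : ∀ (h : H) w, ι (σ h w) = ρ h (ι w))
    (h : Concl s θ σ) : Concl s θ ρ := by
  obtain ⟨U, M, i1, i2, i3, τ, e, a1, a2, a3, a4⟩ := h
  let f := U.equivMapOfInjective H.subtype H.subtype_injective
  refine ⟨U.map H.subtype, M, i1, i2, i3, τ.comp f.symm.toMonoidHom, e, ?_, a2, ?_,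
    fun g c hg => ?_⟩
  · rw [Subgroup.index_map_subtype, ← hd, mul_comm U.index, mul_assoc]
    exact Nat.mul_le_mul_left _ a1
  · rw [← hd]
    exact a3.mul_left _
  · have hH : g ∈ H := hs ⟨c, hg⟩
    obtain ⟨hU, e'⟩ := a4 ⟨g, hH⟩ c (LinearMap.ext fun w => hι (by
      rw [hc, hg]
      simp))
    refine ⟨⟨_, hU, rfl⟩, ?_⟩
    rw [← e']
    exact congrArg τ (f.symm_apply_eq.2 (Subtype.ext rfl))

theorem red_one {s : ℕ} {θ : kˣ →* ℂˣ} (ρ : Representation k G V) (h : finrank k V = 1) :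
    Concl s θ ρ := by
  let ε : G →* ℂˣ := θ.comp ((LinearMap.det.comp ρ).toHomUnits)
  let σ : Representation ℂ G ℂ :=
    { toFun := fun x => (ε x : ℂ) • (1 : Module.End ℂ ℂ)
      map_one' := by simp
      map_mul' := fun x y => by simp [smul_smul, mul_comm] }
  refine ⟨⊤, ℂ, inferInstance, inferInstance, inferInstance, σ.comp (⊤ : Subgroup G).subtype, 0,
    by simp [h], by simp, one_dvd _, fun g c hg => ⟨trivial, ?_⟩⟩
  have : (LinearMap.det.comp ρ).toHomUnits g = c := Units.ext (by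
    have := Module.finite_of_finrank_eq_succ h
    change LinearMap.det (ρ g) = c
    rw [hg, LinearMap.det_smul, h, map_one, pow_one, mul_one])
  change (θ ((LinearMap.det.comp ρ).toHomUnits g) : ℂ) • (1 : Module.End ℂ ℂ) = _
  rw [this]

end Pool.Agent.MP_f0649b_al.FS

end

section

/-! Descent from the cover. -/

open Module

namespace Pool.Agent.MP_f0649b_al.FS

variable {k G V W : Type} [Field k] [Group G] [AddCommGroup V] [Module k V] [AddCommGroup W]
  [Module k W]

theorem Desc_lift {A B N : Type} [Group A] [Group B] [Monoid N] (φ : A →* B)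
    (hφ : Function.Surjective φ) (μ : A →* N) (h : ∀ a, φ a = 1 → μ a = 1) :
    ∃ ν : B →* N, ∀ a, ν (φ a) = μ a := by
  have key : ∀ a a', φ a = φ a' → μ a = μ a' := by
    intro a a' e
    have h1 : μ (a⁻¹ * a') = 1 := h _ (by rw [map_mul, map_inv, e, inv_mul_cancel])
    rw [← mul_inv_cancel_left a a', map_mul, h1, mul_one]
  choose r hr using hφ
  refine ⟨{ toFun := fun b => μ (r b)
            map_one' := h _ (hr 1)
            map_mul' := fun b b' => ?_ }, fun a => key _ _ (hr _)⟩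
  rw [← map_mul]
  exact key _ _ (by rw [map_mul, hr, hr, hr])

theorem Desc_map_smul {X M : Type} [AddCommGroup X] [Module ℂ X] [AddCommGroup M] [Module ℂ M]
    (a b : ℂ) : TensorProduct.map (a • (1 : Module.End ℂ X)) (b • (1 : Module.End ℂ M)) =
      (a * b) • (1 : Module.End ℂ (TensorProduct ℂ X M)) := by
  rw [TensorProduct.map_smul_left, TensorProduct.map_smul_right, smul_smul,
    TensorProduct.map_one]

theorem desc {s : ℕ} {θ : kˣ →* ℂˣ} (ρ : Representation k G V) {Γ : Type} [Group Γ]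
    (π : Γ →* G) (hπ : Function.Surjective π) (β : Representation k Γ W) (hβ : Concl s θ β)
    {X : Type} [AddCommGroup X] [Module ℂ X] [FiniteDimensional ℂ X] (ξ : Representation ℂ Γ X)
    {n f : ℕ} (hn : n * finrank k W = finrank k V) (hn0 : 0 < n) (hX : finrank ℂ X = s ^ f)
    (hf : s ^ f ∣ n)
    (hk : ∀ γ, π γ = 1 → ∃ c : kˣ, β γ = ((c⁻¹ : kˣ) : k) • (1 : Module.End k W) ∧
      ξ γ = (θ c : ℂ) • (1 : Module.End ℂ X))
    (hs : ∀ (g : G) (c : kˣ), ρ g = (c : k) • (1 : Module.End k V) →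
      ∃ γ, π γ = g ∧ β γ = (c : k) • (1 : Module.End k W) ∧ ξ γ = 1) : Concl s θ ρ := by
  obtain ⟨U', M', _, _, _, σ', e, h1, h2, h3, h4⟩ := hβ
  have hker : π.ker ≤ U' := fun γ hγ => by
    obtain ⟨c, hc, -⟩ := hk γ hγ
    exact (h4 γ _ hc).1
  let μ : Representation ℂ U' (TensorProduct ℂ X M') :=
    Representation.tprod (ξ.comp U'.subtype) σ'
  have hμ : ∀ γ : U', μ γ = TensorProduct.map (ξ γ) (σ' γ) := fun _ => rfl
  obtain ⟨ν, hν⟩ := Desc_lift (π.subgroupMap U') (π.subgroupMap_surjective U') μ (by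
    intro γ hγ
    obtain ⟨c, hc, hc'⟩ := hk γ (congrArg Subtype.val hγ)
    obtain ⟨_, h5⟩ := h4 γ _ hc
    have h6 : σ' γ = (θ c⁻¹ : ℂ) • (1 : Module.End ℂ M') := h5
    rw [hμ, hc', h6, Desc_map_smul, ← Units.val_mul, ← map_mul, mul_inv_cancel, map_one,
      Units.val_one, one_smul])
  have hd : finrank ℂ (TensorProduct ℂ X M') = s ^ (f + e) := by
    rw [finrank_tensorProduct, hX, h2, pow_add]
  refine ⟨U'.map π, TensorProduct ℂ X M', inferInstance, inferInstance, inferInstance, ν, f + e,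
    ?_, hd, ?_, fun g c hg => ?_⟩
  · rw [Subgroup.index_map_eq _ hπ hker, hd, pow_add, ← h2, ← hn, mul_left_comm]
    exact Nat.mul_le_mul (Nat.le_of_dvd hn0 hf) h1
  · rw [pow_add, ← hn]
    exact mul_dvd_mul hf h3
  · obtain ⟨γ, rfl, hc, hc'⟩ := hs g c hg
    obtain ⟨h5, h6⟩ := h4 γ c hc
    refine ⟨⟨γ, h5, rfl⟩, ?_⟩
    have h7 := hν ⟨γ, h5⟩
    rw [hμ, h6] at h7
    have h8 : ξ γ = (1 : ℂ) • (1 : Module.End ℂ X) := by rw [hc', one_smul]
    rw [h8, Desc_map_smul, one_mul] at h7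
    exact h7

end Pool.Agent.MP_f0649b_al.FS

end

section

/-! Existence of the transport of roots of unity. -/

namespace Pool.Agent.MP_f0649b_al.FS

/-- the exponential on the rational numbers -/
noncomputable def Theta_exp : ℚ →+ Additive ℂˣ where
  toFun r := Additive.ofMul
    (Units.mk0 (Complex.exp (r * (2 * Real.pi * Complex.I))) (Complex.exp_ne_zero _))
  map_zero' := by simp
  map_add' a b := by
    rw [← ofMul_mul]
    congr 1
    ext
    simp [add_mul, Complex.exp_add]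

theorem Theta_exp_eq (r : ℚ) : Theta_exp r = 0 ↔ r ∈ AddSubgroup.zmultiples (1 : ℚ) := by
  have h : Theta_exp r = 0 ↔ Complex.exp (r * (2 * Real.pi * Complex.I)) = 1 := by
    simp [Theta_exp, Units.ext_iff]
  rw [h, Complex.exp_eq_one_iff, AddSubgroup.mem_zmultiples_iff]
  refine exists_congr fun n => ?_
  rw [mul_left_inj' Complex.two_pi_I_ne_zero, zsmul_one, eq_comm]
  norm_cast

theorem Theta_char {A : Type} [CommGroup A] {a : A} (ha : a ≠ 1) : ∃ χ : A →* ℂˣ, χ a ≠ 1 := by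
  obtain ⟨c, hc⟩ := CharacterModule.exists_character_apply_ne_zero_of_ne_zero
    (a := Additive.ofMul a) ha
  let E : AddCircle (1 : ℚ) →+ Additive ℂˣ :=
    QuotientAddGroup.lift _ Theta_exp fun r hr => (Theta_exp_eq r).2 hr
  refine ⟨⟨⟨fun x => Additive.toMul (E (c (Additive.ofMul x))), by simp⟩, fun x y => by simp⟩,
    fun h => hc ?_⟩
  have h' : E (c (Additive.ofMul a)) = 0 := h
  generalize c (Additive.ofMul a) = z at h'
  induction z using QuotientAddGroup.induction_on with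
  | H r => exact (QuotientAddGroup.eq_zero_iff r).2 ((Theta_exp_eq r).1 h')

theorem Theta_inj {k : Type} [Field k] {s : ℕ} {θ : kˣ →* ℂˣ}
    (h : ∀ c : kˣ, c ^ s = 1 → θ c = 1 → c = 1) (c : kˣ) (e : ℕ) (h1 : c ^ s ^ e = 1)
    (h2 : θ c = 1) : c = 1 := by
  induction e generalizing c with
  | zero => simpa using h1
  | succ e ih =>
    rw [pow_succ', pow_mul] at h1
    exact h c (ih _ h1 (by rw [map_pow, h2, one_pow])) h2

theorem exists_theta (k : Type) [Field k] (s : ℕ) [Fact s.Prime] : ∃ θ : kˣ →* ℂˣ, Th s θ := by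
  have hs : s.Prime := Fact.out
  by_cases h : ∃ w : kˣ, orderOf w = s
  · obtain ⟨w, hw⟩ := h
    let T : Subgroup kˣ :=
      { carrier := {c | ∃ n, ¬ s ∣ n ∧ c ^ n = 1}
        one_mem' := ⟨1, hs.not_dvd_one, one_pow _⟩
        mul_mem' := by
          rintro a b ⟨m, h1, h2⟩ ⟨n, h3, h4⟩
          refine ⟨m * n, hs.not_dvd_mul h1 h3, ?_⟩
          rw [mul_pow, pow_mul, h2, one_pow, one_mul, mul_comm, pow_mul, h4, one_pow]
        inv_mem' := by
          rintro a ⟨m, h1, h2⟩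
          exact ⟨m, h1, by rw [inv_pow, h2, inv_one]⟩ }
    obtain ⟨χ, hχ⟩ := Theta_char (a := QuotientGroup.mk' T w) fun e => by
      obtain ⟨n, h1, h2⟩ := (QuotientGroup.eq_one_iff w).1 e
      exact h1 (hw ▸ orderOf_dvd_of_pow_eq_one h2)
    refine ⟨χ.comp (QuotientGroup.mk' T), Theta_inj fun c h1 h2 => ?_, fun c n h1 h2 => ?_⟩
    · have : NeZero s := ⟨hs.ne_zero⟩
      have hp : IsPrimitiveRoot (w : k) s :=
        IsPrimitiveRoot.coe_units_iff.2 (hw ▸ IsPrimitiveRoot.orderOf w)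
      obtain ⟨i, -, hi⟩ := hp.eq_pow_of_pow_eq_one (ξ := (c : k))
        (by rw [← Units.val_pow_eq_pow_val, h1, Units.val_one])
      have hi' : w ^ i = c := Units.ext (by rw [Units.val_pow_eq_pow_val, hi])
      have ho : orderOf (χ.comp (QuotientGroup.mk' T) w) = s :=
        orderOf_eq_prime (by rw [← map_pow, ← hw, pow_orderOf_eq_one, map_one]) hχ
      rw [← hi', map_pow, ← orderOf_dvd_iff_pow_eq_one, ho] at h2
      rw [← hi', ← orderOf_dvd_iff_pow_eq_one, hw]
      exact h2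
    · have e : QuotientGroup.mk' T c = 1 := (QuotientGroup.eq_one_iff c).2 ⟨n, h1, h2⟩
      rw [MonoidHom.comp_apply, e, map_one]
  · refine ⟨1, Theta_inj fun c h1 _ => ?_, fun _ _ _ _ => rfl⟩
    by_contra hc
    exact h ⟨c, orderOf_eq_prime h1 hc⟩

end Pool.Agent.MP_f0649b_al.FS

end
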