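import Pool.Agent.Mg.Ff0649b.G495e50

section

/-! Symplectic data and frames. -/

open Module
open scoped commutatorElement

namespace Pool.Agent.MP_f0649b_al.F

section Act
variable {G X : Type} [Group G] [CommGroup X] [MulDistribMulAction G X]

/-- `R` is `H`-invariant -/
def SInv (H : Subgroup G) (R : Subgroup X) : Prop := ∀ h ∈ H, ∀ x ∈ R, h • x ∈ R

/-- `T` acts irreducibly on `L` -/
def IrrL (T : Subgroup G) (L : Subgroup X) : Prop :=
  ∀ R : Subgroup X, R ≤ L → SInv T R → R = ⊥ ∨ R = L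

/-- `Y` has no nontrivial fixed point on `L` -/
def Fpf (Y : Subgroup G) (L : Subgroup X) : Prop := ∀ x ∈ L, (∀ y ∈ Y, y • x = x) → x = 1

/-- `g` and `h` act on `L` in the same way -/
def Same (L : Subgroup X) (g h : G) : Prop := ∀ x ∈ L, g • x = h • x

/-- the size of the `H`-orbit of `x` -/
noncomputable def orb (H : Subgroup G) (x : X) : ℕ := (MulAction.stabilizer G x).relIndex H

theorem orb_mul_index (H : Subgroup G) (x : X) :
    orb H x * H.index = (H ⊓ MulAction.stabilizer G x).index := by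
  rw [orb, ← Subgroup.inf_relIndex_left, Subgroup.relIndex_mul_index inf_le_left]

/-- the setwise stabiliser of a subgroup of `X` -/
def stabR (G : Type) [Group G] [MulDistribMulAction G X] (R : Subgroup X) : Subgroup G where
  carrier := {g | ∀ x, x ∈ R ↔ g • x ∈ R}
  one_mem' := by simp
  mul_mem' := fun {a b} ha hb x => by rw [mul_smul, ← ha, ← hb]
  inv_mem' := fun {a} ha x => by rw [ha (a⁻¹ • x), smul_inv_smul]

theorem mem_stabR {R : Subgroup X} {g : G} : g ∈ stabR G R ↔ ∀ x, x ∈ R ↔ g • x ∈ R := Iff.rfl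

theorem SInv.le_stabR {H : Subgroup G} {R : Subgroup X} (h : SInv H R) : H ≤ stabR G R :=
  fun g hg x => ⟨h g hg x, fun e => by simpa using h g⁻¹ (H.inv_mem hg) _ e⟩

theorem sInv_stabR (R : Subgroup X) : SInv (stabR G R) R := fun _ hg x hx => (hg x).1 hx

/-- subgroups of `T` of index at most `c` contain `Y` -/
def GP (T Y : Subgroup G) (c : ℕ) : Prop := ∀ S : Subgroup G, S ≤ T → S.relIndex T ≤ c → Y ≤ S

/-- linear characters of subgroups of `T` of index at most `c` are trivial on `Y` -/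
def LC (T Y : Subgroup G) (c : ℕ) : Prop := ∀ S : Subgroup G, S ≤ T → S.relIndex T ≤ c →
  ∀ ε : G → ℂˣ, IsChar S ε → ∀ y ∈ Y, ε y = 1

end Act

/-- a finite abelian group `L` with a nondegenerate alternating form preserved by `T` -/
structure Sym (G X : Type) [Group G] [CommGroup X] [MulDistribMulAction G X] where
  /-- the symplectic group -/
  L : Subgroup X
  /-- the acting group -/
  T : Subgroup G
  /-- the form -/
  om : X → X → ℂˣ
  fin : Finite L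
  om_left : ∀ x ∈ L, ∀ x' ∈ L, ∀ y ∈ L, om (x * x') y = om x y * om x' y
  om_right : ∀ x ∈ L, ∀ y ∈ L, ∀ y' ∈ L, om x (y * y') = om x y * om x y'
  om_self : ∀ x ∈ L, om x x = 1
  nondeg : ∀ x ∈ L, (∀ y ∈ L, om x y = 1) → x = 1
  inv : SInv T L
  om_smul : ∀ t ∈ T, ∀ x ∈ L, ∀ y ∈ L, om (t • x) (t • y) = om x y

namespace Sym
variable {G X : Type} [Group G] [CommGroup X] [MulDistribMulAction G X] (s : Sym G X)

theorem om_one_right {x : X} (hx : x ∈ s.L) : s.om x 1 = 1 := by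
  have := s.om_right x hx 1 s.L.one_mem 1 s.L.one_mem
  rw [mul_one] at this
  exact left_eq_mul.1 this

theorem om_one_left {x : X} (hx : x ∈ s.L) : s.om 1 x = 1 := by
  have := s.om_left 1 s.L.one_mem 1 s.L.one_mem x hx
  rw [mul_one] at this
  exact left_eq_mul.1 this

theorem om_inv_right {x y : X} (hx : x ∈ s.L) (hy : y ∈ s.L) : s.om x y⁻¹ = (s.om x y)⁻¹ := by
  have := s.om_right x hx y⁻¹ (s.L.inv_mem hy) y hy
  rw [inv_mul_cancel, s.om_one_right hx] at this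
  exact eq_inv_of_mul_eq_one_left this.symm

theorem om_inv_left {x y : X} (hx : x ∈ s.L) (hy : y ∈ s.L) : s.om x⁻¹ y = (s.om x y)⁻¹ := by
  have := s.om_left x⁻¹ (s.L.inv_mem hx) x hx y hy
  rw [inv_mul_cancel, s.om_one_left hy] at this
  exact eq_inv_of_mul_eq_one_left this.symm

theorem om_swap {x y : X} (hx : x ∈ s.L) (hy : y ∈ s.L) : s.om y x = (s.om x y)⁻¹ := by
  have := s.om_self (x * y) (s.L.mul_mem hx hy)
  rw [s.om_left x hx y hy _ (s.L.mul_mem hx hy), s.om_right x hx x hx y hy,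
    s.om_right y hy x hx y hy, s.om_self x hx, s.om_self y hy, one_mul, mul_one] at this
  exact eq_inv_of_mul_eq_one_right this

theorem om_pow_right {x y : X} (hx : x ∈ s.L) (hy : y ∈ s.L) (n : ℕ) :
    s.om x (y ^ n) = s.om x y ^ n := by
  induction n with
  | zero => rw [pow_zero, pow_zero, s.om_one_right hx]
  | succ n ih => rw [pow_succ, s.om_right x hx _ (s.L.pow_mem hy n) y hy, ih, pow_succ]

theorem om_pow_left {x y : X} (hx : x ∈ s.L) (hy : y ∈ s.L) (n : ℕ) :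
    s.om (x ^ n) y = s.om x y ^ n := by
  induction n with
  | zero => rw [pow_zero, pow_zero, s.om_one_left hy]
  | succ n ih => rw [pow_succ, s.om_left _ (s.L.pow_mem hx n) x hx y hy, ih, pow_succ]

/-- isotropic subgroup of `L` -/
def Iso (R : Subgroup X) : Prop := R ≤ s.L ∧ ∀ x ∈ R, ∀ y ∈ R, s.om x y = 1

/-- the orthogonal of `R` in `L` -/
def perp (R : Subgroup X) : Subgroup X where
  carrier := {y | y ∈ s.L ∧ ∀ x ∈ R, x ∈ s.L → s.om x y = 1}
  one_mem' := ⟨s.L.one_mem, fun _ _ hx => s.om_one_right hx⟩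
  mul_mem' := fun {a b} ha hb => ⟨s.L.mul_mem ha.1 hb.1, fun x h hx => by
    rw [s.om_right x hx a ha.1 b hb.1, ha.2 x h hx, hb.2 x h hx, mul_one]⟩
  inv_mem' := fun {a} ha => ⟨s.L.inv_mem ha.1, fun x h hx => by
    rw [s.om_inv_right hx ha.1, ha.2 x h hx, inv_one]⟩

theorem mem_perp {R : Subgroup X} {y : X} :
    y ∈ s.perp R ↔ y ∈ s.L ∧ ∀ x ∈ R, x ∈ s.L → s.om x y = 1 := Iff.rfl

/-- no nontrivial `T`-invariant isotropic subgroup -/
def NoIso : Prop := ∀ R : Subgroup X, s.Iso R → SInv s.T R → R = ⊥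

/-- the property that converts Lemma R into a lower bound for the weight -/
def Kap (κ : ℕ) : Prop := ∀ (H : Subgroup G) (R : Subgroup X), H ≤ s.T → s.Iso R → SInv H R →
  κ * Nat.card R ≤ H.relIndex s.T * Nat.card s.L

end Sym

/-- a normal subgroup `B` with a central character `ζ` on the radical `Z` -/
structure Frame (G : Type) [Group G] where
  /-- the normal subgroup -/
  B : Subgroup G
  /-- the radical -/
  Z : Subgroup G
  /-- the character of the radical -/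
  ζ : G → ℂˣ
  nB : B.Normal
  le : Z ≤ B
  comm : ∀ a ∈ B, ∀ b ∈ B, ⁅a, b⁆ ∈ Z
  chr : IsChar Z ζ
  rad : ∀ a ∈ B, a ∈ Z ↔ ∀ b ∈ B, ζ ⁅a, b⁆ = 1

namespace Frame
variable {G : Type} [Group G] (F : Frame G)

instance : F.B.Normal := F.nB

theorem conj_mem {b : G} (hb : b ∈ F.B) (g : G) : g * b * g⁻¹ ∈ F.B := F.nB.conj_mem b hb g

theorem conj_mem' {b : G} (hb : b ∈ F.B) (g : G) : g⁻¹ * b * g ∈ F.B := F.nB.conj_mem' b hb g

/-- the linear characters of `B` -/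
def X : Type := F.B →* ℂˣ

noncomputable instance : CommGroup F.X := inferInstanceAs (CommGroup (F.B →* ℂˣ))

/-- evaluation of a character -/
def ev (x : F.X) : F.B →* ℂˣ := x

theorem X_ext {x y : F.X} (h : ∀ b, F.ev x b = F.ev y b) : x = y := MonoidHom.ext h

@[simp] theorem ev_mul (x y : F.X) (b : F.B) : F.ev (x * y) b = F.ev x b * F.ev y b := rfl

@[simp] theorem ev_one (b : F.B) : F.ev 1 b = 1 := rfl

@[simp] theorem ev_inv (x : F.X) (b : F.B) : F.ev x⁻¹ b = (F.ev x b)⁻¹ := rfl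

@[simp] theorem ev_pow (x : F.X) (n : ℕ) (b : F.B) : F.ev (x ^ n) b = F.ev x b ^ n := by
  induction n with
  | zero => simp
  | succ n ih => rw [pow_succ, ev_mul, ih, pow_succ]

/-- conjugation by `g⁻¹` on `B` -/
def cj (g : G) : F.B →* F.B where
  toFun b := ⟨g⁻¹ * b * g, F.conj_mem' b.2 g⟩
  map_one' := Subtype.ext (by simp)
  map_mul' a b := Subtype.ext (by simp [mul_assoc])

noncomputable instance : MulDistribMulAction G F.X where
  smul g x := (F.ev x).comp (F.cj g)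
  one_smul x := F.X_ext fun b => congrArg (F.ev x) (Subtype.ext (by simp [cj]))
  mul_smul g h x := F.X_ext fun b => congrArg (F.ev x) (Subtype.ext (by simp [cj, mul_assoc]))
  smul_mul _ _ _ := rfl
  smul_one _ := rfl

theorem ev_smul (g : G) (x : F.X) (b : F.B) :
    F.ev (g • x) b = F.ev x ⟨g⁻¹ * b * g, F.conj_mem' b.2 g⟩ := rfl

theorem smul_of_mem_B {g : G} (hg : g ∈ F.B) (x : F.X) : g • x = x := F.X_ext fun b => by
  have : (⟨g⁻¹ * b * g, F.conj_mem' b.2 g⟩ : F.B) = (⟨g, hg⟩ : F.B)⁻¹ * b * ⟨g, hg⟩ := rfl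
  rw [ev_smul, this, map_mul, map_mul, map_inv, mul_comm, mul_inv_cancel_left]

theorem zeta_comm_left {z : G} (hz : z ∈ F.Z) {b : G} (hb : b ∈ F.B) : F.ζ ⁅z, b⁆ = 1 :=
  (F.rad z (F.le hz)).1 hz b hb

theorem zeta_comm_right {z : G} (hz : z ∈ F.Z) {b : G} (hb : b ∈ F.B) : F.ζ ⁅b, z⁆ = 1 := by
  rw [← commutatorElement_inv, F.chr.inv (F.comm z (F.le hz) b hb), F.zeta_comm_left hz hb, inv_one]

theorem conj_Z {b : G} (hb : b ∈ F.B) {z : G} (hz : z ∈ F.Z) :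
    b * z * b⁻¹ ∈ F.Z ∧ F.ζ (b * z * b⁻¹) = F.ζ z := by
  have e : b * z * b⁻¹ = ⁅b, z⁆ * z := by rw [commutatorElement_def]; group
  have h1 := F.comm b hb z (F.le hz)
  rw [e, F.chr _ h1 _ hz, F.zeta_comm_right hz hb, one_mul]
  exact ⟨F.Z.mul_mem h1 hz, rfl⟩

/-- the character `ζ ⁅a, ·⁆` of `B` -/
noncomputable def chi : F.B →* F.X where
  toFun a :=
    ({ toFun := fun b => F.ζ ⁅(a : G), (b : G)⁆
       map_one' := by simpa using F.chr.one
       map_mul' := fun b c => by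
        have e : ⁅(a : G), ((b * c : F.B) : G)⁆ = ⁅(a : G), (b : G)⁆ * (b * ⁅(a : G), (c : G)⁆ * (b : G)⁻¹) := by
          simp only [commutatorElement_def, Subgroup.coe_mul]; group
        have h := F.conj_Z b.2 (F.comm a a.2 c c.2)
        rw [e, F.chr _ (F.comm a a.2 b b.2) _ h.1, h.2] } : F.B →* ℂˣ)
  map_one' := F.X_ext fun b => by
    change F.ζ ⁅((1 : F.B) : G), (b : G)⁆ = 1
    simpa using F.chr.one
  map_mul' a c := F.X_ext fun b => by
    change F.ζ ⁅((a * c : F.B) : G), (b : G)⁆ = F.ζ ⁅(a : G), (b : G)⁆ * F.ζ ⁅(c : G), (b : G)⁆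
    have e : ⁅((a * c : F.B) : G), (b : G)⁆ = (a * ⁅(c : G), (b : G)⁆ * (a : G)⁻¹) * ⁅(a : G), (b : G)⁆ := by
      simp only [commutatorElement_def, Subgroup.coe_mul]; group
    have h := F.conj_Z a.2 (F.comm c c.2 b b.2)
    rw [e, F.chr _ h.1 _ (F.comm a a.2 b b.2), h.2, mul_comm]

theorem ev_chi (a b : F.B) : F.ev (F.chi a) b = F.ζ ⁅(a : G), (b : G)⁆ := rfl

theorem chi_eq_one (a : F.B) : F.chi a = 1 ↔ (a : G) ∈ F.Z := by
  rw [F.rad a a.2]
  exact ⟨fun h b hb => by rw [← F.ev_chi a ⟨b, hb⟩, h, ev_one],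
    fun h => F.X_ext fun b => h b b.2⟩

/-- the symplectic group of the frame -/
noncomputable def L : Subgroup F.X := F.chi.range

theorem mem_L {x : F.X} : x ∈ F.L ↔ ∃ a : F.B, F.chi a = x := Iff.rfl

theorem chi_mem (a : F.B) : F.chi a ∈ F.L := ⟨a, rfl⟩

theorem card_L : Nat.card F.L = F.Z.relIndex F.B := by
  have : F.chi.ker = F.Z.subgroupOf F.B := by
    ext a
    rw [MonoidHom.mem_ker, F.chi_eq_one, Subgroup.mem_subgroupOf]
  rw [L, ← Subgroup.index_ker, this, Subgroup.relIndex]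

theorem ev_Z {x : F.X} (hx : x ∈ F.L) (z : F.B) (hz : (z : G) ∈ F.Z) : F.ev x z = 1 := by
  obtain ⟨a, rfl⟩ := hx
  exact F.zeta_comm_right hz a.2

/-- the stabiliser of `(Z, ζ)` -/
def T : Subgroup G where
  carrier := {g | ∀ z, (z ∈ F.Z ↔ g * z * g⁻¹ ∈ F.Z) ∧ (z ∈ F.Z → F.ζ (g * z * g⁻¹) = F.ζ z)}
  one_mem' := by simp
  mul_mem' := fun {a b} ha hb z => by
    have e : a * b * z * (a * b)⁻¹ = a * (b * z * b⁻¹) * a⁻¹ := by group
    rw [e, ← (ha _).1]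
    exact ⟨(hb z).1, fun hz => by rw [(ha _).2 ((hb z).1.1 hz), (hb z).2 hz]⟩
  inv_mem' := fun {a} ha z => by
    have e : a * (a⁻¹ * z * a⁻¹⁻¹) * a⁻¹ = z := by group
    have h := ha (a⁻¹ * z * a⁻¹⁻¹)
    rw [e] at h
    exact ⟨h.1.symm, fun hz => (h.2 (h.1.2 hz)).symm⟩

theorem mem_T {g : G} : g ∈ F.T ↔
    ∀ z, (z ∈ F.Z ↔ g * z * g⁻¹ ∈ F.Z) ∧ (z ∈ F.Z → F.ζ (g * z * g⁻¹) = F.ζ z) := Iff.rfl

/-- a subgroup normalising `Z` and fixing `ζ` lies in `T` -/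
theorem le_T {H : Subgroup G}
    (h : ∀ g ∈ H, ∀ z ∈ F.Z, g * z * g⁻¹ ∈ F.Z ∧ F.ζ (g * z * g⁻¹) = F.ζ z) : H ≤ F.T :=
  fun g hg z => ⟨⟨fun hz => (h g hg z hz).1, fun hz => by
    simpa [mul_assoc] using (h g⁻¹ (H.inv_mem hg) _ hz).1⟩, fun hz => (h g hg z hz).2⟩

theorem B_le_T : F.B ≤ F.T := F.le_T fun _ hb _ hz => F.conj_Z hb hz

theorem T_conj {g : G} (hg : g ∈ F.T) {z : G} (hz : z ∈ F.Z) :
    g * z * g⁻¹ ∈ F.Z ∧ F.ζ (g * z * g⁻¹) = F.ζ z := ⟨(hg z).1.1 hz, (hg z).2 hz⟩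

theorem T_conj' {g : G} (hg : g ∈ F.T) {z : G} (hz : z ∈ F.Z) :
    g⁻¹ * z * g ∈ F.Z ∧ F.ζ (g⁻¹ * z * g) = F.ζ z := by
  simpa using F.T_conj (F.T.inv_mem hg) hz

theorem smul_chi {g : G} (hg : g ∈ F.T) (a : F.B) :
    g • F.chi a = F.chi ⟨g * a * g⁻¹, F.conj_mem a.2 g⟩ := F.X_ext fun b => by
  rw [ev_smul, ev_chi, ev_chi, ← (F.T_conj hg (F.comm _ a.2 _ (F.conj_mem' b.2 g))).2]
  congr 1
  simp only [commutatorElement_def]
  group

open Classical in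
/-- the alternating form -/
noncomputable def om (x y : F.X) : ℂˣ := if h : y ∈ F.L then F.ev x (F.mem_L.1 h).choose else 1

theorem om_chi {x : F.X} (hx : x ∈ F.L) (b : F.B) : F.om x (F.chi b) = F.ev x b := by
  have h := F.chi_mem b
  rw [om, dif_pos h]
  have e := (F.mem_L.1 h).choose_spec
  have h1 : F.chi ((F.mem_L.1 h).choose * b⁻¹) = 1 := by rw [map_mul, e, map_inv, mul_inv_cancel]
  have h2 := F.ev_Z hx _ ((F.chi_eq_one _).1 h1)
  rwa [map_mul, map_inv, mul_inv_eq_one] at h2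

theorem om_chi_chi (a b : F.B) : F.om (F.chi a) (F.chi b) = F.ζ ⁅(a : G), (b : G)⁆ :=
  F.om_chi (F.chi_mem a) b

/-- the symplectic datum of a frame -/
noncomputable def sym [Finite G] : Sym G F.X where
  L := F.L
  T := F.T
  om := F.om
  fin := Finite.of_surjective _ F.chi.rangeRestrict_surjective
  om_left := by
    rintro x hx x' hx' _ ⟨b, rfl⟩
    rw [F.om_chi (F.L.mul_mem hx hx'), F.om_chi hx, F.om_chi hx', ev_mul]
  om_right := by
    rintro x hx _ ⟨b, rfl⟩ _ ⟨c, rfl⟩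
    rw [← map_mul, F.om_chi hx, F.om_chi hx, F.om_chi hx, map_mul]
  om_self := by
    rintro _ ⟨b, rfl⟩
    rw [om_chi_chi, commutatorElement_self, F.chr.one]
  nondeg := fun x hx h => F.X_ext fun b => by
    rw [← F.om_chi hx, h _ (F.chi_mem b), ev_one]
  inv := by
    rintro g hg _ ⟨b, rfl⟩
    rw [F.smul_chi hg]
    exact F.chi_mem _
  om_smul := by
    rintro g hg _ ⟨a, rfl⟩ _ ⟨b, rfl⟩
    rw [F.smul_chi hg, F.smul_chi hg, om_chi_chi, om_chi_chi,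
      ← (F.T_conj hg (F.comm _ a.2 _ b.2)).2]
    congr 1
    simp only [commutatorElement_def]
    group

@[simp] theorem sym_L [Finite G] : F.sym.L = F.L := rfl

@[simp] theorem sym_T [Finite G] : F.sym.T = F.T := rfl

@[simp] theorem sym_om [Finite G] : F.sym.om = F.om := rfl

/-- the `ζ`-eigenspace -/
noncomputable def Vz (R : Rp ℂ G) : Submodule ℂ R.V := Eig R.ρ F.Z F.ζ

theorem mem_Vz {R : Rp ℂ G} {v : R.V} :
    v ∈ F.Vz R ↔ ∀ z ∈ F.Z, R.ρ z v = (F.ζ z : ℂ) • v := Iff.rfl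

theorem inv_Vz (R : Rp ℂ G) : Inv R.ρ F.T (F.Vz R) := by
  intro g hg v hv z hz
  have h := F.T_conj' hg hz
  have e : z * g = g * (g⁻¹ * z * g) := by group
  rw [← rho_mul, e, rho_mul, hv _ h.1, h.2, map_smul]

/-- the separating element of a coset of `T` -/
theorem sepz {g : G} (hg : g ∉ F.T) :
    ∃ z ∈ F.Z, g⁻¹ * z * g ∈ F.Z ∧ F.ζ z ≠ F.ζ (g⁻¹ * z * g) := by
  by_contra h
  push Not at h
  have hc : ∀ a ∈ F.B, ∀ b ∈ F.B, F.ζ ⁅g⁻¹ * a * g, g⁻¹ * b * g⁆ = F.ζ ⁅a, b⁆ := by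
    intro a ha b hb
    have e : ⁅g⁻¹ * a * g, g⁻¹ * b * g⁆ = g⁻¹ * ⁅a, b⁆ * g := by
      simp only [commutatorElement_def]; group
    rw [h _ (F.comm a ha b hb) (e ▸ F.comm _ (F.conj_mem' ha g) _ (F.conj_mem' hb g)), e]
  have hz : ∀ a ∈ F.B, (a ∈ F.Z ↔ g⁻¹ * a * g ∈ F.Z) := by
    intro a ha
    rw [F.rad a ha, F.rad _ (F.conj_mem' ha g)]
    constructor
    · intro h1 b hb
      have := hc a ha _ (F.conj_mem hb g)
      rw [h1 _ (F.conj_mem hb g)] at this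
      simpa [mul_assoc] using this
    · intro h1 b hb
      rw [← hc a ha b hb, h1 _ (F.conj_mem' hb g)]
  apply hg
  rw [← inv_inv g]
  refine F.T.inv_mem fun z => ?_
  rw [inv_inv]
  refine ⟨⟨fun h1 => (hz z (F.le h1)).1 h1, fun h1 => (hz z ?_).2 h1⟩,
    fun h1 => (h z h1 ((hz z (F.le h1)).1 h1)).symm⟩
  simpa [mul_assoc] using F.conj_mem (F.le h1) g

end Frame

end Pool.Agent.MP_f0649b_al.F

end

section

/-! Interface, part 1: statements of the general lemmas (sections 1, 2, 3 of the proof). -/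

open Module
open scoped commutatorElement

namespace Pool.Agent.MP_f0649b_al.F

/-! ### Layer 0: linear algebra over any field -/

def IND_st : Prop := ∀ {k V ι : Type} [Field k] [AddCommGroup V] [Module k V]
  (W : ι → Submodule k V),
  (∀ i j, i ≠ j → ∃ φ : Module.End k V, (∀ l, ∀ v ∈ W l, φ v ∈ W l) ∧
    ∃ c c' : k, c ≠ c' ∧ (∀ v ∈ W i, φ v = c • v) ∧ ∀ v ∈ W j, φ v = c' • v) → iSupIndep W

def INDD_st : Prop := ∀ {k V ι : Type} [Field k] [AddCommGroup V] [Module k V]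
  [FiniteDimensional k V] [Fintype ι] (W : ι → Submodule k V) (S : Submodule k V),
  iSupIndep W → (∀ i, W i ≤ S) → (∑ i, finrank k (W i) ≤ finrank k S) ∧
    (∑ i, finrank k (W i) = finrank k S → ⨆ i, W i = S) ∧
    ∀ n, (∀ i, n ≤ finrank k (W i)) → Nat.card ι * n ≤ finrank k S

def SPAN_st : Prop := ∀ {k G V : Type} [Field k] [Group G] [Finite G] [AddCommGroup V] [Module k V]
  [FiniteDimensional k V] (ρ : Representation k G V) (H T : Subgroup G) (S W : Submodule k V),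
  IrrOn ρ H S → T ≤ H → W ≤ S → W ≠ ⊥ → Inv ρ T W → finrank k S ≤ T.relIndex H * finrank k W

def SUM_st : Prop := ∀ {k G V : Type} [Field k] [Group G] [Finite G] [AddCommGroup V] [Module k V]
  [FiniteDimensional k V] (ρ : Representation k G V) (H T : Subgroup G) (S W : Submodule k V),
  Inv ρ H S → T ≤ H → W ≤ S → Inv ρ T W → Sep ρ H T W → T.relIndex H * finrank k W ≤ finrank k S

def CLIF_st : Prop := ∀ {k G V : Type} [Field k] [Group G] [Finite G] [AddCommGroup V] [Module k V]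
  [FiniteDimensional k V] (ρ : Representation k G V) (H T : Subgroup G) (S W : Submodule k V),
  IrrOn ρ H S → T ≤ H → W ≤ S → W ≠ ⊥ → Inv ρ T W → Sep ρ H T W →
  finrank k S = T.relIndex H * finrank k W ∧ IrrOn ρ T W

def EXI_st : Prop := ∀ {k G V : Type} [Field k] [Group G] [AddCommGroup V] [Module k V]
  [FiniteDimensional k V] (ρ : Representation k G V) (H : Subgroup G) (S : Submodule k V),
  S ≠ ⊥ → Inv ρ H S → ∃ S0 ≤ S, IrrOn ρ H S0

def SCH_st : Prop := ∀ {k G V : Type} [Field k] [IsAlgClosed k] [Group G] [AddCommGroup V]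
  [Module k V] [FiniteDimensional k V] (ρ : Representation k G V) (H : Subgroup G)
  (S : Submodule k V), IrrOn ρ H S → ∀ φ : Module.End k V, (∀ v ∈ S, φ v ∈ S) →
  (∀ h ∈ H, ∀ v ∈ S, φ (ρ h v) = ρ h (φ v)) → ∃ c : k, ∀ v ∈ S, φ v = c • v

def EIGV_st : Prop := ∀ {k G V : Type} [Field k] [IsAlgClosed k] [Group G] [AddCommGroup V]
  [Module k V] [FiniteDimensional k V] (ρ : Representation k G V) (A : Subgroup G)
  (S : Submodule k V), S ≠ ⊥ → Inv ρ A S → CommOn ρ A S →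
  ∃ l : G → kˣ, IsChar A l ∧ Eig ρ A l ⊓ S ≠ ⊥

/-- invariant eigenvalues spread from one vector to an irreducible module -/
def NTE_st : Prop := ∀ {k G V : Type} [Field k] [Group G] [AddCommGroup V] [Module k V]
  (ρ : Representation k G V) (H A : Subgroup G) (S : Submodule k V) (c : G → k),
  IrrOn ρ H S → NormBy H A → (∀ h ∈ H, ∀ a ∈ A, c (h * a * h⁻¹) = c a) →
  ∀ v ∈ S, v ≠ 0 → (∀ a ∈ A, ρ a v = c a • v) → ∀ a ∈ A, ActsAs ρ a (c a) S

/-- a normal subgroup fixing a nonzero vector of an irreducible module is trivial -/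
def NT_st : Prop := ∀ {k G V : Type} [Field k] [Group G] [AddCommGroup V] [Module k V]
  (ρ : Representation k G V) (K : Subgroup G) [K.Normal], Irr ρ →
  ∀ v : V, v ≠ 0 → (∀ g ∈ K, ρ g v = v) → Triv ρ K

def DL_st : Prop := ∀ {k G V : Type} [Field k] [IsAlgClosed k] [Group G] [Finite G]
  [AddCommGroup V] [Module k V] [FiniteDimensional k V] (ρ : Representation k G V)
  (H : Subgroup G) (S : Submodule k V), IrrOn ρ H S →
  ∃ H1 ≤ H, ∃ S1 ≤ S, IrrOn ρ H1 S1 ∧ H1.relIndex H * finrank k S1 = finrank k S ∧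
    Prim ρ H1 S1 ∧ ∀ g ∈ H, ScalOn ρ g S → g ∈ H1

def LI0_st : Prop := ∀ {k G V ι : Type} [Field k] [Group G] [AddCommGroup V] [Module k V]
  (ρ : Representation k G V) (B : Subgroup G) (S : Submodule k V) (hS : Inv ρ B S), S ≠ ⊥ →
  (∀ a ∈ B, ∀ b ∈ B, ScalOn ρ ⁅a, b⁆ S) → ∀ b : ι → B,
  (∀ i j, i ≠ j → ∃ c ∈ B, ∃ v ∈ S, ρ ⁅((b i)⁻¹ * b j : G), c⁆ v ≠ v) →
  LinearIndependent k fun i => res ρ B S hS (b i)

def LI_st : Prop := ∀ {k G V : Type} [Field k] [Group G] [Finite G] [AddCommGroup V] [Module k V]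
  [FiniteDimensional k V] (ρ : Representation k G V) (B Z : Subgroup G) (S : Submodule k V),
  Inv ρ B S → S ≠ ⊥ → (∀ a ∈ B, ∀ b ∈ B, ScalOn ρ ⁅a, b⁆ S) →
  (∀ a ∈ B, (∀ b ∈ B, ∀ v ∈ S, ρ ⁅a, b⁆ v = v) → a ∈ Z) → Z.relIndex B ≤ finrank k S ^ 2

def BURN_st : Prop := ∀ {k G V : Type} [Field k] [IsAlgClosed k] [Group G] [AddCommGroup V]
  [Module k V] [FiniteDimensional k V] (ρ : Representation k G V), Irr ρ →
  Submodule.span k (Set.range fun g => (ρ g : Module.End k V)) = ⊤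

def SQ_st : Prop := ∀ {k G V : Type} [Field k] [IsAlgClosed k] [Group G] [Finite G]
  [AddCommGroup V] [Module k V] [FiniteDimensional k V] (ρ : Representation k G V)
  (B Z : Subgroup G) (S : Submodule k V), IrrOn ρ B S → (∀ a ∈ B, ∀ b ∈ B, ScalOn ρ ⁅a, b⁆ S) →
  (∀ a ∈ B, a ∈ Z ↔ ∀ b ∈ B, ∀ v ∈ S, ρ ⁅a, b⁆ v = v) → finrank k S ^ 2 = Z.relIndex B

def DEC_st : Prop := ∀ {k G V : Type} [Field k] [IsAlgClosed k] [Group G] [Finite G]
  [AddCommGroup V] [Module k V] [FiniteDimensional k V] (ρ : Representation k G V)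
  (A : Subgroup G) (n : ℕ), CommOn ρ A ⊤ → (∀ a ∈ A, ∃ e : ℕ, (e : k) ≠ 0 ∧ ρ (a ^ e) = 1) →
  (∀ l : G → kˣ, IsChar A l → Eig ρ A l ≠ ⊥ → n ∣ finrank k (Eig ρ A l)) → n ∣ finrank k V

/-- gluing two compatible characters -/
def GLUE_st : Prop := ∀ {k G : Type} [Field k] [Group G] (K1 K2 : Subgroup G) (l1 l2 : G → kˣ),
  IsChar K1 l1 → IsChar K2 l2 → NormBy K1 K2 →
  (∀ h ∈ K1, ∀ a ∈ K2, l2 (h * a * h⁻¹) = l2 a) → (∀ a ∈ K1, a ∈ K2 → l1 a = l2 a) →
  ∃ l : G → kˣ, IsChar (K1 ⊔ K2) l ∧ (∀ a ∈ K1, l a = l1 a) ∧ ∀ a ∈ K2, l a = l2 a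

/-- orbit counting -/
def ORB_st : Prop := ∀ {G X : Type} [Group G] [Finite G] [MulAction G X] (H : Subgroup G),
  (∀ x : X, (MulAction.stabilizer G x).relIndex H = {y | ∃ h ∈ H, h • x = y}.ncard) ∧
  (∀ A : Set X, A.Finite → (∀ h ∈ H, ∀ x ∈ A, h • x ∈ A) →
    (∀ x ∈ A, (MulAction.stabilizer G x).relIndex H ≤ A.ncard) ∧
    ∀ n, (∀ x ∈ A, n ∣ (MulAction.stabilizer G x).relIndex H) → n ∣ A.ncard) ∧
  ∀ J : Subgroup G, J ≤ H → NormBy H J → ∀ x : X,
    (MulAction.stabilizer G x).relIndex J ∣ (MulAction.stabilizer G x).relIndex H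

/-- a `p`-group image acting weakly quasi-primitively is scalar -/
def PGP_st : Prop := ∀ {k G V : Type} [Field k] [IsAlgClosed k] [Group G] [Finite G]
  [AddCommGroup V] [Module k V] [FiniteDimensional k V] (ρ : Representation k G V)
  (H : Subgroup G) (S : Submodule k V) (p : ℕ), p.Prime → IsPGroup p H → IrrOn ρ H S →
  Prim ρ H S → (∀ g ∈ H, ScalOn ρ g S) ∧ finrank k S = 1

def SN_st : Prop := ∀ {k E V V' : Type} [Field k] [Group E] [Finite E] [AddCommGroup V]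
  [Module k V] [FiniteDimensional k V] [AddCommGroup V'] [Module k V'] [FiniteDimensional k V']
  (σ : Representation k E V) (σ' : Representation k E V') (Z : Subgroup E), Irr σ → Irr σ' →
  (∀ z ∈ Z, ∃ c : k, σ z = c • 1 ∧ σ' z = c • 1) → (∀ a b : E, ⁅a, b⁆ ∈ Z) →
  (∀ a : E, (∀ b : E, σ ⁅a, b⁆ = 1) → a ∈ Z) → ∃ A : V ≃ₗ[k] V', ∀ e v, A (σ e v) = σ' e (A v)

/-- all statements of layer 0 -/
structure L0 : Prop where
  ind : IND_st
  indd : INDD_st
  span : SPAN_st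
  sum : SUM_st
  clif : CLIF_st
  exi : EXI_st
  sch : SCH_st
  eigv : EIGV_st
  nte : NTE_st
  nt : NT_st
  dl : DL_st
  li0 : LI0_st
  li : LI_st
  burn : BURN_st
  sq : SQ_st
  dec : DEC_st
  glue : GLUE_st
  orb : ORB_st
  pgp : PGP_st
  sn : SN_st

/-! ### Layer 1: complex representations -/

def IE_st : Prop := ∀ {G U : Type} [Group G] [Finite G] [Group U] (φ : U →* G),
  Function.Injective φ → ∀ M : Rp ℂ U, Irr M.ρ → ∀ p : ℕ, p.Prime →
  ∃ R : Rp ℂ G, Irr R.ρ ∧ ∃ ι : M.V →ₗ[ℂ] R.V, Function.Injective ι ∧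
    (∀ u m, R.ρ (φ u) (ι m) = ι (M.ρ u m)) ∧ R.dim ≤ φ.range.index * M.dim ∧
    padicValNat p R.dim ≤ padicValNat p (φ.range.index * M.dim)

def MON_st : Prop := ∀ {G : Type} [Group G] [Finite G] (U : Subgroup G) (ν : G → ℂˣ),
  IsChar U ν → ∀ p : ℕ, p.Prime → ∃ R : Rp ℂ G, Irr R.ρ ∧ Eig R.ρ U ν ≠ ⊥ ∧ R.dim ≤ U.index ∧
    padicValNat p R.dim ≤ padicValNat p U.index ∧ Wt R.ρ U.index

def PRE_st : Prop := ∀ {G U : Type} [Group G] [Finite G] [Group U] (φ : U →* G),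
  Function.Injective φ → ∀ (Y : Subgroup G) [Y.Normal] (M : Rp ℂ U), ⁅Y, Y⁆ ≤ φ.range →
  (∀ u, φ u ∈ ⁅Y, Y⁆ → M.ρ u = 1) →
  (∀ S, IrrOn M.ρ ⊤ S → (∃ u, φ u ∈ Y ∧ ∃ v ∈ S, M.ρ u v ≠ v) →
    Small Y (φ.range.index * finrank ℂ S ^ 2)) ∧
  (0 < M.dim → (∃ u, φ u ∈ Y ∧ ∃ c : ℂ, c ≠ 1 ∧ M.ρ u = c • 1) →
    Small Y (φ.range.index * M.dim ^ 2))

def PREC_st : Prop := ∀ {G : Type} [Group G] [Finite G] (Y S : Subgroup G) [Y.Normal]
  (ε : G → ℂˣ), IsChar S ε → ⁅Y, Y⁆ ≤ S → (∀ g ∈ ⁅Y, Y⁆, ε g = 1) →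
  (∃ y ∈ Y, y ∈ S ∧ ε y ≠ 1) → Small Y S.index

def WD_st : Prop := ∀ {G : Type} [Group G] [Finite G] (R : Rp ℂ G) (n : ℕ),
  Irr R.ρ → Wt R.ρ n → R.dim ≤ n

/-- some element of `Y` has a nontrivial image of `p`-power order -/
def PZ {G : Type} [Group G] (R : Rp ℂ G) (p : ℕ) (Y : Subgroup G) : Prop :=
  ∃ z ∈ Y, R.ρ z ≠ 1 ∧ ∃ e : ℕ, R.ρ (z ^ p ^ e) = 1

def ABP_st : Prop := ∀ {G : Type} [Group G] [Finite G] (R : Rp ℂ G) (Y : Subgroup G),
  ¬ Triv R.ρ Y → ∃ p : ℕ, p.Prime ∧ PZ R p Y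

def F1a_st : Prop := ∀ {G : Type} [Group G] [Finite G] (Y S : Subgroup G) [Y.Normal],
  ⁅Y, Y⁆ ≤ S → ¬ Y ≤ S → ∃ (U : Subgroup G) (ν : G → ℂˣ), IsChar U ν ∧ Y ≤ U ∧
    (∃ y ∈ Y, ν y ≠ 1) ∧ U.index + (S ⊔ Y).index ≤ S.index

def F1_st : Prop := ∀ {G : Type} [Group G] [Finite G] (Y S : Subgroup G) [Y.Normal],
  ⁅Y, Y⁆ ≤ S → ¬ Y ≤ S → ∃ n, Small Y n ∧ n + (S ⊔ Y).index ≤ S.index

def SYM_st : Prop := ∀ {G X : Type} [Group G] [CommGroup X] [MulDistribMulAction G X]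
  (s : Sym G X),
  (∀ R : Subgroup X, R ≤ s.L → Nat.card R * Nat.card (s.perp R) = Nat.card s.L) ∧
  (∀ R : Subgroup X, s.Iso R → Nat.card R ^ 2 ∣ Nat.card s.L) ∧
  ∃ I : Subgroup X, s.Iso I ∧ Nat.card I ^ 2 = Nat.card s.L

/-- Maschke: divisibility of dimensions reduces to irreducible submodules -/
def MAS_st : Prop := ∀ {G : Type} [Group G] [Finite G] (R : Rp ℂ G) (B : Subgroup G)
  (W : Submodule ℂ R.V) (n : ℕ), Inv R.ρ B W →
  (∀ S ≤ W, IrrOn R.ρ B S → n ∣ finrank ℂ S) → n ∣ finrank ℂ W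

/-- irreducibility of a tensor product -/
def TIRR_st : Prop := ∀ {G : Type} [Group G] (σ τ : Rp ℂ G) (D : Subgroup G), 0 < σ.dim →
  Submodule.span ℂ ((fun g => (σ.ρ g : Module.End ℂ σ.V)) '' D) = ⊤ → Irr τ.ρ → Triv τ.ρ D →
  Irr (σ.ρ.tprod τ.ρ)

/-- absorbing a commutative normal subgroup into a pair of small weight -/
def ABS_st : Prop := ∀ {G : Type} [Group G] [Finite G] (R : Rp ℂ G) (T0 A U : Subgroup G)
  (W0 S : Submodule ℂ R.V), Inv R.ρ T0 W0 → A ≤ T0 → NormBy T0 A → CommOn R.ρ A W0 → U ≤ T0 →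
  S ≤ W0 → S ≠ ⊥ → Inv R.ρ U S → ∃ (U' : Subgroup G) (S' : Submodule ℂ R.V) (α : G → ℂˣ),
    A ≤ U' ∧ U' ≤ T0 ∧ S' ≤ W0 ∧ S' ≠ ⊥ ∧ Inv R.ρ U' S' ∧ IsChar A α ∧ S' ≤ Eig R.ρ A α ∧
    (∀ u ∈ U', ∀ a ∈ A, α (u * a * u⁻¹) = α a) ∧
    U'.index * finrank ℂ S' ^ 2 ≤ U.index * finrank ℂ S ^ 2

def CL2_st : Prop := ∀ {G : Type} [Group G] [Finite G] (R : Rp ℂ G) (Y : Subgroup G) [Y.Normal],
  Irr R.ρ → Triv R.ρ (der Y 2) → ∃ S : Subgroup G, ⁅Y, Y⁆ ≤ S ∧ S.index ≤ R.dim ∧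
    (Y ≤ S → Triv R.ρ ⁅⁅Y, Y⁆, Y⁆)

/-- all statements of layer 1 -/
structure L1 : Prop where
  ie : IE_st
  mon : MON_st
  pre : PRE_st
  prec : PREC_st
  wd : WD_st
  abp : ABP_st
  f1 : F1_st
  sym : SYM_st
  mas : MAS_st
  tirr : TIRR_st
  abs : ABS_st
  cl2 : CL2_st

/-! ### Layer 2: frames -/

def COMP_st : Prop := ∀ {G : Type} [Group G] [Finite G] (F : Frame G) (R : Rp ℂ G), Irr R.ρ →
  F.Vz R ≠ ⊥ → R.dim = F.T.index * finrank ℂ (F.Vz R) ∧ IrrOn R.ρ F.T (F.Vz R) ∧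
    Triv R.ρ ⁅⁅F.B, F.B⁆, F.B⁆

def EIG_st : Prop := ∀ {G : Type} [Group G] [Finite G] (F : Frame G) (R : Rp ℂ G)
  (W : Submodule ℂ R.V), W ≤ F.Vz R → Inv R.ρ F.B W →
  (∀ Q : Subgroup F.X, F.sym.Iso Q → Nat.card Q ∣ finrank ℂ W) ∧
  (W ≠ ⊥ → Nat.card F.L ≤ finrank ℂ W ^ 2)

def NU_st : Prop := ∀ {G : Type} [Group G] [Finite G] (F : Frame G) (x : F.X), x ∈ F.L →
  ∃ ν : G → ℂˣ, IsChar (F.T ⊓ MulAction.stabilizer G x) ν ∧ ∀ b : F.B, ν b = (F.ev x b)⁻¹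

def CA_st : Prop := ∀ {G : Type} [Group G] [Finite G] (F : Frame G) (Y : Subgroup G), Y ≤ F.T →
  F.B ≤ ⁅Y, Y⁆ → Fpf Y F.L

def MONX_st : Prop := ∀ {G : Type} [Group G] [Finite G] (F : Frame G), ∀ x ∈ F.L, x ≠ 1 →
  ∀ p : ℕ, p.Prime → ∃ R' : Rp ℂ G, Irr R'.ρ ∧ Triv R'.ρ ⁅F.B, F.B⁆ ∧ ¬ Triv R'.ρ F.B ∧
    Wt R'.ρ (orb F.T x * F.T.index) ∧ R'.dim ≤ orb F.T x * F.T.index ∧
    padicValNat p R'.dim ≤ padicValNat p (orb F.T x * F.T.index) ∧
    (∀ e : ℕ, x ^ e = 1 → ∀ b ∈ F.B, R'.ρ (b ^ e) = 1) ∧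
    ∃ f, R'.dim = f * (MulAction.stabilizer G x).index

/-- the conclusion of Lemma R -/
def RD {G : Type} [Group G] [Finite G] (F : Frame G) (n : ℕ) : Prop :=
  ∃ (H : Subgroup G) (Q : Subgroup F.X), H ≤ F.T ∧ F.sym.Iso Q ∧ SInv H Q ∧
    H.index * Nat.card F.L ≤ n * Nat.card Q

def LEMR_st : Prop := ∀ {G : Type} [Group G] [Finite G] (R : Rp ℂ G) (B : Subgroup G) [B.Normal]
  (n : ℕ), Triv R.ρ ⁅⁅B, B⁆, B⁆ → Wt R.ρ n → ∃ F : Frame G, F.B = B ∧ F.Vz R ≠ ⊥ ∧ RD F n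

def TENS_st : Prop := ∀ {G : Type} [Group G] [Finite G] (F : Frame G) (R : Rp ℂ G)
  (τ : Rp ℂ F.T), F.Vz R ≠ ⊥ → finrank ℂ (F.Vz R) ^ 2 = Nat.card F.L → Irr τ.ρ →
  (∀ t : F.T, (t : G) ∈ F.B → τ.ρ t = 1) →
  IsDeg G (F.T.index * (finrank ℂ (F.Vz R) * τ.dim))

def PL_st : Prop := ∀ {G : Type} [Group G] [Finite G] (F : Frame G) (R : Rp ℂ G) (p : ℕ),
  p.Prime → Irr R.ρ → F.Vz R ≠ ⊥ → PZ R p ⁅F.B, F.B⁆ → p ∣ Nat.card F.L

/-- all statements of layer 2 -/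
structure L2 : Prop where
  comp : COMP_st
  eig : EIG_st
  ca : CA_st
  monx : MONX_st
  lemr : LEMR_st
  tens : TENS_st
  pl : PL_st

/-! ### Layer 3: the weight lemmas and the descent -/

def F3_st : Prop := ∀ {G : Type} [Group G] [Finite G] (Y : Subgroup G) [Y.Normal] (n : ℕ),
  Small ⁅Y, Y⁆ n → Small Y (n - 1)

def F3I_st : Prop := ∀ {G : Type} [Group G] [Finite G] (Y : Subgroup G) [Y.Normal] (i n : ℕ),
  Small (der Y i) n → Small Y (n - i)

def F2_st : Prop := ∀ {G : Type} [Group G] [Finite G] [Group.IsSolvable G] (Y S N : Subgroup G)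
  [Y.Normal], ¬ Y ≤ S → S ≤ N → Y ≤ N → ∃ n, Small Y n ∧ n + N.index ≤ S.index

/-- `μ` is a lower bound for the weights -/
def Low {G : Type} [Group G] (Y : Subgroup G) (μ : ℕ) : Prop := ∀ n, Small Y n → μ ≤ n

def GPL_st : Prop := ∀ {G : Type} [Group G] [Finite G] [Group.IsSolvable G] (Y : Subgroup G)
  [Y.Normal] (μ : ℕ), Low Y μ → (∀ S : Subgroup G, S.index ≤ μ → Y ≤ S) ∧
    (∀ i, Low (der Y i) μ) ∧
    ∀ (T : Subgroup G) (c : ℕ), (c * T.index ≤ μ → GP T Y c) ∧ (c * T.index < μ → LC T Y c)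

/-- the descent inside a frame -/
def DESC2_st : Prop := ∀ {G : Type} [Group G] [Finite G] (F : Frame G) (R : Rp ℂ G) (p N : ℕ),
  p.Prime → Irr R.ρ → F.Vz R ≠ ⊥ → RD F N → p ∣ Nat.card F.L →
  p * F.T.index ≤ R.dim ∧ ∃ x ∈ F.L, x ≠ 1 ∧ (∃ e : ℕ, x ^ p ^ e = 1) ∧
    orb F.T x * F.T.index ≤ N ∧ padicValNat p (orb F.T x * F.T.index) < padicValNat p R.dim

def STEP_st : Prop := ∀ {G : Type} [Group G] [Finite G] [Group.IsSolvable G] (R : Rp ℂ G)
  (Y : Subgroup G) [Y.Normal] (p N μ : ℕ), p.Prime → Irr R.ρ → Wt R.ρ N → Triv R.ρ (der Y 2) →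
  PZ R p ⁅Y, Y⁆ → Low Y μ → R.dim ≤ μ →
  ∃ F : Frame G, F.B = Y ∧ F.Vz R ≠ ⊥ ∧ RD F N ∧ p ∣ Nat.card F.L ∧ p * F.T.index ≤ R.dim ∧
    ∃ x ∈ F.L, x ≠ 1 ∧ ∃ R' : Rp ℂ G, Irr R'.ρ ∧ Wt R'.ρ N ∧ Triv R'.ρ ⁅Y, Y⁆ ∧ PZ R' p Y ∧
      padicValNat p R'.dim < padicValNat p R.dim ∧ (MulAction.stabilizer G x).index ≤ R'.dim

/-- all statements of layer 3 -/
structure L3 : Prop where
  f3i : F3I_st
  f2 : F2_st
  gpl : GPL_st
  step : STEP_st

/-! ### Layer 4: lifting to characteristic zero -/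

/-- `θ` is injective on `s`-power torsion and trivial on `s'`-torsion -/
def Theta {k : Type} [Field k] (s : ℕ) (θ : kˣ →* ℂˣ) : Prop :=
  (∀ (c : kˣ) (e : ℕ), c ^ s ^ e = 1 → θ c = 1 → c = 1) ∧
    ∀ (c : kˣ) (n : ℕ), n.Coprime s → c ^ n = 1 → θ c = 1

def TH_st : Prop := ∀ (k : Type) [Field k] (s : ℕ), s.Prime → ∃ θ : kˣ →* ℂˣ, Theta s θ

def DET_st : Prop := ∀ {k L : Type} [Field k] [Group L] (W : Rp k L) (θ : kˣ →* ℂˣ),
  ∃ ε : L →* ℂˣ, ∀ (g : L) (c : kˣ), W.ρ g = (c : k) • 1 → ε g = θ c ^ W.dim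

/-- the hypotheses on the normal subgroup of symplectic type -/
def Spt {k L : Type} [Field k] [Group L] (W : Rp k L) (E Z : Subgroup L) : Prop :=
  E.Normal ∧ (∀ a ∈ E, ∀ b ∈ E, ScalOn W.ρ ⁅a, b⁆ ⊤) ∧
    ∀ a ∈ E, a ∈ Z ↔ ∀ b ∈ E, W.ρ ⁅a, b⁆ = 1

def LIFT1_st : Prop := ∀ {k L : Type} [Field k] [IsAlgClosed k] [Group L] [Finite L] (s : ℕ)
  (θ : kˣ →* ℂˣ) (W : Rp k L) (E Z : Subgroup L) (b : ℕ), s.Prime → Theta s θ → W.dim = s ^ b →
  Function.Injective W.ρ → (∀ g, LinearMap.det (W.ρ g) = 1) → Spt W E Z →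
  Z.relIndex E = W.dim ^ 2 → ∃ (P : Subgroup L) (M : Rp ℂ P), E ≤ P ∧ P.index.Coprime s ∧
    M.dim = W.dim ∧ IrrOn M.ρ (E.subgroupOf P) ⊤ ∧
    ∀ (g : L) (c : kˣ), W.ρ g = (c : k) • 1 → ∃ hg : g ∈ P, M.ρ ⟨g, hg⟩ = (θ c : ℂ) • 1

/-- extension of an invariant representation by transfer -/
def EXT_st : Prop := ∀ {L : Type} [Group L] [Finite L] (P E : Subgroup L) [hE : E.Normal]
  (hP : E ≤ P) (M : Rp ℂ P), P.index.Coprime M.dim → IrrOn M.ρ (E.subgroupOf P) ⊤ →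
  (∀ g : L, ∃ A : M.V ≃ₗ[ℂ] M.V, ∀ e (he : e ∈ E) v,
    A (M.ρ ⟨e, hP he⟩ v) = M.ρ ⟨g * e * g⁻¹, hP (hE.conj_mem e he g)⟩ (A v)) →
  ∃ τ : Representation ℂ L M.V, ∀ g : P, (g : L) ∈ Subgroup.center L → ∀ c : ℂ,
    M.ρ g = c • 1 → c ^ M.dim = 1 → τ g = c • 1

/-- the lift, faithful case -/
def LIFTF_st : Prop := ∀ {k L : Type} [Field k] [IsAlgClosed k] [Group L] [Finite L] (s : ℕ)
  (θ : kˣ →* ℂˣ) (W : Rp k L) (E Z : Subgroup L) (b : ℕ), s.Prime → Theta s θ → W.dim = s ^ b →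
  Function.Injective W.ρ → (∀ g, LinearMap.det (W.ρ g) = 1) → Spt W E Z →
  Z.relIndex E = W.dim ^ 2 → ∃ M : Rp ℂ L, M.dim = W.dim ∧
    ∀ (g : L) (c : kˣ), W.ρ g = (c : k) • 1 → M.ρ g = (θ c : ℂ) • 1

def LIFT_st : Prop := ∀ {k L : Type} [Field k] [IsAlgClosed k] [Group L] [Finite L] (s : ℕ)
  (θ : kˣ →* ℂˣ) (W : Rp k L) (E Z : Subgroup L) (b : ℕ), s.Prime → Theta s θ → W.dim = s ^ b →
  (∀ g, LinearMap.det (W.ρ g) = 1) → Spt W E Z →
  Z.relIndex E = W.dim ^ 2 → ∃ M : Rp ℂ L, M.dim = W.dim ∧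
    ∀ (g : L) (c : kˣ), W.ρ g = (c : k) • 1 → M.ρ g = (θ c : ℂ) • 1

def PUSH_st : Prop := ∀ {Γ L : Type} [Group Γ] [Group L] (π : Γ →* L) (U : Subgroup Γ)
  (M : Rp ℂ U), (∀ u : U, π u = 1 → M.ρ u = 1) → ∃ M' : Rp ℂ (U.map π), M'.dim = M.dim ∧
    ∀ (u : U) (c : ℂ), M.ρ u = c • 1 → M'.ρ ⟨π u, Subgroup.mem_map_of_mem π u.2⟩ = c • 1

/-- the conclusion of the lifting lemma -/
def FSo {k L : Type} [Field k] [Group L] (s : ℕ) (θ : kˣ →* ℂˣ) (W : Rp k L) : Prop :=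
  ∃ (U : Subgroup L) (M : Rp ℂ U) (e : ℕ), M.dim = s ^ e ∧ s ^ e ∣ W.dim ∧
    U.index * s ^ e ≤ W.dim ∧
    ∀ (g : L) (c : kˣ), W.ρ g = (c : k) • 1 → ∃ hg : g ∈ U, M.ρ ⟨g, hg⟩ = (θ c : ℂ) • 1

/-- the induction hypothesis of the lifting lemma -/
def FSlt {k : Type} [Field k] (s : ℕ) (θ : kˣ →* ℂˣ) (d : ℕ) : Prop :=
  ∀ (L : Type) [Group L] [Finite L] [Group.IsSolvable L] (W : Rp k L), 0 < W.dim → W.dim < d →
    FSo s θ W

def FS1_st : Prop := ∀ {k L : Type} [Field k] [Group L] [Finite L] [Group.IsSolvable L] (s : ℕ)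
  (θ : kˣ →* ℂˣ) (W : Rp k L), s.Prime → FSlt s θ W.dim → 0 < W.dim → ¬ Irr W.ρ → FSo s θ W

def FS2_st : Prop := ∀ {k L : Type} [Field k] [IsAlgClosed k] [Group L] [Finite L]
  [Group.IsSolvable L] (s : ℕ) (θ : kˣ →* ℂˣ) (W : Rp k L), FSlt s θ W.dim → Irr W.ρ →
  ¬ Prim W.ρ ⊤ ⊤ → FSo s θ W

/-- a primitive nonscalar solvable group has a normal subgroup of symplectic type -/
def FSE_st : Prop := ∀ {k L : Type} [Field k] [Group L] [Finite L] [Group.IsSolvable L]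
  (W : Rp k L), Prim W.ρ ⊤ ⊤ → (∃ g, ¬ ScalOn W.ρ g ⊤) →
  ∃ (E Z : Subgroup L) (l b : ℕ), l.Prime ∧ 0 < b ∧ Spt W E Z ∧ Z.relIndex E = l ^ b ∧
    ∀ a ∈ E, a ∈ Z → ScalOn W.ρ a ⊤

/-- tensor decomposition over a central extension -/
def TD_st : Prop := ∀ {k L : Type} [Field k] [IsAlgClosed k] [Group L] [Finite L]
  [Group.IsSolvable L] (W : Rp k L) (E Z : Subgroup L), Irr W.ρ → Spt W E Z →
  (∀ a ∈ E, a ∈ Z → ScalOn W.ρ a ⊤) →
  ∃ (Γ : Type) (_ : Group Γ) (_ : Finite Γ) (_ : Group.IsSolvable Γ) (π : Γ →* L)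
    (W1 W2 : Rp k Γ), Function.Surjective π ∧ W1.dim * W2.dim = W.dim ∧
    W1.dim ^ 2 = Z.relIndex E ∧ (∀ γ, LinearMap.det (W1.ρ γ) = 1) ∧
    Spt W1 (E.comap π) (Z.comap π) ∧
    (∀ γ, π γ = 1 → ∃ c : kˣ, W1.ρ γ = (c : k) • 1 ∧ W2.ρ γ = ((c⁻¹ : kˣ) : k) • 1) ∧
    ∀ (g : L) (c : kˣ), W.ρ g = (c : k) • 1 →
      ∃ γ, π γ = g ∧ W1.ρ γ = 1 ∧ W2.ρ γ = (c : k) • 1

def FS3_st : Prop := ∀ {k L : Type} [Field k] [IsAlgClosed k] [Group L] [Finite L]
  [Group.IsSolvable L] (s : ℕ) (θ : kˣ →* ℂˣ) (W : Rp k L), s.Prime → Theta s θ →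
  FSlt s θ W.dim → Irr W.ρ → Prim W.ρ ⊤ ⊤ → FSo s θ W

def FS_st : Prop := ∀ {k L : Type} [Field k] [IsAlgClosed k] [Group L] [Finite L]
  [Group.IsSolvable L] (s : ℕ) (θ : kˣ →* ℂˣ) (W : Rp k L), s.Prime → Theta s θ → 0 < W.dim →
  FSo s θ W

end Pool.Agent.MP_f0649b_al.F

end

section

open Module
open scoped commutatorElement

namespace Pool.Agent.MP_f0649b_al.F

namespace IndAux

theorem finrank_iSup_eq {k V ι : Type} [Field k] [AddCommGroup V] [Module k V]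
    [FiniteDimensional k V] [Fintype ι] (W : ι → Submodule k V) (h : iSupIndep W) :
    finrank k (⨆ i, W i : Submodule k V) = ∑ i, finrank k (W i) := by
  classical
  have hinj : Function.Injective (DirectSum.coeLinearMap W) := h.dfinsupp_lsum_injective
  rw [← DirectSum.range_coeLinearMap, LinearMap.finrank_range_of_inj hinj,
    Module.finrank_directSum]

end IndAux

theorem ind_main : IND_st := by
  intro k V ι _ _ _ W hW
  classical
  rw [iSupIndep_iff_finsetSum_eq_zero_imp_eq_zero]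
  intro s
  induction s using Finset.induction_on with
  | empty => simp
  | insert a s ha ih =>
    intro v hv h0
    rw [Finset.sum_insert ha] at h0
    have key : ∀ i ∈ s, v i = 0 := fun i hi => by
      obtain ⟨φ, hφ, c, c', hcc, hi', ha'⟩ := hW i a fun e => ha (e ▸ hi)
      have h1 := congrArg φ h0
      rw [map_add, map_sum, map_zero, ha' _ (hv a (Finset.mem_insert_self _ _))] at h1
      have h2 := ih (fun j => φ (v j) - c' • v j)
        (fun j hj => (W j).sub_mem (hφ j _ (hv j (Finset.mem_insert_of_mem hj)))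
          ((W j).smul_mem _ (hv j (Finset.mem_insert_of_mem hj))))
        (by
          rw [Finset.sum_sub_distrib, ← Finset.smul_sum, eq_neg_of_add_eq_zero_right h0,
            eq_neg_of_add_eq_zero_right h1, smul_neg, sub_self])
        i hi
      simp only [hi' _ (hv i (Finset.mem_insert_of_mem hi)), ← sub_smul] at h2
      exact (smul_eq_zero.1 h2).resolve_left (sub_ne_zero.2 hcc)
    rw [Finset.sum_eq_zero key, add_zero] at h0
    exact Finset.forall_mem_insert _ _ _ |>.2 ⟨h0, key⟩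

theorem indd_main : INDD_st := by
  intro k V ι _ _ _ _ _ W S h hS
  have e := IndAux.finrank_iSup_eq W h
  have hle : ⨆ i, W i ≤ S := iSup_le hS
  have h1 : ∑ i, finrank k (W i) ≤ finrank k S := e ▸ Submodule.finrank_mono hle
  refine ⟨h1, fun h2 => Submodule.eq_of_le_of_finrank_eq hle (e.trans h2), fun n hn => ?_⟩
  refine le_trans ?_ h1
  rw [Nat.card_eq_fintype_card, ← Finset.card_univ, ← smul_eq_mul, ← Finset.sum_const]
  exact Finset.sum_le_sum fun i _ => hn i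

end Pool.Agent.MP_f0649b_al.F

end

section

open Module
open scoped commutatorElement

namespace Pool.Agent.MP_f0649b_al.F

theorem sum_of (h1 : IND_st) (h2 : INDD_st) : SUM_st := by
  intro k G V _ _ _ _ _ _ ρ H T S W hS _ hW _ hsep
  have := Fintype.ofFinite (H ⧸ T.subgroupOf H)
  let g : H ⧸ T.subgroupOf H → H := fun c => c.out
  have key : ∀ (a b z : G) (w : V), ρ (a * z * a⁻¹) (ρ b w) = ρ a (ρ z (ρ (a⁻¹ * b) w)) :=
    fun a b z w => by simp only [rho_mul]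
  have key2 : ∀ (a b : G) (w : V), ρ a (ρ (a⁻¹ * b) w) = ρ b w := fun a b w => by
    rw [rho_mul, rho_apply_inv]
  have hind : iSupIndep fun c => W.map (ρ (g c)) := by
    refine h1 _ fun i j hij => ?_
    obtain ⟨z, hz, c, c', hc, hc1, hc2⟩ := hsep _ ((g i)⁻¹ * g j).2 fun h => hij (by
      rw [← QuotientGroup.out_eq' i, ← QuotientGroup.out_eq' j]
      exact QuotientGroup.eq.2 h)
    refine ⟨ρ (g i * z * (g i : G)⁻¹), ?_, c, c', hc, ?_, ?_⟩
    · rintro l _ ⟨w, hw, rfl⟩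
      obtain ⟨w', hw', e⟩ := hz _ ((g i)⁻¹ * g l).2 w hw
      refine ⟨w', hw', ?_⟩
      rw [key]
      exact ((congrArg (ρ (g i)) e).trans (key2 _ _ _)).symm
    · rintro _ ⟨w, hw, rfl⟩
      rw [key, inv_mul_cancel, map_one, Module.End.one_apply, hc1 w hw, map_smul]
    · rintro _ ⟨w, hw, rfl⟩
      rw [key]
      refine (congrArg (ρ (g i)) (hc2 w hw)).trans ?_
      rw [map_smul]
      exact congrArg (c' • ·) (key2 _ _ _)
  refine (h2 _ S hind ?_).2.2 _ fun c => ?_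
  · rintro c _ ⟨w, hw, rfl⟩
    exact hS _ (g c).2 w (hW hw)
  · exact (Submodule.equivMapOfInjective (ρ (g c))
      (Function.LeftInverse.injective (rho_inv_apply ρ (g c))) W).finrank_eq.le

end Pool.Agent.MP_f0649b_al.F

end

section

open Module
open scoped commutatorElement

namespace Pool.Agent.MP_f0649b_al.F

theorem exi_main : EXI_st := by
  intro k G V _ _ _ _ _ ρ H S h0 hS
  obtain ⟨S0, ⟨h1, h2, h3⟩, hm⟩ := (wellFounded_lt (α := Submodule k V)).has_min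
    {S0 | S0 ≤ S ∧ S0 ≠ ⊥ ∧ Inv ρ H S0} ⟨S, le_rfl, h0, hS⟩
  refine ⟨S0, h1, h2, h3, fun S' hle hS' => ?_⟩
  by_contra e
  rw [not_or] at e
  exact hm S' ⟨hle.trans h1, e.1, hS'⟩ (lt_of_le_of_ne hle e.2)

theorem sch_main : SCH_st := by
  intro k G V _ _ _ _ _ _ ρ H S hS φ h1 h2
  have : Nontrivial S := Submodule.nontrivial_iff_ne_bot.2 hS.1
  obtain ⟨c, hc⟩ := Module.End.exists_eigenvalue (φ.restrict h1)
  obtain ⟨w, hw⟩ := hc.exists_hasEigenvector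
  have hw1 : φ w = c • (w : V) := congrArg Subtype.val hw.apply_eq_smul
  rcases hS.2.2 (S ⊓ φ.eigenspace c) inf_le_left (fun h hh v hv => ⟨hS.2.1 h hh v hv.1, by
    have := Module.End.mem_eigenspace_iff.1 hv.2
    refine Module.End.mem_eigenspace_iff.2 ?_
    rw [h2 h hh v hv.1, this, map_smul]⟩) with e | e
  · have : (w : V) ∈ S ⊓ φ.eigenspace c := ⟨w.2, Module.End.mem_eigenspace_iff.2 hw1⟩
    rw [e] at this
    exact absurd (Subtype.ext ((Submodule.mem_bot k).1 this)) hw.2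
  · exact ⟨c, fun v hv => Module.End.mem_eigenspace_iff.1 (e.ge hv).2⟩

theorem eigv_main : EIGV_st := by
  intro k G V _ _ _ _ _ _ ρ A S h0 hS hc
  classical
  obtain ⟨S0, hle, h1⟩ := exi_main ρ A S h0 hS
  obtain ⟨v, hv, hv0⟩ := (Submodule.ne_bot_iff _).1 h1.1
  have key : ∀ a : G, ∃ c : kˣ, a ∈ A → ∀ w ∈ S0, ρ a w = (c : k) • w := fun a => by
    by_cases ha : a ∈ A
    · obtain ⟨c, h⟩ := sch_main ρ A S0 h1 (ρ a) (h1.2.1 a ha) fun b hb w hw =>
        hc a ha b hb w (hle hw)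
      have : c ≠ 0 := fun e => rho_ne_zero ρ a hv0 (by rw [h v hv, e, zero_smul])
      exact ⟨Units.mk0 c this, fun _ => h⟩
    · exact ⟨1, fun h => absurd h ha⟩
  choose l hl using key
  refine ⟨l, fun a ha b hb => Units.ext ?_, (Submodule.ne_bot_iff _).2
    ⟨v, ⟨fun a ha => hl a ha v hv, hle hv⟩, hv0⟩⟩
  apply smul_left_injective k hv0
  have := hl _ (A.mul_mem ha hb) v hv
  rw [rho_mul, hl b hb v hv, map_smul, hl a ha v hv, smul_smul, mul_comm] at this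
  exact this.symm

theorem nte_main : NTE_st := by
  intro k G V _ _ _ _ ρ H A S c hS hn hc v hv hv0 h1
  let W : Submodule k V :=
    { carrier := {w | ∀ a ∈ A, ρ a w = c a • w}
      add_mem' := fun {v w} hv hw a ha => by rw [map_add, hv a ha, hw a ha, smul_add]
      zero_mem' := fun a _ => by simp
      smul_mem' := fun c v hv a ha => by rw [map_smul, hv a ha, smul_comm] }
  rcases hS.2.2 (S ⊓ W) inf_le_left (fun h hh w hw => ⟨hS.2.1 h hh w hw.1, fun a ha => by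
    have e : a * h = h * (h⁻¹ * a * h) := by group
    have e' := hc h⁻¹ (H.inv_mem hh) a ha
    rw [inv_inv] at e'
    rw [← rho_mul, e, rho_mul, hw.2 _ (hn.inv hh ha), e', map_smul]⟩) with e | e
  · have : v ∈ S ⊓ W := ⟨hv, h1⟩
    rw [e] at this
    exact absurd ((Submodule.mem_bot k).1 this) hv0
  · exact fun a ha w hw => (e.ge hw).2 a ha

theorem nt_main : NT_st := by
  intro k G V _ _ _ _ ρ K _ h v hv0 h1 g hg
  have := nte_main ρ ⊤ K ⊤ (fun _ => 1) ((irr_iff ρ).1 h) (NormBy.of_normal _ _)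
    (fun _ _ _ _ => rfl) v trivial hv0 (fun a ha => by rw [h1 a ha, one_smul]) g hg
  ext w
  rw [this w trivial, one_smul, Module.End.one_apply]

end Pool.Agent.MP_f0649b_al.F

end

section

open Module
open scoped commutatorElement

namespace Pool.Agent.MP_f0649b_al.F

namespace DLAux

variable {k G V : Type} [Field k] [Group G] [AddCommGroup V] [Module k V]

theorem move {ρ : Representation k G V} {H A : Subgroup G} {S : Submodule k V} {l : G → kˣ}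
    (hn : NormBy H A) (hS : Inv ρ H S) {h : G} (hh : h ∈ H)
    (e : ∀ a ∈ A, l (h⁻¹ * a * h) = l a) {v : V} (hv : v ∈ Eig ρ A l ⊓ S) :
    ρ h v ∈ Eig ρ A l ⊓ S := by
  refine ⟨fun a ha => ?_, hS h hh v hv.2⟩
  rw [← map_smul, ← e a ha, ← hv.1 _ (hn.inv hh ha), ← rho_mul, ← rho_mul]
  congr 2
  group

theorem stab {ρ : Representation k G V} {H A : Subgroup G} {S : Submodule k V} {l : G → kˣ}
    (hn : NormBy H A) (hS : Inv ρ H S) {h : G} (hh : h ∈ H)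
    (e : ∀ a ∈ A, l (h⁻¹ * a * h) = l a) : h ∈ stabS ρ (Eig ρ A l ⊓ S) := fun v => by
  refine ⟨move hn hS hh e, fun hv => ?_⟩
  rw [← rho_inv_apply ρ h v]
  refine move hn hS (H.inv_mem hh) (fun a ha => ?_) hv
  rw [inv_inv, ← e _ (hn h hh a ha)]
  congr 1
  group

theorem scal {ρ : Representation k G V} {S W : Submodule k V} (hW : W ≤ S) {g : G}
    (hi : ∀ v ∈ S, ρ g⁻¹ v ∈ S) (h : ScalOn ρ g S) : g ∈ stabS ρ W := fun v => by
  obtain ⟨c, hc⟩ := h
  refine ⟨fun hv => by rw [hc v (hW hv)]; exact W.smul_mem c hv, fun hv => ?_⟩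
  have h1 : v ∈ S := by
    rw [← rho_inv_apply ρ g v]
    exact hi _ (hW hv)
  by_cases h0 : c = 0
  · by_contra hne
    refine rho_ne_zero ρ g (fun e => hne ?_) (by rw [hc v h1, h0, zero_smul])
    rw [e]
    exact W.zero_mem
  · rw [hc v h1] at hv
    exact (W.smul_mem_iff h0).1 hv

end DLAux

theorem dl_of (h1 : CLIF_st) (h2 : EIGV_st) : DL_st := by
  intro k G V _ _ _ _ _ _ _ ρ H S hS
  induction hd : finrank k S using Nat.strong_induction_on generalizing H S with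
  | _ n ih =>
  subst hd
  by_cases hp : Prim ρ H S
  · exact ⟨H, le_rfl, S, le_rfl, hS, by rw [Subgroup.relIndex_self, one_mul], hp, fun _ hg _ => hg⟩
  simp only [Prim, not_forall] at hp
  obtain ⟨A, hA, hn, hc, a0, ha0, hns⟩ := hp
  obtain ⟨l, -, hW⟩ := h2 ρ A S hS.1 (hS.2.1.mono hA) hc
  have hlt : Eig ρ A l ⊓ S < S := lt_of_le_of_ne inf_le_right fun e =>
    hns ⟨l a0, fun v hv => (e.ge hv).1 a0 ha0⟩
  obtain ⟨e1, e2⟩ := h1 ρ H (H ⊓ stabS ρ (Eig ρ A l ⊓ S)) S (Eig ρ A l ⊓ S) hS inf_le_left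
    inf_le_right hW (fun h hh v hv => (hh.2 v).1 hv)
    (sep_eig hn inf_le_left fun h hh e => ⟨hh, DLAux.stab hn hS.2.1 hh e⟩)
  obtain ⟨H1, a1, S1, a2, a3, a4, a5, a6⟩ :=
    ih _ (Submodule.finrank_lt_finrank_of_lt hlt) _ _ e2 rfl
  refine ⟨H1, a1.trans inf_le_left, S1, a2.trans inf_le_right, a3, ?_, a5, fun g hg hs =>
    a6 g ⟨hg, DLAux.scal inf_le_right (hS.2.1 _ (H.inv_mem hg)) hs⟩ (hs.mono inf_le_right)⟩
  rw [e1, ← a4, ← Subgroup.relIndex_mul_relIndex H1 _ H a1 inf_le_left]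
  ring

end Pool.Agent.MP_f0649b_al.F

end

section

open Module
open scoped commutatorElement

namespace Pool.Agent.MP_f0649b_al.F

theorem li0_main : LI0_st := by
  intro k G V ι _ _ _ _ ρ B S hS hne hc b hb
  set r := res ρ B S hS with hr
  choose w hw using fun a c : B => hc a a.2 c c.2
  have h1 : ∀ a c : B, r (a * c) = w a c • r (c * a) := fun a c => by
    have e : r ⁅a, c⁆ = w a c • (1 : End k S) := LinearMap.ext fun v => Subtype.ext (hw a c v v.2)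
    rw [show a * c = ⁅a, c⁆ * (c * a) by rw [commutatorElement_def]; group, map_mul r ⁅a, c⁆, e,
      smul_mul_assoc, one_mul]
  have h2 : ∀ a c x y : B, r (x * (a * c) * y) = w a c • r (x * (c * a) * y) := fun a c x y => by
    rw [map_mul, map_mul, h1, map_mul r (x * _), map_mul r x, mul_smul_comm, smul_mul_assoc]
  have : Nontrivial S := Submodule.nontrivial_iff_ne_bot.2 hne
  refine eig_li (fun c : B => LinearMap.mulLeftRight k (r c⁻¹, r c)) (fun i c => w (b i) c)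
    (fun i j e => by_contra fun hij => ?_) _ (fun i => ((Group.isUnit (b i)).map r).ne_zero)
    fun i c => ?_
  · obtain ⟨c, hcB, v, hv, h⟩ := hb i j hij
    have e1 := h2 (b j) ⟨c, hcB⟩ (b i)⁻¹ (((b i)⁻¹ * b j)⁻¹ * (⟨c, hcB⟩ : B)⁻¹)
    have e2 := h2 (b i) ⟨c, hcB⟩ (b i)⁻¹ (⟨c, hcB⟩ : B)⁻¹
    have e3 : w (b i) ⟨c, hcB⟩ = w (b j) ⟨c, hcB⟩ := congrFun e _
    have e4 : r ⁅(b i)⁻¹ * b j, (⟨c, hcB⟩ : B)⁆ = r 1 := by
      rw [e3] at e2
      convert e1.trans (Eq.trans ?_ e2.symm) using 2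
      · rw [commutatorElement_def]; group
      · group
      · congr 2
        group
    rw [map_one] at e4
    exact h (congrArg Subtype.val (LinearMap.congr_fun e4 ⟨v, hv⟩))
  · have e := h2 (b i) c c⁻¹ 1
    rw [mul_one, mul_one, inv_mul_cancel_left, map_mul, map_mul, ← mul_assoc] at e
    exact e

theorem li_of (h1 : LI0_st) : LI_st := by
  intro k G V _ _ _ _ _ _ ρ B Z S hS hne hc hZ
  have := Fintype.ofFinite (B ⧸ Z.subgroupOf B)
  have h := (h1 ρ B S hS hne hc (fun q : B ⧸ Z.subgroupOf B => q.out) fun i j hij => by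
    by_contra e
    push Not at e
    exact hij (QuotientGroup.out_eq' i ▸ QuotientGroup.out_eq' j ▸ QuotientGroup.eq.2
      (hZ _ (i.out⁻¹ * j.out).2 e))).fintype_card_le_finrank
  rwa [← Nat.card_eq_fintype_card, Module.finrank_linearMap, ← sq] at h

end Pool.Agent.MP_f0649b_al.F

end

section

open Module
open scoped commutatorElement

namespace Pool.Agent.MP_f0649b_al.F

namespace DecEAux

theorem dvd_of_indep {k V ι : Type} [Field k] [AddCommGroup V] [Module k V] [FiniteDimensional k V]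
    (W : ι → Submodule k V) (h1 : iSupIndep W) (h2 : ⨆ i, W i = ⊤) (n : ℕ)
    (h3 : ∀ i, n ∣ finrank k (W i)) : n ∣ finrank k V := by
  classical
  have key : ∀ s : Finset ι, n ∣ finrank k (⨆ i ∈ s, W i : Submodule k V) := by
    intro s
    induction s using Finset.induction_on with
    | empty =>
      have h4 : (⨆ i ∈ (∅ : Finset ι), W i) = ⊥ := by simp
      rw [h4, finrank_bot]
      exact dvd_zero n
    | insert i s hi ih =>
      have h4 := Submodule.finrank_sup_add_finrank_inf_eq (W i) (⨆ j ∈ s, W j)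
      have h5 : Disjoint (W i) (⨆ j ∈ s, W j) := h1.disjoint_biSup (y := (s : Set ι)) hi
      rw [h5.eq_bot, finrank_bot, add_zero] at h4
      rw [Finset.iSup_insert, h4]
      exact dvd_add (h3 i) ih
  have h6 := WellFoundedGT.finite_ne_bot_of_iSupIndep h1
  have h7 : ⨆ i ∈ h6.toFinset, W i = ⊤ := by
    rw [eq_top_iff, ← h2]
    refine iSup_le fun i => ?_
    by_cases h : W i = ⊥
    · rw [h]; exact bot_le
    · exact le_iSup₂ (f := fun i (_ : i ∈ h6.toFinset) => W i) i (h6.mem_toFinset.2 h)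
  have := key h6.toFinset
  rwa [h7, finrank_top] at this

end DecEAux

theorem dec_main : DEC_st := by
  intro k G V _ _ _ _ _ _ _ ρ A n hc he hd
  classical
  have hm : ∀ (a b : A) φ, Set.MapsTo (ρ a) (End.maxGenEigenspace (ρ b) φ)
      (End.maxGenEigenspace (ρ b) φ) := fun a b φ =>
    End.mapsTo_maxGenEigenspace_of_comm (LinearMap.ext fun v => hc b b.2 a a.2 v trivial) φ
  have hs : ∀ (a : A) φ, End.maxGenEigenspace (ρ a) φ = End.eigenspace (ρ a) φ := fun a φ => by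
    obtain ⟨e, h1, h2⟩ := he a a.2
    refine (End.isSemisimple_of_squarefree_aeval_eq_zero
      (Polynomial.X_pow_sub_one_separable_iff.2 h1).squarefree
      ?_).isFinitelySemisimple.maxGenEigenspace_eq_eigenspace φ
    rw [map_sub, map_pow, Polynomial.aeval_X, map_one, ← map_pow, h2, sub_self]
  refine DecEAux.dvd_of_indep (fun χ : A → k => ⨅ a : A, End.maxGenEigenspace (ρ a) (χ a))
    (End.independent_iInf_maxGenEigenspace_of_forall_mapsTo _ hm)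
    (End.iSup_iInf_maxGenEigenspace_eq_top_of_forall_mapsTo _ hm fun a =>
      End.iSup_maxGenEigenspace_eq_top _) n fun χ => ?_
  have hW : ∀ v, v ∈ (⨅ a : A, End.maxGenEigenspace (ρ a) (χ a)) ↔ ∀ a : A, ρ a v = χ a • v :=
    fun v => by simp only [Submodule.mem_iInf, hs, End.mem_eigenspace_iff]
  by_cases h0 : (⨅ a : A, End.maxGenEigenspace (ρ a) (χ a)) = ⊥
  · rw [h0, finrank_bot]; exact dvd_zero n
  obtain ⟨v, hv, hv0⟩ := (Submodule.ne_bot_iff _).1 h0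
  rw [hW] at hv
  have hχ : ∀ a, χ a ≠ 0 := fun a h => rho_ne_zero ρ a hv0 (by rw [hv, h, zero_smul])
  let l : G → kˣ := fun g => if h : g ∈ A then Units.mk0 _ (hχ ⟨g, h⟩) else 1
  have hl : ∀ a : A, (l a : k) = χ a := fun a => by simp [l]
  have e : (⨅ a : A, End.maxGenEigenspace (ρ a) (χ a)) = Eig ρ A l := by
    ext w
    rw [hW, mem_Eig]
    exact ⟨fun h a ha => by rw [hl ⟨a, ha⟩]; exact h ⟨a, ha⟩, fun h a => by rw [← hl, h a a.2]⟩
  rw [e] at h0 ⊢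
  refine hd l (fun a ha b hb => Units.ext (smul_left_injective k hv0 ?_)) h0
  have h1 := hv ⟨a * b, A.mul_mem ha hb⟩
  have h2 := hv ⟨a, ha⟩
  have h3 := hv ⟨b, hb⟩
  rw [← hl] at h1 h2 h3
  dsimp only at h1 h2 h3 ⊢
  rw [← h1, rho_mul, h3, map_smul, h2, smul_smul, Units.val_mul, mul_comm]

end Pool.Agent.MP_f0649b_al.F

end

section

open Module
open scoped commutatorElement

namespace Pool.Agent.MP_f0649b_al.F

namespace GlueAux

theorem dec {G : Type} [Group G] {K1 K2 : Subgroup G} (hn : NormBy K1 K2) {g : G}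
    (hg : g ∈ K1 ⊔ K2) : ∃ a ∈ K1, a⁻¹ * g ∈ K2 := by
  let P : Subgroup G :=
    { carrier := {g | ∃ a ∈ K1, a⁻¹ * g ∈ K2}
      one_mem' := ⟨1, K1.one_mem, by simp⟩
      mul_mem' := by
        rintro x y ⟨a, ha, hx⟩ ⟨b, hb, hy⟩
        refine ⟨a * b, K1.mul_mem ha hb, ?_⟩
        have e : (a * b)⁻¹ * (x * y) = b⁻¹ * (a⁻¹ * x) * b * (b⁻¹ * y) := by group
        rw [e]
        exact K2.mul_mem (hn.inv hb hx) hy
      inv_mem' := by
        rintro x ⟨a, ha, hx⟩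
        refine ⟨a⁻¹, K1.inv_mem ha, ?_⟩
        have e : a⁻¹⁻¹ * x⁻¹ = a * (a⁻¹ * x)⁻¹ * a⁻¹ := by group
        rw [e]
        exact hn a ha _ (K2.inv_mem hx) }
  have h : K1 ⊔ K2 ≤ P :=
    sup_le (fun a ha => ⟨a, ha, by simp⟩) fun b hb => ⟨1, K1.one_mem, by simpa using hb⟩
  exact h hg

end GlueAux

theorem glue_main : GLUE_st := by
  intro k G _ _ K1 K2 l1 l2 h1 h2 hn hi hc
  classical
  have wd : ∀ g a b : G, a ∈ K1 → a⁻¹ * g ∈ K2 → b ∈ K1 → b⁻¹ * g ∈ K2 →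
      l1 a * l2 (a⁻¹ * g) = l1 b * l2 (b⁻¹ * g) := by
    intro g a b ha hx hb hy
    have m1 : b⁻¹ * a ∈ K1 := K1.mul_mem (K1.inv_mem hb) ha
    have m2 : b⁻¹ * a ∈ K2 := by
      have e : b⁻¹ * a = b⁻¹ * g * (a⁻¹ * g)⁻¹ := by group
      rw [e]
      exact K2.mul_mem hy (K2.inv_mem hx)
    have e1 : l1 a = l1 b * l1 (b⁻¹ * a) := by rw [← h1 b hb _ m1, mul_inv_cancel_left]
    have e2 : l2 (b⁻¹ * g) = l2 (b⁻¹ * a) * l2 (a⁻¹ * g) := by
      rw [← h2 _ m2 _ hx, mul_assoc, mul_inv_cancel_left]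
    rw [e1, e2, hc _ m1 m2, mul_assoc]
  let l : G → kˣ := fun g =>
    if h : ∃ a ∈ K1, a⁻¹ * g ∈ K2 then l1 h.choose * l2 (h.choose⁻¹ * g) else 1
  have hl : ∀ g a : G, a ∈ K1 → a⁻¹ * g ∈ K2 → l g = l1 a * l2 (a⁻¹ * g) := by
    intro g a ha hx
    have h : ∃ a ∈ K1, a⁻¹ * g ∈ K2 := ⟨a, ha, hx⟩
    simp only [l, dif_pos h]
    exact wd g _ a h.choose_spec.1 h.choose_spec.2 ha hx
  refine ⟨l, fun x hx y hy => ?_, fun a ha => ?_, fun b hb => ?_⟩
  · obtain ⟨a, ha, hx⟩ := GlueAux.dec hn hx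
    obtain ⟨b, hb, hy⟩ := GlueAux.dec hn hy
    have e : (a * b)⁻¹ * (x * y) = b⁻¹ * (a⁻¹ * x) * b * (b⁻¹ * y) := by group
    have m := hn.inv hb hx
    have e3 : l2 (b⁻¹ * (a⁻¹ * x) * b) = l2 (a⁻¹ * x) := by
      simpa using hi b⁻¹ (K1.inv_mem hb) _ hx
    rw [hl (x * y) (a * b) (K1.mul_mem ha hb) (e ▸ K2.mul_mem m hy), hl x a ha hx, hl y b hb hy,
      e, h1 a ha b hb, h2 _ m _ hy, e3, mul_mul_mul_comm]
  · rw [hl a a ha (by simp), inv_mul_cancel, h2.one, mul_one]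
  · rw [hl b 1 K1.one_mem (by simpa using hb), h1.one, inv_one, one_mul, one_mul]

end Pool.Agent.MP_f0649b_al.F

end

section

open Module
open scoped commutatorElement

namespace Pool.Agent.MP_f0649b_al.F

namespace OrbAux

theorem dvd_index {G : Type} [Group G] [Finite G] (S J : Subgroup G) [J.Normal] :
    S.relIndex J ∣ S.index := by
  have h1 := Subgroup.relIndex_mul_relIndex (S ⊓ J) J (S ⊔ J) inf_le_right le_sup_right
  have h2 := Subgroup.relIndex_mul_relIndex (S ⊓ J) S (S ⊔ J) inf_le_left le_sup_left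
  rw [Subgroup.inf_relIndex_right, Subgroup.relIndex_sup_right] at h1
  rw [Subgroup.inf_relIndex_left, ← h1, mul_comm] at h2
  have h3 : J.relIndex S ≠ 0 := Subgroup.FiniteIndex.index_ne_zero
  rw [← mul_right_cancel₀ h3 h2]
  exact Subgroup.relIndex_dvd_index_of_le le_sup_left

end OrbAux

theorem orb_main : ORB_st := by
  intro G X _ _ _ H
  have h1 : ∀ x : X, (MulAction.stabilizer G x).relIndex H = {y | ∃ h ∈ H, h • x = y}.ncard := by
    intro x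
    refine (MulAction.index_stabilizer H x).trans ?_
    congr 1
    ext y
    exact ⟨fun ⟨h, e⟩ => ⟨h, h.2, e⟩, fun ⟨h, m, e⟩ => ⟨⟨h, m⟩, e⟩⟩
  have h2 : ∀ (A : Set X), (∀ h ∈ H, ∀ x ∈ A, h • x ∈ A) → ∀ x ∈ A,
      {y | ∃ h ∈ H, h • x = y} ⊆ A := by
    rintro A hA x hx _ ⟨h, m, rfl⟩
    exact hA h m x hx
  refine ⟨h1, fun A hf hA => ⟨fun x hx => ?_, fun n => ?_⟩, fun J hJ hn x => ?_⟩
  · rw [h1]
    exact Set.ncard_le_ncard (h2 A hA x hx) hf
  · induction hm : A.ncard using Nat.strong_induction_on generalizing A with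
    | _ m ih =>
      intro hd
      rcases A.eq_empty_or_nonempty with rfl | ⟨x, hx⟩
      · rw [← hm, Set.ncard_empty]
        exact dvd_zero n
      have hs := h2 A hA x hx
      have e := Set.ncard_sdiff_add_ncard_of_subset hs hf
      have hp : 0 < {y | ∃ h ∈ H, h • x = y}.ncard :=
        (Set.ncard_pos (hf.subset hs)).2 ⟨x, 1, H.one_mem, one_smul G x⟩
      rw [← hm, ← e]
      refine dvd_add (ih _ (by omega) _ hf.sdiff ?_ rfl fun y hy => hd y hy.1) (h1 x ▸ hd x hx)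
      rintro h m y ⟨y1, y2⟩
      refine ⟨hA h m y y1, ?_⟩
      rintro ⟨g, mg, e⟩
      exact y2 ⟨h⁻¹ * g, H.mul_mem (H.inv_mem m) mg, by rw [mul_smul, e, inv_smul_smul]⟩
  · have : (J.subgroupOf H).Normal := ⟨fun a ha g => hn g g.2 a ha⟩
    rw [← Subgroup.relIndex_subgroupOf hJ]
    exact OrbAux.dvd_index _ _

end Pool.Agent.MP_f0649b_al.F

end

section

open Module
open scoped commutatorElement

namespace Pool.Agent.MP_f0649b_al.F

namespace MonAux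

/-- the one dimensional representation of a linear character -/
noncomputable def lin {U : Type} [Group U] (χ : U →* ℂˣ) : Rp ℂ U where
  V := ℂ
  ρ :=
    { toFun := fun u => (χ u : ℂ) • (1 : Module.End ℂ ℂ)
      map_one' := by simp
      map_mul' := fun a b => by
        rw [map_mul, Units.val_mul, smul_mul_smul_comm, mul_one] }

theorem lin_irr {U : Type} [Group U] (χ : U →* ℂˣ) : Irr (lin χ).ρ :=
  ⟨inferInstanceAs (Nontrivial ℂ), fun S _ => eq_bot_or_eq_top (α := Submodule ℂ ℂ) S⟩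

theorem lin_dim {U : Type} [Group U] (χ : U →* ℂˣ) : (lin χ).dim = 1 :=
  Module.finrank_self ℂ

end MonAux

theorem mon_of (h1 : IE_st) : MON_st := by
  intro G _ _ U ν hν p hp
  obtain ⟨R, hR, ι, hι, he, h2, h3⟩ := h1 U.subtype U.subtype_injective (MonAux.lin hν.toHom)
    (MonAux.lin_irr _) p hp
  rw [MonAux.lin_dim, mul_one, Subgroup.range_subtype] at h2 h3
  have key : ∀ m, ∀ a ∈ U, R.ρ a (ι m) = (ν a : ℂ) • ι m := fun m a ha => by
    rw [← map_smul]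
    exact he ⟨a, ha⟩ m
  have hd : finrank ℂ (LinearMap.range ι) = 1 := by
    rw [LinearMap.finrank_range_of_inj hι]
    exact MonAux.lin_dim _
  have hne : LinearMap.range ι ≠ ⊥ := fun e => by
    rw [e, finrank_bot] at hd
    exact zero_ne_one hd
  refine ⟨R, hR, fun e => hne (le_bot_iff.1 (e ▸ ?_)), h2, h3, U, LinearMap.range ι, hne, ?_, ?_⟩
  · rintro _ ⟨m, rfl⟩
    exact key m
  · rintro a ha _ ⟨m, rfl⟩
    rw [key m a ha]
    exact Submodule.smul_mem _ _ ⟨m, rfl⟩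
  · rw [hd, one_pow, mul_one]

theorem prec_of (h0 : L0) (h1 : MON_st) : PREC_st := by
  intro G _ _ Y S _ ε hε hS h2 ⟨y, hy, hyS, hne⟩
  obtain ⟨R, hR, hE, -, -, hW⟩ := h1 S ε hε 2 Nat.prime_two
  obtain ⟨v, hv, hv0⟩ := Submodule.exists_mem_ne_zero_of_ne_bot hE
  refine ⟨R, hR, h0.nt R.ρ ⁅Y, Y⁆ hR v hv0 fun g hg => ?_, fun hT => hne ?_, hW⟩
  · rw [hv g (hS hg), h2 g hg, Units.val_one, one_smul]
  · have h3 := hv y hyS
    rw [hT y hy, Module.End.one_apply] at h3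
    exact Units.ext (smul_left_injective ℂ hv0 (h3.symm.trans (one_smul ℂ v).symm))

theorem wd_of (h0 : L0) : WD_st := by
  intro G _ _ R n hR ⟨U, S, h1, h2, h3⟩
  have h4 := h0.span R.ρ ⊤ U ⊤ S ((irr_iff _).1 hR) le_top le_top h1 h2
  rw [Subgroup.relIndex_top_right, finrank_top] at h4
  exact h4.trans ((Nat.mul_le_mul_left _ (Nat.le_self_pow two_ne_zero _)).trans h3)

theorem abp_main : ABP_st := by
  intro G _ _ R Y hT
  obtain ⟨y, hy⟩ := not_forall.1 hT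
  obtain ⟨hy, hne⟩ := Classical.not_imp.1 hy
  have hf : IsOfFinOrder (R.ρ y) := R.ρ.isOfFinOrder (isOfFinOrder_of_finite y)
  have h0 := hf.orderOf_pos
  have h1 : orderOf (R.ρ y) ≠ 1 := fun e => hne (orderOf_eq_one_iff.1 e)
  have hp := Nat.minFac_prime h1
  refine ⟨_, hp, y ^ (orderOf (R.ρ y) / (orderOf (R.ρ y)).minFac), Y.pow_mem hy _, ?_, 1, ?_⟩
  · rw [map_pow]
    exact pow_ne_one_of_lt_orderOf (Nat.div_pos (Nat.minFac_le h0) hp.pos).ne'
      (Nat.div_lt_self h0 hp.one_lt)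
  · rw [pow_one, ← pow_mul, Nat.div_mul_cancel (Nat.minFac_dvd _), map_pow, pow_orderOf_eq_one]

end Pool.Agent.MP_f0649b_al.F

end

section

open Module
open scoped commutatorElement

namespace Pool.Agent.MP_f0649b_al.F

namespace PreAux

theorem range_eq {G U : Type} [Group G] [Group U] (φ : U →* G) :
    (φ.comp (⊤ : Subgroup U).subtype).range = φ.range := by
  ext g
  constructor
  · rintro ⟨u, rfl⟩
    exact ⟨u, rfl⟩
  · rintro ⟨u, rfl⟩
    exact ⟨⟨u, trivial⟩, rfl⟩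

theorem first (h0 : L0) (h1 : IE_st) {G U : Type} [Group G] [Finite G] [Group U] (φ : U →* G)
    (hφ : Function.Injective φ) (Y : Subgroup G) [Y.Normal] (M : Rp ℂ U)
    (hY : ⁅Y, Y⁆ ≤ φ.range) (hM : ∀ u, φ u ∈ ⁅Y, Y⁆ → M.ρ u = 1) (S : Submodule ℂ M.V)
    (hS : IrrOn M.ρ ⊤ S) (hu : ∃ u, φ u ∈ Y ∧ ∃ v ∈ S, M.ρ u v ≠ v) :
    Small Y (φ.range.index * finrank ℂ S ^ 2) := by
  obtain ⟨u, huY, v, hv, hne⟩ := hu
  let M' : Rp ℂ (⊤ : Subgroup U) := { V := S, ρ := res M.ρ ⊤ S hS.2.1 }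
  obtain ⟨R, hR, ι, hι, hc, -, -⟩ := h1 (φ.comp (⊤ : Subgroup U).subtype)
    (hφ.comp (⊤ : Subgroup U).subtype_injective) M' ((irr_res hS.2.1).2 hS) 2 Nat.prime_two
  have hc' : ∀ (w : U) (m : S), R.ρ (φ w) (ι m) = ι (res M.ρ ⊤ S hS.2.1 ⟨w, trivial⟩ m) :=
    fun w m => hc ⟨w, trivial⟩ m
  have hv0 : v ≠ 0 := by
    rintro rfl
    exact hne (map_zero _)
  have hι0 : ι (⟨v, hv⟩ : S) ≠ 0 := fun e =>
    hv0 (congrArg Subtype.val (hι (e.trans (map_zero ι).symm)))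
  refine ⟨R, hR, ?_, fun hT => hne ?_, φ.range, LinearMap.range ι, ?_, ?_, ?_⟩
  · refine h0.nt R.ρ ⁅Y, Y⁆ hR _ hι0 fun g hg => ?_
    obtain ⟨w, rfl⟩ := hY hg
    rw [hc']
    congr 1
    apply Subtype.ext
    rw [res_apply, hM w hg]
    rfl
  · have e := hc' u ⟨v, hv⟩
    rw [hT _ huY] at e
    exact (congrArg Subtype.val (hι e)).symm
  · intro e
    have : ι (⟨v, hv⟩ : S) ∈ LinearMap.range ι := ⟨_, rfl⟩
    rw [e] at this
    exact hι0 ((Submodule.mem_bot ℂ).1 this)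
  · rintro _ ⟨w, rfl⟩ _ ⟨m, rfl⟩
    exact ⟨_, (hc' w m).symm⟩
  · rw [LinearMap.finrank_range_of_inj hι]

end PreAux

theorem pre_of (h0 : L0) (h1 : IE_st) : PRE_st := by
  intro G U _ _ _ φ hφ Y _ M hY hM
  refine ⟨PreAux.first h0 h1 φ hφ Y M hY hM, fun hd hu => ?_⟩
  obtain ⟨u, huY, c, hc, hu⟩ := hu
  have hnt : Nontrivial M.V := Module.finrank_pos_iff.1 hd
  obtain ⟨S, -, hS⟩ := h0.exi M.ρ ⊤ ⊤ top_ne_bot fun _ _ _ _ => trivial
  obtain ⟨v, hv, hv0⟩ := Submodule.exists_mem_ne_zero_of_ne_bot hS.1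
  refine (PreAux.first h0 h1 φ hφ Y M hY hM S hS ⟨u, huY, v, hv, fun e => hc ?_⟩).mono ?_
  · rw [hu] at e
    have e' : c • v = (1 : ℂ) • v := by rw [one_smul]; exact e
    exact smul_left_injective ℂ hv0 e'
  · exact Nat.mul_le_mul_left _ (Nat.pow_le_pow_left (Submodule.finrank_le S) 2)

end Pool.Agent.MP_f0649b_al.F

end

section

open Module
open scoped commutatorElement

namespace Pool.Agent.MP_f0649b_al.F

namespace F1Aux

/-- characters trivial on a subgroup containing the commutator subgroup -/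
theorem chars {B : Type} [Group B] [Finite B] (A : Subgroup B) (h1 : commutator B ≤ A)
    (h2 : A ≠ ⊤) : {x : B →* ℂˣ | ∀ b ∈ A, x b = 1}.Finite ∧
      {x : B →* ℂˣ | ∀ b ∈ A, x b = 1}.ncard ≤ A.index ∧
      ∃ x : B →* ℂˣ, (∀ b ∈ A, x b = 1) ∧ x ≠ 1 := by
  have : A.Normal := Subgroup.Normal.of_commutator_le B h1
  have hc := Subgroup.Normal.quotient_commutative_iff_commutator_le.2 h1
  let _ : CommGroup (B ⧸ A) :=
    { QuotientGroup.Quotient.group A with mul_comm := hc.is_comm.comm }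
  have : NeZero (Monoid.exponent (B ⧸ A)) := ⟨Monoid.exponent_ne_zero_of_finite⟩
  have hcard := CommGroup.card_monoidHom_of_hasEnoughRootsOfUnity (B ⧸ A) ℂ
  have : Finite (B ⧸ A →* ℂˣ) := Nat.finite_of_card_ne_zero (hcard ▸ Nat.card_pos.ne')
  have hsub : {x : B →* ℂˣ | ∀ b ∈ A, x b = 1} ⊆
      (fun φ : B ⧸ A →* ℂˣ => φ.comp (QuotientGroup.mk' A)) '' Set.univ := fun x hx =>
    ⟨QuotientGroup.lift A x hx, trivial, MonoidHom.ext fun _ => rfl⟩
  have hfin := (Set.finite_univ (α := B ⧸ A →* ℂˣ)).image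
    fun φ : B ⧸ A →* ℂˣ => φ.comp (QuotientGroup.mk' A)
  refine ⟨hfin.subset hsub, (Set.ncard_le_ncard hsub hfin).trans
    ((Set.ncard_image_le Set.finite_univ).trans ?_), ?_⟩
  · rw [Set.ncard_univ, hcard]
    rfl
  · obtain ⟨b, hb⟩ : ∃ b, b ∉ A := by
      by_contra h
      push Not at h
      exact h2 ((Subgroup.eq_top_iff' A).2 h)
    obtain ⟨φ, hφ⟩ := CommGroup.exists_apply_ne_one_of_hasEnoughRootsOfUnity (B ⧸ A) ℂ
      (mt (QuotientGroup.eq_one_iff b).1 hb)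
    refine ⟨φ.comp (QuotientGroup.mk' A), fun a ha => ?_, fun e => hφ (DFunLike.congr_fun e b)⟩
    change φ (a : B ⧸ A) = 1
    rw [(QuotientGroup.eq_one_iff a).2 ha, map_one]

theorem idx {G : Type} [Group G] (Y S : Subgroup G) [Y.Normal] :
    Y.relIndex S * (S ⊔ Y).index = Y.index := by
  rw [← Subgroup.relIndex_sup_right S Y, Subgroup.relIndex_mul_index le_sup_right]

theorem idx1 {G : Type} [Group G] [Finite G] (Y S : Subgroup G) [Y.Normal] :
    S.index = S.relIndex Y * (S ⊔ Y).index := by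
  have h0 : 0 < Y.relIndex S := Nat.pos_of_ne_zero Subgroup.index_ne_zero_of_finite
  have h1 := Subgroup.relIndex_mul_index (inf_le_left : S ⊓ Y ≤ S)
  have h2 := Subgroup.relIndex_mul_index (inf_le_right : S ⊓ Y ≤ Y)
  rw [Subgroup.inf_relIndex_left] at h1
  rw [Subgroup.inf_relIndex_right, ← idx Y S, ← h1, mul_left_comm] at h2
  exact (Nat.eq_of_mul_eq_mul_left h0 h2).symm

theorem idx2 {G : Type} [Group G] [Finite G] (Y S K : Subgroup G) [Y.Normal] :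
    (S ⊓ K ⊔ Y).index ≤ K.relIndex S * (S ⊔ Y).index := by
  have h0 : 0 < Y.relIndex (S ⊓ K) := Nat.pos_of_ne_zero Subgroup.index_ne_zero_of_finite
  refine Nat.le_of_mul_le_mul_left ?_ h0
  rw [idx, ← idx Y S, ← mul_assoc, inf_comm, Subgroup.relIndex_inf_mul_relIndex]
  exact Nat.mul_le_mul_right _
    (Subgroup.relIndex_le_of_le_left inf_le_left Subgroup.index_ne_zero_of_finite)

/-- the frame whose radical is everything -/
def fr {G : Type} [Group G] (Y : Subgroup G) [hY : Y.Normal] : Frame G where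
  B := Y
  Z := Y
  ζ := fun _ => 1
  nB := hY
  le := le_rfl
  comm := fun _ ha _ hb => comm_self_le Y (Subgroup.commutator_mem_commutator ha hb)
  chr := fun _ _ _ _ => (mul_one _).symm
  rad := fun _ ha => ⟨fun _ _ _ => rfl, fun _ => ha⟩

end F1Aux

theorem f1a_of (h0 : L0) : F1a_st := by
  intro G _ _ Y S hY h1 h2
  classical
  obtain ⟨c1, c2, lam, c3, c4⟩ := F1Aux.chars (S.subgroupOf Y) (by
    rw [commutator_def, Subgroup.commutator_le]
    exact fun a _ b _ => h1 (Subgroup.commutator_mem_commutator a.2 b.2))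
    (mt Subgroup.subgroupOf_eq_top.1 h2)
  let F := F1Aux.fr Y
  let lam' : F.X := lam
  let XA : Set F.X := {x : Y →* ℂˣ | ∀ b ∈ S.subgroupOf Y, x b = 1}
  have h3 := ((h0.orb (X := F.X) S).2.1 (XA \ {1}) (Set.Finite.subset c1 Set.sdiff_subset)
    (fun h hh x hx => ⟨fun b hb => hx.1 _
      (S.mul_mem (S.mul_mem (S.inv_mem hh) hb) hh), fun e => hx.2 (by
        have e' : h • x = 1 := e
        exact (inv_smul_smul h x).symm.trans (by rw [e', smul_one]; rfl))⟩)).1 lam' ⟨c3, c4⟩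
  have h4 : (XA \ {1}).ncard + 1 = XA.ncard :=
    Set.ncard_sdiff_singleton_add_one (fun _ _ => rfl) c1
  let l2 : G → ℂˣ := fun g => if h : g ∈ Y then lam ⟨g, h⟩ else 1
  have e2 : ∀ g (h : g ∈ Y), l2 g = lam ⟨g, h⟩ := fun g h => dif_pos h
  obtain ⟨ν, n1, -, n2⟩ := h0.glue (S ⊓ MulAction.stabilizer G lam') Y (fun _ => 1) l2
    (fun _ _ _ _ => (mul_one _).symm)
    (fun a ha b hb => by rw [e2 a ha, e2 b hb, e2 _ (Y.mul_mem ha hb), ← map_mul]; rfl)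
    (NormBy.of_normal _ _)
    (fun h hh a ha => by
      have e : h • lam' = lam' := hh.2
      have := congrArg (fun x => F.ev x ⟨_, hY.conj_mem a ha h⟩) e
      rw [e2 a ha, e2 _ (hY.conj_mem a ha h)]
      refine this.symm.trans ?_
      rw [F.ev_smul]
      exact congrArg lam (Subtype.ext (by simp [mul_assoc])))
    (fun a ha hy => by rw [e2 a hy]; exact (c3 ⟨a, hy⟩ ha.1).symm)
  refine ⟨_, ν, n1, le_sup_right, ?_, ?_⟩
  · by_contra h
    push Not at h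
    exact c4 (MonoidHom.ext fun b => by rw [← e2 b b.2, ← n2 b b.2, h b b.2]; rfl)
  · have h5 := F1Aux.idx2 Y S (MulAction.stabilizer G lam')
    have h6 : (MulAction.stabilizer G lam').relIndex S + 1 ≤ S.relIndex Y :=
      (Nat.succ_le_succ h3).trans (h4.trans_le c2)
    rw [F1Aux.idx1 Y S]
    nlinarith [Nat.mul_le_mul_right (S ⊔ Y).index h6]

theorem f1_of (h1 : F1a_st) (h2 : PREC_st) : F1_st := by
  intro G _ _ Y S _ a1 a2
  obtain ⟨U, ν, n1, n2, ⟨y, hy, n3⟩, n4⟩ := h1 Y S a1 a2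
  exact ⟨_, h2 Y U ν n1 ((comm_self_le Y).trans n2) (n1.comm n2) ⟨y, hy, n2 hy, n3⟩, n4⟩

end Pool.Agent.MP_f0649b_al.F

end

section

open Module
open scoped commutatorElement

namespace Pool.Agent.MP_f0649b_al.F

namespace SymLAux

variable {G X : Type} [Group G] [CommGroup X] [MulDistribMulAction G X] (s : Sym G X)

/-- the duality map of the form -/
def dual : s.L →* (s.L →* ℂˣ) where
  toFun y :=
    { toFun := fun x => s.om x y
      map_one' := s.om_one_left y.2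
      map_mul' := fun x x' => s.om_left x x.2 x' x'.2 y y.2 }
  map_one' := MonoidHom.ext fun x => s.om_one_right x.2
  map_mul' y y' := MonoidHom.ext fun x => s.om_right x x.2 y y.2 y' y'.2

theorem dual_apply (x y : s.L) : dual s y x = s.om x y := rfl

theorem enough (A : Type) [CommGroup A] [Finite A] :
    HasEnoughRootsOfUnity ℂ (Monoid.exponent A) := by
  have : NeZero ((Monoid.exponent A : ℕ) : ℂ) :=
    ⟨by exact_mod_cast Monoid.exponent_ne_zero_of_finite⟩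
  infer_instance

theorem dual_bij : Function.Bijective (dual s) := by
  have := s.fin
  have := enough s.L
  have hc := CommGroup.card_monoidHom_of_hasEnoughRootsOfUnity s.L ℂ
  have : Finite (s.L →* ℂˣ) := Nat.finite_of_card_ne_zero (hc ▸ Nat.card_pos.ne')
  refine (Nat.bijective_iff_injective_and_card _).2 ⟨?_, hc.symm⟩
  rw [injective_iff_map_eq_one]
  intro y hy
  refine Subtype.ext (s.nondeg y y.2 fun x hx => ?_)
  have h1 : s.om x y = 1 := by
    rw [← dual_apply s ⟨x, hx⟩ y, hy, MonoidHom.one_apply]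
  rw [s.om_swap hx y.2, h1, inv_one]

theorem perp_le (R : Subgroup X) : s.perp R ≤ s.L := fun _ h => h.1

theorem card_mul (R : Subgroup X) (hR : R ≤ s.L) :
    Nat.card R * Nat.card (s.perp R) = Nat.card s.L := by
  have := s.fin
  have := enough s.L
  have h1 : (s.perp R).subgroupOf s.L =
      (MonoidHom.domRestrictHom (R.subgroupOf s.L) ℂˣ).ker.comap (dual s) := by
    ext y
    rw [Subgroup.mem_subgroupOf, Subgroup.mem_comap, MonoidHom.mem_ker, s.mem_perp]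
    constructor
    · intro h
      exact MonoidHom.ext fun x => h.2 x.1 x.2 x.1.2
    · intro h
      exact ⟨y.2, fun x hx hx' => DFunLike.congr_fun h ⟨⟨x, hx'⟩, hx⟩⟩
  have h2 : Nat.card (s.perp R) = Nat.card (s.L ⧸ R.subgroupOf s.L) := by
    rw [← Nat.card_congr (Subgroup.subgroupOfEquivOfLe (perp_le s R)).toEquiv, h1,
      ← CommGroup.card_domRestrictHom_ker ℂ]
    exact Nat.card_congr ((MulEquiv.ofBijective _ (dual_bij s)).toEquiv.subtypeEquiv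
      fun _ => Iff.rfl)
  rw [h2, ← Nat.card_congr (Subgroup.subgroupOfEquivOfLe hR).toEquiv, mul_comm,
    ← Subgroup.card_eq_card_quotient_mul_card_subgroup]

theorem iso_le {R : Subgroup X} (h : s.Iso R) : R ≤ s.perp R :=
  fun y hy => ⟨h.1 hy, fun x hx _ => h.2 x hx y hy⟩

theorem om_zpow_right {x y : X} (hx : x ∈ s.L) (hy : y ∈ s.L) (n : ℤ) :
    s.om x (y ^ n) = s.om x y ^ n := by
  have := DFunLike.congr_fun (map_zpow (dual s) ⟨y, hy⟩ n) ⟨x, hx⟩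
  exact this

theorem om_zpow_left {x y : X} (hx : x ∈ s.L) (hy : y ∈ s.L) (n : ℤ) :
    s.om (x ^ n) y = s.om x y ^ n := map_zpow (dual s ⟨y, hy⟩) ⟨x, hx⟩ n

theorem iso_sup {I : Subgroup X} (h : s.Iso I) {y : X} (hy : y ∈ s.perp I) :
    s.Iso (I ⊔ Subgroup.zpowers y) := by
  refine ⟨sup_le h.1 (Subgroup.zpowers_le_of_mem hy.1), ?_⟩
  intro a ha b hb
  obtain ⟨a1, ha1, _, ⟨m, rfl⟩, rfl⟩ := Subgroup.mem_sup.1 ha
  obtain ⟨b1, hb1, _, ⟨n, rfl⟩, rfl⟩ := Subgroup.mem_sup.1 hb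
  have hm := s.L.zpow_mem hy.1 m
  have hn := s.L.zpow_mem hy.1 n
  have e1 : s.om a1 y = 1 := hy.2 a1 ha1 (h.1 ha1)
  have e2 : s.om y b1 = 1 := by
    rw [s.om_swap (h.1 hb1) hy.1, hy.2 b1 hb1 (h.1 hb1), inv_one]
  change s.om (a1 * y ^ m) (b1 * y ^ n) = 1
  rw [s.om_left _ (h.1 ha1) _ hm _ (s.L.mul_mem (h.1 hb1) hn),
    s.om_right _ (h.1 ha1) _ (h.1 hb1) _ hn, s.om_right _ hm _ (h.1 hb1) _ hn,
    h.2 a1 ha1 b1 hb1, om_zpow_right s (h.1 ha1) hy.1, e1, om_zpow_left s hy.1 (h.1 hb1), e2,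
    om_zpow_left s hy.1 hn, om_zpow_right s hy.1 hy.1, s.om_self y hy.1]
  simp

theorem exists_lagr : ∃ I : Subgroup X, s.Iso I ∧ s.perp I = I := by
  have := s.fin
  have hfin : {I : Subgroup X | s.Iso I}.Finite := by
    refine Set.Finite.subset (Set.finite_range fun J : Subgroup s.L => J.map s.L.subtype) ?_
    intro I hI
    exact ⟨I.subgroupOf s.L, Subgroup.map_subgroupOf_eq_of_le hI.1⟩
  have hne : {I : Subgroup X | s.Iso I}.Nonempty := by
    refine ⟨⊥, bot_le, fun x hx y hy => ?_⟩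
    rw [Subgroup.mem_bot] at hx hy
    rw [hx, hy]
    exact s.om_self 1 s.L.one_mem
  obtain ⟨I, hI⟩ := hfin.exists_maximal hne
  refine ⟨I, hI.1, le_antisymm (fun y hy => ?_) (iso_le s hI.1)⟩
  have h1 : I ⊔ Subgroup.zpowers y ≤ I := hI.2 (iso_sup s hI.1 hy) le_sup_left
  exact h1 (Subgroup.mem_sup_right (Subgroup.mem_zpowers y))

end SymLAux

theorem sym_main : SYM_st := by
  intro G X _ _ _ s
  refine ⟨SymLAux.card_mul s, fun R hR => ?_, ?_⟩
  · rw [← SymLAux.card_mul s R hR.1, pow_two]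
    exact Nat.mul_dvd_mul_left _ (Subgroup.card_dvd_of_le (SymLAux.iso_le s hR))
  · obtain ⟨I, hI, e⟩ := SymLAux.exists_lagr s
    refine ⟨I, hI, ?_⟩
    rw [← SymLAux.card_mul s I hI.1, e, pow_two]

end Pool.Agent.MP_f0649b_al.F

end

section

open Module
open scoped commutatorElement

namespace Pool.Agent.MP_f0649b_al.F

namespace F3Aux

theorem orb_le (h0 : L0) {G X : Type} [Group G] [Finite G] [CommGroup X] [MulDistribMulAction G X]
    {H : Subgroup G} {Q : Subgroup X} [Finite Q] (hQ : SInv H Q) {x : X} (hx : x ∈ Q)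
    (hx1 : x ≠ 1) : orb H x + 1 ≤ Nat.card Q := by
  have hf : (Q : Set X).Finite := Set.toFinite _
  have h := ((h0.orb H).2.1 ((Q : Set X) \ {1}) hf.sdiff (fun h hh y hy =>
    ⟨hQ h hh y hy.1, fun e => hy.2 (by
      rw [Set.mem_singleton_iff] at e ⊢
      rw [← inv_smul_smul h y, e, smul_one])⟩)).1 x ⟨hx, hx1⟩
  have h2 := Set.ncard_sdiff_singleton_add_one (Q.one_mem : (1 : X) ∈ (Q : Set X)) hf
  have h3 : Nat.card Q = (Q : Set X).ncard := (Nat.card_coe_set_eq _)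
  rw [orb]
  omega

theorem orb_dvd {G X : Type} [Group G] [CommGroup X] [MulDistribMulAction G X]
    {H T : Subgroup G} (h : H ≤ T) (x : X) : orb T x * T.index ∣ orb H x * H.index := by
  rw [orb_mul_index, orb_mul_index]
  exact Subgroup.index_dvd_of_le (inf_le_inf_right _ h)

end F3Aux

open F3Aux in
theorem f3_of (h0 : L0) (h1 : L1) (h2 : L2) : F3_st := by
  intro G _ _ Y _ n ⟨R, hR, hT, hnT, hW⟩
  have hd := h1.wd R n hR hW
  obtain ⟨S, hS, hi, hS'⟩ := h1.cl2 R Y hR hT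
  by_cases hY : Y ≤ S
  swap
  · obtain ⟨m, hm, hle⟩ := h1.f1 Y S hS hY
    have : (S ⊔ Y).index ≠ 0 := Subgroup.index_ne_zero_of_finite
    exact hm.mono (by omega)
  obtain ⟨F, hB, hV, H, Q, hH, hQ, hI, hn⟩ := h2.lemr R Y n (hS' hY) hW
  subst hB
  have hfL : Finite F.L := F.sym.fin
  have hfL' : Finite F.sym.L := F.sym.fin
  have hfQ : Finite Q := Finite.of_injective _ (Subgroup.inclusion_injective hQ.1)
  have hHi : 0 < H.index := Nat.pos_of_ne_zero Subgroup.index_ne_zero_of_finite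
  have key : ∃ x ∈ F.L, x ≠ 1 ∧ orb H x * H.index + 1 ≤ n := by
    by_cases hq : Q = ⊥
    · have hL : F.L ≠ ⊥ := fun e => hnT (by
        obtain ⟨v, hv, hv0⟩ := (Submodule.ne_bot_iff _).1 hV
        refine h0.nt R.ρ _ hR v hv0 fun g hg => ?_
        have : ⁅F.B, F.B⁆ ≤ stab R.ρ v := by
          rw [Subgroup.commutator_le]
          intro a ha b hb
          have m := F.chi_mem ⟨a, ha⟩
          rw [e, Subgroup.mem_bot, F.chi_eq_one] at m
          rw [mem_stab, hv _ (F.comm a ha b hb), F.zeta_comm_left m hb, Units.val_one, one_smul]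
        exact this hg)
      obtain ⟨⟨x, hx⟩, hx1⟩ := Subgroup.ne_bot_iff_exists_ne_one.1 hL
      have hx1' : x ≠ 1 := fun e => hx1 (Subtype.ext e)
      have a := orb_le h0 (fun h hh => F.sym.inv h (hH hh)) hx hx1'
      rw [hq, Subgroup.card_bot, mul_one] at hn
      rw [Frame.sym_L] at a
      exact ⟨x, hx, hx1', by nlinarith⟩
    · obtain ⟨⟨x, hx⟩, hx1⟩ := Subgroup.ne_bot_iff_exists_ne_one.1 hq
      have hx1' : x ≠ 1 := fun e => hx1 (Subtype.ext e)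
      have a := orb_le h0 hI hx hx1'
      have b : Nat.card Q ^ 2 ≤ Nat.card F.L :=
        Nat.le_of_dvd Nat.card_pos ((h1.sym F.sym).2.1 Q hQ)
      have c : 0 < Nat.card Q := Nat.card_pos
      have d : H.index * Nat.card Q ≤ n :=
        Nat.le_of_mul_le_mul_right (by nlinarith) c
      exact ⟨x, hQ.1 hx, hx1', by nlinarith⟩
  obtain ⟨x, hx, hx1, hle⟩ := key
  obtain ⟨R', a1, a2, a3, a4, -⟩ := h2.monx F x hx hx1 2 Nat.prime_two
  have hpos : 0 < orb H x * H.index := by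
    rw [orb_mul_index]
    exact Nat.pos_of_ne_zero Subgroup.index_ne_zero_of_finite
  have := Nat.le_of_dvd hpos (orb_dvd hH x)
  exact ⟨R', a1, a2, a3, a4.mono (by omega)⟩

end Pool.Agent.MP_f0649b_al.F

end

section

open Module
open scoped commutatorElement

namespace Pool.Agent.MP_f0649b_al.F

theorem f3i_of (h1 : F3_st) : F3I_st := by
  intro G _ _ Y _ i
  induction i with
  | zero => intro n h; exact h
  | succ i ih =>
    intro n h
    rw [der_succ] at h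
    have h2 := ih _ (h1 (der Y i) n h)
    exact h2.mono (by omega)

theorem f2_of (h1 : F1_st) (h2 : F3I_st) : F2_st := by
  intro G _ _ _ Y S N _ hY hS hN
  obtain ⟨j, hj, hj'⟩ := der_last Y (fun K => K ≤ S) hY bot_le
  obtain ⟨n, hn, hle⟩ := h1 (der Y j) S hj' hj
  have h3 : S ⊔ der Y j ≤ N := sup_le hS ((der_le Y j).trans hN)
  have h4 : N.index ≤ (S ⊔ der Y j).index := Subgroup.index_antitone h3
  exact ⟨n - j, h2 Y j n hn, by omega⟩

theorem gpl_of (h1 : F2_st) (h2 : F3I_st) (h3 : PREC_st) : GPL_st := by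
  intro G _ _ _ Y _ μ hμ
  have ha : ∀ S : Subgroup G, S.index ≤ μ → Y ≤ S := by
    intro S hS
    by_contra h
    obtain ⟨n, hn, hle⟩ := h1 Y S ⊤ h le_top le_top
    have := hμ n hn
    rw [Subgroup.index_top] at hle
    omega
  have hi : ∀ (T S : Subgroup G) (c : ℕ), S ≤ T → S.relIndex T ≤ c → S.index ≤ c * T.index := by
    intro T S c hS hc
    rw [← Subgroup.relIndex_mul_index hS]
    exact Nat.mul_le_mul_right _ hc
  refine ⟨ha, fun i n hn => ?_, fun T c => ⟨fun hc S hS hr => ?_, fun hc S hS hr ε hε y hy => ?_⟩⟩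
  · exact (hμ _ (h2 Y i n hn)).trans (Nat.sub_le _ _)
  · exact ha S ((hi T S c hS hr).trans hc)
  · have h4 := hi T S c hS hr
    have hY : Y ≤ S := ha S (h4.trans hc.le)
    by_contra h
    have h5 := hμ _ (h3 Y S ε hε ((comm_self_le Y).trans hY) (hε.comm hY) ⟨y, hy, hY hy, h⟩)
    omega

end Pool.Agent.MP_f0649b_al.F

end
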