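import Pool.Agent.Mg.Ff0649b.G495e50
import Pool.Agent.Mg.Ff0649b.Ga6324e
import Pool.Agent.Mg.Ff0649b.Ge0f87c

section

/-! Schur lemma and its consequences. -/

open Module

namespace Pool.Agent.MP_f0649b_al

variable {G : Type} [Group G] {V W : Type} [AddCommGroup V] [Module ℂ V] [AddCommGroup W]
  [Module ℂ W]

theorem schur [FiniteDimensional ℂ V] {ρ : Representation ℂ G V} (hρ : Irr ρ)
    (T : Module.End ℂ V) (hT : ∀ g, T * ρ g = ρ g * T) : ∃ c : ℂ, T = c • (1 : Module.End ℂ V) := by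
  have := hρ.1
  obtain ⟨c, hc⟩ := Module.End.exists_eigenvalue T
  refine ⟨c, ?_⟩
  have hinv : ∀ g, ∀ v ∈ T.eigenspace c, ρ g v ∈ T.eigenspace c := by
    intro g v hv
    rw [Module.End.mem_eigenspace_iff] at hv ⊢
    rw [← Module.End.mul_apply, hT, Module.End.mul_apply, hv, map_smul]
  rcases hρ.2 _ hinv with h | h
  · exact absurd h hc
  · ext v
    have hv : v ∈ T.eigenspace c := h ▸ Submodule.mem_top
    rw [Module.End.mem_eigenspace_iff] at hv
    simpa using hv

theorem dim_pos [FiniteDimensional ℂ V] {ρ : Representation ℂ G V} (hρ : Irr ρ) :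
    0 < finrank ℂ V := by
  have := hρ.1
  exact Module.finrank_pos

theorem dim_one_of_comm [FiniteDimensional ℂ V] {ρ : Representation ℂ G V} (hρ : Irr ρ)
    (h : ∀ x y, Commute (ρ x) (ρ y)) : finrank ℂ V = 1 := by
  have := hρ.1
  obtain ⟨v, hv⟩ := exists_ne (0 : V)
  have hinv : ∀ g, ∀ w ∈ Submodule.span ℂ {v}, ρ g w ∈ Submodule.span ℂ {v} := by
    intro g w hw
    obtain ⟨c, hc⟩ := schur hρ (ρ g) (fun y => h g y)
    rw [hc]
    simpa using Submodule.smul_mem _ c hw
  rcases hρ.2 _ hinv with h' | h'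
  · exact absurd (Submodule.span_singleton_eq_bot.1 h') hv
  · rw [← finrank_top, ← h', finrank_span_singleton hv]

theorem dim_one_of_commutator [FiniteDimensional ℂ V] {ρ : Representation ℂ G V} (hρ : Irr ρ)
    (h : ∀ x ∈ commutator G, ρ x = 1) : finrank ℂ V = 1 := by
  refine dim_one_of_comm hρ fun x y => ?_
  have h1 := h _ (Subgroup.commutator_mem_commutator (Subgroup.mem_top x) (Subgroup.mem_top y))
  rw [commutatorElement_def] at h1
  have h2 : x * y = x * y * x⁻¹ * y⁻¹ * (y * x) := by group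
  change ρ x * ρ y = ρ y * ρ x
  rw [← map_mul, h2, map_mul, h1, one_mul, map_mul]

theorem Basic1_comm {M : Type} [Monoid M] (f : G →* M) (hf : ∀ x y, f x * f y = f y * f x) :
    ∀ x ∈ commutator G, f x = 1 := by
  have : commutator G ≤ f.ker := by
    rw [commutator_def, Subgroup.commutator_le]
    intro x _ y _
    rw [MonoidHom.mem_ker, commutatorElement_def, map_mul, map_mul, map_mul, hf x y,
      mul_assoc (f y), ← map_mul f x, mul_inv_cancel, map_one, mul_one, ← map_mul,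
      mul_inv_cancel, map_one]
  exact fun x hx => this hx

theorem triv_of_dim_one (ρ : Representation ℂ G V) (h : finrank ℂ V = 1) :
    ∀ x ∈ commutator G, ρ x = 1 := by
  refine Basic1_comm ρ fun x y => ?_
  obtain ⟨v, -, hv⟩ := finrank_eq_one_iff'.1 h
  obtain ⟨a, ha⟩ := hv (ρ x v)
  obtain ⟨b, hb⟩ := hv (ρ y v)
  ext w
  obtain ⟨c, rfl⟩ := hv w
  simp only [Module.End.mul_apply, map_smul, ← ha, ← hb]
  rw [smul_comm a b]

theorem det_commutator (ρ : Representation ℂ G V) :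
    ∀ x ∈ commutator G, LinearMap.det (ρ x) = 1 := by
  exact Basic1_comm (LinearMap.det.comp ρ) fun x y => mul_comm _ _

/-- a normal subgroup acting nontrivially has no fixed vector -/
theorem fix_normal {ρ : Representation ℂ G V} (hρ : Irr ρ) (K : Subgroup G) [K.Normal]
    (hK : ∃ x ∈ K, ρ x ≠ 1) (v : V) (hv : ∀ x ∈ K, ρ x v = v) : v = 0 := by
  let U : Submodule ℂ V :=
    { carrier := {w | ∀ x ∈ K, ρ x w = w}
      add_mem' := fun {a b} ha hb x hx => by rw [map_add, ha x hx, hb x hx]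
      zero_mem' := fun x _ => map_zero _
      smul_mem' := fun c a ha x hx => by rw [map_smul, ha x hx] }
  have hinv : ∀ g, ∀ w ∈ U, ρ g w ∈ U := by
    intro g w hw x hx
    have h1 := hw (g⁻¹ * x * g) (Subgroup.Normal.conj_mem' inferInstance x hx g)
    have h2 : x * g = g * (g⁻¹ * x * g) := by group
    rw [← Module.End.mul_apply, ← map_mul, h2, map_mul, Module.End.mul_apply, h1]
  rcases hρ.2 U hinv with h | h
  · have : v ∈ U := hv
    rwa [h, Submodule.mem_bot] at this
  · obtain ⟨x, hx, hne⟩ := hK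
    refine absurd (LinearMap.ext fun w => ?_) hne
    have : w ∈ U := h ▸ Submodule.mem_top
    exact this x hx

theorem surj_of_over {ρ : Representation ℂ G V} {H : Subgroup G} {σ : Representation ℂ H W}
    (hσ : Irr σ) {φ : V →ₗ[ℂ] W} (hφ : φ ≠ 0) (hc : ∀ (h : H) v, φ (ρ h v) = σ h (φ v)) :
    Function.Surjective φ := by
  have hinv : ∀ g, ∀ w ∈ LinearMap.range φ, σ g w ∈ LinearMap.range φ := by
    rintro g _ ⟨v, rfl⟩
    exact ⟨_, hc g v⟩
  rcases hσ.2 _ hinv with h | h
  · exact absurd (LinearMap.range_eq_bot.1 h) hφ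
  · exact LinearMap.range_eq_top.1 h

theorem ne_one_of_over {ρ : Representation ℂ G V} {H : Subgroup G} {σ : Representation ℂ H W}
    (hσ : Irr σ) {φ : V →ₗ[ℂ] W} (hφ : φ ≠ 0) (hc : ∀ (h : H) v, φ (ρ h v) = σ h (φ v))
    (x : H) (hx : σ x ≠ 1) : ρ x ≠ 1 := by
  intro h1
  refine hx (LinearMap.ext fun w => ?_)
  obtain ⟨v, rfl⟩ := surj_of_over hσ hφ hc w
  rw [← hc, h1]
  rfl

end Pool.Agent.MP_f0649b_al

end

section

/-! Elementary facts on irreducible representations. -/

open Module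

namespace Pool.Agent.MP_f0649b_al

variable {G : Type} [Group G] {V W : Type} [AddCommGroup V] [Module ℂ V] [AddCommGroup W]
  [Module ℂ W]

theorem Dg.mem_cd {K : Subgroup G} {d : ℕ} (h : Dg K d) : d ∈ cd G := by
  obtain ⟨V, i1, i2, i3, ρ, h1, h2, -⟩ := h
  exact ⟨V, i1, i2, i3, ρ, h1, h2⟩

theorem Dg.mono {K L : Subgroup G} (hKL : K ≤ L) {d : ℕ} (h : Dg K d) : Dg L d := by
  obtain ⟨V, i1, i2, i3, ρ, h1, h2, x, hx, h3⟩ := h
  exact ⟨V, i1, i2, i3, ρ, h1, h2, x, hKL hx, h3⟩

theorem Dg.two_le {d : ℕ} (h : Dg (commutator G) d) : 2 ≤ d := by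
  obtain ⟨V, i1, i2, i3, ρ, h1, h2, x, hx, h3⟩ := h
  have h4 := dim_pos h1
  have h5 : finrank ℂ V ≠ 1 := fun e => h3 (triv_of_dim_one ρ e x hx)
  omega

theorem dg_of_cd {d : ℕ} (h : d ∈ cd G) (h1 : d ≠ 1) : Dg (commutator G) d := by
  obtain ⟨V, i1, i2, i3, ρ, h2, h3⟩ := h
  refine ⟨V, i1, i2, i3, ρ, h2, h3, ?_⟩
  by_contra h4
  push Not at h4
  exact h1 (h3 ▸ dim_one_of_commutator h2 h4)

theorem one_mem_cd (G : Type) [Group G] : 1 ∈ cd G := by
  refine ⟨ℂ, inferInstance, inferInstance, inferInstance, Representation.trivial ℂ G ℂ,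
    ⟨inferInstance, fun U _ => eq_bot_or_eq_top U⟩, finrank_self ℂ⟩

theorem irr_comp {k Q U : Type} [Field k] [Group Q] [AddCommGroup U] [Module k U] (π : G →* Q)
    (hπ : Function.Surjective π) (ρ : Representation k Q U) : Irr (ρ.comp π) ↔ Irr ρ := by
  refine and_congr_right fun _ => forall_congr' fun U => imp_congr_left ⟨fun h g => ?_,
    fun h g => h (π g)⟩
  obtain ⟨x, rfl⟩ := hπ g
  exact h x

theorem cd_of_surj {Q : Type} [Group Q] (π : G →* Q) (hπ : Function.Surjective π) :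
    cd Q ⊆ cd G := by
  rintro d ⟨V, i1, i2, i3, ρ, h1, h2⟩
  exact ⟨V, i1, i2, i3, ρ.comp π, (irr_comp π hπ ρ).2 h1, h2⟩

theorem MinDeg.of_surj {Q : Type} [Group Q] (π : G →* Q) (hπ : Function.Surjective π) {f : ℕ}
    (h : MinDeg G f) : MinDeg Q f := by
  intro d hd
  have h2 := hd.two_le
  exact h d (dg_of_cd (cd_of_surj π hπ hd.mem_cd) (by omega))

/-- an element outside the commutator subgroup is seen by a linear character -/
theorem exists_lin [Finite G] {x : G} (hx : x ∉ commutator G) : ∃ l : G →* ℂˣ, l x ≠ 1 := by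
  have h1 : Abelianization.of x ≠ 1 := fun e => hx (by
    rwa [← MonoidHom.mem_ker, Abelianization.ker_of] at e)
  have : Finite (Abelianization G) := Quotient.finite _
  have : NeZero (Monoid.exponent (Abelianization G)) := ⟨Monoid.exponent_ne_zero_of_finite⟩
  obtain ⟨φ, hφ⟩ := CommGroup.exists_apply_ne_one_of_hasEnoughRootsOfUnity (Abelianization G) ℂ h1
  exact ⟨φ.comp Abelianization.of, hφ⟩

end Pool.Agent.MP_f0649b_al

end

section

/-! Decomposition into irreducible constituents, and induction. -/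

open Module

namespace Pool.Agent.MP_f0649b_al

variable {G : Type} [Group G] {V W : Type} [AddCommGroup V] [Module ℂ V] [AddCommGroup W]
  [Module ℂ W]

theorem Dec_sub [Finite G] [FiniteDimensional ℂ V] (ρ : Representation ℂ G V)
    (Q : Submodule ℂ V → Prop) (h0 : Q ⊥)
    (h1 : ∀ U : Subrepresentation ρ, Irr U.toRepresentation → Q U.toSubmodule)
    (h2 : ∀ U U', U ⊓ U' = ⊥ → Q U → Q U' → Q (U ⊔ U')) : Q ⊤ := by
  have : NeZero (Nat.card G : ℂ) := ⟨Nat.cast_ne_zero.2 Nat.card_pos.ne'⟩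
  obtain ⟨U, ⟨hU, hQ⟩, hmax⟩ := wellFounded_gt.has_min
    {U : Submodule ℂ V | (∀ g, ∀ v ∈ U, ρ g v ∈ U) ∧ Q U} ⟨⊥, by simp, h0⟩
  obtain ⟨U', hc⟩ := exists_isCompl (⟨U, hU⟩ : Subrepresentation ρ)
  have c1 : U ⊓ U'.toSubmodule = ⊥ := congrArg Subrepresentation.toSubmodule hc.inf_eq_bot
  have c2 : U ⊔ U'.toSubmodule = ⊤ := congrArg Subrepresentation.toSubmodule hc.sup_eq_top
  by_cases e : U'.toSubmodule = ⊥
  · rw [e, sup_bot_eq] at c2
    exact c2 ▸ hQ
  obtain ⟨T, ⟨hT, hT0, hle⟩, hmin⟩ := wellFounded_lt.has_min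
    {T : Submodule ℂ V | (∀ g, ∀ v ∈ T, ρ g v ∈ T) ∧ T ≠ ⊥ ∧ T ≤ U'.toSubmodule}
    ⟨U'.toSubmodule, U'.apply_mem_toSubmodule, e, le_rfl⟩
  have c3 : U ⊓ T = ⊥ := le_bot_iff.1 (c1 ▸ inf_le_inf_left U hle)
  have hi : Irr (⟨T, hT⟩ : Subrepresentation ρ).toRepresentation := by
    refine ⟨Submodule.nontrivial_iff_ne_bot.2 hT0, fun (S : Submodule ℂ T) hS => ?_⟩
    refine or_iff_not_imp_left.2 fun hb =>
      Submodule.map_injective_of_injective T.injective_subtype ?_
    rw [Submodule.map_subtype_top]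
    refine (T.map_subtype_le S).eq_of_not_lt (hmin _ ⟨?_, fun e' => hb ?_,
      (T.map_subtype_le S).trans hle⟩)
    · rintro g _ ⟨v, hv, rfl⟩
      exact ⟨_, hS g v hv, rfl⟩
    · exact Submodule.map_injective_of_injective T.injective_subtype
        (e'.trans (Submodule.map_bot _).symm)
  refine absurd (left_lt_sup.2 fun hTU => hT0 ?_) (hmax (U ⊔ T) ⟨fun g v hv => ?_,
    h2 U T c3 hQ (h1 ⟨T, hT⟩ hi)⟩)
  · rw [← c3, inf_eq_right.2 hTU]
  · obtain ⟨a, ha, b, hb, rfl⟩ := Submodule.mem_sup.1 hv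
    rw [map_add]
    exact Submodule.add_mem_sup (hU g a ha) (hT g b hb)

theorem Dec_rank [Finite G] [FiniteDimensional ℂ W] (H : Subgroup G) (σ : Representation ℂ H W) :
    finrank ℂ (Representation.coindV H.subtype σ) = H.index * finrank ℂ W := by
  have := Fintype.ofFinite (G ⧸ H)
  let L : Representation.coindV H.subtype σ →ₗ[ℂ] (G ⧸ H → W) :=
    (LinearMap.funLeft ℂ W fun c : G ⧸ H => c.out⁻¹).comp (Submodule.subtype _)
  have hm : ∀ g : G, g * (QuotientGroup.mk g⁻¹ : G ⧸ H).out ∈ H := fun g => by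
    have := QuotientGroup.eq.1 (QuotientGroup.out_eq' (QuotientGroup.mk g⁻¹ : G ⧸ H)).symm
    rwa [inv_inv] at this
  have hb : Function.Bijective L := by
    refine ⟨(injective_iff_map_eq_zero L).2 fun f hf => Subtype.ext (funext fun g => ?_),
      fun F => ⟨⟨fun g => σ ⟨_, hm g⟩ (F (QuotientGroup.mk g⁻¹)), fun h g => ?_⟩, ?_⟩⟩
    · have h1 := f.2 ⟨_, hm g⟩ (QuotientGroup.mk g⁻¹ : G ⧸ H).out⁻¹
      have h2 : f.1 (QuotientGroup.mk g⁻¹ : G ⧸ H).out⁻¹ = 0 := congrFun hf (QuotientGroup.mk g⁻¹)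
      rw [h2, map_zero] at h1
      simpa using h1
    · have e : (QuotientGroup.mk (H.subtype h * g)⁻¹ : G ⧸ H) = QuotientGroup.mk g⁻¹ :=
        QuotientGroup.eq.2 (by simp)
      have e' : (⟨_, hm (H.subtype h * g)⟩ : H) = h * ⟨_, hm g⟩ :=
        Subtype.ext ((congrArg (fun c : G ⧸ H => h * g * c.out) e).trans (mul_assoc _ _ _))
      dsimp only
      rw [e', e, map_mul, Module.End.mul_apply]
    · funext c
      change σ ⟨_, hm c.out⁻¹⟩ (F (QuotientGroup.mk c.out⁻¹⁻¹)) = F c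
      have e : (⟨_, hm c.out⁻¹⟩ : H) = 1 := Subtype.ext (by simp)
      rw [e, map_one, inv_inv, QuotientGroup.out_eq', Module.End.one_apply]
  rw [(LinearEquiv.ofBijective L hb).finrank_eq, Module.finrank_pi_fintype, Finset.sum_const,
    Finset.card_univ, smul_eq_mul, Subgroup.index, Nat.card_eq_fintype_card]

theorem dec [Finite G] [FiniteDimensional ℂ V] (ρ : Representation ℂ G V) (P : ℕ → Prop)
    (h0 : P 0) (hadd : ∀ a b, P a → P b → P (a + b))
    (h : ∀ (V' : Type) [AddCommGroup V'] [Module ℂ V'] [FiniteDimensional ℂ V']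
      (ρ' : Representation ℂ G V'), Irr ρ' → ∀ ι : V' →ₗ[ℂ] V, Function.Injective ι →
      (∀ g v, ι (ρ' g v) = ρ g (ι v)) → P (finrank ℂ V')) : P (finrank ℂ V) := by
  rw [← finrank_top ℂ V]
  refine Dec_sub ρ (fun U => P (finrank ℂ U)) (by rwa [finrank_bot]) (fun U hU =>
    h _ _ hU U.toSubmodule.subtype U.toSubmodule.injective_subtype fun _ _ => rfl)
    fun U U' e a b => ?_
  have := Submodule.finrank_sup_add_finrank_inf_eq U U'
  rw [e, finrank_bot, add_zero] at this
  rw [this]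
  exact hadd _ _ a b

theorem dec_ne [Finite G] [FiniteDimensional ℂ V] (ρ : Representation ℂ G V) (K : Subgroup G)
    (hx : ∃ x ∈ K, ρ x ≠ 1) : ∃ d, d ≤ finrank ℂ V ∧ Dg K d := by
  obtain ⟨x, hK, hx⟩ := hx
  by_contra hn
  refine hx (LinearMap.ext fun v => Dec_sub ρ (fun U => ∀ v ∈ U, ρ x v = v) (by simp)
    (fun U hU w hw => ?_) (fun U U' _ a b w hw => ?_) v trivial)
  · by_contra e
    exact hn ⟨_, U.toSubmodule.finrank_le, _, _, _, inferInstance, _, hU, rfl, x, hK,
      fun e' => e (congrArg Subtype.val (LinearMap.congr_fun e' ⟨w, hw⟩))⟩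
  · obtain ⟨c, hc, d, hd, rfl⟩ := Submodule.mem_sup.1 hw
    rw [map_add, a c hc, b d hd]

theorem ind [Finite G] [FiniteDimensional ℂ W] (H : Subgroup G) (σ : Representation ℂ H W)
    (P : ℕ → Prop) (h0 : P 0) (hadd : ∀ a b, P a → P b → P (a + b))
    (h : ∀ (V' : Type) [AddCommGroup V'] [Module ℂ V'] [FiniteDimensional ℂ V']
      (ρ' : Representation ℂ G V'), Irr ρ' → ∀ φ : V' →ₗ[ℂ] W, φ ≠ 0 →
      (∀ (x : H) v, φ (ρ' x v) = σ x (φ v)) → P (finrank ℂ V')) :
    P (H.index * finrank ℂ W) := by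
  rw [← Dec_rank H σ]
  refine dec (Representation.coind H.subtype σ) P h0 hadd fun V' _ _ _ ρ' hρ ι hι hc =>
    h V' ρ' hρ ((LinearMap.proj (1 : G)).comp ((Submodule.subtype _).comp ι)) (fun e => ?_)
      fun x v => ?_
  · have := hρ.1
    obtain ⟨v, hv⟩ := exists_ne (0 : V')
    refine hv (hι (Subtype.ext (funext fun g => ?_)))
    have h1 : (ι (ρ' g v)).1 1 = 0 := LinearMap.congr_fun e (ρ' g v)
    have h2 : (ι (ρ' g v)).1 1 = (ι v).1 (1 * g) := by
      rw [hc]
      rfl
    rw [h2, one_mul] at h1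
    rw [h1, map_zero]
    rfl
  · have h2 : (ι (ρ' x v)).1 1 = (ι v).1 (1 * x) := by
      rw [hc]
      rfl
    have h3 := (ι v).2 x 1
    rw [mul_one] at h3
    rw [one_mul] at h2
    exact h2.trans h3

end Pool.Agent.MP_f0649b_al

end

section

/-! Comparison with simple objects of the category of representations. -/

open Module

namespace Pool.Agent.MP_f0649b_al

section aux

variable {G V : Type} [Group G] [AddCommGroup V] [Module ℂ V]

theorem Bridge_irr_iff (ρ : Representation ℂ G V) : Irr ρ ↔ ρ.IsIrreducible := by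
  constructor
  · rintro ⟨hV, h⟩
    have : Nontrivial (Subrepresentation ρ) := ⟨⊥, ⊤, fun e => by
      have : (⊥ : Submodule ℂ V) = ⊤ := congrArg Subrepresentation.toSubmodule e
      exact bot_ne_top this⟩
    refine ⟨fun U => ?_⟩
    rcases h U.toSubmodule (fun g v hv => U.apply_mem_toSubmodule g hv) with h1 | h1
    · exact Or.inl (Subrepresentation.toSubmodule_injective h1)
    · exact Or.inr (Subrepresentation.toSubmodule_injective h1)
  · intro h
    constructor
    · by_contra hv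
      rw [not_nontrivial_iff_subsingleton] at hv
      refine (bot_ne_top (α := Subrepresentation ρ)) ?_
      exact Subrepresentation.toSubmodule_injective (Subsingleton.elim _ _)
    · intro S hS
      rcases h.eq_bot_or_eq_top ⟨S, fun g v hv => hS g v hv⟩ with h1 | h1
      · exact Or.inl (congrArg Subrepresentation.toSubmodule h1)
      · exact Or.inr (congrArg Subrepresentation.toSubmodule h1)

theorem Bridge_finrank_le [Finite G] {ρ : Representation ℂ G V} (h : Irr ρ) :
    finrank ℂ V ≤ Nat.card G := by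
  classical
  have := Fintype.ofFinite G
  obtain ⟨hV, h⟩ := h
  obtain ⟨v, hv⟩ := exists_ne (0 : V)
  have h1 := h (Submodule.span ℂ (Set.range fun g => ρ g v)) (fun g w hw => by
    refine Submodule.span_induction (p := fun w _ => ρ g w ∈
      Submodule.span ℂ (Set.range fun g => ρ g v)) ?_ (by simp) ?_ ?_ hw
    · rintro _ ⟨x, rfl⟩
      exact Submodule.subset_span ⟨g * x, by simp⟩
    · intro x y _ _ hx hy
      rw [map_add]
      exact add_mem hx hy
    · intro c x _ hx
      rw [map_smul]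
      exact Submodule.smul_mem _ c hx)
  rcases h1 with h1 | h1
  · exfalso
    have : v ∈ Submodule.span ℂ (Set.range fun g => ρ g v) := Submodule.subset_span ⟨1, by simp⟩
    rw [h1] at this
    exact hv this
  · rw [Nat.card_eq_fintype_card]
    exact finrank_le_of_span_eq_top h1

theorem Bridge_card_ne [Finite G] : (Nat.card G : ℂ) ≠ 0 := by
  exact_mod_cast (Nat.card_pos (α := G)).ne'

open Representation in
theorem Bridge_of_norm [Fintype G] [FiniteDimensional ℂ V] (ρ : Representation ℂ G V)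
    (h : ∑ g, ρ.character g * ρ.character g⁻¹ = Nat.card G) : Irr ρ := by
  have := invertibleOfNonzero (Bridge_card_ne (G := G))
  have h1 := card_inv_mul_sum_char_mul_char_eq_finrank ρ ρ
  rw [h, inv_mul_cancel₀ Bridge_card_ne] at h1
  have h2 : finrank ℂ (IntertwiningMap ρ ρ) = 1 := by exact_mod_cast h1.symm
  have hV : ∃ v : V, v ≠ 0 := by
    by_contra hv
    push Not at hv
    have : Subsingleton (IntertwiningMap ρ ρ) := ⟨fun a b => by
      ext v
      rw [hv (a.toLinearMap v), hv (b.toLinearMap v)]⟩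
    rw [finrank_zero_of_subsingleton] at h2
    exact zero_ne_one h2
  obtain ⟨v₀, hv₀⟩ := hV
  refine ⟨⟨v₀, 0, hv₀⟩, fun S hS => ?_⟩
  have : NeZero (Nat.card G : ℂ) := ⟨Bridge_card_ne⟩
  obtain ⟨T, hT⟩ := exists_isCompl (⟨S, fun g v hv => hS g v hv⟩ : Subrepresentation ρ)
  have hT' : IsCompl S T.toSubmodule := by
    refine ⟨disjoint_iff.2 ?_, codisjoint_iff.2 ?_⟩
    · exact congrArg Subrepresentation.toSubmodule hT.inf_eq_bot
    · exact congrArg Subrepresentation.toSubmodule hT.sup_eq_top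
  let P : V →ₗ[ℂ] V := S.projection _ hT'
  have hP1 : ∀ v ∈ S, P v = v := fun v hv => Submodule.projection_apply_of_mem_left hT' hv
  have hP2 : ∀ v ∈ T.toSubmodule, P v = 0 := fun v hv =>
    (Submodule.projection_apply_eq_zero_iff hT').2 hv
  have hP : ∀ g v, P (ρ g v) = ρ g (P v) := by
    intro g v
    have : v ∈ S ⊔ T.toSubmodule := hT'.sup_eq_top ▸ Submodule.mem_top
    obtain ⟨a, ha, b, hb, rfl⟩ := Submodule.mem_sup.1 this
    rw [map_add, map_add, map_add, hP1 a ha, hP2 b hb, hP1 _ (hS g a ha),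
      hP2 _ (T.apply_mem_toSubmodule g hb), map_add, map_zero]
  have hid : (IntertwiningMap.id ρ) ≠ 0 := fun h => hv₀ (by
    simpa using congrArg (fun f : IntertwiningMap ρ ρ => f v₀) h)
  obtain ⟨c, hc⟩ := (finrank_eq_one_iff_of_nonzero' _ hid).1 h2 ⟨P, fun g => LinearMap.ext (hP g)⟩
  have hc' : ∀ v, P v = c • v := fun v => by
    simpa using (congrArg (fun f : IntertwiningMap ρ ρ => f v) hc).symm
  by_cases hc0 : c = 0
  · left
    rw [eq_bot_iff]
    intro v hv
    have := hP1 v hv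
    rw [hc', hc0, zero_smul] at this
    simp [← this]
  · right
    rw [eq_top_iff]
    intro v _
    have : c • v ∈ S := by
      rw [← hc']
      exact Submodule.projection_apply_mem hT' v
    exact (S.smul_mem_iff hc0).1 this

theorem Bridge_norm [Fintype G] [FiniteDimensional ℂ V] (ρ : Representation ℂ G V) (h : Irr ρ) :
    ∑ g, ρ.character g * ρ.character g⁻¹ = Nat.card G := by
  have := invertibleOfNonzero (Bridge_card_ne (G := G))
  have := (Bridge_irr_iff ρ).1 h
  have h1 := Representation.char_orthonormal ρ ρ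
  rw [if_pos ⟨Representation.Equiv.refl ρ⟩, inv_mul_eq_one₀ Bridge_card_ne] at h1
  exact h1.symm

end aux

theorem cd_finite (G : Type) [Group G] [Finite G] : (cd G).Finite := by
  refine (Set.finite_Iic (Nat.card G)).subset ?_
  rintro d ⟨V, _, _, _, ρ, h, rfl⟩
  exact Bridge_finrank_le h

theorem cd_eq (G : Type) [Group G] [Finite G] :
    cd G = {d : ℕ | ∃ V : FDRep ℂ G, CategoryTheory.Simple V ∧ Module.finrank ℂ V = d} := by
  have := Fintype.ofFinite G
  ext d
  constructor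
  · rintro ⟨V, _, _, _, ρ, h, rfl⟩
    exact ⟨FDRep.of ρ, (FDRep.simple_iff_char_is_norm_one _).2 (Bridge_norm ρ h), rfl⟩
  · rintro ⟨V, h, rfl⟩
    exact ⟨V, inferInstance, inferInstance, inferInstance, V.ρ,
      Bridge_of_norm V.ρ ((FDRep.simple_iff_char_is_norm_one V).1 h), rfl⟩

end Pool.Agent.MP_f0649b_al

end

section

/-! Scalar elements. -/

open Module

namespace Pool.Agent.MP_f0649b_al.FS

variable {k G V W : Type} [Field k] [Group G] [AddCommGroup V] [Module k V] [AddCommGroup W]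
  [Module k W]

theorem Scal_smul_inj [Nontrivial V] {c d : k}
    (h : c • (1 : Module.End k V) = d • (1 : Module.End k V)) : c = d := by
  obtain ⟨v, hv⟩ := exists_ne (0 : V)
  have h1 : c • v = d • v := by
    have := LinearMap.congr_fun h v
    simpa using this
  exact smul_left_injective k hv h1

theorem dim_one_of_scal {ρ : Representation k G V} (hρ : Irr ρ) (h : scal ρ = ⊤) :
    finrank k V = 1 := by
  obtain ⟨hn, hU⟩ := hρ
  obtain ⟨v, hv⟩ := exists_ne (0 : V)
  rw [finrank_eq_one_iff_of_nonzero v hv]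
  rcases hU (Submodule.span k {v}) (by
    intro g w hw
    obtain ⟨c, hc⟩ : g ∈ scal ρ := by rw [h]; trivial
    rw [hc]
    simpa using Submodule.smul_mem _ (c : k) hw) with h0 | h0
  · exfalso
    have : v ∈ Submodule.span k {v} := Submodule.mem_span_singleton_self v
    rw [h0] at this
    exact hv (by simpa using this)
  · exact h0

theorem scal_of_nilpotent {ρ : Representation k G V} (hρ : QP ρ) (hG : Group.IsNilpotent G) :
    scal ρ = ⊤ := by
  by_contra h
  have : Nontrivial (G ⧸ scal ρ) := by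
    rw [QuotientGroup.nontrivial_iff]
    exact h
  have hc := Group.IsNilpotent.center_ne_bot (G := G ⧸ scal ρ)
  obtain ⟨⟨x, hx⟩, hx1⟩ := Subgroup.ne_bot_iff_exists_ne_one.mp hc
  obtain ⟨y, rfl⟩ := QuotientGroup.mk'_surjective (scal ρ) x
  have hle : Subgroup.zpowers (QuotientGroup.mk' (scal ρ) y) ≤ Subgroup.center _ := by
    rw [Subgroup.zpowers_le]; exact hx
  have hN : (Subgroup.zpowers (QuotientGroup.mk' (scal ρ) y)).Normal := ⟨by
    intro n hn g
    have := (Subgroup.mem_center_iff.mp (hle hn)) g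
    rw [this, mul_inv_cancel_right]
    exact hn⟩
  have key : ∀ a ∈ (Subgroup.zpowers (QuotientGroup.mk' (scal ρ) y)).comap
      (QuotientGroup.mk' (scal ρ)), ∃ (m : ℤ) (c : k), ρ a = c • ρ (y ^ m) := by
    intro a ha
    obtain ⟨m, hm⟩ := Subgroup.mem_zpowers_iff.mp (Subgroup.mem_comap.mp ha)
    rw [← map_zpow] at hm
    have h1 : (y ^ m)⁻¹ * a ∈ scal ρ := QuotientGroup.eq.mp hm
    obtain ⟨c, hc⟩ := h1
    refine ⟨m, c, ?_⟩
    have : a = y ^ m * ((y ^ m)⁻¹ * a) := by group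
    rw [this, map_mul, hc, mul_smul_comm, mul_one]
  have hA := hρ _ (hN.comap (QuotientGroup.mk' (scal ρ))) (by
    intro a ha b hb
    obtain ⟨m, c, hc⟩ := key a ha
    obtain ⟨n, d, hd⟩ := key b hb
    rw [hc, hd]
    exact (((Commute.zpow_zpow_self y m n).map ρ).smul_left c).smul_right d)
  have hy : y ∈ scal ρ := hA (Subgroup.mem_comap.mpr (Subgroup.mem_zpowers _))
  apply hx1
  ext
  exact (QuotientGroup.eq_one_iff y).mpr hy

theorem exists_chr [Nontrivial V] {ρ : Representation k G V} (h : scal ρ = ⊤) :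
    ∃ ν : G →* kˣ, ∀ g, ρ g = (ν g : k) • (1 : Module.End k V) := by
  have h1 : ∀ g, ∃ c : kˣ, ρ g = (c : k) • (1 : Module.End k V) := fun g => by
    have : g ∈ scal ρ := by rw [h]; trivial
    exact this
  choose c hc using h1
  refine ⟨MonoidHom.mk' c ?_, hc⟩
  intro a b
  ext
  apply Scal_smul_inj (V := V)
  rw [← hc, map_mul, hc, hc]
  simp [smul_smul, mul_comm]

theorem exists_E [Finite G] [Group.IsSolvable G] (ρ : Representation k G V) (h : scal ρ ≠ ⊤) :
    ∃ (l : ℕ) (E : Subgroup G), l.Prime ∧ E.Normal ∧ ¬ E ≤ scal ρ ∧ ⁅E, E⁆ ≤ scal ρ ∧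
      ∀ b ∈ E, b ^ l ∈ scal ρ := by
  classical
  have hex : ∃ j, derivedSeries G j ≤ scal ρ := by
    obtain ⟨n, hn⟩ := (Group.isSolvable_def G).mp inferInstance
    exact ⟨n, by rw [hn]; exact bot_le⟩
  have h0 : Nat.find hex ≠ 0 := by
    intro h0
    have := Nat.find_spec hex
    rw [h0, derivedSeries_zero, top_le_iff] at this
    exact h this
  obtain ⟨j, hj⟩ := Nat.exists_eq_succ_of_ne_zero h0
  have h1 : ⁅derivedSeries G j, derivedSeries G j⁆ ≤ scal ρ := by
    have := Nat.find_spec hex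
    rw [hj] at this
    exact this
  have h2 : ¬ derivedSeries G j ≤ scal ρ := Nat.find_min hex (by omega)
  set B := derivedSeries G j with hB
  have hBn : B.Normal := derivedSeries_normal G j
  have hcomm : ∀ a ∈ B, ∀ b ∈ B,
      Commute (QuotientGroup.mk' (scal ρ) a) (QuotientGroup.mk' (scal ρ) b) := by
    intro a ha b hb
    rw [← commutatorElement_eq_one_iff_commute, ← map_commutatorElement]
    exact (QuotientGroup.eq_one_iff _).mpr (h1 (Subgroup.commutator_mem_commutator ha hb))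
  have hmem : ∀ a : G, a ∈ scal ρ ↔ QuotientGroup.mk' (scal ρ) a = 1 := fun a =>
    (QuotientGroup.eq_one_iff a).symm
  obtain ⟨b0, hb0, hb0'⟩ := SetLike.not_le_iff_exists.mp h2
  have hord : orderOf (QuotientGroup.mk' (scal ρ) b0) ≠ 1 := by
    intro h3
    exact hb0' ((hmem b0).mpr (orderOf_eq_one_iff.mp h3))
  obtain ⟨l, hl, m, hm⟩ := Nat.exists_prime_and_dvd hord
  have hpos : 0 < orderOf (QuotientGroup.mk' (scal ρ) b0) := orderOf_pos _
  let E : Subgroup G :=
    { carrier := {b | b ∈ B ∧ b ^ l ∈ scal ρ}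
      one_mem' := ⟨B.one_mem, by simp⟩
      mul_mem' := by
        rintro a b ⟨ha, ha'⟩ ⟨hb, hb'⟩
        refine ⟨B.mul_mem ha hb, ?_⟩
        rw [hmem, map_pow] at ha' hb' ⊢
        rw [map_mul, (hcomm a ha b hb).mul_pow, ha', hb', one_mul]
      inv_mem' := by
        rintro a ⟨ha, ha'⟩
        refine ⟨B.inv_mem ha, ?_⟩
        rw [inv_pow]
        exact (scal ρ).inv_mem ha' }
  have hE : ∀ b, b ∈ E ↔ b ∈ B ∧ b ^ l ∈ scal ρ := fun b => Iff.rfl
  have hEB : E ≤ B := fun b hb => ((hE b).mp hb).1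
  refine ⟨l, E, hl, ⟨?_⟩, ?_, (Subgroup.commutator_mono hEB hEB).trans h1,
    fun b hb => ((hE b).mp hb).2⟩
  · intro a ha g
    rw [hE] at ha ⊢
    refine ⟨hBn.conj_mem _ ha.1 g, ?_⟩
    rw [conj_pow]
    exact (scal_normal ρ).conj_mem _ ha.2 g
  · intro hle
    have hmE : b0 ^ m ∈ E := by
      rw [hE]
      refine ⟨B.pow_mem hb0 m, ?_⟩
      rw [hmem, ← pow_mul, map_pow, mul_comm, ← hm]
      exact pow_orderOf_eq_one _
    have h4 := (hmem _).mp (hle hmE)
    rw [map_pow] at h4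
    have h5 := orderOf_dvd_of_pow_eq_one h4
    have hm0 : 0 < m := by
      rcases Nat.eq_zero_or_pos m with h6 | h6
      · rw [hm, h6] at hpos; simp at hpos
      · exact h6
    have h6 := Nat.le_of_dvd hm0 h5
    rw [hm] at h6
    have := hl.two_le
    nlinarith

theorem Scal_pow_comm {A : Type} [Ring A] [Algebra k A] {x y : A} {c : k}
    (h : x * y = c • (y * x)) (n : ℕ) : x ^ n * y = c ^ n • (y * x ^ n) := by
  induction n with
  | zero => simp
  | succ n ih =>
    rw [pow_succ' x n, mul_assoc, ih, mul_smul_comm, ← mul_assoc, h, smul_mul_assoc, smul_smul,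
      pow_succ, mul_assoc]

theorem pgroup_of_span [Finite G] [FiniteDimensional k V] [Nontrivial V] {s b : ℕ}
    (α : Representation k G V) (hf : Function.Injective α) (hn : finrank k V = s ^ b)
    (hd : ∀ g, LinearMap.det (α g) = 1) (E : Subgroup G) (hc : ⁅E, E⁆ ≤ scal α)
    (hs : ∀ T : Module.End k V, (∀ e ∈ E, T * α e = α e * T) →
      ∃ c : k, T = c • (1 : Module.End k V)) : IsPGroup s E ∧ IsPGroup s (scal α) := by
  have h1 : ∀ (g : G) (c : k), α g = c • (1 : Module.End k V) → c ^ s ^ b = 1 := by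
    intro g c hg
    have := hd g
    rw [hg, LinearMap.det_smul, map_one, mul_one, hn] at this
    exact this
  have h2 : ∀ (g : G) (c : k), α g = c • (1 : Module.End k V) → g ^ s ^ b = 1 := by
    intro g c hg
    apply hf
    rw [map_pow, hg, smul_pow, h1 g c hg, one_pow, one_smul, map_one]
  constructor
  · rintro ⟨x, hx⟩
    refine ⟨b + b, ?_⟩
    obtain ⟨c, hc'⟩ := hs (α (x ^ s ^ b)) (by
      intro y hy
      obtain ⟨c, hc'⟩ := hc (Subgroup.commutator_mem_commutator hx hy)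
      have h3 : α x * α y = (c : k) • (α y * α x) := by
        have : x * y = (x * y * x⁻¹ * y⁻¹) * (y * x) := by group
        rw [commutatorElement_def] at hc'
        rw [← map_mul, this, map_mul, hc', map_mul, smul_mul_assoc, one_mul]
      rw [map_pow, Scal_pow_comm h3, h1 _ _ hc', one_smul])
    ext
    have := h2 _ _ hc'
    rw [← pow_mul, ← pow_add] at this
    simpa using this
  · rintro ⟨x, c, hx⟩
    refine ⟨b, ?_⟩
    ext
    simpa using h2 _ _ hx

end Pool.Agent.MP_f0649b_al.FS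

end

section

/-! Induction of linear characters. -/

open Module

namespace Pool.Agent.MP_f0649b_al

variable {G : Type} [Group G] {V W : Type} [AddCommGroup V] [Module ℂ V] [AddCommGroup W]
  [Module ℂ W]

theorem ind_lin [Finite G] (H : Subgroup G) (l : H →* ℂˣ)
    (P : ℕ → Prop) (h0 : P 0) (hadd : ∀ a b, P a → P b → P (a + b))
    (h : ∀ (V' : Type) [AddCommGroup V'] [Module ℂ V'] [FiniteDimensional ℂ V']
      (ρ' : Representation ℂ G V'), Irr ρ' → ∀ φ : V' →ₗ[ℂ] ℂ, φ ≠ 0 →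
      (∀ (x : H) v, φ (ρ' x v) = (l x : ℂ) * φ v) → P (finrank ℂ V')) :
    P H.index := by
  let σ : Representation ℂ H ℂ :=
    { toFun := fun x => (l x : ℂ) • (1 : Module.End ℂ ℂ)
      map_one' := by simp
      map_mul' := fun x y => by
        rw [map_mul, Units.val_mul, smul_mul_smul_comm, one_mul] }
  have := ind H σ P h0 hadd fun V' _ _ _ ρ' hρ φ hφ e => h V' ρ' hρ φ hφ fun x v => by
    rw [e]
    rfl
  rwa [finrank_self, mul_one] at this

theorem mackey [Finite G] (E H : Subgroup G) [E.Normal] (hE : E ≤ H) (l : G → ℂ)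
    (h1 : l 1 = 1) (hm : ∀ x ∈ H, ∀ y ∈ H, l (x * y) = l x * l y)
    (hs : ∀ g, (∀ y ∈ E, l (g * y * g⁻¹) = l y) → g ∈ H) : H.index ∈ cd G := by
  let l0 : H →* ℂ :=
    { toFun := fun x => l x
      map_one' := h1
      map_mul' := fun x y => hm x x.2 y y.2 }
  have hi : H.index ≠ 0 := Subgroup.index_ne_zero_of_finite
  have hn : E.Normal := inferInstance
  have key := ind_lin H l0.toHomUnits
    (fun d => d = 0 ∨ (H.index ≤ d ∧ d ∈ cd G) ∨ 2 * H.index ≤ d) (Or.inl rfl) (by
      rintro a b (rfl | ha) hb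
      · rwa [zero_add]
      rcases hb with rfl | hb
      · exact Or.inr ha
      refine Or.inr (Or.inr ?_)
      rcases ha with ha | ha <;> rcases hb with hb | hb <;> omega) (by
      intro V' _ _ _ ρ' hρ φ hφ e
      refine Or.inr (Or.inl ⟨?_, V', _, _, inferInstance, ρ', hρ, rfl⟩)
      have li := eig_li (fun y : E => (ρ' y).dualMap)
        (fun (c : G ⧸ H) (y : E) => l (c.out⁻¹ * y * c.out)) ?_
        (fun c : G ⧸ H => (φ ∘ₗ ρ' c.out⁻¹ : Dual ℂ V')) ?_ ?_
      · have : Fintype (G ⧸ H) := Fintype.ofFinite _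
        have h2 := li.fintype_card_le_finrank
        rwa [Subspace.dual_finrank_eq, ← Nat.card_eq_fintype_card] at h2
      · intro c c' hc
        have hk : c.out⁻¹ * c'.out ∈ H := hs _ fun z hz => by
          have h2 := congrFun hc ⟨c'.out * z * c'.out⁻¹, hn.conj_mem z hz _⟩
          simp only at h2
          rw [show c'.out⁻¹ * (c'.out * z * c'.out⁻¹) * c'.out = z by group] at h2
          rw [← h2]
          congr 1
          group
        rw [← c.out_eq, ← c'.out_eq]
        exact QuotientGroup.eq.2 hk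
      · intro c hc
        refine hφ (LinearMap.ext fun v => ?_)
        have h2 := LinearMap.congr_fun hc (ρ' c.out v)
        rwa [LinearMap.comp_apply, ← Module.End.mul_apply, ← map_mul, inv_mul_cancel, map_one] at h2
      · intro c y
        refine LinearMap.ext fun v => ?_
        have hy : c.out⁻¹ * y * c.out ∈ H := hE (hn.conj_mem' y y.2 _)
        have h2 := e ⟨_, hy⟩ (ρ' c.out⁻¹ v)
        simp only [← Module.End.mul_apply, ← map_mul, mul_inv_cancel_right] at h2
        simp only [LinearMap.dualMap_apply, LinearMap.comp_apply, LinearMap.smul_apply,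
          ← Module.End.mul_apply, ← map_mul, smul_eq_mul]
        exact h2)
  rcases key with h | h | h
  · exact absurd h hi
  · exact h.2
  · omega

end Pool.Agent.MP_f0649b_al

end

section

/-! Lifting for groups of prime power order. -/

open Module

namespace Pool.Agent.MP_f0649b_al.FS

variable {k G V W : Type} [Field k] [Group G] [AddCommGroup V] [Module k V] [AddCommGroup W]
  [Module k W]

theorem LiftP_eq {K X : Type} [Field K] [AddCommGroup X] [Module K X] [Nontrivial X] {c d : K}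
    (h : c • (1 : Module.End K X) = d • (1 : Module.End K X)) : c = d := by
  obtain ⟨v, hv⟩ := exists_ne (0 : X)
  have h1 : c • v = d • v := LinearMap.congr_fun h v
  exact smul_left_injective K hv h1

theorem liftP [IsAlgClosed k] [Finite G] [FiniteDimensional k V] {s : ℕ} [Fact s.Prime]
    {θ : kˣ →* ℂˣ} (hG : IsPGroup s G) {α : Representation k G V} (hα : Irr α)
    (hf : Function.Injective α) :
    ∃ (X : Type) (_ : AddCommGroup X) (_ : Module ℂ X) (_ : FiniteDimensional ℂ X)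
      (σ : Representation ℂ G X), Irr σ ∧ finrank ℂ X ≤ finrank k V ∧
      ∀ (g : G) (c : kˣ), α g = (c : k) • (1 : Module.End k V) →
        σ g = (θ c : ℂ) • (1 : Module.End ℂ X) := by
  obtain ⟨H, W, _, _, _, σ1, ι, hσ1, hq, hidx, hle, hι, hcomm⟩ := primk hα
  have ht := scal_of_nilpotent hq (hG.to_subgroup H).isNilpotent
  have := hσ1.1
  obtain ⟨ν, hν⟩ := exists_chr ht
  rw [dim_one_of_scal hσ1 ht, mul_one] at hidx
  have key := ind_lin H (θ.comp ν)
    (fun d => d = 0 ∨ ∃ (X : Type) (_ : AddCommGroup X) (_ : Module ℂ X)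
      (_ : FiniteDimensional ℂ X) (σ : Representation ℂ G X), Irr σ ∧ finrank ℂ X ≤ d ∧
      ∀ (g : G) (c : kˣ), α g = (c : k) • (1 : Module.End k V) →
        σ g = (θ c : ℂ) • (1 : Module.End ℂ X)) (Or.inl rfl) (by
      rintro a b (rfl | ⟨X, i1, i2, i3, σ, h1, h2, h3⟩) hb
      · rwa [zero_add]
      · exact Or.inr ⟨X, i1, i2, i3, σ, h1, h2.trans (Nat.le_add_right a b), h3⟩) (by
      intro V' _ _ _ ρ' hρ φ hφ e
      refine Or.inr ⟨V', _, _, inferInstance, ρ', hρ, le_rfl, fun g c hg => ?_⟩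
      have cen : ∀ y, g * y = y * g := fun y => hf (by
        rw [map_mul, map_mul, hg, smul_mul_assoc, mul_smul_comm, one_mul, mul_one])
      obtain ⟨d, hd⟩ := schur hρ (ρ' g) fun y => by rw [← map_mul, ← map_mul, cen]
      have gH : g ∈ H := hle ⟨c, hg⟩
      have e1 : ν ⟨g, gH⟩ = c := by
        obtain ⟨w, hw⟩ := exists_ne (0 : W)
        have h1 := hcomm ⟨g, gH⟩ w
        rw [hν, hg] at h1
        have h2 : ι ((ν ⟨g, gH⟩ : k) • w) = ι ((c : k) • w) := by
          rw [map_smul ι (c : k)]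
          exact h1
        exact Units.ext (smul_left_injective k hw (hι h2))
      obtain ⟨v, hv⟩ : ∃ v, φ v ≠ 0 := by
        by_contra hn
        push Not at hn
        exact hφ (LinearMap.ext hn)
      have h3 := e ⟨g, gH⟩ v
      rw [MonoidHom.comp_apply, e1] at h3
      have h4 : φ (ρ' g v) = d * φ v := by
        rw [hd]
        exact map_smul φ d v
      rw [hd, mul_right_cancel₀ hv (h4.symm.trans h3)])
  rcases key with h | h
  · exact absurd h Subgroup.index_ne_zero_of_finite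
  · rwa [hidx] at h

theorem liftE [IsAlgClosed k] [Finite G] [FiniteDimensional k V] {s : ℕ} [Fact s.Prime]
    {θ : kˣ →* ℂˣ} (hθ : Th s θ) (hG : IsPGroup s G) {α : Representation k G V} (hα : Irr α)
    (hc : commutator G ≤ scal α) {X : Type} [AddCommGroup X] [Module ℂ X] [FiniteDimensional ℂ X]
    [Nontrivial X] (σ : Representation ℂ G X) (hX : finrank ℂ X ≤ finrank k V)
    (hs : ∀ (g : G) (c : kˣ), α g = (c : k) • (1 : Module.End k V) →
      σ g = (θ c : ℂ) • (1 : Module.End ℂ X)) :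
    finrank ℂ X = finrank k V ∧ Irr σ ∧
      LinearIndependent ℂ (fun c : G ⧸ scal α => σ c.out) := by
  have := hα.1
  have hZ : ∀ x, (∀ y, Commute (σ x) (σ y)) → x ∈ scal α := by
    intro x hx
    have h0 : ∀ y, α x * α y = α y * α x := by
      intro y
      have e0 : x * y = x * y * x⁻¹ * y⁻¹ * (y * x) := by group
      obtain ⟨c, h1⟩ := hc
        (Subgroup.commutator_mem_commutator (Subgroup.mem_top x) (Subgroup.mem_top y))
      rw [commutatorElement_def] at h1
      have h2 : σ (x * y * x⁻¹ * y⁻¹) = 1 := by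
        rw [map_mul, map_mul, map_mul, (hx y).eq, mul_assoc (σ y), ← map_mul σ x, mul_inv_cancel,
          map_one, mul_one, ← map_mul, mul_inv_cancel, map_one]
      have h3 : θ c = 1 := by
        refine Units.ext (LiftP_eq (X := X) ?_)
        rw [← hs _ c h1, h2, Units.val_one, one_smul]
      obtain ⟨e, he⟩ := hG (x * y * x⁻¹ * y⁻¹)
      have h4 : c ^ s ^ e = 1 := by
        refine Units.ext (LiftP_eq (X := V) ?_)
        have h5 := congrArg α he
        rw [map_pow, h1, smul_pow, one_pow, map_one] at h5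
        rw [Units.val_pow_eq_pow_val, h5, Units.val_one, one_smul]
      rw [hθ.inj c e h4 h3, Units.val_one, one_smul] at h1
      rw [← map_mul, e0, map_mul, h1, one_mul, map_mul]
    obtain ⟨c, h1⟩ := schurK hα (α x) h0
    have h2 : c ≠ 0 := by
      rintro rfl
      have h3 : α x * α x⁻¹ = 1 := by rw [← map_mul, mul_inv_cancel, map_one]
      rw [h1, zero_smul, zero_mul] at h3
      exact zero_ne_one h3
    exact ⟨Units.mk0 c h2, h1⟩
  have hl := li σ (scal α) (fun x hx => by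
    obtain ⟨c, h1⟩ := hc hx
    exact ⟨θ c, hs x c h1⟩) hZ
  have : Fintype (G ⧸ scal α) := Fintype.ofFinite _
  have h1 : Fintype.card (G ⧸ scal α) = finrank k V ^ 2 := by
    rw [← sq hα hc, ← Nat.card_eq_fintype_card]
    rfl
  have h2 : finrank ℂ (Module.End ℂ X) = finrank ℂ X ^ 2 := by
    rw [Module.finrank_linearMap, pow_two]
  have h3 := hl.fintype_card_le_finrank
  rw [h1, h2] at h3
  have h4 : finrank ℂ X = finrank k V :=
    le_antisymm hX ((Nat.pow_le_pow_iff_left two_ne_zero).1 h3)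
  refine ⟨h4, ⟨inferInstance, fun U hU => ?_⟩, hl⟩
  have h5 := hl.span_eq_top_of_card_eq_finrank' (by rw [h1, h2, h4])
  have h6 : ∀ T : Module.End ℂ X, ∀ v ∈ U, T v ∈ U := by
    intro T
    have hT : T ∈ Submodule.span ℂ (Set.range fun c : G ⧸ scal α => σ c.out) := by
      rw [h5]
      trivial
    induction hT using Submodule.span_induction with
    | mem T hT =>
      obtain ⟨c, rfl⟩ := hT
      exact hU _
    | zero => exact fun v _ => U.zero_mem
    | add A B _ _ hA hB => exact fun v hv => U.add_mem (hA v hv) (hB v hv)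
    | smul a A _ hA => exact fun v hv => U.smul_mem a (hA v hv)
  by_cases hb : U = ⊥
  · exact Or.inl hb
  refine Or.inr (eq_top_iff.2 fun v _ => ?_)
  obtain ⟨u, hu, hu0⟩ := (Submodule.ne_bot_iff U).1 hb
  obtain ⟨f, hf⟩ := Module.Projective.exists_dual_eq_one ℂ hu0
  have h7 := h6 (f.smulRight v) u hu
  rwa [LinearMap.smulRight_apply, hf, one_smul] at h7

end Pool.Agent.MP_f0649b_al.FS

end

section

/-! Passing to the faithful quotient. -/

open Module

namespace Pool.Agent.MP_f0649b_al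

variable {G : Type} [Group G] {V W : Type} [AddCommGroup V] [Module ℂ V] [AddCommGroup W]
  [Module ℂ W]

theorem faithful_quot {k U : Type} [Field k] [AddCommGroup U] [Module k U] [Finite G]
    (ρ : Representation k G U) :
    ∃ (X : Type) (_ : Group X) (_ : Finite X) (π : G →* X) (ψ : Representation k X U),
      Function.Surjective π ∧ Function.Injective ψ ∧ ∀ g, ψ (π g) = ρ g := by
  refine ⟨G ⧸ MonoidHom.ker ρ, inferInstance, inferInstance, QuotientGroup.mk' _,
    QuotientGroup.lift _ ρ fun _ h => h, QuotientGroup.mk'_surjective _, fun a b => ?_,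
    fun _ => rfl⟩
  induction a using QuotientGroup.induction_on
  induction b using QuotientGroup.induction_on
  exact fun h => QuotientGroup.eq.2 ((MonoidHom.eq_iff ρ).1 h.symm)

theorem abcent_of_qprim {X : Type} [Group X] {ρ : Representation ℂ G V} (hρ : QPrim ρ)
    (π : G →* X) (ψ : Representation ℂ X V) (hπ : Function.Surjective π)
    (hψ : Function.Injective ψ) (h : ∀ g, ψ (π g) = ρ g) : AbCent X := by
  intro A hA hc x hx
  obtain ⟨g, rfl⟩ := hπ x
  obtain ⟨c, e⟩ := hρ (A.comap π) (hA.comap π)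
    (fun x hx y hy => by rw [← h, ← h]; exact (hc _ hx _ hy).map ψ) g hx
  refine Subgroup.mem_center_iff.2 fun y => hψ ?_
  rw [map_mul, map_mul, h, e, mul_smul_comm, smul_mul_assoc, mul_one, one_mul]

theorem Quo_comm {X : Type} [Group X] {H K : Subgroup X} (h : H ≤ Subgroup.center X) :
    ⁅H, K⁆ = ⊥ :=
  Subgroup.commutator_eq_bot_iff_le_centralizer.2 (h.trans (Subgroup.center_le_centralizer _))

/-- a normal nilpotent subgroup has metabelian image -/
theorem np_rep [Finite G] {ρ : Representation ℂ G V} (hρ : QPrim ρ) (N : Subgroup G) [N.Normal]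
    (hN : Group.IsNilpotent N) : ∀ x ∈ ⁅⁅N, N⁆, ⁅N, N⁆⁆, ρ x = 1 := by
  intro x hx
  obtain ⟨X, _, _, π, ψ, h1, h2, h3⟩ := faithful_quot ρ
  have := Subgroup.Normal.map ‹N.Normal› π h1
  have h4 := np (abcent_of_qprim hρ π ψ h1 h2 h3) (N.map π)
    (Group.nilpotent_of_surjective _ (π.subgroupMap_surjective N))
  have h5 := Subgroup.mem_map_of_mem π hx
  rw [Subgroup.map_commutator, Subgroup.map_commutator, Quo_comm h4, Subgroup.mem_bot] at h5
  rw [← h3, h5, map_one]

theorem dim_one_of_nilpotent [Finite G] [FiniteDimensional ℂ V] {ρ : Representation ℂ G V}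
    (hi : Irr ρ) (hρ : QPrim ρ) (hG : Group.IsNilpotent G) : finrank ℂ V = 1 := by
  obtain ⟨X, _, _, π, ψ, h1, h2, h3⟩ := faithful_quot ρ
  refine dim_one_of_comm hi fun x y => ?_
  rw [← h3, ← h3]
  exact (comm_of_abcent (abcent_of_qprim hρ π ψ h1 h2 h3)
    (Group.nilpotent_of_surjective π h1) _ _).map ψ

/-- a central commutator is killed by the degree -/
theorem comm_pow_dim [FiniteDimensional ℂ V] {ρ : Representation ℂ G V} (hi : Irr ρ)
    (hf : Function.Injective ρ) {z : G} (hz : z ∈ Subgroup.center G) (hz' : z ∈ commutator G) :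
    z ^ finrank ℂ V = 1 := by
  obtain ⟨c, e⟩ := schur hi (ρ z) fun g => by
    rw [← map_mul, ← map_mul, Subgroup.mem_center_iff.1 hz]
  have h1 := det_commutator ρ z hz'
  rw [e, LinearMap.det_smul, map_one, mul_one] at h1
  apply hf
  rw [map_pow, e, smul_pow, h1, one_pow, one_smul, map_one]

theorem p_dvd [Finite G] [FiniteDimensional ℂ V] {ρ : Representation ℂ G V} (hi : Irr ρ)
    (hρ : QPrim ρ) {p : ℕ} [Fact p.Prime] (hN : IsPGroup p (derivedSeries G 2))
    (hx : ∃ x ∈ derivedSeries G 2, ρ x ≠ 1) : p ∣ finrank ℂ V := by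
  obtain ⟨X, _, _, π, ψ, h1, h2, h3⟩ := faithful_quot ρ
  have hA := abcent_of_qprim hρ π ψ h1 h2 h3
  have hi' : Irr ψ := (irr_comp π h1 ψ).1 (by rwa [show ψ.comp π = ρ from MonoidHom.ext h3])
  have hp : IsPGroup p (derivedSeries X 2) := map_derivedSeries_eq h1 2 ▸ hN.map π
  obtain ⟨z, z1, z2, z3⟩ : ∃ z ∈ derivedSeries X 2, z ≠ 1 ∧ z ∈ Subgroup.center X := by
    by_cases h : ⁅derivedSeries X 2, derivedSeries X 2⁆ = ⊥
    · obtain ⟨x, x1, x2⟩ := hx
      have h4 := map_derivedSeries_le_derivedSeries π 2 (Subgroup.mem_map_of_mem π x1)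
      refine ⟨π x, h4, fun e => x2 (by rw [← h3, e, map_one]), hA _ inferInstance
        (fun a ha b hb => commutatorElement_eq_one_iff_commute.1 ?_) h4⟩
      rw [← Subgroup.mem_bot, ← h]
      exact Subgroup.commutator_mem_commutator ha hb
    · obtain ⟨⟨z, z1⟩, z2⟩ := Subgroup.ne_bot_iff_exists_ne_one.1 h
      exact ⟨z, Subgroup.commutator_le_self _ z1, fun e => z2 (Subtype.ext e),
        np hA _ hp.isNilpotent z1⟩
  obtain ⟨k, hk⟩ := IsPGroup.iff_orderOf.1 hp ⟨z, z1⟩
  rw [Subgroup.orderOf_mk] at hk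
  refine (dvd_pow_self p ?_).trans (hk ▸ orderOf_dvd_of_pow_eq_one
    (comm_pow_dim hi' h2 z3 (derivedSeries_antitone X one_le_two z1)))
  rintro rfl
  exact z2 (orderOf_eq_one_iff.1 hk)

end Pool.Agent.MP_f0649b_al

end

section

/-! Lifting a representation of prime power degree. -/

open Module

namespace Pool.Agent.MP_f0649b_al.FS

variable {k G V W : Type} [Field k] [Group G] [AddCommGroup V] [Module k V] [AddCommGroup W]
  [Module k W]

theorem Lift_central (α : Representation k G V) (hf : Function.Injective α) {g : G} {c : k}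
    (h : α g = c • (1 : Module.End k V)) : g ∈ Subgroup.center G := by
  rw [Subgroup.mem_center_iff]
  intro x
  apply hf
  rw [map_mul, map_mul, h, mul_smul_comm, smul_mul_assoc, mul_one, one_mul]

theorem Lift_irr {α : Representation k G V} {E P : Subgroup G} (hEP : E ≤ P)
    (hE : Irr (α.comp E.subtype)) : Irr (α.comp P.subtype) :=
  ⟨hE.1, fun U hU => hE.2 U fun g v hv => hU ⟨g, hEP g.2⟩ v hv⟩

theorem lift_faithful [IsAlgClosed k] [Finite G] [FiniteDimensional k V] {s b : ℕ} [Fact s.Prime]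
    {θ : kˣ →* ℂˣ} (hθ : Th s θ) (α : Representation k G V) (hf : Function.Injective α)
    (hn : finrank k V = s ^ b) (hd : ∀ g, LinearMap.det (α g) = 1) (E : Subgroup G) [E.Normal]
    (hE : Irr (α.comp E.subtype)) (hc : ⁅E, E⁆ ≤ scal α) :
    ∃ (X : Type) (_ : AddCommGroup X) (_ : Module ℂ X) (_ : FiniteDimensional ℂ X)
      (ξ : Representation ℂ G X), finrank ℂ X = s ^ b ∧
      ∀ (g : G) (c : kˣ), α g = (c : k) • (1 : Module.End k V) →
        ξ g = (θ c : ℂ) • (1 : Module.End ℂ X) := by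
  have hV : Nontrivial V := hE.1
  obtain ⟨hEp, hZp⟩ := pgroup_of_span α hf hn hd E hc
    (fun T hT => schurK hE T fun g => hT g g.2)
  obtain ⟨P, hEP⟩ := hEp.exists_le_sylow
  have hZP : scal α ≤ P := hZp.le_sylow_of_normal P
  have hfP : Function.Injective (α.comp (P : Subgroup G).subtype) :=
    hf.comp Subtype.val_injective
  obtain ⟨X, i1, i2, i3, σ, hσ, hX, hs⟩ := liftP (θ := θ) P.isPGroup' (Lift_irr hEP hE) hfP
  have hXn : Nontrivial X := hσ.1
  have hcE : commutator E ≤ scal (α.comp E.subtype) := by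
    rw [commutator_def, Subgroup.commutator_le]
    intro x _ y _
    obtain ⟨c, hc'⟩ := hc (Subgroup.commutator_mem_commutator x.2 y.2)
    exact ⟨c, hc'⟩
  have hsE : ∀ (g : E) (c : kˣ), (α.comp E.subtype) g = (c : k) • (1 : Module.End k V) →
      (σ.comp (Subgroup.inclusion hEP)) g = (θ c : ℂ) • (1 : Module.End ℂ X) :=
    fun g c h => hs (Subgroup.inclusion hEP g) c h
  obtain ⟨h1, h2, h3⟩ := liftE hθ hEp hE hcE (σ.comp (Subgroup.inclusion hEP)) hX hsE
  have hA : ∀ g : G, ∃ A : X ≃ₗ[ℂ] X, ∀ (e : E) w,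
      A (σ ⟨e, hEP e.2⟩ w) =
        σ ⟨g * e * g⁻¹, hEP (Subgroup.Normal.conj_mem inferInstance _ e.2 _)⟩ (A w) := by
    intro g
    have h2' : Irr ((σ.comp (Subgroup.inclusion hEP)).comp
        (MulAut.conjNormal g : MulAut E).toMonoidHom) :=
      (irr_comp _ (MulAut.conjNormal g : MulAut E).surjective _).2 h2
    obtain ⟨A, hA⟩ := sn h2 h2' (scal (α.comp E.subtype)) (by
      rintro z ⟨c, hz⟩
      refine ⟨θ c, hsE z c hz, ?_⟩
      have hzc : (z : G) ∈ Subgroup.center G := Lift_central α hf hz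
      have hz' : (MulAut.conjNormal g : MulAut E) z = z := by
        apply Subtype.ext
        rw [MulAut.conjNormal_apply, Subgroup.mem_center_iff.1 hzc g, mul_inv_cancel_right]
      change (σ.comp (Subgroup.inclusion hEP)) ((MulAut.conjNormal g : MulAut E) z) = _
      rw [hz']
      exact hsE z c hz) h3
    exact ⟨A, fun e w => hA e w⟩
  obtain ⟨ξ, hξ⟩ := split P E hEP σ (h1.trans hn) h2 hA
  refine ⟨X, i1, i2, i3, ξ, h1.trans hn, fun g c hg => ?_⟩
  have hgP : g ∈ (P : Subgroup G) := hZP ⟨c, hg⟩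
  have hc1 : c ^ s ^ b = 1 := by
    have := hd g
    rw [hg, LinearMap.det_smul, map_one, mul_one, hn] at this
    exact Units.ext (by simpa using this)
  exact hξ ⟨g, hgP⟩ (θ c) (Lift_central α hf hg) (by rw [← map_pow, hc1, map_one])
    (hs ⟨g, hgP⟩ c hg)

theorem lift [IsAlgClosed k] [Finite G] [FiniteDimensional k V] {s b : ℕ} [Fact s.Prime]
    {θ : kˣ →* ℂˣ} (hθ : Th s θ) (α : Representation k G V)
    (hn : finrank k V = s ^ b) (hd : ∀ g, LinearMap.det (α g) = 1) (E : Subgroup G) [E.Normal]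
    (hE : Irr (α.comp E.subtype)) (hc : ⁅E, E⁆ ≤ scal α) :
    ∃ (X : Type) (_ : AddCommGroup X) (_ : Module ℂ X) (_ : FiniteDimensional ℂ X)
      (ξ : Representation ℂ G X), finrank ℂ X = s ^ b ∧
      ∀ (g : G) (c : kˣ), α g = (c : k) • (1 : Module.End k V) →
        ξ g = (θ c : ℂ) • (1 : Module.End ℂ X) := by
  obtain ⟨Q, j1, j2, π, ψ, hπ, hψ, hh⟩ := faithful_quot α
  have hN : (E.map π).Normal := Subgroup.Normal.map inferInstance π hπ
  have hd' : ∀ q, LinearMap.det (ψ q) = 1 := by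
    intro q
    obtain ⟨g, rfl⟩ := hπ q
    rw [hh, hd]
  have hE' : Irr (ψ.comp (E.map π).subtype) := by
    refine ⟨hE.1, fun U hU => hE.2 U fun g v hv => ?_⟩
    have := hU ⟨π g, Subgroup.mem_map_of_mem π g.2⟩ v hv
    change ψ (π g) v ∈ U at this
    rwa [hh] at this
  have hc' : ⁅E.map π, E.map π⁆ ≤ scal ψ := by
    rw [← Subgroup.map_commutator]
    rintro _ ⟨g, hg, rfl⟩
    obtain ⟨c, hc'⟩ := hc hg
    exact ⟨c, by rw [hh, hc']⟩
  obtain ⟨X, i1, i2, i3, ξ, h1, h2⟩ := lift_faithful hθ ψ hψ hn hd' (E.map π) hE' hc'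
  exact ⟨X, i1, i2, i3, ξ.comp π, h1, fun g c hg => h2 (π g) c (by rw [hh, hg])⟩

end Pool.Agent.MP_f0649b_al.FS

end

section

/-! The lifting theorem for solvable groups. -/

open Module
open scoped commutatorElement

namespace Pool.Agent.MP_f0649b_al.FS

variable {k G V W : Type} [Field k] [Group G] [AddCommGroup V] [Module k V] [AddCommGroup W]
  [Module k W]

theorem scal_sub {ρ : Representation k G V} {E : Subgroup G} {τ : Representation k E W}
    {ι : W →ₗ[k] V} (hι : Function.Injective ι) (hc : ∀ (e : E) w, ι (τ e w) = ρ e (ι w))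
    {e : E} {c : k} (h : ρ e = c • (1 : Module.End k V)) : τ e = c • (1 : Module.End k W) :=
  LinearMap.ext fun w => hι (by rw [hc, h]; simp)

theorem scal_eq {ρ : Representation k G V} (hq : QP ρ) {E : Subgroup G} [hE : E.Normal]
    (h2 : ⁅E, E⁆ ≤ scal ρ) {τ : Representation k E W} [Nontrivial W]
    {ι : W →ₗ[k] V} (hι : Function.Injective ι) (hc : ∀ (e : E) w, ι (τ e w) = ρ e (ι w)) :
    scal τ = (scal ρ).subgroupOf E := by
  refine le_antisymm ?_ (fun e ⟨c, he⟩ => ⟨c, scal_sub hι hc he⟩)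
  let R : Subgroup G := E ⊓ (Subgroup.centralizer (E.map ρ.toHomUnits : Set _)).comap ρ.toHomUnits
  have hR : ∀ x, x ∈ R ↔ x ∈ E ∧ ∀ y ∈ E, ρ y * ρ x = ρ x * ρ y := by
    intro x
    refine and_congr_right fun _ => ⟨fun h y hy => ?_, fun h => ?_⟩
    · exact congrArg Units.val (h (ρ.toHomUnits y) ⟨y, hy, rfl⟩)
    · rintro _ ⟨y, hy, rfl⟩
      exact Units.ext (h y hy)
  have hN : R.Normal := ⟨fun x hx g => by
    rw [hR] at hx ⊢
    refine ⟨hE.conj_mem _ hx.1 g, fun y hy => ?_⟩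
    have h1 := hx.2 _ (hE.conj_mem' _ hy g)
    rw [← map_mul, ← map_mul] at h1 ⊢
    calc ρ (y * (g * x * g⁻¹)) = ρ g * ρ (g⁻¹ * y * g * x) * ρ g⁻¹ := by
          rw [← map_mul, ← map_mul]; congr 1; group
      _ = ρ (g * x * g⁻¹ * y) := by rw [h1, ← map_mul, ← map_mul]; congr 1; group⟩
  rintro e ⟨c, he⟩
  refine hq R hN (fun x hx y hy => ((hR y).1 hy).2 x ((hR x).1 hx).1) ((hR e).2 ⟨e.2, fun y hy => ?_⟩)
  obtain ⟨d, hd⟩ := h2 (Subgroup.commutator_mem_commutator hy e.2)
  have h3 : τ ⁅(⟨y, hy⟩ : E), e⁆ = (d : k) • (1 : Module.End k W) := scal_sub hι hc hd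
  have h4 : τ ⁅(⟨y, hy⟩ : E), e⁆ = 1 := by
    rw [commutatorElement_def, map_mul, map_mul, map_mul, he, mul_smul_comm, mul_one,
      smul_mul_assoc, ← map_mul, mul_inv_cancel, map_one, ← he, ← map_mul, mul_inv_cancel, map_one]
  have h5 : (d : k) = 1 := by
    obtain ⟨w, hw⟩ := exists_ne (0 : W)
    have := LinearMap.congr_fun (h3.symm.trans h4) w
    exact smul_left_injective k hw (by simpa using this)
  rw [h5, one_smul] at hd
  calc ρ y * ρ e = ρ ⁅y, (e : G)⁆ * (ρ e * ρ y) := by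
        rw [← map_mul, ← map_mul, ← map_mul]; congr 1; rw [commutatorElement_def]; group
    _ = ρ e * ρ y := by rw [hd, one_mul]

theorem fs_prim [IsAlgClosed k] {s : ℕ} [hs : Fact s.Prime] {θ : kˣ →* ℂˣ} (hθ : Th s θ)
    [Finite G] [Group.IsSolvable G] [FiniteDimensional k V] {ρ : Representation k G V}
    (hρ : Irr ρ) (hq : QP ρ)
    (ih : ∀ (Γ Y : Type) [Group Γ] [Finite Γ] [Group.IsSolvable Γ] [AddCommGroup Y] [Module k Y]
      [FiniteDimensional k Y] [Nontrivial Y] (β : Representation k Γ Y),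
      finrank k Y < finrank k V → Concl s θ β) : Concl s θ ρ := by
  by_cases h0 : scal ρ = ⊤
  · exact red_one ρ (dim_one_of_scal hρ h0)
  have := hρ.1
  obtain ⟨l, E, hl, hE, h1, h2, h3⟩ := exists_E ρ h0
  obtain ⟨W, _, _, _, τ, ι, hτ, hι, hc⟩ := exists_irr_sub (ρ.comp E.subtype)
  replace hc : ∀ (e : E) w, ι (τ e w) = ρ e (ι w) := hc
  have := hτ.1
  have hZ := scal_eq hq h2 hι hc
  have hcm : commutator E ≤ scal τ := by
    rw [hZ]
    exact Subgroup.map_le_iff_le_comap.1 ((Subgroup.map_subtype_commutator E).le.trans h2)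
  have hsq := sq hτ hcm
  have : Fact l.Prime := ⟨hl⟩
  obtain ⟨b, hb⟩ : ∃ b, finrank k W = l ^ b := by
    have hp : IsPGroup l (E ⧸ scal τ) := by
      intro x
      obtain ⟨x, rfl⟩ := QuotientGroup.mk_surjective x
      refine ⟨1, ?_⟩
      rw [pow_one, ← QuotientGroup.mk_pow, QuotientGroup.eq_one_iff, hZ]
      exact h3 x x.2
    obtain ⟨m, hm⟩ := IsPGroup.iff_card.1 hp
    have : finrank k W ∣ l ^ m := by
      rw [← hm, ← Subgroup.index_eq_card, hsq]
      exact dvd_pow_self _ two_ne_zero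
    obtain ⟨b, -, hb⟩ := (Nat.dvd_prime_pow hl).1 this
    exact ⟨b, hb⟩
  have hn1 : finrank k W ≠ 1 := by
    intro e
    rw [e, one_pow, Subgroup.index_eq_one, hZ, Subgroup.subgroupOf_eq_top] at hsq
    exact h1 hsq
  have hn0 : 0 < finrank k W := Module.finrank_pos
  have hconj : ∀ (g : G) {x : G} {c : k}, ρ x = c • (1 : Module.End k V) →
      ρ (g * x * g⁻¹) = c • (1 : Module.End k V) := fun g x c h => by
    rw [map_mul, map_mul, h, mul_smul_comm, mul_one, smul_mul_assoc, ← map_mul, mul_inv_cancel,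
      map_one]
  obtain ⟨Γ, _, _, π, α, hC⟩ := cover E hτ (fun g => by
    have hi : Irr (τ.comp (MulAut.conjNormal g : MulAut E).toMonoidHom) :=
      (irr_comp _ (MulAut.conjNormal g : MulAut E).surjective τ).2 hτ
    refine sn hτ hi (scal τ) (fun z hz => ?_) (li τ _ hcm fun x hx => ?_)
    · rw [hZ] at hz
      obtain ⟨c, hz⟩ := hz
      exact ⟨c, scal_sub hι hc hz, scal_sub hι hc (hconj g hz)⟩
    · obtain ⟨c, hc'⟩ := schurK hτ (τ x) hx
      have hc0 : c ≠ 0 := by
        rintro rfl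
        have : τ x⁻¹ * τ x = 1 := by rw [← map_mul, inv_mul_cancel, map_one]
        rw [hc', zero_smul, mul_zero] at this
        exact zero_ne_one this
      exact ⟨Units.mk0 c hc0, hc'⟩)
  have := hC.solvable
  obtain ⟨Y, _, _, _, β, hd, hβ⟩ := tens hρ hτ ι hι hc hC
  have hV : 0 < finrank k V := Module.finrank_pos
  have hY0 : 0 < finrank k Y := Nat.pos_of_ne_zero fun e => by rw [e] at hd; omega
  have : Nontrivial Y := Module.finrank_pos_iff.1 hY0
  have hI := ih Γ Y β (by
    have : 2 ≤ finrank k W := by omega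
    nlinarith)
  have hker : ∀ γ (c : kˣ), π γ = 1 → α γ = (c : k) • (1 : Module.End k W) →
      β γ = ((c⁻¹ : kˣ) : k) • (1 : Module.End k Y) := fun γ c h1 h2 => by
    have := hβ γ c 1 h2 (by rw [h1]; simp)
    rwa [one_mul] at this
  have hsc : ∀ (g : G) (c : kˣ), ρ g = (c : k) • (1 : Module.End k V) →
      ∃ γ, π γ = g ∧ β γ = (c : k) • (1 : Module.End k Y) ∧ α γ = 1 := fun g c hg => by
    obtain ⟨γ, h1, h2⟩ := hC.one g (fun e => LinearMap.ext fun w => hι (by
      rw [hc, hc]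
      congr 1
      change ρ (g * e * g⁻¹) = ρ e
      rw [map_mul, map_mul, hg, smul_mul_assoc, one_mul, smul_mul_assoc, ← mul_smul_comm,
        ← one_mul (ρ g⁻¹), ← smul_mul_assoc, ← hg, ← map_mul, mul_inv_cancel, map_one, mul_one]))
    refine ⟨γ, h1, ?_, h2⟩
    have := hβ γ 1 c (by rw [h2]; simp) (h1 ▸ hg)
    simpa using this
  by_cases hls : l = s
  · subst hls
    obtain ⟨X, _, _, _, ξ, hX, hξ⟩ := lift hθ α hb hC.det (E.comap π) (by
      refine ⟨hτ.1, fun U hU => hτ.2 U fun e v hv => ?_⟩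
      obtain ⟨γ, hγ⟩ := hC.surj e
      have hm : π γ ∈ E := hγ ▸ e.2
      obtain ⟨c, hc'⟩ := hC.over hτ γ hm
      have h4 : α γ v ∈ U := hU ⟨γ, hm⟩ v hv
      have h5 : (⟨π γ, hm⟩ : E) = e := Subtype.ext hγ
      rw [hc', h5, LinearMap.smul_apply] at h4
      exact (U.smul_mem_iff c.ne_zero).1 h4) (by
      intro γ hγ
      have h4 : π γ ∈ ⁅E, E⁆ := by
        have := Subgroup.mem_map_of_mem π hγ
        rwa [Subgroup.map_commutator, Subgroup.map_comap_eq_self_of_surjective hC.surj] at this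
      have hm : π γ ∈ E := Subgroup.commutator_le_left E E h4
      obtain ⟨c, hc'⟩ := hC.over hτ γ hm
      obtain ⟨d, hd'⟩ := h2 h4
      exact ⟨c * d, by rw [hc', scal_sub hι hc (e := ⟨π γ, hm⟩) hd', smul_smul, Units.val_mul]⟩)
    refine desc ρ π hC.surj β hI ξ hd hn0 hX (hb ▸ dvd_rfl) (fun γ hγ => ?_) (fun g c hg => ?_)
    · obtain ⟨c, -, hc'⟩ := hC.ker γ hγ
      exact ⟨c, hker γ c hγ hc', hξ γ c hc'⟩
    · obtain ⟨γ, h4, h5, h6⟩ := hsc g c hg
      exact ⟨γ, h4, h5, by simpa using hξ γ 1 (by rw [h6]; simp)⟩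
  · refine desc (f := 0) ρ π hC.surj β hI (Representation.trivial ℂ Γ ℂ) hd hn0 (by simp)
      (by simp) (fun γ hγ => ?_) (fun g c hg => ?_)
    · obtain ⟨c, hc1, hc'⟩ := hC.ker γ hγ
      refine ⟨c, hker γ c hγ hc', ?_⟩
      rw [hθ.triv c _ (fun h => hls ?_) hc1]
      · ext; simp
      · rw [hb] at h
        exact ((Nat.prime_dvd_prime_iff_eq hs.out hl).1 (hs.out.dvd_of_dvd_pow h)).symm
    · obtain ⟨γ, h4, h5, -⟩ := hsc g c hg
      exact ⟨γ, h4, h5, by ext; simp⟩

theorem fs_concl [IsAlgClosed k] {s : ℕ} [Fact s.Prime] {θ : kˣ →* ℂˣ} (hθ : Th s θ) (n : ℕ) :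
    ∀ (G V : Type) [Group G] [Finite G] [Group.IsSolvable G] [AddCommGroup V] [Module k V]
      [FiniteDimensional k V] [Nontrivial V] (ρ : Representation k G V),
      finrank k V = n → Concl s θ ρ := by
  induction n using Nat.strong_induction_on with
  | _ n ih =>
  intro G V _ _ _ _ _ _ _ ρ hn
  by_cases hρ : Irr ρ
  · obtain ⟨H, W, _, _, _, σ, ι, hσ, hq, hd, hs, hι, hc⟩ := primk hρ
    refine red_ind ρ H σ ι hd hs hι hc (fs_prim hθ hσ hq fun Γ Y _ _ _ _ _ _ _ β h => ?_)
    exact ih _ (h.trans_le (hn ▸ LinearMap.finrank_le_finrank_of_injective hι)) Γ Y β rfl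
  · obtain ⟨W, _, _, _, _, τ, h1, h2, h3⟩ := red_piece (s := s) ρ hρ
    obtain ⟨U, M, _, _, _, σ, e, h4, h5, h6, h7⟩ := ih _ (hn ▸ h1) G W τ rfl
    exact ⟨U, M, _, _, inferInstance, σ, e, h4.trans h1.le, h5, h2 e h6,
      fun g c hg => h7 g c (h3 g c hg)⟩

theorem fs {k : Type} [Field k] [IsAlgClosed k] (s : ℕ) [Fact s.Prime] (th : kˣ →* ℂˣ)
    (h1 : ∀ (c : kˣ) (e : ℕ), c ^ s ^ e = 1 → th c = 1 → c = 1)
    (h2 : ∀ (c : kˣ) (n : ℕ), ¬ s ∣ n → c ^ n = 1 → th c = 1)
    {L W : Type} [Group L] [Finite L] [Group.IsSolvable L] [AddCommGroup W] [Module k W]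
    [FiniteDimensional k W] [Nontrivial W] (ρ : Representation k L W) :
    ∃ (U : Subgroup L) (M : Type) (_ : AddCommGroup M) (_ : Module ℂ M)
      (_ : FiniteDimensional ℂ M) (σ : Representation ℂ U M) (e : ℕ),
      U.index * finrank ℂ M ≤ finrank k W ∧ finrank ℂ M = s ^ e ∧ s ^ e ∣ finrank k W ∧
      ∀ (g : L) (c : kˣ), ρ g = (c : k) • (1 : Module.End k W) →
        ∃ h : g ∈ U, σ ⟨g, h⟩ = (th c : ℂ) • (1 : Module.End ℂ M) :=
  fs_concl ⟨h1, h2⟩ _ L W ρ rfl

end Pool.Agent.MP_f0649b_al.FS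

end

section

open Module
open scoped commutatorElement

namespace Pool.Agent.MP_f0649b_al.F

theorem th_main : TH_st := by
  intro k _ s hs
  have : Fact s.Prime := ⟨hs⟩
  obtain ⟨θ, h⟩ := FS.exists_theta k s
  exact ⟨θ, h.inj, fun c n hn => h.triv c n ((Nat.Prime.coprime_iff_not_dvd hs).1 hn.symm)⟩

theorem det_main : DET_st := by
  intro k L _ _ W θ
  refine ⟨θ.comp ((Units.map (LinearMap.det : Module.End k W.V →* k)).comp
    (MonoidHom.toHomUnits W.ρ)), fun g c h => ?_⟩
  rw [← map_pow]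
  refine congrArg θ (Units.ext ?_)
  change LinearMap.det (W.ρ g) = _
  rw [h, LinearMap.det_smul, map_one, mul_one, Units.val_pow_eq_pow_val, Rp.dim_def]

theorem fs_main : FS_st := by
  intro k L _ _ _ _ _ s θ W hs hθ hd
  have : Fact s.Prime := ⟨hs⟩
  have : Nontrivial W.V := Module.finrank_pos_iff.1 hd
  obtain ⟨U, M, _, _, _, σ, e, h1, h2, h3, h4⟩ := FS.fs s θ hθ.1
    (fun c n hn => hθ.2 c n ((Nat.Prime.coprime_iff_not_dvd hs).2 hn).symm) W.ρ
  exact ⟨U, ⟨M, σ⟩, e, h2, h3, h2 ▸ h1, h4⟩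

end Pool.Agent.MP_f0649b_al.F

end
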