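import Pool.Agent.Mg.Ff0649b.Ge0f87c
import Pool.Agent.Mg.Ff0649b.Gbd914f
import Pool.Agent.Mg.Ff0649b.G815ba1

section

/-! Interface, part 2: the linear bound, the exceptional types and the chain (sections 4, 5, 6). -/

open Module
open scoped commutatorElement

namespace Pool.Agent.MP_f0649b_al.F

/-! ### finite symplectic facts -/

def K14_st : Prop := ∀ {G X : Type} [Group G] [Finite G] [CommGroup X] [MulDistribMulAction G X]
  (s : Sym G X) (q κ : ℕ), q.Prime → Nat.card s.L = q ^ 2 → κ ≤ q ^ 2 → κ ≤ 2 * q → IrrL s.T s.L →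
  s.Kap κ

def K5_st : Prop := ∀ {G X : Type} [Group G] [Finite G] [CommGroup X] [MulDistribMulAction G X]
  (s : Sym G X) (Y : Subgroup G), Nat.card s.L = 81 → (∀ x ∈ s.L, x ^ 3 = 1) → IrrL s.T s.L →
  (∃ y ∈ Y, ∀ x ∈ s.L, y • x = x⁻¹) → GP s.T Y 8 → LC s.T Y 8 → s.Kap 36

def T2_st : Prop := ∀ {G X : Type} [Group G] [Finite G] [CommGroup X] [MulDistribMulAction G X]
  (s : Sym G X) (Y J : Subgroup G) (r : ℕ), Nat.card s.L = 16 → (∀ x ∈ s.L, x ^ 2 = 1) →
  IrrL s.T s.L → r.Prime → r ≠ 2 → J ≤ Y → NormBy s.T J →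
  (∀ y ∈ J, ∀ y' ∈ J, Same s.L (y * y') (y' * y)) → (∀ y ∈ J, Same s.L (y ^ r) 1) →
  (∃ y ∈ J, ¬ Same s.L y 1) →
  (∀ S ≤ s.T, (∀ t ∈ S, ∀ y ∈ J, Same s.L (t * y) (y * t)) → 4 ≤ S.relIndex s.T) →
  GP s.T Y 4 → s.Kap 10 ∧ ∃ x1 ∈ s.L, ∃ x2 ∈ s.L, x1 ≠ 1 ∧ x2 ≠ 1 ∧
    ((orb s.T x1 = 6 ∧ orb s.T x2 = 9) ∨
      (orb s.T x1 = 5 ∧ orb s.T x2 = 10 ∧ ∀ Q : Subgroup X, x2 ∈ Q → SInv Y Q → s.L ≤ Q))

def T3_st : Prop := ∀ {G X : Type} [Group G] [Finite G] [CommGroup X] [MulDistribMulAction G X]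
  (s : Sym G X) (Y : Subgroup G) (y : G), Nat.card s.L = 64 → (∀ x ∈ s.L, x ^ 2 = 1) → y ∈ Y →
  Same s.L (y ^ 3) 1 → (∀ x ∈ s.L, y • x = x → x = 1) →
  (∀ t ∈ s.T, Same s.L (t * y) (y * t) ∨ Same s.L (t * y) (y ^ 2 * t)) →
  GP s.T Y 8 → (∀ x ∈ s.L, x ≠ 1 → 12 ≤ orb s.T x) →
  s.Kap 36 ∧ ∃ x1 ∈ s.L, ∃ x2 ∈ s.L, x1 ≠ 1 ∧ x2 ≠ 1 ∧
    ((orb s.T x1 = 12 ∧ orb s.T x2 = 15) ∨ (orb s.T x1 = 27 ∧
      (orb s.T x2 = 12 ∨ orb s.T x2 = 15 ∨ orb s.T x2 = 18 ∨ orb s.T x2 = 36)))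

/-! ### the linear bound -/

section Lin
variable {G X : Type} [Group G] [CommGroup X] [MulDistribMulAction G X]

/-- the hypotheses of the linear bound -/
structure Lin (L : Subgroup X) (T J : Subgroup G) (q a d : ℕ) : Prop where
  prime : q.Prime
  apos : 0 < a
  card : Nat.card L = q ^ (2 * a)
  exp : ∀ x ∈ L, x ^ q = 1
  inv : SInv T L
  irr : IrrL T L
  nJ : J.Normal
  le : J ≤ T
  ab : ∀ g ∈ ⁅J, J⁆, Same L g 1
  ne : ∃ y ∈ J, ¬ Same L y 1
  dvd : q ^ a ∣ d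
  dpos : 0 < d
  low : Low J (T.index * d)

/-- an irreducible representation of `T` of dimension `n` trivial on the centraliser of `L` -/
def Tau (L : Subgroup X) (T : Subgroup G) (n : ℕ) : Prop :=
  ∃ τ : Rp ℂ T, Irr τ.ρ ∧ τ.dim = n ∧ ∀ t : T, Same L (t : G) 1 → τ.ρ t = 1

def O1 (L : Subgroup X) (T J : Subgroup G) (q a d : ℕ) : Prop :=
  q = 2 ∧ a = 1 ∧ d = 2 ∧ Small J (2 * T.index) ∧ Tau L T 2

def O4 (L : Subgroup X) (T J : Subgroup G) (q a d : ℕ) : Prop :=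
  q = 3 ∧ a = 1 ∧ d = 3 ∧ Small J (4 * T.index) ∧ Tau L T 2

def O5 (L : Subgroup X) (T J : Subgroup G) (q a d : ℕ) : Prop :=
  q = 3 ∧ a = 2 ∧ d = 9 ∧ Small J (16 * T.index) ∧ Tau L T 4 ∧ ∃ y ∈ J, ∀ x ∈ L, y • x = x⁻¹

def O2 (L : Subgroup X) (T J : Subgroup G) (q a d : ℕ) : Prop :=
  q = 2 ∧ a = 2 ∧ d = 4 ∧ Small J (4 * T.index) ∧ ∃ (r : ℕ) (J0 : Subgroup G), r.Prime ∧ r ≠ 2 ∧
    J0 ≤ J ∧ NormBy T J0 ∧ (∀ y ∈ J0, Same L (y ^ r) 1) ∧ (∃ y ∈ J0, ¬ Same L y 1) ∧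
    ∀ S ≤ T, (∀ t ∈ S, ∀ y ∈ J0, Same L (t * y) (y * t)) → 4 ≤ S.relIndex T

def O3 (L : Subgroup X) (T J : Subgroup G) (q a d : ℕ) : Prop :=
  q = 2 ∧ a = 3 ∧ (d = 8 ∨ d = 16) ∧ Small J (18 * T.index) ∧ ∃ y ∈ J, ¬ Same L y 1 ∧
    Same L (y ^ 3) 1 ∧ ∀ u ∈ J, Same L u 1 ∨ Same L u y ∨ Same L u (y ^ 2)

end Lin

def CLASS_st : Prop := ∀ {G X : Type} [Group G] [Finite G] [Group.IsSolvable G] [CommGroup X]
  [MulDistribMulAction G X] (L : Subgroup X) (T J : Subgroup G) (q a d : ℕ), Lin L T J q a d →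
  O1 L T J q a d ∨ O2 L T J q a d ∨ O3 L T J q a d ∨ O4 L T J q a d ∨ O5 L T J q a d

/-! ### the exceptional configurations -/

section Exc
variable {G : Type} [Group G]

/-- the frame attached to a representation of small degree -/
structure Exc [Finite G] (Y : Subgroup G) (R : Rp ℂ G) (μ N : ℕ) (F : Frame G) : Prop where
  nY : Y.Normal
  irr : Irr R.ρ
  low : Low Y μ
  le : R.dim ≤ μ
  B : F.B = ⁅Y, Y⁆
  vz : F.Vz R ≠ ⊥
  ne : F.L ≠ ⊥
  rd : RD F N

/-- the degrees in `(μ, N]` -/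
def Dset (G : Type) [Group G] (μ N : ℕ) : Set ℕ := {d | IsDeg G d ∧ μ < d ∧ d ≤ N}

theorem dset_finite (G : Type) [Group G] (μ N : ℕ) : (Dset G μ N).Finite :=
  (Set.finite_Iic N).subset fun _ h => h.2.2

/-- the compensating degrees -/
def Out (R : Rp ℂ G) (μ N q : ℕ) : Prop :=
  (∃ x ∈ Dset G μ N, padicValNat q R.dim ≤ padicValNat q x ∧
    (padicValNat q x ≤ padicValNat q R.dim ∨ x ≤ q * μ)) ∨
  ∃ x ∈ Dset G μ N, ∃ y ∈ Dset G μ N, x ≠ y ∧ padicValNat q x ≤ padicValNat q R.dim ∧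
    padicValNat q y ≤ padicValNat q R.dim

end Exc

def EX2_st : Prop := ∀ {G : Type} [Group G] [Finite G] [Group.IsSolvable G] (Y : Subgroup G)
  (R : Rp ℂ G) (μ N : ℕ) (F : Frame G), Exc Y R μ N F → Fpf Y F.L ∧
    ∃ q a, Lin F.L F.T Y q a (finrank ℂ (F.Vz R))

def KAP_st : Prop := ∀ {G : Type} [Group G] [Finite G] (F : Frame G) (κ N : ℕ),
  F.sym.Kap κ → RD F N → κ * F.T.index ≤ N

/-- the degree of the representation over a point of `L` -/
def NWX_st : Prop := ∀ {G : Type} [Group G] [Finite G] [Group.IsSolvable G] (Y : Subgroup G)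
  (R : Rp ℂ G) (μ N q : ℕ) (F : Frame G) (x : F.X), Exc Y R μ N F → Fpf Y F.L → q.Prime →
  x ∈ F.L → x ≠ 1 → orb F.T x * F.T.index ≤ N →
  padicValNat q (orb F.T x) ≤ padicValNat q (finrank ℂ (F.Vz R)) →
  ∃ D f c : ℕ, D ∈ Dset G μ N ∧ padicValNat q D ≤ padicValNat q R.dim ∧
    μ < (MulAction.stabilizer G x).index ∧
    c * (MulAction.stabilizer G x).index = orb F.T x * F.T.index ∧
    D = f * (MulAction.stabilizer G x).index ∧ 0 < f ∧ f ≤ c

def EXS_st : Prop := ∀ {G : Type} [Group G] [Finite G] [Group.IsSolvable G] (Y : Subgroup G)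
  (R : Rp ℂ G) (μ N q a : ℕ) (F : Frame G), Exc Y R μ N F →
  Lin F.L F.T Y q a (finrank ℂ (F.Vz R)) →
  (O1 F.L F.T Y q a (finrank ℂ (F.Vz R)) ∨ O4 F.L F.T Y q a (finrank ℂ (F.Vz R)) ∨
    O5 F.L F.T Y q a (finrank ℂ (F.Vz R))) → Out R μ N q

def EXP2_st : Prop := ∀ {G : Type} [Group G] [Finite G] [Group.IsSolvable G] (Y : Subgroup G)
  (R : Rp ℂ G) (μ N q a : ℕ) (F : Frame G), Exc Y R μ N F → Fpf Y F.L →
  Lin F.L F.T Y q a (finrank ℂ (F.Vz R)) → O2 F.L F.T Y q a (finrank ℂ (F.Vz R)) → Out R μ N q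

def EXP3_st : Prop := ∀ {G : Type} [Group G] [Finite G] [Group.IsSolvable G] (Y : Subgroup G)
  (R : Rp ℂ G) (μ N q a : ℕ) (F : Frame G), Exc Y R μ N F → Fpf Y F.L →
  Lin F.L F.T Y q a (finrank ℂ (F.Vz R)) → O3 F.L F.T Y q a (finrank ℂ (F.Vz R)) → Out R μ N q

def EX_st : Prop := ∀ {G : Type} [Group G] [Finite G] [Group.IsSolvable G] (Y : Subgroup G)
  (R : Rp ℂ G) (μ N p : ℕ) (F : Frame G), Exc Y R μ N F → p.Prime → p ∣ Nat.card F.L →
  Out R μ N p

/-! ### the chain -/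

def MAIN_st : Prop := ∀ {G : Type} [Group G] [Finite G] [Group.IsSolvable G] (n N : ℕ),
  Small (der (⊤ : Subgroup G) n) N → n + 1 ≤ {d | IsDeg G d ∧ d ≤ N}.ncard

end Pool.Agent.MP_f0649b_al.F

end

section

open Module
open scoped commutatorElement

namespace Pool.Agent.MP_f0649b_al.F

namespace Ex2Aux
variable {G X : Type} [Group G] [CommGroup X] [MulDistribMulAction G X]

theorem orb_lt (h0 : L0) [Finite G] {H : Subgroup G} {Q : Subgroup X} [Finite Q] (hQ : SInv H Q)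
    {x : X} (hx : x ∈ Q) : orb H x ≤ Nat.card Q :=
  ((h0.orb H).2.1 (Q : Set X) (Set.toFinite _) hQ).1 x hx

theorem perp_inv (s : Sym G X) {Q : Subgroup X} (hQ : SInv s.T Q) : SInv s.T (s.perp Q) :=
  fun t ht y hy => ⟨s.inv t ht y hy.1, fun x hx hx' => by
    have m := s.T.inv_mem ht
    rw [← smul_inv_smul t x, s.om_smul t ht _ (s.inv _ m x hx') y hy.1,
      hy.2 _ (hQ _ m x hx) (s.inv _ m x hx')]⟩

/-- the elements killed by `q` -/
def tor (L : Subgroup X) (q : ℕ) : Subgroup X := L ⊓ (powMonoidHom q).ker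

end Ex2Aux

open Ex2Aux in
theorem ex2_of (h0 : L0) (h1 : L1) (h2 : L2) (h3 : L3) : EX2_st := by
  intro G _ _ _ Y R μ N F hE
  have := hE.nY
  have hfL : Finite F.L := F.sym.fin
  have hfL' : Finite F.sym.L := F.sym.fin
  obtain ⟨hdim, -, -⟩ := h2.comp F R hE.irr hE.vz
  obtain ⟨hE1, hE2⟩ := h2.eig F R (F.Vz R) le_rfl ((F.inv_Vz R).mono F.B_le_T)
  obtain ⟨s1, -, I, hI, s3⟩ := h1.sym F.sym
  have hle := hE.le
  set d := finrank ℂ (F.Vz R) with hd
  have hd0 : 0 < d := Nat.pos_of_ne_zero fun e => hE.vz (Submodule.finrank_eq_zero.1 e)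
  have hm0 : 0 < F.T.index := Nat.pos_of_ne_zero Subgroup.index_ne_zero_of_finite
  have hg := (h3.gpl Y μ hE.low).1
  rw [hdim] at hle
  have hYT : Y ≤ F.T := hg _ ((Nat.le_mul_of_pos_right _ hd0).trans hle)
  have hF : Fpf Y F.L := h2.ca F Y hYT hE.B.le
  have big : ∀ Q : Subgroup F.X, Q ≤ F.L → SInv F.T Q → Q ≠ ⊥ → d < Nat.card Q := by
    intro Q hQ hQ' hne
    have : Finite Q := Finite.of_injective _ (Subgroup.inclusion_injective hQ)
    obtain ⟨⟨x, hx⟩, hx1⟩ := Subgroup.ne_bot_iff_exists_ne_one.1 hne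
    have a1 : μ < orb F.T x * F.T.index := not_le.1 fun e => by
      rw [orb_mul_index] at e
      exact hx1 (Subtype.ext (hF x (hQ hx) fun y hy => (hg _ e hy).2))
    have a2 := Nat.mul_le_mul_right F.T.index (orb_lt h0 hQ' hx)
    exact lt_of_mul_lt_mul_left (a := F.T.index) (by nlinarith) (Nat.zero_le _)
  have hirr : IrrL F.T F.L := by
    intro Q hQ hQ'
    by_contra hn
    push Not at hn
    have a1 := s1 Q hQ
    have a2 := big Q hQ hQ' hn.1
    have a3 := hE2 hE.vz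
    rw [Frame.sym_L] at a1
    by_cases hp : F.sym.perp Q = ⊥
    · rw [hp, Subgroup.card_bot, mul_one] at a1
      exact hn.2 (Subgroup.eq_of_le_of_card_ge hQ a1.ge)
    · have a4 := big (F.sym.perp Q) (fun y hy => (F.sym.mem_perp.1 hy).1) (perp_inv F.sym hQ') hp
      nlinarith
  have hc1 : Nat.card F.L ≠ 1 := fun e => hE.ne (Subgroup.card_eq_one.1 e)
  obtain ⟨q, hq, hqL⟩ := Nat.exists_prime_and_dvd hc1
  have := Fact.mk hq
  have hexp : ∀ x ∈ F.L, x ^ q = 1 := by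
    obtain ⟨x, hx⟩ := exists_prime_orderOf_dvd_card' (G := F.L) q hqL
    rcases hirr (tor F.L q) inf_le_left (fun t ht y hy => ⟨F.sym.inv t ht y hy.1, by
      have : y ^ q = 1 := hy.2
      change (t • y) ^ q = 1
      rw [← smul_pow', this, smul_one]⟩) with e | e
    · have m : (x : F.X) ∈ tor F.L q := ⟨x.2, by
        change (x : F.X) ^ q = 1
        rw [← Subgroup.coe_pow, ← hx, pow_orderOf_eq_one, Subgroup.coe_one]⟩
      rw [e, Subgroup.mem_bot, OneMemClass.coe_eq_one] at m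
      rw [m, orderOf_one] at hx
      exact absurd hx hq.one_lt.ne
    · intro y hy
      rw [← e] at hy
      exact hy.2
  have : Finite I := Finite.of_injective _ (Subgroup.inclusion_injective hI.1)
  obtain ⟨a, ha⟩ : ∃ a, Nat.card I = q ^ a := IsPGroup.iff_card.1 fun ⟨x, hx⟩ =>
    ⟨1, Subtype.ext (by rw [pow_one]; exact hexp x (hI.1 hx))⟩
  rw [ha, Frame.sym_L, ← pow_mul, mul_comm] at s3
  refine ⟨hF, q, a, hq, Nat.pos_of_ne_zero fun e => hc1 (by rw [← s3, e]; rfl), s3.symm, hexp,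
    F.sym.inv, hirr, hE.nY, hYT, fun g hg x _ => by rw [F.smul_of_mem_B (hE.B ▸ hg), one_smul],
    ?_, ha ▸ hE1 I hI, hd0, fun n hn => hle.trans (hE.low n hn)⟩
  by_contra hn
  push Not at hn
  exact hE.ne (eq_bot_iff.2 fun x hx => hF x hx fun y hy => by rw [hn y hy x hx, one_smul])

theorem kap_main : KAP_st := by
  intro G _ _ F κ N hK ⟨H, Q, hH, hQ, hI, hn⟩
  have hfL' : Finite F.sym.L := F.sym.fin
  have : Finite Q := Finite.of_injective _ (Subgroup.inclusion_injective hQ.1)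
  have a := hK H Q hH hQ hI
  rw [Frame.sym_T, Frame.sym_L] at a
  rw [← Subgroup.relIndex_mul_index hH] at hn
  apply Nat.le_of_mul_le_mul_right _ (Nat.card_pos (α := Q))
  nlinarith [Nat.mul_le_mul_right F.T.index a]

end Pool.Agent.MP_f0649b_al.F

end

section

open Module
open scoped commutatorElement

namespace Pool.Agent.MP_f0649b_al.F

theorem exs_of (h2 : L2) (h3 : L3) (k1 : K14_st) (k5 : K5_st) (hk : KAP_st) : EXS_st := by
  intro G _ _ _ Y R μ N q a F hE hL ho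
  have := hE.nY
  have := Fact.mk hL.prime
  obtain ⟨hdim, -, -⟩ := h2.comp F R hE.irr hE.vz
  have hle := hE.le
  set m := F.T.index with hm
  set d := finrank ℂ (F.Vz R) with hd
  have hm0 : 0 < m := Nat.pos_of_ne_zero Subgroup.index_ne_zero_of_finite
  have hd0 : 0 < d := hL.dpos
  have key : ∀ n, Tau F.L F.T n → d = q ^ a → 0 < n → μ < m * (d * n) → m * (d * n) ≤ N →
      (¬ q ∣ n ∨ m * (d * n) ≤ q * μ) → Out R μ N q := by
    intro n ⟨τ, t1, t2, t3⟩ e hn a1 a2 a3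
    have hD := h2.tens F R τ hE.vz (by rw [← hd, e, hL.card, ← pow_mul, mul_comm]) t1
      (fun t ht => t3 t fun x _ => by rw [F.smul_of_mem_B ht, one_smul])
    rw [t2] at hD
    have hv : padicValNat q (m * (d * n)) = padicValNat q R.dim + padicValNat q n := by
      rw [hdim, ← mul_assoc, padicValNat.mul (by positivity) hn.ne']
    refine Or.inl ⟨m * (d * n), ⟨hD, a1, a2⟩, by omega, a3.imp (fun h => ?_) id⟩
    rw [hv, padicValNat.eq_zero_of_not_dvd h, add_zero]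
  rcases ho with ⟨rfl, rfl, e, hS, hτ⟩ | ⟨rfl, rfl, e, hS, hτ⟩ | ⟨rfl, rfl, e, hS, hτ, hy⟩
  · have a1 := hE.low _ hS
    have a2 : 4 * m ≤ N :=
      hk F 4 N (k1 F.sym 2 4 Nat.prime_two hL.card le_rfl le_rfl hL.irr) hE.rd
    rw [hdim, e] at hle
    refine key 2 hτ (by rw [e]; rfl) two_pos ?_ ?_ (Or.inr ?_) <;> rw [e] <;> omega
  · have a1 := hE.low _ hS
    have a2 : 6 * m ≤ N :=
      hk F 6 N (k1 F.sym 3 6 Nat.prime_three hL.card (by norm_num) le_rfl hL.irr) hE.rd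
    refine key 2 hτ (by rw [e]; rfl) two_pos ?_ ?_ (Or.inl (by norm_num)) <;> rw [e] <;> omega
  · have a1 := hE.low _ hS
    rw [hdim, e] at hle
    obtain ⟨g1, g2⟩ := (h3.gpl Y μ hE.low).2.2 F.T 8
    have a2 : 36 * m ≤ N :=
      hk F 36 N (k5 F.sym Y hL.card hL.exp hL.irr hy (g1 (by omega)) (g2 (by omega))) hE.rd
    refine key 4 hτ (by rw [e]; rfl) (by norm_num) ?_ ?_ (Or.inl (by norm_num)) <;> rw [e] <;> omega

end Pool.Agent.MP_f0649b_al.F

end

section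

open Module
open scoped commutatorElement

namespace Pool.Agent.MP_f0649b_al.F

namespace ExP3Aux

theorem small (m g c f o : ℕ) (hm : 0 < m) (hg : 12 * m ≤ g) (hc : c * g = o * m) (hf : 0 < f)
    (hfc : f ≤ c) (ho : o < 24) : f * g = o * m := by
  have : c < 2 := by
    by_contra h
    have : 2 * g ≤ c * g := Nat.mul_le_mul_right _ (not_lt.1 h)
    nlinarith
  have e : f = c := by omega
  rw [e, hc]

theorem c_le (m g c o k : ℕ) (hm : 0 < m) (hg : 12 * m ≤ g) (hc : c * g = o * m)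
    (ho : o < 12 * (k + 1)) : c ≤ k := by
  by_contra h
  have : (k + 1) * g ≤ c * g := Nat.mul_le_mul_right _ (not_le.1 h)
  nlinarith

theorem ne27 (m g c f g' c' f' o : ℕ) (hm : 0 < m) (hg : 12 * m ≤ g) (hc : c * g = 27 * m)
    (hf : 0 < f) (hfc : f ≤ c) (hg' : 12 * m ≤ g') (hc' : c' * g' = o * m) (hf' : 0 < f')
    (hfc' : f' ≤ c') (ho : o = 12 ∨ o = 15 ∨ o = 18 ∨ o = 36) : f * g ≠ f' * g' := by
  have a := c_le m g c 27 2 hm hg hc (by norm_num)
  have b : f * g = 27 * m ∨ 2 * (f * g) = 27 * m := by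
    interval_cases c <;> interval_cases f <;> omega
  rcases ho with rfl | rfl | rfl | rfl
  · rw [small m g' c' f' 12 hm hg' hc' hf' hfc' (by norm_num)]; omega
  · rw [small m g' c' f' 15 hm hg' hc' hf' hfc' (by norm_num)]; omega
  · rw [small m g' c' f' 18 hm hg' hc' hf' hfc' (by norm_num)]; omega
  · have a' := c_le m g' c' 36 3 hm hg' hc' (by norm_num)
    interval_cases c' <;> interval_cases f' <;> omega

theorem val_le {o d : ℕ} (hd : d = 8 ∨ d = 16) (ho : ¬ 16 ∣ o) :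
    padicValNat 2 o ≤ padicValNat 2 d := by
  have := Fact.mk Nat.prime_two
  have h0 : o ≠ 0 := fun e => ho (e ▸ dvd_zero _)
  have h1 : padicValNat 2 o ≤ 3 := by
    by_contra h
    exact ho ((padicValNat_dvd_iff_le (p := 2) (n := 4) h0).2 (by omega))
  have h2 : 3 ≤ padicValNat 2 d :=
    (padicValNat_dvd_iff_le (p := 2) (n := 3) (by omega)).1 (by omega)
  omega

end ExP3Aux

open ExP3Aux in
theorem exp3_of (h0 : L0) (h2 : L2) (h3 : L3) (ht : T3_st) (hk : KAP_st) (hn : NWX_st) : EXP3_st := by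
  intro G _ _ _ Y R μ N q a F hE hF hL ⟨hq, ha, hd, _, y, hy, hy1, hy3, hu⟩
  subst hq ha
  have := hE.nY
  obtain ⟨hdim, -, -⟩ := h2.comp F R hE.irr hE.vz
  set m := F.T.index with hm
  have hm0 : 0 < m := Nat.pos_of_ne_zero Subgroup.index_ne_zero_of_finite
  have h8 : 8 * m ≤ μ := by
    have := hE.le
    rw [hdim] at this
    rcases hd with e | e <;> rw [e] at this <;> omega
  have hfp : ∀ x ∈ F.L, y • x = x → x = 1 := fun x hx e => hF x hx fun u hu' => by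
    rcases hu u hu' with h | h | h
    · rw [h x hx, one_smul]
    · rw [h x hx, e]
    · rw [h x hx, pow_two, mul_smul, e, e]
  have hg : ∀ x ∈ F.L, x ≠ 1 → 12 * m ≤ (MulAction.stabilizer G x).index := by
    intro x hx hx1
    have hY : ¬ Y ≤ MulAction.stabilizer G x := fun h => hx1 (hfp x hx (h hy))
    obtain ⟨n, hn1, hn2⟩ := h3.f2 Y _ (MulAction.stabilizer G x ⊔ Y) hY le_sup_left le_sup_right
    have a1 := hE.low n hn1
    have a2 := Subgroup.relIndex_mul_index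
      (le_sup_left : MulAction.stabilizer G x ≤ MulAction.stabilizer G x ⊔ Y)
    have a3 : (MulAction.stabilizer G x).relIndex (MulAction.stabilizer G x ⊔ Y) ≤ 3 := by
      rw [(h0.orb _).1 x]
      refine le_trans (Set.ncard_le_ncard (t := {x, y • x, y ^ 2 • x}) ?_ (Set.toFinite _)) ?_
      · rintro _ ⟨h, hh, rfl⟩
        rw [sup_comm, ← SetLike.mem_coe, Subgroup.normal_mul] at hh
        obtain ⟨u, hu', s, hs, rfl⟩ := hh
        have hs' : s • x = x := hs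
        simp only [mul_smul, hs', Set.mem_insert_iff, Set.mem_singleton_iff]
        rcases hu u hu' with h | h | h
        · exact Or.inl (by rw [h x hx, one_smul])
        · exact Or.inr (Or.inl (h x hx))
        · exact Or.inr (Or.inr (h x hx))
      · exact Set.ncard_insert_le _ _ |>.trans
          (Nat.succ_le_succ ((Set.ncard_insert_le _ _).trans (by simp)))
    have a4 := Nat.mul_le_mul_right (MulAction.stabilizer G x ⊔ Y).index a3
    omega
  have horb : ∀ x ∈ F.L, x ≠ 1 → 12 ≤ orb F.T x := by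
    intro x hx hx1
    have a1 := hg x hx hx1
    have a2 : (MulAction.stabilizer G x).index ≤ orb F.T x * m := by
      rw [hm, orb_mul_index]
      exact Nat.le_of_dvd (Nat.pos_of_ne_zero Subgroup.index_ne_zero_of_finite)
        (Subgroup.index_dvd_of_le inf_le_right)
    exact Nat.le_of_mul_le_mul_right (a1.trans a2) hm0
  have hconj : ∀ t ∈ F.T, Same F.L (t * y) (y * t) ∨ Same F.L (t * y) (y ^ 2 * t) := by
    intro t ht'
    have e : t * y = t * y * t⁻¹ * t := by group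
    rcases hu _ (this.conj_mem y hy t) with h | h | h
    · refine absurd (fun x hx => ?_) hy1
      have := h _ (hL.inv t ht' x hx)
      rw [← mul_smul, ← e, one_smul, mul_smul] at this
      rw [one_smul]
      exact smul_left_cancel t this
    · exact Or.inl fun x hx => by rw [e, mul_smul, h _ (hL.inv t ht' x hx), ← mul_smul]
    · exact Or.inr fun x hx => by rw [e, mul_smul, h _ (hL.inv t ht' x hx), ← mul_smul]
  obtain ⟨hK, x1, hx1, x2, hx2, n1, n2, ho⟩ := ht F.sym Y y hL.card hL.exp hy hy3 hfp hconj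
    (((h3.gpl Y μ hE.low).2.2 F.T 8).1 h8) horb
  have hN : 36 * m ≤ N := hk F 36 N hK hE.rd
  simp only [Frame.sym_T, Frame.sym_L] at ho hx1 hx2
  have o1 : orb F.T x1 = 12 ∨ orb F.T x1 = 27 := by omega
  have o2 : orb F.T x2 = 12 ∨ orb F.T x2 = 15 ∨ orb F.T x2 = 18 ∨ orb F.T x2 = 36 := by omega
  obtain ⟨D1, f1, c1, a1, a2, -, a4, a5, a6, a7⟩ := hn Y R μ N 2 F x1 hE hF Nat.prime_two hx1 n1
    ((Nat.mul_le_mul_right _ (by omega)).trans hN) (val_le hd (by omega))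
  obtain ⟨D2, f2, c2, b1, b2, -, b4, b5, b6, b7⟩ := hn Y R μ N 2 F x2 hE hF Nat.prime_two hx2 n2
    ((Nat.mul_le_mul_right _ (by omega)).trans hN) (val_le hd (by omega))
  refine Or.inr ⟨D1, a1, D2, b1, ?_, a2, b2⟩
  rw [a5, b5]
  rcases ho with ⟨e1, e2⟩ | ⟨e1, -⟩
  · rw [e1] at a4
    rw [e2] at b4
    rw [small m _ c1 f1 12 hm0 (hg x1 hx1 n1) a4 a6 a7 (by norm_num),
      small m _ c2 f2 15 hm0 (hg x2 hx2 n2) b4 b6 b7 (by norm_num)]
    omega
  · rw [e1] at a4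
    exact ne27 m _ c1 f1 _ c2 f2 _ hm0 (hg x1 hx1 n1) a4 a6 a7 (hg x2 hx2 n2) b4 b6 b7 o2

end Pool.Agent.MP_f0649b_al.F

end

section

open Module
open scoped commutatorElement

namespace Pool.Agent.MP_f0649b_al.F

theorem ex_of (h2 : EX2_st) (hc : CLASS_st) (hs : EXS_st) (hp2 : EXP2_st) (hp3 : EXP3_st) : EX_st := by
  intro G _ _ _ Y R μ N p F hE hp hd
  obtain ⟨hf, q, a, hL⟩ := h2 Y R μ N F hE
  have e : p = q := by
    rw [hL.card] at hd
    exact (Nat.prime_dvd_prime_iff_eq hp hL.prime).1 (hp.dvd_of_dvd_pow hd)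
  subst e
  rcases hc _ _ _ _ _ _ hL with h | h | h | h | h
  · exact hs Y R μ N p a F hE hL (Or.inl h)
  · exact hp2 Y R μ N p a F hE hf hL h
  · exact hp3 Y R μ N p a F hE hf hL h
  · exact hs Y R μ N p a F hE hL (Or.inr (Or.inl h))
  · exact hs Y R μ N p a F hE hL (Or.inr (Or.inr h))

end Pool.Agent.MP_f0649b_al.F

end

section

/-! The chain argument: many irreducible degrees below a weight. -/

open Module
open scoped commutatorElement

namespace Pool.Agent.MP_f0649b_al.F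

namespace ChainAux

/-- the least weight at each level of the derived series -/
noncomputable def mu (G : Type) [Group G] : ℕ → ℕ
  | 0 => 0
  | t + 1 => sInf {k | Small (der (⊤ : Subgroup G) t) k}

section
variable {G : Type} [Group G]

theorem low_mu (t : ℕ) : Low (der (⊤ : Subgroup G) t) (mu G (t + 1)) :=
  fun _ hn => Nat.sInf_le hn

theorem small_mu {t N : ℕ} (h : Small (der (⊤ : Subgroup G) t) N) :
    Small (der (⊤ : Subgroup G) t) (mu G (t + 1)) :=
  Nat.sInf_mem (s := {k | Small (der (⊤ : Subgroup G) t) k}) ⟨N, h⟩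

theorem small_down [Finite G] (h3 : L3) {s t N : ℕ} (hs : s ≤ t)
    (h : Small (der (⊤ : Subgroup G) t) N) : Small (der (⊤ : Subgroup G) s) N := by
  obtain ⟨i, rfl⟩ := Nat.exists_eq_add_of_le hs
  rw [← der_der] at h
  exact (h3.f3i _ i N h).mono (Nat.sub_le _ _)

theorem mu_mono [Finite G] (h3 : L3) {r s t N : ℕ} (h : Small (der (⊤ : Subgroup G) t) N)
    (hr : r ≤ s) (hs : s ≤ t + 1) : mu G r ≤ mu G s := by
  rcases r with _ | r
  · exact Nat.zero_le _
  rcases s with _ | s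
  · omega
  exact low_mu r _ (small_down h3 (by omega) (small_mu (small_down h3 (by omega) h)))

theorem not_triv {R : Rp ℂ G} {p : ℕ} {A : Subgroup G} (h : PZ R p A) : ¬ Triv R.ρ A :=
  fun e => let ⟨z, hz, h1, _⟩ := h; h1 (e z hz)

end

/-- the chain of degrees above a stopping level -/
theorem chain (h1 : L1) (h2 : L2) (h3 : L3) (he : EX_st) {G : Type} [Group G]
    [Finite G] [Group.IsSolvable G] (p N : ℕ) (hp : p.Prime) (t : ℕ) :
    ∀ R : Rp ℂ G, Irr R.ρ → Wt R.ρ N → Triv R.ρ (der ⊤ (t + 1)) → PZ R p (der ⊤ t) →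
    ∃ r ≤ t, ∃ D : Finset ℕ, D.card = t + 1 - r ∧ ∀ x ∈ D, x ∈ Dset G (mu G r) N ∧
      (padicValNat p x ≤ padicValNat p R.dim ∨ x ≤ p * mu G t) := by
  induction t with
  | zero =>
    intro R hR hW _ _
    refine ⟨0, le_rfl, {R.dim}, rfl, fun x hx => ?_⟩
    rw [Finset.mem_singleton] at hx
    subst hx
    exact ⟨⟨⟨R, hR, rfl⟩, Rp.dim_pos hR, h1.wd R N hR hW⟩, Or.inl le_rfl⟩
  | succ t ih =>
    intro R hR hW hT hP
    have hN : R.dim ≤ N := h1.wd R N hR hW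
    have hSm : Small (der (⊤ : Subgroup G) (t + 1)) N := ⟨R, hR, hT, not_triv hP, hW⟩
    by_cases hstop : mu G (t + 1) < R.dim
    · refine ⟨t + 1, le_rfl, {R.dim}, by simp, fun x hx => ?_⟩
      rw [Finset.mem_singleton] at hx
      subst hx
      exact ⟨⟨⟨R, hR, rfl⟩, hstop, hN⟩, Or.inl le_rfl⟩
    obtain ⟨F, hB, hV, hrd, hpL, hpT, x, hx, hx1, R', hR', hW', hT', hP', hv, hix⟩ :=
      h3.step R (der ⊤ t) p N _ hp hR hW hT hP (low_mu t) (not_lt.1 hstop)
    have hN' : R'.dim ≤ N := h1.wd R' N hR' hW'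
    have hmm : p * mu G t ≤ p * mu G (t + 1) :=
      Nat.mul_le_mul_left _ (mu_mono h3 hSm (by omega) (by omega))
    by_cases ha : mu G t < R'.dim
    · have pair : ∀ y, y ∈ Dset G (mu G t) N → padicValNat p R'.dim < padicValNat p y →
          (padicValNat p y ≤ padicValNat p R.dim ∨ y ≤ p * mu G (t + 1)) →
          ∃ r ≤ t + 1, ∃ D : Finset ℕ, D.card = t + 1 + 1 - r ∧ ∀ x ∈ D, x ∈ Dset G (mu G r) N ∧
            (padicValNat p x ≤ padicValNat p R.dim ∨ x ≤ p * mu G (t + 1)) := by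
        intro y hy hlt hor
        refine ⟨t, by omega, {R'.dim, y}, ?_, fun z hz => ?_⟩
        · rw [Finset.card_pair (fun e => by rw [e] at hlt; exact lt_irrefl _ hlt)]
          omega
        · rw [Finset.mem_insert, Finset.mem_singleton] at hz
          rcases hz with rfl | rfl
          · exact ⟨⟨⟨R', hR', rfl⟩, ha, hN'⟩, Or.inl hv.le⟩
          · exact ⟨hy, hor⟩
      by_cases hb : mu G t < R.dim
      · exact pair R.dim ⟨⟨R, hR, rfl⟩, hb, hN⟩ hv (Or.inl le_rfl)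
      rcases t with _ | t
      · exact absurd (Rp.dim_pos hR) hb
      have hne : F.L ≠ ⊥ := fun e => hx1 (by rwa [e, Subgroup.mem_bot] at hx)
      rcases he (der ⊤ t) R _ N p F
        ⟨inferInstance, hR, low_mu t, not_lt.1 hb, hB, hV, hne, hrd⟩ hp hpL with
        ⟨y, hy, e, e'⟩ | ⟨y, hy, z, hz, hyz, e, e'⟩
      · exact pair y hy (hv.trans_le e) (e'.imp id fun e' => e'.trans hmm)
      · refine ⟨t + 1, by omega, {y, z}, ?_, fun w hw => ?_⟩
        · rw [Finset.card_pair hyz]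
          omega
        · rw [Finset.mem_insert, Finset.mem_singleton] at hw
          rcases hw with rfl | rfl
          · exact ⟨hy, Or.inl e⟩
          · exact ⟨hz, Or.inl e'⟩
    · rcases t with _ | t
      · exact absurd (Rp.dim_pos hR') ha
      have hg := (h3.gpl (der (⊤ : Subgroup G) t) _ (low_mu t)).1
      have hY := hg _ (hix.trans (not_lt.1 ha))
      have hnT : ¬ der ⊤ t ≤ F.T := fun hle =>
        hx1 (h2.ca F _ hle (le_of_eq hB) x hx fun y hy => hY hy)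
      have hlt : mu G (t + 1) < F.T.index := not_le.1 fun e => hnT (hg _ e)
      have hbig : p * mu G (t + 1) < R.dim :=
        lt_of_lt_of_le (Nat.mul_lt_mul_of_pos_left hlt hp.pos) hpT
      obtain ⟨r, hr, D, hD, hD'⟩ := ih R' hR' hW' hT' hP'
      have hnew : R.dim ∉ D := fun hm => by
        rcases (hD' _ hm).2 with e | e
        · omega
        · omega
      refine ⟨r, by omega, insert R.dim D, ?_, fun w hw => ?_⟩
      · rw [Finset.card_insert_of_notMem hnew, hD]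
        omega
      · rw [Finset.mem_insert] at hw
        rcases hw with rfl | hw
        · refine ⟨⟨⟨R, hR, rfl⟩, ?_, hN⟩, Or.inl le_rfl⟩
          have a1 : mu G r ≤ mu G (t + 1) := mu_mono h3 hSm hr (by omega)
          have a2 : mu G (t + 1) ≤ p * mu G (t + 1) := Nat.le_mul_of_pos_left _ hp.pos
          omega
        · refine ⟨(hD' w hw).1, ?_⟩
          rcases (hD' w hw).2 with e | e
          · exact Or.inl (e.trans hv.le)
          · exact Or.inr (e.trans hmm)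

/-- a small weight at level `n` gives `n + 1` degrees -/
theorem many (h1 : L1) (h2 : L2) (h3 : L3) (he : EX_st) {G : Type} [Group G]
    [Finite G] [Group.IsSolvable G] (n : ℕ) : ∀ N, Small (der (⊤ : Subgroup G) n) N →
    ∃ D : Finset ℕ, D.card = n + 1 ∧ ∀ x ∈ D, IsDeg G x ∧ x ≤ N := by
  induction n using Nat.strong_induction_on with
  | _ n ih =>
    intro N hSm
    obtain ⟨R, hR, hT, hnT, hW⟩ := id hSm
    obtain ⟨p, hp, hP⟩ := h1.abp R _ hnT
    obtain ⟨r, hr, D, hD, hD'⟩ := chain h1 h2 h3 he p N hp n R hR hW hT hP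
    rcases r with _ | r
    · exact ⟨D, hD, fun x hx => ⟨(hD' x hx).1.1, (hD' x hx).1.2.2⟩⟩
    obtain ⟨E, hE, hE'⟩ := ih r (by omega) _ (small_mu (small_down h3 (by omega) hSm))
    have hle : mu G (r + 1) ≤ N := low_mu r _ (small_down h3 (by omega) hSm)
    refine ⟨D ∪ E, ?_, fun x hx => ?_⟩
    · rw [Finset.card_union_of_disjoint, hD, hE]
      · omega
      · rw [Finset.disjoint_left]
        intro x hx hx'
        have := (hD' x hx).1.2.1
        have := (hE' x hx').2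
        omega
    · rcases Finset.mem_union.1 hx with hx | hx
      · exact ⟨(hD' x hx).1.1, (hD' x hx).1.2.2⟩
      · exact ⟨(hE' x hx).1, (hE' x hx).2.trans hle⟩

end ChainAux

theorem main_of (h1 : L1) (h2 : L2) (h3 : L3) (hx : EX_st) : MAIN_st := by
  intro G _ _ _ n N hN
  obtain ⟨D, hD, hD'⟩ := ChainAux.many h1 h2 h3 hx n N hN
  have hsub : (D : Set ℕ) ⊆ {d | IsDeg G d ∧ d ≤ N} := fun x hx => hD' x hx
  have := Set.ncard_le_ncard hsub ((Set.finite_Iic N).subset fun _ h => h.2)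
  rwa [Set.ncard_coe_finset, hD] at this

end Pool.Agent.MP_f0649b_al.F

end

section

/-! The linear model `Hom(L, k)` of an elementary abelian group with operators. -/

open Module

namespace Pool.Agent.MP_f0649b_al.Cls

open F

section
variable {G X : Type} [Group G] [CommGroup X] [MulDistribMulAction G X]
  {L : Subgroup X} {T : Subgroup G}

/-- the action of `T` on `L` -/
def act (h : SInv T L) (t : T) : Additive L →+ Additive L :=
  MonoidHom.toAdditive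
    { toFun := fun x => ⟨(t : G) • (x : X), h t t.2 x x.2⟩
      map_one' := Subtype.ext (smul_one _)
      map_mul' := fun _ _ => Subtype.ext (smul_mul' _ _ _) }

theorem act_apply (h : SInv T L) (t : T) (x : L) :
    act h t (Additive.ofMul x) = Additive.ofMul ⟨(t : G) • (x : X), h t t.2 x x.2⟩ := rfl

theorem act_mul (h : SInv T L) (s t : T) (x : Additive L) :
    act h (s * t) x = act h s (act h t x) :=
  congrArg Additive.ofMul (Subtype.ext (mul_smul (s : G) (t : G) _))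

theorem act_one (h : SInv T L) (x : Additive L) : act h 1 x = x :=
  congrArg Additive.ofMul (Subtype.ext (one_smul G _))

/-- the representation on additive maps to `k` -/
def hrep (k : Type) [Field k] (h : SInv T L) : Representation k T (Additive L →+ k) where
  toFun t :=
    { toFun := fun φ => φ.comp (act h t⁻¹)
      map_add' := fun _ _ => rfl
      map_smul' := fun _ _ => rfl }
  map_one' := LinearMap.ext fun φ => AddMonoidHom.ext fun x => by
    change φ (act h 1⁻¹ x) = φ x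
    rw [inv_one, act_one]
  map_mul' s t := LinearMap.ext fun φ => AddMonoidHom.ext fun x => by
    change φ (act h (s * t)⁻¹ x) = φ (act h t⁻¹ (act h s⁻¹ x))
    rw [mul_inv_rev, act_mul]

theorem hrep_apply (k : Type) [Field k] (h : SInv T L) (t : T) (φ : Additive L →+ k)
    (x : Additive L) : hrep k h t φ x = φ (act h t⁻¹ x) := rfl

end

section
variable {A : Type} [AddCommGroup A] [Finite A] (q : ℕ) [Fact q.Prime] (k : Type) [Field k]
  [Algebra (ZMod q) k]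

theorem hom_dim' [Module (ZMod q) A] (n : ℕ) (hn : Nat.card A = q ^ n) :
    FiniteDimensional k (A →+ k) ∧ finrank k (A →+ k) = n := by
  have : Module.Finite (ZMod q) A := Module.Finite.of_finite
  have h1 : Nat.card A = q ^ finrank (ZMod q) A := by
    rw [Module.natCard_eq_pow_finrank (K := ZMod q), Nat.card_zmod]
  have h2 : finrank (ZMod q) A = n :=
    Nat.pow_right_injective (Fact.out : q.Prime).two_le (h1.symm.trans hn)
  let e1 : (A →+ k) ≃ₗ[k] (A →ₗ[ZMod q] k) :=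
    { AddMonoidHom.toZModLinearMapEquiv q with
      map_smul' := fun _ _ => LinearMap.ext fun _ => rfl }
  let e2 := (Module.finBasis (ZMod q) A).constr (M' := k) k
  let e := e2.trans e1.symm
  exact ⟨e.finiteDimensional, by rw [← e.finrank_eq, Module.finrank_fin_fun, h2]⟩

theorem hom_dim (hq : ∀ x : A, q • x = 0) (n : ℕ) (hn : Nat.card A = q ^ n) :
    FiniteDimensional k (A →+ k) ∧ finrank k (A →+ k) = n :=
  @hom_dim' A _ _ q _ k _ _ (AddCommGroup.zmodModule hq) n hn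

omit [Finite A] in
theorem hom_sep' [Module (ZMod q) A] {x : A} (hx : ∀ φ : A →+ k, φ x = 0) : x = 0 := by
  refine (Module.forall_dual_apply_eq_zero_iff (ZMod q) x).1 fun f => ?_
  have := hx ((algebraMap (ZMod q) k).toAddMonoidHom.comp f.toAddMonoidHom)
  exact (algebraMap (ZMod q) k).injective (by rw [map_zero]; exact this)

omit [Finite A] in
theorem hom_sep (hq : ∀ x : A, q • x = 0) {x : A} (hx : ∀ φ : A →+ k, φ x = 0) : x = 0 :=
  @hom_sep' A _ q _ k _ _ (AddCommGroup.zmodModule hq) x hx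

end

/-- the model: a representation over an algebraically closed field with a Frobenius map -/
theorem model {G X : Type} [Group G] [CommGroup X] [MulDistribMulAction G X]
    (L : Subgroup X) (T : Subgroup G) (q n : ℕ) [Fact q.Prime] (k : Type) [Field k]
    [Algebra (ZMod q) k] [CharP k q] (hT : SInv T L) (hi : IrrL T L) (hc : Nat.card L = q ^ n)
    (hq : ∀ x ∈ L, x ^ q = 1) :
    ∃ (W : Rp k T) (Fr : W.V →+ W.V), W.dim = n ∧ Function.Injective Fr ∧
      (∀ (c : k) v, Fr (c • v) = c ^ q • Fr v) ∧ (∀ g v, Fr (W.ρ g v) = W.ρ g (Fr v)) ∧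
      (∀ g h : T, W.ρ g = W.ρ h ↔ Same L (g : G) h) ∧
      (∀ g : T, W.ρ g = (-1 : k) • 1 → ∀ x ∈ L, (g : G) • x = x⁻¹) ∧
      ∀ J : Subgroup T, J.Normal → (∃ y ∈ J, W.ρ y ≠ 1) → ∀ v, (∀ y ∈ J, W.ρ y v = v) → v = 0 := by
  have hfin : Finite L := Nat.finite_of_card_ne_zero (by
    rw [hc]; exact pow_ne_zero _ (Fact.out : q.Prime).ne_zero)
  have hq' : ∀ x : Additive L, q • x = 0 := fun x =>
    congrArg Additive.ofMul (Subtype.ext (hq _ (Additive.toMul x).2))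
  obtain ⟨hfd, hd⟩ := hom_dim q k hq' n hc
  have hsame : ∀ g h : T, hrep k hT g = hrep k hT h ↔ Same L (g : G) h := by
    intro g h
    constructor
    · intro e x hx
      have h1 : act hT g⁻¹ (act hT h (Additive.ofMul ⟨x, hx⟩)) - Additive.ofMul ⟨x, hx⟩ = 0 := by
        refine hom_sep q k hq' fun φ => ?_
        rw [map_sub, ← hrep_apply, e, hrep_apply, ← act_mul, inv_mul_cancel, act_one, sub_self]
      have h2 := congrArg (act hT g) (sub_eq_zero.1 h1)
      rw [← act_mul, mul_inv_cancel, act_one] at h2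
      exact (congrArg (fun z => ((Additive.toMul z : L) : X)) h2).symm
    · intro e
      refine LinearMap.ext fun φ => AddMonoidHom.ext fun x => ?_
      rw [hrep_apply, hrep_apply]
      congr 1
      have h1 : act hT g (act hT h⁻¹ x) = x := by
        conv_rhs => rw [← act_one hT x, ← mul_inv_cancel h, act_mul]
        exact congrArg Additive.ofMul (Subtype.ext (e _ (Additive.toMul (act hT h⁻¹ x)).2))
      conv_lhs => rw [← h1, ← act_mul, inv_mul_cancel, act_one]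
  refine ⟨⟨Additive L →+ k, hrep k hT⟩,
    { toFun := fun φ => (frobenius k q).toAddMonoidHom.comp φ
      map_zero' := AddMonoidHom.ext fun x => map_zero (frobenius k q)
      map_add' := fun φ ψ => AddMonoidHom.ext fun x => map_add (frobenius k q) _ _ },
    hd, fun φ ψ e => AddMonoidHom.ext fun x => (frobenius k q).injective (DFunLike.congr_fun e x),
    fun c φ => AddMonoidHom.ext fun x => map_mul (frobenius k q) c (φ x), fun _ _ => rfl,
    hsame, fun g e x hx => ?_, fun J hJ hy => ?_⟩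
  · have h1 : act hT g (Additive.ofMul ⟨x, hx⟩) + Additive.ofMul ⟨x, hx⟩ = 0 := by
      refine hom_sep q k hq' fun φ => ?_
      have h2 := DFunLike.congr_fun (LinearMap.congr_fun e φ) (act hT g (Additive.ofMul ⟨x, hx⟩))
      change φ (act hT g⁻¹ _) = (-1 : k) * φ _ at h2
      rw [← act_mul, inv_mul_cancel, act_one] at h2
      rw [map_add, h2]
      ring
    exact eq_inv_of_mul_eq_one_left (congrArg (fun z => ((Additive.toMul z : L) : X)) h1)
  · let K : Subgroup X :=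
      { carrier := {x | ∃ hx : x ∈ L, ∀ φ : Additive L →+ k, (∀ y ∈ J, hrep k hT y φ = φ) →
          φ (Additive.ofMul ⟨x, hx⟩) = 0}
        one_mem' := ⟨L.one_mem, fun φ _ => map_zero φ⟩
        mul_mem' := fun {a b} ⟨ha, ha'⟩ ⟨hb, hb'⟩ => ⟨L.mul_mem ha hb, fun φ hφ => by
          have := map_add φ (Additive.ofMul ⟨a, ha⟩) (Additive.ofMul ⟨b, hb⟩)
          rw [ha' φ hφ, hb' φ hφ, add_zero] at this
          exact this⟩
        inv_mem' := fun {a} ⟨ha, ha'⟩ => ⟨L.inv_mem ha, fun φ hφ => by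
          have := map_neg φ (Additive.ofMul ⟨a, ha⟩)
          rw [ha' φ hφ, neg_zero] at this
          exact this⟩ }
    rcases hi K (fun x hx => hx.1) (fun t ht x ⟨hx, hx'⟩ => ⟨hT t ht x hx, fun φ hφ => by
      have h1 := hx' (hrep k hT (⟨t, ht⟩ : T)⁻¹ φ) fun y hy => by
        have e : y * (⟨t, ht⟩ : T)⁻¹ = (⟨t, ht⟩ : T)⁻¹ * (⟨t, ht⟩ * y * (⟨t, ht⟩ : T)⁻¹) := by
          group
        rw [← rho_mul, e, rho_mul, hφ _ (hJ.conj_mem y hy _)]
      rw [hrep_apply, inv_inv] at h1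
      exact h1⟩) with e | e
    · obtain ⟨y, hy, hne⟩ := hy
      refine absurd ?_ hne
      change hrep k hT y = 1
      rw [← map_one (hrep k hT), hsame]
      intro x hx
      have : (y : G) • x * x⁻¹ ∈ K := ⟨L.mul_mem (hT y y.2 x hx) (L.inv_mem hx), fun φ hφ => by
        have h1 := map_sub φ (act hT y (Additive.ofMul ⟨x, hx⟩)) (Additive.ofMul ⟨x, hx⟩)
        have h2 := DFunLike.congr_fun (hφ y⁻¹ (J.inv_mem hy)) (Additive.ofMul ⟨x, hx⟩)
        rw [hrep_apply, inv_inv] at h2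
        rw [h2, sub_self, sub_eq_add_neg] at h1
        exact h1⟩
      rw [e, Subgroup.mem_bot, mul_inv_eq_one] at this
      rw [this, Subgroup.coe_one, one_smul]
    · intro φ hφ
      refine AddMonoidHom.ext fun x => ?_
      have : ((Additive.toMul x : L) : X) ∈ K := e.ge (Additive.toMul x).2
      exact this.2 φ hφ

end Pool.Agent.MP_f0649b_al.Cls

end

section

/-! Eigenspaces of normal subgroups and their lifts to characteristic zero. -/

open Module
open scoped commutatorElement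

namespace Pool.Agent.MP_f0649b_al.Cls

open F

section
variable {k T : Type} [Field k] [Group T] (W : Rp k T)

/-- the stabiliser of a character of a normal subgroup -/
def stl (A : Subgroup T) [hA : A.Normal] (l : T → kˣ) : Subgroup T where
  carrier := {t | ∀ a ∈ A, l (t⁻¹ * a * t) = l a}
  one_mem' := fun a _ => by simp
  mul_mem' := fun {s t} hs ht a ha => by
    have e : (s * t)⁻¹ * a * (s * t) = t⁻¹ * (s⁻¹ * a * s) * t := by group
    rw [e, ht _ (hA.conj_mem' a ha s), hs a ha]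
  inv_mem' := fun {t} ht a ha => by
    have := ht _ (hA.conj_mem a ha t)
    rw [inv_inv, ← this]
    congr 1
    group

theorem inv_stl (A : Subgroup T) [hA : A.Normal] (l : T → kˣ) :
    Inv W.ρ (stl A l) (Eig W.ρ A l) := by
  intro g hg v hv a ha
  have e : a * g = g * (g⁻¹ * a * g) := by group
  rw [← rho_mul, e, rho_mul, hv _ (hA.conj_mem' a ha g), hg a ha, map_smul]

theorem stl_index [Finite T] (h0 : L0) (A : Subgroup T) [A.Normal] (l : T → kˣ) :
    (stl A l).index * finrank k (Eig W.ρ A l) ≤ W.dim := by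
  have := h0.sum W.ρ ⊤ (stl A l) ⊤ (Eig W.ρ A l) (fun _ _ _ _ => trivial) le_top le_top
    (inv_stl W A l) (sep_eig (NormBy.of_normal _ A) le_rfl fun _ _ h => h)
  rwa [Subgroup.relIndex_top_right, finrank_top] at this

theorem mem_stl {A : Subgroup T} [hA : A.Normal] {l : T → kˣ} (hE : Eig W.ρ A l ≠ ⊥) {t : T}
    (ht : ∀ a ∈ A, W.ρ a * W.ρ t = W.ρ t * W.ρ a) : t ∈ stl A l := by
  obtain ⟨v, hv, h0⟩ := (Submodule.ne_bot_iff _).1 hE
  intro a ha
  have h1 := hv _ (hA.conj_mem' a ha t)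
  rw [map_mul, map_mul, mul_assoc (W.ρ t⁻¹), ht a ha, ← map_mul, ← map_mul, inv_mul_cancel_left,
    hv a ha] at h1
  exact Units.ext (smul_left_injective k h0 h1).symm

theorem eig_pow {A : Subgroup T} {l : T → kˣ} (hl : IsChar A l) (hE : Eig W.ρ A l ≠ ⊥) {y : T}
    (hy : y ∈ A) {n : ℕ} (hn : W.ρ (y ^ n) = 1) : l y ^ n = 1 := by
  obtain ⟨v, hv, h0⟩ := (Submodule.ne_bot_iff _).1 hE
  have h1 := hv _ (A.pow_mem hy n)
  rw [hn, hl.pow hy, Module.End.one_apply] at h1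
  refine Units.ext (smul_left_injective k h0 ?_)
  simpa using h1.symm

theorem frob_le {q : ℕ} [ExpChar k q] [PerfectRing k q] (Fr : W.V →+ W.V)
    (h1 : Function.Injective Fr) (h2 : ∀ (c : k) v, Fr (c • v) = c ^ q • Fr v)
    (h3 : ∀ g v, Fr (W.ρ g v) = W.ρ g (Fr v)) (A : Subgroup T) (l : T → kˣ) :
    finrank k (Eig W.ρ A l) ≤ finrank k (Eig W.ρ A fun g => l g ^ q) := by
  let j : Eig W.ρ A l →+ Eig W.ρ A fun g => l g ^ q :=
    { toFun := fun v => ⟨Fr v, fun a ha => by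
        rw [← h3, v.2 a ha, h2, Units.val_pow_eq_pow_val]⟩
      map_zero' := Subtype.ext (map_zero Fr)
      map_add' := fun v w => Subtype.ext (map_add Fr _ _) }
  refine finrank_le_finrank_of_rank_le_rank ?_ (rank_lt_aleph0 k _)
  exact lift_rank_le_of_surjective_injective (frobenius k q) j (surjective_frobenius k q)
    (fun v w e => Subtype.ext (h1 (congrArg Subtype.val e))) fun c v => Subtype.ext (h2 c v)

/-- eigenspaces with distinct eigenvalues of one element -/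
theorem eig_sum (h0 : L0) {ι : Type} [Fintype ι] (A : Subgroup T) (l : ι → T → kˣ) {y : T}
    (hy : y ∈ A) (hl : Function.Injective fun i => l i y) (n : ℕ)
    (hn : ∀ i, n ≤ finrank k (Eig W.ρ A (l i))) :
    Fintype.card ι * n ≤ W.dim ∧
      (W.dim ≤ Fintype.card ι * n → ⨆ i, Eig W.ρ A (l i) = ⊤) := by
  have hi : iSupIndep fun i => Eig W.ρ A (l i) :=
    ((Module.End.eigenspaces_iSupIndep (W.ρ y)).comp
      (f := fun i => (l i y : k)) fun i j e => hl (Units.ext e)).mono fun i v hv =>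
        Module.End.mem_eigenspace_iff.2 (hv y hy)
  obtain ⟨a1, a2, a3⟩ := h0.indd _ ⊤ hi fun _ => le_top
  have a4 := a3 n hn
  rw [Nat.card_eq_fintype_card, finrank_top] at a4
  refine ⟨a4, fun h => a2 (le_antisymm a1 ?_)⟩
  rw [finrank_top]
  refine h.trans ?_
  simpa using Finset.card_nsmul_le_sum Finset.univ _ n fun i _ => hn i

end

section
variable {T : Type} [Group T]

/-- a linear character as a representation -/
noncomputable def lin (ε : T →* ℂˣ) : Rp ℂ T :=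
  ⟨ℂ, { toFun := fun x => (ε x : ℂ) • (1 : Module.End ℂ ℂ)
        map_one' := by simp
        map_mul' := fun x y => by simp [smul_smul, mul_comm] }⟩

theorem lin_dim (ε : T →* ℂˣ) : (lin ε).dim = 1 := finrank_self ℂ

theorem lin_rho (ε : T →* ℂˣ) (x : T) : (lin ε).ρ x = (ε x : ℂ) • 1 := rfl

theorem irr_of_dim_one (M : Rp ℂ T) (h : M.dim = 1) : Irr M.ρ := by
  have h1 : IsSimpleModule ℂ M.V := isSimpleModule_iff_finrank_eq_one.2 h
  exact ⟨Module.nontrivial_of_finrank_pos (R := ℂ) (by rw [← M.dim_def, h]; exact one_pos),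
    fun U _ => eq_bot_or_eq_top U⟩

/-- the hypothesis that turns a representation of a subgroup into a weight bound -/
def PreH (J : Subgroup T) (Sm : ℕ → Prop) : Prop :=
  ∀ (U : Type) [Group U] (φ : U →* T), Function.Injective φ → ∀ M : Rp ℂ U, 0 < M.dim →
    (∀ g ∈ ⁅J, J⁆, ∃ u, φ u = g ∧ M.ρ u = 1) →
    (∃ u, φ u ∈ J ∧ ∃ c : ℂ, c ≠ 1 ∧ M.ρ u = c • 1) → Sm (φ.range.index * M.dim ^ 2)

theorem PreH.self {J : Subgroup T} {Sm : ℕ → Prop} (h : PreH J Sm) (M : Rp ℂ T) (h1 : 0 < M.dim)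
    (h2 : ∀ g ∈ ⁅J, J⁆, M.ρ g = 1) {y : T} (hy : y ∈ J) {c : ℂ} (hc : c ≠ 1)
    (h3 : M.ρ y = c • 1) : Sm (M.dim ^ 2) := by
  have := h T (MonoidHom.id T) Function.injective_id M h1 (fun g hg => ⟨g, rfl, h2 g hg⟩)
    ⟨y, hy, c, hc, h3⟩
  rwa [MonoidHom.range_eq_top.2 Function.surjective_id, Subgroup.index_top, one_mul] at this

/-- a lifted representation of a subgroup -/
structure LD {k : Type} [Field k] (W : Rp k T) (y : T) (z : ℂ) where
  /-- the subgroup -/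
  U : Type
  [gp : Group U]
  /-- its embedding -/
  φ : U →* T
  /-- the representation -/
  M : Rp ℂ U
  inj : Function.Injective φ
  ker : ∀ g, W.ρ g = 1 → ∃ u, φ u = g ∧ M.ρ u = 1
  sc : ∃ u, φ u = y ∧ M.ρ u = z • 1

attribute [instance] LD.gp

variable {k : Type} [Field k] {W : Rp k T} {y : T} {z : ℂ}

theorem LD.sm (D : LD W y z) {J : Subgroup T} {Sm : ℕ → Prop} (h : PreH J Sm)
    (hJ : Triv W.ρ ⁅J, J⁆) (hy : y ∈ J) (hz : z ≠ 1) (hd : 0 < D.M.dim) :
    Sm (D.φ.range.index * D.M.dim ^ 2) := by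
  obtain ⟨u, h1, h2⟩ := D.sc
  exact h D.U D.φ D.inj D.M hd (fun g hg => D.ker g (hJ g hg)) ⟨u, by rwa [h1], z, hz, h2⟩

/-- an irreducible constituent when the subgroup is everything -/
theorem LD.full (h0 : L0) (D : LD W y z) (hi : D.φ.range.index = 1) (hd : 0 < D.M.dim) :
    ∃ τ : Rp ℂ T, Irr τ.ρ ∧ τ.dim ≤ D.M.dim ∧ (∀ g, W.ρ g = 1 → τ.ρ g = 1) ∧ τ.ρ y = z • 1 := by
  have hs : Function.Surjective D.φ := MonoidHom.range_eq_top.1 (Subgroup.index_eq_one.1 hi)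
  let e : D.U ≃* T := MulEquiv.ofBijective D.φ ⟨D.inj, hs⟩
  have : Nontrivial D.M.V := Module.nontrivial_of_finrank_pos (R := ℂ) hd
  obtain ⟨S, -, hS⟩ := h0.exi D.M.ρ ⊤ ⊤ top_ne_bot fun _ _ _ _ => trivial
  let π : T →* (⊤ : Subgroup D.U) := (e.symm.trans Subgroup.topEquiv.symm).toMonoidHom
  have hπ : ∀ u (v : S), ((res D.M.ρ ⊤ S hS.2.1).comp π (D.φ u) v : D.M.V) = D.M.ρ u v :=
    fun u v => by
      change D.M.ρ (e.symm (e u)) v = _
      rw [e.symm_apply_apply]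
  refine ⟨⟨S, (res D.M.ρ ⊤ S hS.2.1).comp π⟩, (irr_comp π
    (e.symm.trans Subgroup.topEquiv.symm).surjective _).2 ((irr_res hS.2.1).2 hS),
    S.finrank_le, fun g hg => ?_, ?_⟩
  · obtain ⟨u, rfl, h2⟩ := D.ker g hg
    exact LinearMap.ext fun v => Subtype.ext (by rw [hπ, h2]; rfl)
  · obtain ⟨u, e1, h2⟩ := D.sc
    have h3 : (res D.M.ρ ⊤ S hS.2.1).comp π (D.φ u) = z • 1 :=
      LinearMap.ext fun v => Subtype.ext (by rw [hπ, h2]; rfl)
    rwa [e1] at h3

/-- an irreducible constituent of an induced linear character -/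
theorem LD.ind [Finite T] (h0 : L0) (h1 : IE_st) (D : LD W y z) (hd : D.M.dim = 1) :
    ∃ τ : Rp ℂ T, Irr τ.ρ ∧ τ.dim ≤ D.φ.range.index ∧ (∀ g, W.ρ g = 1 → τ.ρ g = 1) ∧
      (τ.dim = 1 → τ.ρ y = z • 1) := by
  obtain ⟨R, a1, ι, a2, a3, a4, -⟩ := h1 D.φ D.inj D.M (irr_of_dim_one _ hd) 2 Nat.prime_two
  have : Nontrivial D.M.V :=
    Module.nontrivial_of_finrank_pos (R := ℂ) (by rw [← D.M.dim_def, hd]; exact one_pos)
  obtain ⟨m, hm⟩ := exists_ne (0 : D.M.V)
  have hm' : ι m ≠ 0 := fun e => hm (a2 (by rw [e, map_zero]))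
  refine ⟨R, a1, by rwa [hd, mul_one] at a4, fun g hg => ?_, fun h => ?_⟩
  · refine h0.nt R.ρ (MonoidHom.ker W.ρ) a1 _ hm' (fun g hg => ?_) g hg
    obtain ⟨u, rfl, h2⟩ := D.ker g hg
    rw [a3, h2, Module.End.one_apply]
  · obtain ⟨u, e1, h2⟩ := D.sc
    suffices h3 : R.ρ (D.φ u) = z • 1 by rwa [e1] at h3
    refine LinearMap.ext fun v => ?_
    obtain ⟨c, rfl⟩ := (finrank_eq_one_iff_of_nonzero' _ hm').1 h v
    rw [map_smul, a3, h2]
    simp [smul_comm c z]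

theorem exists_LD [IsAlgClosed k] [Finite T] [Group.IsSolvable T] (hfs : FS_st) (hth : TH_st)
    (hdet : DET_st) {s : ℕ} (hs : s.Prime) (S : Subgroup T) (E : Submodule k W.V) (hE : E ≠ ⊥)
    (hI : Inv W.ρ S E) (hK : ∀ g, W.ρ g = 1 → g ∈ S) (hy : y ∈ S) {c : kˣ}
    (hc : ∀ v ∈ E, W.ρ y v = (c : k) • v) (hc1 : c ≠ 1) (hcs : c ^ s = 1) :
    ∃ (z : ℂ) (D : LD W y z) (i e : ℕ), z ≠ 1 ∧ z ^ s = 1 ∧ D.φ.range.index = S.index * i ∧
      D.M.dim = s ^ e ∧ i * s ^ e ≤ finrank k E ∧ s ^ e ∣ finrank k E ∧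
      (¬ s ∣ finrank k E → i = 1) := by
  obtain ⟨θ, hθ⟩ := hth k s hs
  let W' : Rp k S := ⟨E, res W.ρ S E hI⟩
  have hd : 0 < finrank k E := Nat.pos_of_ne_zero fun e => hE (Submodule.finrank_eq_zero.1 e)
  have hθ1 : θ c ≠ 1 := fun e => hc1 (hθ.1 c 1 (by rwa [pow_one]) e)
  have hθs : θ c ^ s = 1 := by rw [← map_pow, hcs, map_one]
  have hy' : W'.ρ ⟨y, hy⟩ = (c : k) • 1 := LinearMap.ext fun v => Subtype.ext (hc v v.2)
  have hK' : ∀ g (hg : W.ρ g = 1), W'.ρ ⟨g, hK g hg⟩ = ((1 : kˣ) : k) • 1 := fun g hg =>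
    LinearMap.ext fun v => Subtype.ext (by
      change W.ρ g v = ((1 : kˣ) : k) • (v : W.V)
      rw [hg, Units.val_one, one_smul, Module.End.one_apply])
  by_cases h : s ∣ finrank k E
  · obtain ⟨U, M, e, a1, a2, a3, a4⟩ := hfs s θ W' hs hθ hd
    refine ⟨θ c, ⟨U, S.subtype.comp U.subtype, M,
      S.subtype_injective.comp U.subtype_injective, fun g hg => ?_, ?_⟩, U.index, e,
      fun e => hθ1 (Units.ext e), by rw [← Units.val_pow_eq_pow_val, hθs, Units.val_one], ?_,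
      a1, a3, a2, fun h' => absurd h h'⟩
    · obtain ⟨hg', e'⟩ := a4 _ _ (hK' g hg)
      exact ⟨⟨_, hg'⟩, rfl, by rw [e', map_one, Units.val_one, one_smul]⟩
    · obtain ⟨hg', e'⟩ := a4 _ _ hy'
      exact ⟨⟨_, hg'⟩, rfl, e'⟩
    · change (S.subtype.comp U.subtype).range.index = _
      rw [MonoidHom.range_comp, Subgroup.range_subtype,
        Subgroup.index_map_of_injective _ S.subtype_injective, Subgroup.range_subtype, mul_comm]
  · obtain ⟨ε, hε⟩ := hdet W' θ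
    refine ⟨(θ c ^ finrank k E : ℂˣ), ⟨S, S.subtype, lin ε, S.subtype_injective, fun g hg => ?_,
      ⟨⟨y, hy⟩, rfl, by rw [lin_rho, hε _ _ hy']; rfl⟩⟩, 1, 0, fun e => hθ1 ?_, ?_, ?_,
      lin_dim ε, hd, one_dvd _, fun _ => rfl⟩
    · exact ⟨⟨g, hK g hg⟩, rfl, by rw [lin_rho, hε _ _ (hK' g hg)]; simp⟩
    · have e' : θ c ^ finrank k E = 1 := Units.ext e
      have := pow_gcd_eq_one.2 ⟨hθs, e'⟩
      rwa [((Nat.Prime.coprime_iff_not_dvd hs).2 h).gcd_eq_one, pow_one] at this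
    · rw [← Units.val_pow_eq_pow_val, ← pow_mul, mul_comm, pow_mul, hθs, one_pow, Units.val_one]
    · change S.subtype.range.index = _
      rw [Subgroup.range_subtype, mul_one]

end

end Pool.Agent.MP_f0649b_al.Cls

end

section

/-! The linear classification on the model. -/

open Module
open scoped commutatorElement

namespace Pool.Agent.MP_f0649b_al.Cls

open F

variable {k T : Type} [Field k] [Group T] (W : Rp k T)

theorem comm_of_triv {J : Subgroup T} (hJ : Triv W.ρ ⁅J, J⁆) {a b : T} (ha : a ∈ J) (hb : b ∈ J) :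
    W.ρ a * W.ρ b = W.ρ b * W.ρ a := by
  have h := hJ _ (Subgroup.commutator_mem_commutator ha hb)
  have e : a * b = ⁅a, b⁆ * (b * a) := by rw [commutatorElement_def]; group
  rw [← map_mul, e, map_mul, h, one_mul, map_mul]

/-- the elements of `J` whose `s`-th power acts trivially -/
def tor (J : Subgroup T) (hJ : Triv W.ρ ⁅J, J⁆) (s : ℕ) : Subgroup T where
  carrier := {y | y ∈ J ∧ W.ρ (y ^ s) = 1}
  one_mem' := ⟨J.one_mem, by rw [one_pow, map_one]⟩
  mul_mem' := fun {a b} ha hb => ⟨J.mul_mem ha.1 hb.1, by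
    have h : Commute (W.ρ a) (W.ρ b) := comm_of_triv W hJ ha.1 hb.1
    rw [map_pow, map_mul, h.mul_pow, ← map_pow, ← map_pow, ha.2, hb.2, mul_one]⟩
  inv_mem' := fun {a} ha => ⟨J.inv_mem ha.1, by
    have h : W.ρ (a⁻¹ ^ s) * W.ρ (a ^ s) = 1 := by rw [← map_mul, inv_pow, inv_mul_cancel, map_one]
    rwa [ha.2, mul_one] at h⟩

instance tor_normal (J : Subgroup T) [hn : J.Normal] (hJ : Triv W.ρ ⁅J, J⁆) (s : ℕ) :
    (tor W J hJ s).Normal :=
  ⟨fun a ha g => ⟨hn.conj_mem a ha.1 g, by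
    rw [conj_pow, map_mul, map_mul, ha.2, mul_one, ← map_mul, mul_inv_cancel, map_one]⟩⟩

theorem exists_tor [Finite T] {J : Subgroup T} (hJ : Triv W.ρ ⁅J, J⁆) (h : ∃ y ∈ J, W.ρ y ≠ 1) :
    ∃ s : ℕ, s.Prime ∧ ∃ y ∈ tor W J hJ s, W.ρ y ≠ 1 := by
  obtain ⟨y, hy, h1⟩ := h
  have h2 : IsOfFinOrder (W.ρ y) := MonoidHom.isOfFinOrder W.ρ (isOfFinOrder_of_finite y)
  have h3 : orderOf (W.ρ y) ≠ 1 := fun e => h1 (orderOf_eq_one_iff.1 e)
  obtain ⟨s, hs, m, hm⟩ := Nat.exists_prime_and_dvd h3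
  have h4 := h2.orderOf_pos
  refine ⟨s, hs, y ^ m, ⟨J.pow_mem hy m, ?_⟩, fun e => ?_⟩
  · rw [← pow_mul, mul_comm, ← hm, map_pow, pow_orderOf_eq_one]
  · rw [map_pow] at e
    have h5 := Nat.le_of_dvd (Nat.pos_of_ne_zero fun e' => by rw [e'] at hm; omega)
      (orderOf_dvd_of_pow_eq_one e)
    have := hs.two_le
    nlinarith

/-- the conclusion about an irreducible complex representation -/
def Tau0 (n : ℕ) : Prop := ∃ τ : Rp ℂ T, Irr τ.ρ ∧ τ.dim = n ∧ ∀ g, W.ρ g = 1 → τ.ρ g = 1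

/-- the hypotheses on the model -/
structure Hyp (J : Subgroup T) (Sm : ℕ → Prop) (q a d : ℕ) : Prop where
  prime : q.Prime
  apos : 0 < a
  dim : W.dim = 2 * a
  frob : ∀ (A : Subgroup T) (l : T → kˣ),
    finrank k (Eig W.ρ A l) ≤ finrank k (Eig W.ρ A fun g => l g ^ q)
  chr : ∀ c : kˣ, c ^ q = 1 → c = 1
  cast : ∀ s : ℕ, s.Prime → s ≠ q → (s : k) ≠ 0
  fix : ∀ J : Subgroup T, J.Normal → (∃ y ∈ J, W.ρ y ≠ 1) → ∀ v, (∀ y ∈ J, W.ρ y v = v) → v = 0
  ab : Triv W.ρ ⁅J, J⁆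
  ne : ∃ y ∈ J, W.ρ y ≠ 1
  pre : PreH J Sm
  mono : ∀ n m, Sm n → n ≤ m → Sm m
  low : ∀ n, Sm n → d ≤ n
  dvd : q ^ a ∣ d
  dpos : 0 < d

variable {W} {J : Subgroup T} {Sm : ℕ → Prop} {q a d : ℕ}

/-- the analysis of one eigencharacter -/
theorem Hyp.key [IsAlgClosed k] [Finite T] [Group.IsSolvable T] (H : Hyp W J Sm q a d)
    (hfs : FS_st) (hth : TH_st) (hdet : DET_st) {s : ℕ} (hs : s.Prime)
    (hy : ∃ y ∈ tor W J H.ab s, W.ρ y ≠ 1) [J.Normal] (A : Subgroup T) [A.Normal]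
    (h1 : tor W J H.ab s ≤ A) (h2 : A ≤ J) {l : T → kˣ} (hl : IsChar A l)
    (hE : Eig W.ρ A l ≠ ⊥) :
    ∃ y ∈ tor W J H.ab s, l y ≠ 1 ∧ l y ^ s = 1 ∧ ∃ (z : ℂ) (D : LD W y z) (i e : ℕ), z ≠ 1 ∧
      z ^ s = 1 ∧ D.φ.range.index = (stl A l).index * i ∧ D.M.dim = s ^ e ∧
      i * s ^ e ≤ finrank k (Eig W.ρ A l) ∧ (¬ s ∣ finrank k (Eig W.ρ A l) → i = 1 ∧ e = 0) ∧
      Sm ((stl A l).index * i * (s ^ e) ^ 2) := by
  obtain ⟨v, hv, hv0⟩ := (Submodule.ne_bot_iff _).1 hE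
  obtain ⟨y, hy1, hy2⟩ : ∃ y ∈ tor W J H.ab s, l y ≠ 1 := by
    by_contra h
    push Not at h
    exact hv0 (H.fix _ inferInstance hy v fun y hy => by
      rw [hv y (h1 hy), h y hy, Units.val_one, one_smul])
  have hy3 : l y ^ s = 1 := eig_pow W hl hE (h1 hy1) hy1.2
  obtain ⟨z, D, i, e, a1, a2, a3, a4, a5, a6, a7⟩ := exists_LD (W := W) (y := y) hfs hth hdet hs
    (stl A l) _ hE (inv_stl W A l) (fun g hg => mem_stl W hE fun a _ => by rw [hg, mul_one, one_mul])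
    (mem_stl W hE fun a ha => comm_of_triv W H.ab (h2 ha) hy1.1) (fun v hv => hv y (h1 hy1)) hy2 hy3
  refine ⟨y, hy1, hy2, hy3, z, D, i, e, a1, a2, a3, a4, a5, fun h => ⟨a7 h, ?_⟩, ?_⟩
  · by_contra he
    exact h ((dvd_pow_self s he).trans a6)
  · have := D.sm H.pre H.ab hy1.1 a1 (by rw [a4]; exact pow_pos hs.pos e)
    rwa [a3, a4] at this

theorem Hyp.eigv [IsAlgClosed k] (H : Hyp W J Sm q a d) (h0 : L0) (A : Subgroup T) (h2 : A ≤ J) :
    ∃ l : T → kˣ, IsChar A l ∧ Eig W.ρ A l ≠ ⊥ := by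
  have : Nontrivial W.V := Module.nontrivial_of_finrank_pos (R := k) (by
    rw [← W.dim_def, H.dim]; have := H.apos; omega)
  obtain ⟨l, h3, h4⟩ := h0.eigv W.ρ A ⊤ top_ne_bot (fun _ _ _ _ => trivial) fun a ha b hb v _ =>
    LinearMap.congr_fun (comm_of_triv W H.ab (h2 ha) (h2 hb)) v
  exact ⟨l, h3, by rwa [inf_top_eq] at h4⟩

theorem Hyp.two (H : Hyp W J Sm 2 a d) (h0 : L0) (A : Subgroup T) {l : T → kˣ} {y : T}
    (hy : y ∈ A) (h1 : l y ≠ 1) :
    finrank k (Eig W.ρ A l) ≤ a ∧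
      (a ≤ finrank k (Eig W.ρ A l) → Eig W.ρ A l ⊔ (Eig W.ρ A fun g => l g ^ 2) = ⊤) := by
  have h2 : l y ≠ l y ^ 2 := fun e => h1 (by rwa [pow_two, left_eq_mul] at e)
  obtain ⟨a1, a2⟩ := eig_sum W h0 A ![l, fun g => l g ^ 2] hy (fun i j e => by
    fin_cases i <;> fin_cases j
    · rfl
    · exact absurd e h2
    · exact absurd e.symm h2
    · rfl) (finrank k (Eig W.ρ A l)) fun i => by
      fin_cases i
      · exact le_rfl
      · exact H.frob A l
  rw [H.dim, Fintype.card_fin] at a1 a2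
  refine ⟨by omega, fun h => ?_⟩
  rw [eq_top_iff, ← a2 (by omega), iSup_le_iff]
  intro i
  fin_cases i
  · exact le_sup_left
  · exact le_sup_right

theorem Hyp.three (H : Hyp W J Sm 2 a d) (h0 : L0) (A : Subgroup T) {l : T → kˣ} {y : T}
    (hy : y ∈ A) (h1 : l y ≠ 1) (h5 : l y ^ 5 = 1) : 3 * finrank k (Eig W.ρ A l) ≤ 2 * a := by
  have h2 : ∀ n, n.Coprime 5 → l y ^ n ≠ 1 := fun n hn e => h1 (by
    have := pow_gcd_eq_one.2 ⟨e, h5⟩
    rwa [hn.gcd_eq_one, pow_one] at this)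
  have b1 : l y ≠ l y ^ 2 := fun e => h1 (by rwa [pow_two, left_eq_mul] at e)
  have b2 : l y ≠ (l y ^ 2) ^ 2 := fun e => h2 3 (by norm_num) (by
    rwa [← pow_mul, show 2 * 2 = 3 + 1 from rfl, pow_succ', left_eq_mul] at e)
  have b3 : l y ^ 2 ≠ (l y ^ 2) ^ 2 := fun e => h2 2 (by norm_num) (by
    rwa [pow_two (l y ^ 2), left_eq_mul] at e)
  obtain ⟨a1, -⟩ := eig_sum W h0 A ![l, fun g => l g ^ 2, fun g => (l g ^ 2) ^ 2] hy
    (fun i j e => by
      fin_cases i <;> fin_cases j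
      · rfl
      · exact absurd e b1
      · exact absurd e b2
      · exact absurd e.symm b1
      · rfl
      · exact absurd e b3
      · exact absurd e.symm b2
      · exact absurd e.symm b3
      · rfl) (finrank k (Eig W.ρ A l)) fun i => by
      fin_cases i
      · exact le_rfl
      · exact H.frob A l
      · exact (H.frob A l).trans (H.frob A _)
  rwa [H.dim, Fintype.card_fin] at a1

theorem cube_cases {w u : kˣ} (hw : w ≠ 1) (hw3 : w ^ 3 = 1) (hu : u ^ 3 = 1) :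
    u = 1 ∨ u = w ∨ u = w ^ 2 := by
  have a1 : (w : k) - 1 ≠ 0 := sub_ne_zero.2 fun e => hw (Units.ext e)
  have a2 : (w : k) ^ 3 = 1 := by rw [← Units.val_pow_eq_pow_val, hw3, Units.val_one]
  have a3 : (u : k) ^ 3 = 1 := by rw [← Units.val_pow_eq_pow_val, hu, Units.val_one]
  have a4 : (w : k) ^ 2 + w + 1 = 0 := mul_left_cancel₀ a1 (by linear_combination a2)
  have a5 : ((u : k) - 1) * ((u - w) * (u - w ^ 2)) = 0 := by
    linear_combination a3 + (u - 1) * a2 - (u - 1) * u * a4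
  rcases mul_eq_zero.1 a5 with e | e
  · exact Or.inl (Units.ext (sub_eq_zero.1 e))
  · rcases mul_eq_zero.1 e with e | e
    · exact Or.inr (Or.inl (Units.ext (sub_eq_zero.1 e)))
    · exact Or.inr (Or.inr (Units.ext (by rw [Units.val_pow_eq_pow_val]; exact sub_eq_zero.1 e)))

/-- the structure of the group in the third type -/
theorem Hyp.t3 [IsAlgClosed k] [Finite T] [Group.IsSolvable T] (H : Hyp W J Sm 2 3 d) (h0 : L0)
    (hfs : FS_st) (hth : TH_st) (hdet : DET_st) [J.Normal]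
    (hy : ∃ y ∈ tor W J H.ab 3, W.ρ y ≠ 1) :
    ∃ y ∈ J, W.ρ y ≠ 1 ∧ W.ρ (y ^ 3) = 1 ∧
      ∀ u ∈ J, W.ρ u = W.ρ 1 ∨ W.ρ u = W.ρ y ∨ W.ρ u = W.ρ (y ^ 2) := by
  obtain ⟨l, hl, hE⟩ := H.eigv h0 J le_rfl
  obtain ⟨y, y1, y2, y3, z, D, i, e, -, -, -, -, -, a1, a2⟩ :=
    H.key hfs hth hdet Nat.prime_three hy J (fun _ h => h.1) le_rfl hl hE
  have hD : 0 < finrank k (Eig W.ρ J l) :=
    Nat.pos_of_ne_zero fun e => hE (Submodule.finrank_eq_zero.1 e)
  have h3 : 3 ∣ finrank k (Eig W.ρ J l) := by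
    by_contra h
    obtain ⟨rfl, rfl⟩ := a1 h
    have b1 := H.low _ a2
    have b2 := stl_index W h0 J l
    have b3 := Nat.le_of_dvd H.dpos H.dvd
    rw [H.dim] at b2
    have := Nat.le_mul_of_pos_right (stl J l).index hD
    omega
  have hs := (H.two h0 J y1.1 y2).2 (Nat.le_of_dvd hD h3)
  have hext : ∀ f g : Module.End k W.V, (∀ v ∈ Eig W.ρ J l, f v = g v) →
      (∀ v ∈ Eig W.ρ J fun g => l g ^ 2, f v = g v) → f = g := fun f g b1 b2 =>
    LinearMap.ext fun v => by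
      obtain ⟨v1, c1, v2, c2, rfl⟩ := Submodule.mem_sup.1 (hs.ge (Submodule.mem_top (x := v)))
      rw [map_add, map_add, b1 v1 c1, b2 v2 c2]
  have hsame : ∀ u ∈ J, ∀ u' ∈ J, l u = l u' → W.ρ u = W.ρ u' := fun u hu u' hu' e =>
    hext _ _ (fun v hv => by rw [hv u hu, hv u' hu', e]) fun v hv => by
      rw [hv u hu, hv u' hu']
      simp only [e]
  have h4 : (Eig W.ρ J fun g => (l g ^ 2) ^ 2) ≠ ⊥ := fun e => by
    have := (H.frob J l).trans (H.frob J _)
    rw [e, finrank_bot] at this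
    omega
  obtain ⟨v, hv, hv0⟩ := (Submodule.ne_bot_iff _).1 h4
  obtain ⟨w, hw, hw0⟩ := (Submodule.ne_bot_iff _).1 hE
  refine ⟨y, y1.1, fun e => y2 (Units.ext (smul_left_injective k hw0 ?_)), y1.2, fun u hu => ?_⟩
  · have := hw y y1.1
    rw [e, Module.End.one_apply] at this
    simpa using this.symm
  have h5 : (W.ρ u - (l u : k) • 1) * (W.ρ u - ((l u ^ 2 : kˣ) : k) • 1) = 0 :=
    hext _ _ (fun v hv => by
      simp only [Module.End.mul_apply, LinearMap.sub_apply, LinearMap.smul_apply,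
        Module.End.one_apply, map_sub, map_smul, hv u hu, LinearMap.zero_apply]
      module) fun v hv => by
      simp only [Module.End.mul_apply, LinearMap.sub_apply, LinearMap.smul_apply,
        Module.End.one_apply, hv u hu, LinearMap.zero_apply, sub_self, map_zero]
  have h6 := LinearMap.congr_fun h5 v
  simp only [Module.End.mul_apply, LinearMap.sub_apply, LinearMap.smul_apply,
    Module.End.one_apply, map_sub, map_smul, hv u hu, LinearMap.zero_apply,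
    Units.val_pow_eq_pow_val] at h6
  have h7 : ((l u : k) ^ 4 - l u) * ((l u : k) ^ 4 - (l u : k) ^ 2) = 0 :=
    (smul_eq_zero.1 (show (((l u : k) ^ 4 - l u) * ((l u : k) ^ 4 - (l u : k) ^ 2)) • v = 0 by
      rw [← h6]; module)).resolve_right hv0
  have h8 : l u ^ 3 = 1 := by
    rcases mul_eq_zero.1 h7 with e | e
    · refine Units.ext (mul_left_cancel₀ (l u).ne_zero ?_)
      rw [Units.val_pow_eq_pow_val, Units.val_one]
      linear_combination e
    · have : l u ^ 2 = 1 := Units.ext (mul_left_cancel₀ (pow_ne_zero 2 (l u).ne_zero) (by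
        rw [Units.val_pow_eq_pow_val, Units.val_one]
        linear_combination e))
      rw [H.chr _ this, one_pow]
  rcases cube_cases y2 y3 h8 with e | e | e
  · exact Or.inl (hsame u hu 1 J.one_mem (by rw [e, hl.one]))
  · exact Or.inr (Or.inl (hsame u hu y y1.1 e))
  · exact Or.inr (Or.inr (hsame u hu _ (J.pow_mem y1.1 2) (by rw [e, hl.pow y1.1])))

theorem Hyp.core [IsAlgClosed k] [Finite T] [Group.IsSolvable T] (H : Hyp W J Sm q a d) (h0 : L0)
    (h1 : IE_st) (hfs : FS_st) (hth : TH_st) (hdet : DET_st) [J.Normal] :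
    (q = 2 ∧ a = 1 ∧ d = 2 ∧ Sm 2 ∧ Tau0 W 2) ∨
    (q = 2 ∧ a = 2 ∧ d = 4 ∧ Sm 4 ∧ ∃ s : ℕ, s.Prime ∧ s ≠ 2 ∧
      (∃ y ∈ tor W J H.ab s, W.ρ y ≠ 1) ∧ ∀ S : Subgroup T,
        (∀ t ∈ S, ∀ y ∈ tor W J H.ab s, W.ρ y * W.ρ t = W.ρ t * W.ρ y) → 4 ≤ S.index) ∨
    (q = 2 ∧ a = 3 ∧ (d = 8 ∨ d = 16) ∧ Sm 18 ∧ ∃ y ∈ J, W.ρ y ≠ 1 ∧ W.ρ (y ^ 3) = 1 ∧
      ∀ u ∈ J, W.ρ u = W.ρ 1 ∨ W.ρ u = W.ρ y ∨ W.ρ u = W.ρ (y ^ 2)) ∨
    (q = 3 ∧ a = 1 ∧ d = 3 ∧ Sm 4 ∧ Tau0 W 2) ∨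
    (q = 3 ∧ a = 2 ∧ d = 9 ∧ Sm 16 ∧ Tau0 W 4 ∧ ∃ y ∈ J, W.ρ y = (-1 : k) • 1) := by
  obtain ⟨s, hs, hy⟩ := exists_tor W H.ab H.ne
  have hle : tor W J H.ab s ≤ J := fun _ h => h.1
  have hqd := Nat.le_of_dvd H.dpos H.dvd
  by_cases hA : ∃ l : T → kˣ, IsChar (tor W J H.ab s) l ∧ Eig W.ρ (tor W J H.ab s) l ≠ ⊥ ∧
      ¬ s ∣ finrank k (Eig W.ρ (tor W J H.ab s) l)
  · obtain ⟨l, hl, hE, hn⟩ := hA
    obtain ⟨y, y1, y2, y3, z, D, i, e, z1, -, a1, a2, -, a3, a4⟩ :=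
      H.key hfs hth hdet hs hy _ le_rfl hle hl hE
    obtain ⟨rfl, rfl⟩ := a3 hn
    rw [pow_zero, one_pow, mul_one, mul_one] at a4
    rw [mul_one] at a1
    have b2 := stl_index W h0 (tor W J H.ab s) l
    rw [H.dim] at b2
    obtain ⟨rfl, b3⟩ := numA H.prime.two_le H.apos hqd (H.low _ a4)
      (Nat.pos_of_ne_zero fun e => hE (Submodule.finrank_eq_zero.1 e)) b2
    rcases b3 with ⟨rfl, rfl, b3⟩ | ⟨rfl, rfl, b3⟩
    · refine Or.inl ⟨rfl, rfl, rfl, b3 ▸ a4, ?_⟩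
      obtain ⟨τ, c1, c2, c3, c4⟩ := D.ind h0 h1 a2
      refine ⟨τ, c1, ?_, c3⟩
      have c5 := Rp.dim_pos c1
      by_contra c6
      have c7 : τ.dim = 1 := by omega
      have := H.low _ (H.pre.self τ c5 (fun g hg => c3 g (H.ab g hg)) y1.1 z1 (c4 c7))
      rw [c7] at this
      omega
    · refine Or.inr (Or.inl ⟨rfl, rfl, rfl, b3 ▸ a4, s, hs, fun e => y2 (H.chr _ (e ▸ y3)), hy,
        fun S hS => ?_⟩)
      rw [← b3]
      exact Subgroup.index_antitone fun t ht => mem_stl W hE (hS t ht)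
  push Not at hA
  obtain ⟨l, hl, hE⟩ := H.eigv h0 _ hle
  obtain ⟨y, y1, y2, y3, z, D, i, e, z1, z2, a1, a2, a3, -, a4⟩ :=
    H.key hfs hth hdet hs hy _ le_rfl hle hl hE
  have hsq : s ≠ q := fun e => y2 (H.chr _ (e ▸ y3))
  have b1 : s ∣ 2 * a := by
    rw [← H.dim]
    exact h0.dec W.ρ (tor W J H.ab s) s (fun a ha b hb v _ =>
      LinearMap.congr_fun (comm_of_triv W H.ab ha.1 hb.1) v)
      (fun a ha => ⟨s, H.cast s hs hsq, ha.2⟩) hA
  have b2 := stl_index W h0 (tor W J H.ab s) l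
  rw [H.dim] at b2
  by_cases hq : q = 2
  · subst hq
    obtain ⟨rfl, rfl, c1, c2⟩ := numC hs hsq H.dvd H.dpos (H.low _ a4) a3 b2 b1
      (H.two h0 _ y1 y2).1 (hA l hl hE) (fun e => H.three h0 _ y1 y2 (e ▸ y3)) H.apos
    exact Or.inr (Or.inr (Or.inl ⟨rfl, rfl, c1, H.mono _ _ a4 c2, H.t3 h0 hfs hth hdet hy⟩))
  obtain ⟨rfl, rfl, c1, rfl, c2⟩ := numB H.prime hq H.apos hs hsq H.dvd H.dpos (H.low _ a4) a3 b2 b1
  rw [c1] at a1 a4
  obtain ⟨τ, d1, d2, d3, d4⟩ := D.full h0 a1 (by rw [a2]; positivity)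
  have d5 := H.low _ (H.pre.self τ (Rp.dim_pos d1) (fun g hg => d3 g (H.ab g hg)) y1.1 z1 d4)
  rw [a2] at d2
  rcases c2 with ⟨rfl, rfl, c2⟩ | ⟨rfl, rfl, c2, c3⟩
  · rw [c2] at a4 d2
    refine Or.inr (Or.inr (Or.inr (Or.inl ⟨rfl, rfl, rfl, a4, τ, d1, ?_, d3⟩)))
    generalize τ.dim = n at *
    interval_cases n <;> omega
  · rw [c2] at a4 d2
    refine Or.inr (Or.inr (Or.inr (Or.inr ⟨rfl, rfl, rfl, a4, ⟨τ, d1, ?_, d3⟩, y, y1.1, ?_⟩)))
    · by_contra d6
      have d7 : τ.dim = 3 := by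
        generalize τ.dim = n at *
        interval_cases n <;> omega
      have d8 : z = -1 := (sq_eq_one_iff.1 z2).resolve_left z1
      obtain ⟨ε, hε⟩ := hdet τ (MonoidHom.id ℂˣ)
      have d9 := H.low _ (H.pre.self (lin ε) (by rw [lin_dim]; exact one_pos) (fun g hg => by
        rw [lin_rho, hε g 1 (by rw [d3 g (H.ab g hg), Units.val_one, one_smul])]; simp) y1.1
        (c := -1) (by norm_num) (by
          rw [lin_rho, hε y (-1) (by rw [d4, d8]; simp), d7]; norm_num))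
      rw [lin_dim] at d9
      omega
    · have e1 : Eig W.ρ (tor W J H.ab 2) l = ⊤ :=
        Submodule.eq_top_of_finrank_eq (by rw [c3, ← W.dim_def, H.dim])
      have e2 : (l y : k) = -1 := (sq_eq_one_iff.1 (by
        rw [← Units.val_pow_eq_pow_val, y3, Units.val_one])).resolve_left fun e => y2 (Units.ext e)
      refine LinearMap.ext fun v => ?_
      rw [e1.ge (Submodule.mem_top (x := v)) y y1, e2]
      rfl

end Pool.Agent.MP_f0649b_al.Cls

end

section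

/-! The linear classification. -/

open Module
open scoped commutatorElement

namespace Pool.Agent.MP_f0649b_al.Cls

open F

theorem preH {G : Type} [Group G] [Finite G] (hpre : PRE_st) (T J : Subgroup G) [J.Normal]
    (hle : J ≤ T) : PreH (J.subgroupOf T) fun n => Small J (n * T.index) := by
  intro U _ φ hφ M h1 h2 ⟨u, h3, c, h4, h5⟩
  have e : (⁅J.subgroupOf T, J.subgroupOf T⁆ : Subgroup T).map T.subtype = ⁅J, J⁆ := by
    rw [Subgroup.map_commutator, Subgroup.map_subgroupOf_eq_of_le hle]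
  have := (hpre (T.subtype.comp φ) (T.subtype_injective.comp hφ) J M (fun g hg => by
    obtain ⟨g', hg', rfl⟩ := e.ge hg
    obtain ⟨u, rfl, -⟩ := h2 g' hg'
    exact ⟨u, rfl⟩) fun u hu => by
      obtain ⟨g', hg', e'⟩ := e.ge hu
      obtain ⟨u', rfl, h6⟩ := h2 g' hg'
      rwa [← hφ (Subtype.ext e')]).2 h1 ⟨u, h3, c, h4, h5⟩
  rwa [MonoidHom.range_comp, Subgroup.index_map_subtype, mul_right_comm] at this

theorem class_main (h0 : L0) (hie : IE_st) (hpre : PRE_st) (hfs : FS_st) (hth : TH_st)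
    (hdet : DET_st) : CLASS_st := by
  intro G X _ _ _ _ _ L T J q a d h
  have := Fact.mk h.prime
  have := h.nJ
  let k := AlgebraicClosure (ZMod q)
  obtain ⟨W, Fr, a1, a2, a3, a4, a5, a6, a7⟩ := model L T q (2 * a) k h.inv h.irr h.card h.exp
  have b1 : ∀ g : T, W.ρ g = 1 ↔ Same L (g : G) 1 := fun g => by
    rw [← map_one W.ρ, a5]; rfl
  have hi : 0 < T.index := Nat.pos_of_ne_zero Subgroup.index_ne_zero_of_finite
  have H : Hyp W (J.subgroupOf T) (fun n => Small J (n * T.index)) q a d :=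
    { prime := h.prime
      apos := h.apos
      dim := a1
      frob := frob_le W Fr a2 a3 a4
      chr := fun c hc => Units.ext ((frobenius k q).injective (by
        rw [frobenius_def, ← Units.val_pow_eq_pow_val, hc, Units.val_one, map_one]))
      cast := fun s hs hn e => hn
        ((Nat.prime_dvd_prime_iff_eq h.prime hs).1 ((CharP.cast_eq_zero_iff k q s).1 e)).symm
      fix := a7
      ab := fun g hg => (b1 g).2 (h.ab g (by
        rw [← Subgroup.map_subgroupOf_eq_of_le h.le, ← Subgroup.map_commutator]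
        exact ⟨g, hg, rfl⟩))
      ne := by
        obtain ⟨y, h1, h2⟩ := h.ne
        exact ⟨⟨y, h.le h1⟩, h1, fun e => h2 ((b1 _).1 e)⟩
      pre := preH hpre T J h.le
      mono := fun n m h1 h2 => h1.mono (Nat.mul_le_mul_right _ h2)
      low := fun n h1 => Nat.le_of_mul_le_mul_left ((h.low _ h1).trans_eq (mul_comm _ _)) hi
      dvd := h.dvd
      dpos := h.dpos }
  have ht : ∀ n, Tau0 W n → Tau L T n := fun n ⟨τ, c1, c2, c3⟩ =>
    ⟨τ, c1, c2, fun t ht => c3 t ((b1 t).2 ht)⟩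
  rcases H.core h0 hie hfs hth hdet with ⟨c1, c2, c3, c4, c5⟩ |
    ⟨c1, c2, c3, c4, s, c5, c6, ⟨y, c7, c8⟩, c9⟩ | ⟨c1, c2, c3, c4, y, c5, c6, c7, c8⟩ |
    ⟨c1, c2, c3, c4, c5⟩ | ⟨c1, c2, c3, c4, c5, y, c6, c7⟩
  · exact Or.inl ⟨c1, c2, c3, c4, ht _ c5⟩
  · refine Or.inr (Or.inl ⟨c1, c2, c3, c4, s, (tor W _ H.ab s).map T.subtype, c5, c6, ?_, ?_, ?_,
      ⟨y, ⟨y, c7, rfl⟩, fun e => c8 ((b1 y).2 e)⟩, fun S hS h1 => c9 (S.subgroupOf T) ?_⟩)
    · rintro _ ⟨z, hz, rfl⟩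
      exact hz.1
    · rintro t ht _ ⟨z, hz, rfl⟩
      exact ⟨_, (tor_normal W _ H.ab s).conj_mem z hz ⟨t, ht⟩, rfl⟩
    · rintro _ ⟨z, hz, rfl⟩
      exact (b1 _).1 hz.2
    · intro t ht z hz
      rw [← map_mul, ← map_mul, eq_comm, a5]
      exact h1 t ht z ⟨z, hz, rfl⟩
  · refine Or.inr (Or.inr (Or.inl ⟨c1, c2, c3, c4, y, c5, fun e => c6 ((b1 y).2 e), (b1 _).1 c7,
      fun u hu => ?_⟩))
    have := c8 ⟨u, h.le hu⟩ hu
    simp only [a5] at this
    exact this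
  · exact Or.inr (Or.inr (Or.inr (Or.inl ⟨c1, c2, c3, c4, ht _ c5⟩)))
  · exact Or.inr (Or.inr (Or.inr (Or.inr ⟨c1, c2, c3, c4, ht _ c5, y, c6, a6 y c7⟩)))

end Pool.Agent.MP_f0649b_al.Cls

end

section

namespace Pool.Agent.MP_f0649b_al.F

theorem class_of (h0 : L0) (hie : IE_st) (hpre : PRE_st) (hfs : FS_st) (hth : TH_st)
    (hdet : DET_st) : CLASS_st :=
  Cls.class_main h0 hie hpre hfs hth hdet

end Pool.Agent.MP_f0649b_al.F

end
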