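import Pool.Agent.Mg.Ff0649b.Ge0f87c
import Pool.Agent.Mg.Ff0649b.Gbd914f
import Pool.Agent.Mg.Ff0649b.G9bc319
import Pool.Agent.Mg.Ff0649b.G815ba1
import Pool.Agent.Mg.Ff0649b.G92165b

section

open Module
open scoped commutatorElement

namespace Pool.Agent.MP_f0649b_al.F

namespace SpanAux

variable {k G V : Type} [Field k] [Group G] [AddCommGroup V] [Module k V]

/-- the sum of the translates -/
noncomputable def sm (ρ : Representation k G V) (H : Subgroup G) [Fintype (G ⧸ H)]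
    (U : Submodule k V) : (G ⧸ H → U) →ₗ[k] V :=
  ∑ c : G ⧸ H, ρ c.out ∘ₗ U.subtype ∘ₗ LinearMap.proj c

theorem sm_apply (ρ : Representation k G V) (H : Subgroup G) [Fintype (G ⧸ H)]
    (U : Submodule k V) (f : G ⧸ H → U) : sm ρ H U f = ∑ c : G ⧸ H, ρ c.out (f c) := by
  simp [sm]

theorem lower [Finite G] [FiniteDimensional k V] {ρ : Representation k G V} (hρ : Irr ρ)
    (H : Subgroup G) (U : Submodule k V) (h0 : U ≠ ⊥) (hU : ∀ h ∈ H, ∀ v ∈ U, ρ h v ∈ U) :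
    finrank k V ≤ H.index * finrank k U := by
  classical
  have := Fintype.ofFinite (G ⧸ H)
  have h1 : ∀ x : G, ∀ w ∈ U, ρ x w ∈ LinearMap.range (sm ρ H U) := by
    intro x w hw
    obtain ⟨h, hh⟩ := QuotientGroup.mk_out_eq_mul H x
    refine ⟨Pi.single (x : G ⧸ H) ⟨ρ (h⁻¹ : H) w, hU _ (h⁻¹ : H).2 w hw⟩, ?_⟩
    rw [sm_apply, Finset.sum_eq_single (x : G ⧸ H) (fun b _ hb => by simp [hb]) (by simp),
      Pi.single_eq_same, hh, ← Module.End.mul_apply, ← map_mul]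
    simp
  have h2 : LinearMap.range (sm ρ H U) = ⊤ := by
    refine (hρ.2 _ ?_).resolve_left fun h => h0 ?_
    · rintro g _ ⟨f, rfl⟩
      rw [sm_apply, map_sum]
      refine Submodule.sum_mem _ fun c _ => ?_
      rw [← Module.End.mul_apply, ← map_mul]
      exact h1 _ _ (f c).2
    · rw [eq_bot_iff]
      intro w hw
      have := h1 1 w hw
      rwa [h, map_one] at this
  have h3 : finrank k (G ⧸ H → U) = H.index * finrank k U := by
    rw [Module.finrank_pi_fintype, Finset.sum_const, smul_eq_mul, Finset.card_univ,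
      Subgroup.index_eq_card, Nat.card_eq_fintype_card]
  rw [← h3, ← finrank_top k V, ← h2]
  exact LinearMap.finrank_range_le _

end SpanAux

theorem span_main : SPAN_st := by
  intro k G V _ _ _ _ _ _ ρ H T S W hS _ hW h0 hT
  have h1 := SpanAux.lower ((irr_res hS.2.1).2 hS) (T.subgroupOf H) (W.comap S.subtype)
    (fun e => h0 (by
      rw [eq_bot_iff]
      intro v hv
      have : (⟨v, hW hv⟩ : S) ∈ W.comap S.subtype := hv
      rw [e] at this
      exact congrArg Subtype.val ((Submodule.mem_bot k).1 this)))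
    (fun h hh v hv => hT h hh v hv)
  rwa [(Submodule.comapSubtypeEquivOfLe hW).finrank_eq] at h1

theorem clif_of (h1 : SPAN_st) (h2 : SUM_st) : CLIF_st := by
  intro k G V _ _ _ _ _ _ ρ H T S W hS hT hW h0 hI hsep
  have a1 := h2 ρ H T S W hS.2.1 hT hW hI hsep
  refine ⟨le_antisymm (h1 ρ H T S W hS hT hW h0 hI) a1, h0, hI, fun W' hW' hI' => ?_⟩
  refine or_iff_not_imp_left.2 fun hn => ?_
  have a2 := h1 ρ H T S W' hS hT (hW'.trans hW) hn hI'
  have a3 : 0 < T.relIndex H := Nat.pos_of_ne_zero Subgroup.index_ne_zero_of_finite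
  exact Submodule.eq_of_le_of_finrank_le hW' (Nat.le_of_mul_le_mul_left (a1.trans a2) a3)

end Pool.Agent.MP_f0649b_al.F

end

section

open Module
open scoped commutatorElement

namespace Pool.Agent.MP_f0649b_al.F

namespace PgpAux

variable {k G V : Type} [Field k] [Group G] [AddCommGroup V] [Module k V]

/-- the elements of `H` acting as scalars -/
def Sc (ρ : Representation k G V) (H : Subgroup G) (S : Submodule k V) : Subgroup G where
  carrier := {g | g ∈ H ∧ ScalOn ρ g S}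
  one_mem' := ⟨H.one_mem, 1, fun v _ => by simp⟩
  mul_mem' := by
    rintro a b ⟨ha, c, hc⟩ ⟨hb, d, hd⟩
    refine ⟨H.mul_mem ha hb, d * c, fun v hv => ?_⟩
    rw [rho_mul, hd v hv, map_smul, hc v hv, smul_smul]
  inv_mem' := by
    rintro a ⟨ha, c, hc⟩
    refine ⟨H.inv_mem ha, c⁻¹, fun v hv => ?_⟩
    by_cases h0 : v = 0
    · simp [h0]
    have h1 : c ≠ 0 := fun e => rho_ne_zero ρ a h0 (by rw [hc v hv, e, zero_smul])
    have h2 := rho_inv_apply ρ a v
    rw [hc v hv, map_smul] at h2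
    rw [eq_inv_smul_iff₀ h1, h2]

theorem norm_Sc {ρ : Representation k G V} {H : Subgroup G} {S : Submodule k V}
    (hS : Inv ρ H S) : NormBy H (Sc ρ H S) := by
  rintro h hh a ⟨ha, c, hc⟩
  refine ⟨H.mul_mem (H.mul_mem hh ha) (H.inv_mem hh), c, fun v hv => ?_⟩
  rw [rho_mul, rho_mul, hc _ (hS _ (H.inv_mem hh) v hv), map_smul, rho_apply_inv]

/-- a cyclic extension -/
def Cy {H N : Subgroup G} (hn : NormBy H N) {u : G} (hu : u ∈ H) : Subgroup G where
  carrier := {g | ∃ s ∈ N, ∃ i : ℤ, g = s * u ^ i}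
  one_mem' := ⟨1, N.one_mem, 0, by simp⟩
  mul_mem' := by
    rintro _ _ ⟨s, hs, i, rfl⟩ ⟨t, ht, j, rfl⟩
    exact ⟨s * (u ^ i * t * (u ^ i)⁻¹), N.mul_mem hs (hn _ (H.zpow_mem hu i) t ht), i + j,
      by group⟩
  inv_mem' := by
    rintro _ ⟨s, hs, i, rfl⟩
    exact ⟨(u ^ i)⁻¹ * s⁻¹ * u ^ i, hn.inv (H.zpow_mem hu i) (N.inv_mem hs), -i, by group⟩

theorem step {ρ : Representation k G V} {H : Subgroup G} {S : Submodule k V}
    (hS : Inv ρ H S) (hP : Prim ρ H S) {u : G} (hu : u ∈ H)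
    (hc : ∀ h ∈ H, u * h * u⁻¹ * h⁻¹ ∈ Sc ρ H S) : ScalOn ρ u S := by
  have hn := norm_Sc hS
  refine hP (Cy hn hu) ?_ ?_ ?_ u ⟨1, one_mem _, 1, by simp⟩
  · rintro _ ⟨s, hs, i, rfl⟩
    exact H.mul_mem hs.1 (H.zpow_mem hu i)
  · rintro h hh _ ⟨s, hs, i, rfl⟩
    have h1 : h * u * h⁻¹ ∈ Cy hn hu := ⟨_, inv_mem (hc h hh), 1, by group⟩
    have h2 : h * s * h⁻¹ ∈ Cy hn hu := ⟨_, hn h hh s hs, 0, by simp⟩
    have h3 : h * (s * u ^ i) * h⁻¹ = h * s * h⁻¹ * (h * u * h⁻¹) ^ i := by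
      rw [conj_zpow]
      group
    rw [h3]
    exact mul_mem h2 (zpow_mem h1 i)
  · rintro _ ⟨s, ⟨-, c, hs⟩, i, rfl⟩ _ ⟨t, ⟨-, d, ht⟩, j, rfl⟩ v hv
    have hm : ∀ (n : ℤ) w, w ∈ S → ρ (u ^ n) w ∈ S := fun n => hS _ (H.zpow_mem hu n)
    simp only [rho_mul]
    rw [ht _ (hm j v hv), hs _ (hm i v hv), map_smul, map_smul, map_smul, map_smul,
      hs _ (hm i _ (hm j v hv)), ht _ (hm j _ (hm i v hv)), smul_comm, ← rho_mul, ← rho_mul,
      ← zpow_add, ← zpow_add, add_comm]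

end PgpAux

theorem pgp_main : PGP_st := by
  intro k G V _ _ _ _ _ _ _ ρ H S p hp hH hI hP
  have : Fact p.Prime := ⟨hp⟩
  obtain ⟨n, hn⟩ := hH.isNilpotent.nilpotent'
  have key : ∀ n, ∀ u ∈ Subgroup.upperCentralSeries H n, u.1 ∈ PgpAux.Sc ρ H S := by
    intro n
    induction n with
    | zero =>
      intro u hu
      rw [Subgroup.upperCentralSeries_zero, Subgroup.mem_bot] at hu
      rw [hu]
      exact one_mem _
    | succ n ih =>
      intro u hu
      exact ⟨u.2, PgpAux.step hI.2.1 hP u.2 fun h hh =>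
        ih _ (Subgroup.mem_upperCentralSeries_succ_iff.1 hu ⟨h, hh⟩)⟩
  have h1 : ∀ g ∈ H, ScalOn ρ g S := fun g hg => (key n ⟨g, hg⟩ (hn ▸ Subgroup.mem_top _)).2
  refine ⟨h1, ?_⟩
  obtain ⟨v, hv, h0⟩ := Submodule.exists_mem_ne_zero_of_ne_bot hI.1
  have hle : (k ∙ v) ≤ S := (Submodule.span_singleton_le_iff_mem v S).2 hv
  rcases hI.2.2 (k ∙ v) hle (fun g hg w hw => by
    obtain ⟨c, hc⟩ := h1 g hg
    rw [hc w (hle hw)]
    exact Submodule.smul_mem _ _ hw) with e | e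
  · exact absurd (Submodule.span_singleton_eq_bot.1 e) h0
  · rw [← e, finrank_span_singleton h0]

end Pool.Agent.MP_f0649b_al.F

end

section

open Module
open scoped commutatorElement

namespace Pool.Agent.MP_f0649b_al.F

namespace SNAux

variable {k E V V' : Type} [Field k] [Group E] [AddCommGroup V] [Module k V] [AddCommGroup V']
  [Module k V'] (σ : Representation k E V) (σ' : Representation k E V')

/-- the conjugate of a linear map -/
def cj (φ : V →ₗ[k] V') (b : E) : V →ₗ[k] V' := σ' b ∘ₗ φ ∘ₗ σ b⁻¹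

theorem cj_apply (φ : V →ₗ[k] V') (b : E) (v : V) : cj σ σ' φ b v = σ' b (φ (σ b⁻¹ v)) := rfl

theorem cj_mk {Z : Subgroup E} (hZ : ∀ z ∈ Z, ∃ c : k, σ z = c • 1 ∧ σ' z = c • 1)
    (φ : V →ₗ[k] V') (b : E) : cj σ σ' φ (b : E ⧸ Z).out = cj σ σ' φ b := by
  obtain ⟨z, hz⟩ := QuotientGroup.mk_out_eq_mul Z b
  obtain ⟨c, h1, h2⟩ := hZ z z.2
  ext v
  have e : ∀ u, σ' z (φ (σ (z : E)⁻¹ u)) = φ u := fun u => by
    conv_rhs => rw [← rho_apply_inv σ z u, h1]
    rw [h2]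
    simp
  rw [hz, cj_apply, cj_apply, mul_inv_rev, rho_mul, rho_mul, e]

theorem sum_cj {Z : Subgroup E} [Fintype (E ⧸ Z)]
    (hZ : ∀ z ∈ Z, ∃ c : k, σ z = c • 1 ∧ σ' z = c • 1) (φ : V →ₗ[k] V') (e : E) (v : V) :
    (∑ q : E ⧸ Z, cj σ σ' φ q.out) (σ e v) = σ' e ((∑ q : E ⧸ Z, cj σ σ' φ q.out) v) := by
  rw [← Equiv.sum_comp (MulAction.toPerm e) fun q : E ⧸ Z => cj σ σ' φ q.out]
  conv_rhs => rw [Equiv.sum_comp (MulAction.toPerm e) fun q : E ⧸ Z => cj σ σ' φ q.out]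
  rw [LinearMap.sum_apply, LinearMap.sum_apply, map_sum]
  refine Finset.sum_congr rfl fun q _ => ?_
  rw [MulAction.toPerm_apply, ← MulAction.Quotient.coe_smul_out, cj_mk σ σ' hZ, smul_eq_mul,
    cj_apply, cj_apply, mul_inv_rev, rho_mul, rho_mul, rho_inv_apply]

theorem equiv_of (h : Irr σ) (h' : Irr σ') (Φ : V →ₗ[k] V') (h0 : Φ ≠ 0)
    (hΦ : ∀ e v, Φ (σ e v) = σ' e (Φ v)) : ∃ A : V ≃ₗ[k] V', ∀ e v, A (σ e v) = σ' e (A v) := by
  have h1 : LinearMap.ker Φ = ⊥ := (h.2 _ fun g v hv => by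
    rw [LinearMap.mem_ker] at hv ⊢
    rw [hΦ, hv, map_zero]).resolve_right fun e => h0 (LinearMap.ker_eq_top.1 e)
  have h2 : LinearMap.range Φ = ⊤ := (h'.2 _ (by
    rintro g _ ⟨v, rfl⟩
    exact ⟨_, hΦ g v⟩)).resolve_left fun e => h0 (LinearMap.range_eq_bot.1 e)
  exact ⟨LinearEquiv.ofBijective Φ ⟨LinearMap.ker_eq_bot.1 h1, LinearMap.range_eq_top.1 h2⟩, hΦ⟩

end SNAux

theorem sn_of (h1 : LI0_st) : SN_st := by
  intro k E V V' _ _ _ _ _ _ _ _ _ σ σ' Z h h' hZ hc hn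
  classical
  have := Fintype.ofFinite (E ⧸ Z)
  have := h.1
  have := h'.1
  have hI : Inv σ' ⊤ ⊤ := fun _ _ _ _ => trivial
  have li := h1 σ' ⊤ ⊤ hI top_ne_bot (fun a _ b _ => by
      obtain ⟨c, -, e⟩ := hZ _ (hc a b)
      exact ⟨c, fun v _ => by rw [e]; rfl⟩)
    (fun q : E ⧸ Z => ⟨q.out, trivial⟩) (fun i j hij => by
      by_contra e
      push Not at e
      refine hij ?_
      rw [← i.out_eq', ← j.out_eq', QuotientGroup.eq]
      refine hn _ fun b => ?_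
      obtain ⟨c, e1, e2⟩ := hZ _ (hc (i.out⁻¹ * j.out) b)
      obtain ⟨v, hv⟩ := exists_ne (0 : V')
      have e3 : σ' ⁅i.out⁻¹ * j.out, b⁆ v = v := e b trivial v trivial
      rw [e2] at e3
      have e4 : (c - 1) • v = 0 := by
        rw [sub_smul, one_smul, sub_eq_zero]
        exact e3
      rw [e1, sub_eq_zero.1 ((smul_eq_zero.1 e4).resolve_right hv), one_smul])
  by_contra hA
  have h0 : ∀ φ : V →ₗ[k] V', ∑ q : E ⧸ Z, SNAux.cj σ σ' φ q.out = 0 := fun φ => by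
    by_contra e
    exact hA (SNAux.equiv_of σ σ' h h' _ e (SNAux.sum_cj σ σ' hZ φ))
  obtain ⟨w, hw⟩ := exists_ne (0 : V)
  refine rho_ne_zero σ ((1 : E) : E ⧸ Z).out⁻¹ hw ((Module.forall_dual_apply_eq_zero_iff k _).1
    fun l => ?_)
  refine Fintype.linearIndependent_iff.1 li (fun q => l (σ q.out⁻¹ w)) ?_ _
  ext w'
  have e := LinearMap.congr_fun (h0 (l.smulRight (w' : V'))) w
  simp only [LinearMap.sum_apply, SNAux.cj_apply, LinearMap.smulRight_apply, map_smul,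
    LinearMap.zero_apply] at e
  simpa [LinearMap.sum_apply] using e

end Pool.Agent.MP_f0649b_al.F

end

section

open Module
open scoped commutatorElement

namespace Pool.Agent.MP_f0649b_al.F

namespace IEAux

theorem split {H V W : Type} [Group H] [Finite H] [AddCommGroup V] [Module ℂ V] [AddCommGroup W]
    [Module ℂ W] (ρ : Representation ℂ H V) (σ : Representation ℂ H W) (ψ : V →ₗ[ℂ] W)
    (hs : Function.Surjective ψ) (hc : ∀ h v, ψ (ρ h v) = σ h (ψ v)) :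
    ∃ ι : W →ₗ[ℂ] V, Function.Injective ι ∧ ∀ h w, ρ h (ι w) = ι (σ h w) := by
  have : NeZero (Nat.card H : ℂ) := ⟨Nat.cast_ne_zero.2 Nat.card_pos.ne'⟩
  have hU : ∀ g, ∀ v ∈ LinearMap.ker ψ, ρ g v ∈ LinearMap.ker ψ := fun g v hv => by
    rw [LinearMap.mem_ker] at hv ⊢
    rw [hc, hv, map_zero]
  obtain ⟨C, hC⟩ := exists_isCompl (⟨LinearMap.ker ψ, hU⟩ : Subrepresentation ρ)
  have c1 : LinearMap.ker ψ ⊓ C.toSubmodule = ⊥ :=
    congrArg Subrepresentation.toSubmodule hC.inf_eq_bot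
  have c2 : LinearMap.ker ψ ⊔ C.toSubmodule = ⊤ :=
    congrArg Subrepresentation.toSubmodule hC.sup_eq_top
  have hb : Function.Bijective (ψ.comp C.toSubmodule.subtype) := by
    refine ⟨(injective_iff_map_eq_zero _).2 fun v hv => Subtype.ext ?_, fun w => ?_⟩
    · have : v.1 ∈ LinearMap.ker ψ ⊓ C.toSubmodule := ⟨hv, v.2⟩
      rwa [c1, Submodule.mem_bot] at this
    · obtain ⟨v, rfl⟩ := hs w
      have hv : v ∈ LinearMap.ker ψ ⊔ C.toSubmodule := c2 ▸ Submodule.mem_top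
      obtain ⟨a, ha, b, hb, rfl⟩ := Submodule.mem_sup.1 hv
      refine ⟨⟨b, hb⟩, ?_⟩
      rw [map_add, LinearMap.mem_ker.1 ha, zero_add]
      rfl
  let e := LinearEquiv.ofBijective _ hb
  refine ⟨C.toSubmodule.subtype.comp e.symm.toLinearMap,
    C.toSubmodule.injective_subtype.comp e.symm.injective, fun h w => ?_⟩
  obtain ⟨v, rfl⟩ := e.surjective w
  have h1 : σ h (e v) = e ⟨ρ h v, C.apply_mem_toSubmodule h v.2⟩ := (hc h v).symm
  rw [h1]
  simp

theorem val_le {p a b : ℕ} [Fact p.Prime] (ha : a ≠ 0) (hb : b ≠ 0)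
    (h : padicValNat p a ≤ padicValNat p b) : padicValNat p a ≤ padicValNat p (a + b) :=
  (padicValNat_dvd_iff_le (by omega)).1
    (dvd_add ((padicValNat_dvd_iff_le ha).2 le_rfl) ((padicValNat_dvd_iff_le hb).2 h))

end IEAux

theorem ie_main : IE_st := by
  intro G U _ _ _ φ hφ M hM p hp
  have := Fact.mk hp
  let e : U ≃* φ.range := MonoidHom.ofInjective hφ
  let σ : Representation ℂ φ.range M.V := M.ρ.comp e.symm.toMonoidHom
  have hσe : ∀ u, σ (e u) = M.ρ u := fun u => congrArg M.ρ (e.symm_apply_apply u)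
  have hσ : Irr σ := ⟨hM.1, fun S hS => hM.2 S fun u v hv => hσe u ▸ hS (e u) v hv⟩
  have key := ind φ.range σ (fun n => n = 0 ∨ ∃ R : Rp ℂ G, Irr R.ρ ∧
      (∃ ψ : R.V →ₗ[ℂ] M.V, ψ ≠ 0 ∧ ∀ (x : φ.range) v, ψ (R.ρ x v) = σ x (ψ v)) ∧
      R.dim ≤ n ∧ padicValNat p R.dim ≤ padicValNat p n) (Or.inl rfl) ?_
    fun V' _ _ _ ρ' h1 ψ h2 h3 => Or.inr ⟨⟨V', ρ'⟩, h1, ⟨ψ, h2, h3⟩, le_rfl, le_rfl⟩
  · rcases key with h | ⟨R, h1, ⟨ψ, h2, h3⟩, h4, h5⟩
    · exact absurd h (mul_ne_zero Subgroup.index_ne_zero_of_finite (Rp.dim_pos hM).ne')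
    · obtain ⟨ι, a1, a2⟩ := IEAux.split (R.ρ.comp φ.range.subtype) σ ψ (surj_of_over hσ h2 h3) h3
      exact ⟨R, h1, ι, a1, fun u m => hσe u ▸ a2 (e u) m, h4, h5⟩
  · rintro a b (rfl | ⟨R, h1, h2, h3, h4⟩) hb
    · rwa [zero_add]
    rcases hb with rfl | ⟨R', h1', h2', h3', h4'⟩
    · exact Or.inr ⟨R, h1, h2, h3, h4⟩
    have ha0 : a ≠ 0 := ((Rp.dim_pos h1).trans_le h3).ne'
    have hb0 : b ≠ 0 := ((Rp.dim_pos h1').trans_le h3').ne'
    rcases le_total (padicValNat p a) (padicValNat p b) with h | h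
    · exact Or.inr ⟨R, h1, h2, by omega, h4.trans (IEAux.val_le ha0 hb0 h)⟩
    · refine Or.inr ⟨R', h1', h2', by omega, h4'.trans ?_⟩
      rw [add_comm]
      exact IEAux.val_le hb0 ha0 h

end Pool.Agent.MP_f0649b_al.F

end

section

open Module
open scoped commutatorElement

namespace Pool.Agent.MP_f0649b_al.F

theorem mas_main : MAS_st := by
  intro G _ _ R B W n hW h
  refine dec (res R.ρ B W hW) (fun m => n ∣ m) (dvd_zero n) (fun _ _ => dvd_add) ?_
  intro V' _ _ _ ρ' hρ ι hι he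
  have hj : Function.Injective (W.subtype ∘ₗ ι) := W.injective_subtype.comp hι
  have he' : ∀ (g : B) v, (W.subtype ∘ₗ ι) (ρ' g v) = R.ρ g ((W.subtype ∘ₗ ι) v) :=
    fun g v => congrArg Subtype.val (he g v)
  rw [← LinearMap.finrank_range_of_inj hj]
  refine h _ ?_ ⟨fun e => ?_, ?_, fun S hS hi => ?_⟩
  · rintro _ ⟨v, rfl⟩
    exact (ι v).2
  · have := hρ.1
    obtain ⟨v, hv⟩ := exists_ne (0 : V')
    have h1 : (W.subtype ∘ₗ ι) v ∈ LinearMap.range (W.subtype ∘ₗ ι) := ⟨v, rfl⟩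
    rw [e, Submodule.mem_bot] at h1
    exact hv (hj (h1.trans (map_zero _).symm))
  · rintro g hg _ ⟨v, rfl⟩
    exact ⟨_, he' ⟨g, hg⟩ v⟩
  · rw [← Submodule.map_comap_eq_self hS]
    rcases hρ.2 (S.comap (W.subtype ∘ₗ ι)) (fun g v hv => by
      rw [Submodule.mem_comap, he']
      exact hi g g.2 _ hv) with e | e
    · left
      rw [e, Submodule.map_bot]
    · right
      rw [e, Submodule.map_top]

theorem tirr_of (h1 : BURN_st) : TIRR_st := by
  intro G _ σ τ D hσ hD hτ hT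
  have hn : 0 < finrank ℂ (TensorProduct ℂ σ.V τ.V) := by
    rw [Module.finrank_tensorProduct]
    exact Nat.mul_pos hσ (Rp.dim_pos hτ)
  refine ⟨Module.nontrivial_of_finrank_pos hn, fun U hU => ?_⟩
  have a1 : ∀ f : Module.End ℂ σ.V, ∀ u ∈ U, TensorProduct.map f (1 : Module.End ℂ τ.V) u ∈ U := by
    intro f
    have hf : f ∈ Submodule.span ℂ ((fun g => (σ.ρ g : Module.End ℂ σ.V)) '' D) :=
      hD ▸ Submodule.mem_top
    induction hf using Submodule.span_induction with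
    | mem _ h =>
      obtain ⟨g, hg, rfl⟩ := h
      intro u hu
      have := hU g u hu
      rwa [Representation.tprod_apply, hT g hg] at this
    | zero => intro u _; simp
    | add f f' _ _ h h' =>
      intro u hu
      rw [TensorProduct.map_add_left]
      exact U.add_mem (h u hu) (h' u hu)
    | smul c f _ h =>
      intro u hu
      rw [TensorProduct.map_smul_left]
      exact U.smul_mem c (h u hu)
  have a2 : ∀ (f' : Module.End ℂ τ.V) (f : Module.End ℂ σ.V), ∀ u ∈ U,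
      TensorProduct.map f f' u ∈ U := by
    intro f' f
    have hf : f' ∈ Submodule.span ℂ (Set.range fun g => (τ.ρ g : Module.End ℂ τ.V)) :=
      h1 τ.ρ hτ ▸ Submodule.mem_top
    induction hf using Submodule.span_induction with
    | mem _ h =>
      obtain ⟨g, rfl⟩ := h
      intro u hu
      have := a1 (f * σ.ρ g⁻¹) _ (hU g u hu)
      rwa [Representation.tprod_apply, ← Module.End.mul_apply, ← TensorProduct.map_mul, one_mul,
        mul_assoc, ← map_mul, inv_mul_cancel, map_one, mul_one] at this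
    | zero => intro u _; simp
    | add f f' _ _ h h' =>
      intro u hu
      rw [TensorProduct.map_add_right]
      exact U.add_mem (h u hu) (h' u hu)
    | smul c f _ h =>
      intro u hu
      rw [TensorProduct.map_smul_right]
      exact U.smul_mem c (h u hu)
  have a3 : ∀ F : Module.End ℂ (TensorProduct ℂ σ.V τ.V), ∀ u ∈ U, F u ∈ U := by
    intro F u hu
    obtain ⟨x, rfl⟩ := (homTensorHomEquiv ℂ σ.V τ.V σ.V τ.V).surjective F
    induction x with
    | zero => simp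
    | tmul f f' =>
      rw [homTensorHomEquiv_apply, TensorProduct.homTensorHomMap_apply]
      exact a2 f' f u hu
    | add x y hx hy =>
      rw [map_add]
      exact U.add_mem hx hy
  refine or_iff_not_imp_left.2 fun h0 => eq_top_iff.2 fun v _ => ?_
  obtain ⟨u, hu, hu0⟩ := (Submodule.ne_bot_iff U).1 h0
  obtain ⟨φ, hφ⟩ := Module.Projective.exists_dual_eq_one ℂ hu0
  have := a3 (φ.smulRight v) u hu
  rwa [LinearMap.smulRight_apply, hφ, one_smul] at this

end Pool.Agent.MP_f0649b_al.F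

end

section

open Module
open scoped commutatorElement

namespace Pool.Agent.MP_f0649b_al.F

namespace CompAux

variable {G : Type} [Group G] (F : Frame G)

theorem comm_le_Z : ⁅F.B, F.B⁆ ≤ F.Z := by
  rw [Subgroup.commutator_le]
  exact F.comm

theorem sep (R : Rp ℂ G) : Sep R.ρ ⊤ F.T (F.Vz R) := by
  intro g _ hg
  obtain ⟨z, hz, hz', hne⟩ := F.sepz hg
  refine ⟨z, fun h' _ v hv => ⟨R.ρ (h'⁻¹ * z * h') v,
    F.inv_Vz R _ (F.B_le_T (F.conj_mem' (F.le hz) h')) v hv, ?_⟩, F.ζ z, F.ζ (g⁻¹ * z * g),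
    fun e => hne (Units.ext e), fun v hv => hv z hz, fun v hv => ?_⟩
  · rw [← rho_mul, ← rho_mul]
    congr 2
    group
  · rw [← map_smul, ← hv _ hz', ← rho_mul, ← rho_mul]
    congr 2
    group

/-- elements of the radical with trivial `n`-th power of the character -/
def kerPow (n : ℕ) : Subgroup G where
  carrier := {z | z ∈ F.Z ∧ F.ζ z ^ n = 1}
  one_mem' := ⟨F.Z.one_mem, by rw [F.chr.one, one_pow]⟩
  mul_mem' := fun {a b} ha hb => ⟨F.Z.mul_mem ha.1 hb.1, by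
    rw [F.chr a ha.1 b hb.1, mul_pow, ha.2, hb.2, one_mul]⟩
  inv_mem' := fun {a} ha => ⟨F.Z.inv_mem ha.1, by rw [F.chr.inv ha.1, inv_pow, ha.2, inv_one]⟩

theorem comm3_le : ⁅⁅F.B, F.B⁆, F.B⁆ ≤ kerPow F 1 := by
  rw [Subgroup.commutator_le]
  intro z hz b hb
  have hz' := comm_le_Z F hz
  exact ⟨F.comm z (F.le hz') b hb, by rw [pow_one, F.zeta_comm_left hz' hb]⟩

theorem comm2_le : ⁅F.B, F.B⁆ ≤ kerPow F (Nat.card F.L) := by
  rw [Subgroup.commutator_le]
  intro a ha b hb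
  refine ⟨F.comm a ha b hb, ?_⟩
  have h1 : (⟨F.chi ⟨a, ha⟩, F.chi_mem _⟩ : F.L) ^ Nat.card F.L = 1 := pow_card_eq_one'
  have h2 : F.chi ⟨a, ha⟩ ^ Nat.card F.L = 1 := congrArg Subtype.val h1
  have h3 := F.ev_pow (F.chi ⟨a, ha⟩) (Nat.card F.L) ⟨b, hb⟩
  rw [h2, F.ev_one, F.ev_chi] at h3
  exact h3.symm

/-- elements of the commutator subgroup whose image has order dividing `n` -/
def tors (R : Rp ℂ G) (h : Triv R.ρ ⁅⁅F.B, F.B⁆, F.B⁆) (n : ℕ) : Subgroup G where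
  carrier := {z | z ∈ ⁅F.B, F.B⁆ ∧ R.ρ z ^ n = 1}
  one_mem' := ⟨Subgroup.one_mem _, by rw [map_one, one_pow]⟩
  mul_mem' := fun {a b} ha hb => ⟨Subgroup.mul_mem _ ha.1 hb.1, by
    have h1 := h _ (Subgroup.commutator_mem_commutator ha.1 (comm_self_le _ hb.1))
    have h2 : Commute (R.ρ a) (R.ρ b) := by
      have e : a * b = ⁅a, b⁆ * (b * a) := by rw [commutatorElement_def]; group
      rw [commute_iff_eq, ← map_mul, ← map_mul, e, map_mul, h1, one_mul]
    rw [map_mul, h2.mul_pow, ha.2, hb.2, one_mul]⟩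
  inv_mem' := fun {a} ha => ⟨Subgroup.inv_mem _ ha.1, by
    have h1 : R.ρ (a⁻¹ ^ n) * R.ρ (a ^ n) = 1 := by
      rw [← map_mul, inv_pow, inv_mul_cancel, map_one]
    rwa [map_pow, map_pow, ha.2, mul_one] at h1⟩

instance tors_normal (R : Rp ℂ G) (h : Triv R.ρ ⁅⁅F.B, F.B⁆, F.B⁆) (n : ℕ) :
    (tors F R h n).Normal where
  conj_mem := fun a ha g => ⟨(Subgroup.commutator_normal F.B F.B).conj_mem a ha.1 g, by
    rw [← map_pow, conj_pow, map_mul, map_mul, map_pow, ha.2, mul_one, ← map_mul,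
      mul_inv_cancel, map_one]⟩

end CompAux

theorem comp_of (h0 : L0) : COMP_st := by
  intro G _ _ F R hR hV
  have h := h0.clif R.ρ ⊤ F.T ⊤ (F.Vz R) ((irr_iff _).1 hR) le_top le_top hV (F.inv_Vz R)
    (CompAux.sep F R)
  rw [Subgroup.relIndex_top_right, finrank_top] at h
  refine ⟨h.1, h.2, ?_⟩
  obtain ⟨v, hv, hv0⟩ := Submodule.exists_mem_ne_zero_of_ne_bot hV
  refine h0.nt R.ρ _ hR v hv0 fun g hg => ?_
  have h1 := CompAux.comm3_le F hg
  have h2 : F.ζ g = 1 := by rw [← pow_one (F.ζ g)]; exact h1.2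
  rw [hv g h1.1, h2, Units.val_one, one_smul]

theorem pl_of (h0 : L0) (h1 : COMP_st) : PL_st := by
  intro G _ _ F R p hp hR hV hz
  obtain ⟨z, hz, hne, e, he⟩ := hz
  have h3 := (h1 F R hR hV).2.2
  obtain ⟨v, hv, hv0⟩ := Submodule.exists_mem_ne_zero_of_ne_bot hV
  by_contra hnd
  have hc : (p ^ e).Coprime (Nat.card F.L) :=
    Nat.Coprime.pow_left e ((Nat.Prime.coprime_iff_not_dvd hp).2 hnd)
  refine hne (h0.nt R.ρ (CompAux.tors F R h3 (p ^ e)) hR v hv0 (fun g hg => ?_) z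
    ⟨hz, by rw [← map_pow, he]⟩)
  have a1 := CompAux.comm2_le F hg.1
  have a2 : F.ζ g ^ p ^ e = 1 := by
    have b1 := hv (g ^ p ^ e) (F.Z.pow_mem a1.1 _)
    rw [map_pow, hg.2, Module.End.one_apply, F.chr.pow a1.1] at b1
    have b2 : ((F.ζ g ^ p ^ e : ℂˣ) : ℂ) • v = (1 : ℂ) • v := by rw [← b1, one_smul]
    exact Units.ext (smul_left_injective ℂ hv0 b2)
  have a3 : F.ζ g = 1 := by
    have b1 : orderOf (F.ζ g) ∣ Nat.gcd (p ^ e) (Nat.card F.L) :=
      Nat.dvd_gcd (orderOf_dvd_of_pow_eq_one a2) (orderOf_dvd_of_pow_eq_one a1.2)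
    rw [hc] at b1
    exact orderOf_eq_one_iff.1 (Nat.dvd_one.1 b1)
  rw [hv g a1.1, a3, Units.val_one, one_smul]

end Pool.Agent.MP_f0649b_al.F

end

section

open Module
open scoped commutatorElement

namespace Pool.Agent.MP_f0649b_al.F

namespace EigFAux
variable {G : Type} [Group G] (F : Frame G)

/-- the preimage in `B` of a subgroup of characters -/
noncomputable def pre (Q : Subgroup F.X) : Subgroup G := (Q.comap F.chi).map F.B.subtype

theorem mem_pre {Q : Subgroup F.X} {g : G} :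
    g ∈ pre F Q ↔ ∃ hg : g ∈ F.B, F.chi ⟨g, hg⟩ ∈ Q := by
  constructor
  · rintro ⟨a, ha, rfl⟩
    exact ⟨a.2, ha⟩
  · rintro ⟨hg, h⟩
    exact ⟨⟨g, hg⟩, h, rfl⟩

theorem pre_le (Q : Subgroup F.X) : pre F Q ≤ F.B := fun _ hg => ((mem_pre F).1 hg).1

theorem Z_le_pre (Q : Subgroup F.X) : F.Z ≤ pre F Q := fun z hz =>
  (mem_pre F).2 ⟨F.le hz, by
    rw [(F.chi_eq_one ⟨z, F.le hz⟩).2 hz]
    exact Q.one_mem⟩

theorem normBy_pre (Q : Subgroup F.X) : NormBy F.B (pre F Q) := by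
  intro h hh a ha
  obtain ⟨hB, hQ⟩ := (mem_pre F).1 ha
  refine (mem_pre F).2 ⟨F.conj_mem hB h, ?_⟩
  have e : (⟨h * a * h⁻¹, F.conj_mem hB h⟩ : F.B) = ⟨h, hh⟩ * ⟨a, hB⟩ * (⟨h, hh⟩ : F.B)⁻¹ := rfl
  rw [e, map_mul, map_mul, map_inv, mul_comm (F.chi _) (F.chi _), mul_inv_cancel_right]
  exact hQ

theorem relIndex_pre (P : Subgroup F.X) : (pre F P).relIndex F.B = P.relIndex F.L := by
  have e : (pre F P).subgroupOf F.B = P.comap F.chi :=
    Subgroup.comap_map_eq_self_of_injective F.B.subtype_injective _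
  rw [Subgroup.relIndex, e, Subgroup.index_comap]
  rfl

theorem swap {R : Rp ℂ G} {S : Submodule ℂ R.V} (hS : S ≤ F.Vz R) (hi : Inv R.ρ F.B S)
    {a b : G} (ha : a ∈ F.B) (hb : b ∈ F.B) {v : R.V} (hv : v ∈ S) :
    R.ρ a (R.ρ b v) = (F.ζ ⁅a, b⁆ : ℂ) • R.ρ b (R.ρ a v) := by
  have e : a * b = ⁅a, b⁆ * (b * a) := by rw [commutatorElement_def]; group
  rw [← rho_mul, e, rho_mul, rho_mul]
  exact hS (hi b hb _ (hi a ha v hv)) _ (F.comm a ha b hb)

theorem relIndex_perp [Finite G] (h1 : SYM_st) {Q : Subgroup F.X} (hQ : Q ≤ F.L) :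
    (F.sym.perp Q).relIndex F.L = Nat.card Q := by
  have hf : Finite F.L := F.sym.fin
  have hP : F.sym.perp Q ≤ F.L := fun y hy => hy.1
  have a1 : Nat.card Q * Nat.card (F.sym.perp Q) = Nat.card F.L := (h1 F.sym).1 Q hQ
  have a2 := ((F.sym.perp Q).subgroupOf F.L).index_mul_card
  rw [Nat.card_congr (Subgroup.subgroupOfEquivOfLe hP).toEquiv, ← a1] at a2
  have a3 : Nat.card (F.sym.perp Q) ≠ 0 := by
    intro e
    rw [e, mul_zero] at a1
    exact Nat.card_pos.ne a1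
  exact Nat.eq_of_mul_eq_mul_right (Nat.pos_of_ne_zero a3) a2

end EigFAux

open EigFAux in
theorem eig_of (h0 : L0) (h1 : SYM_st) (h2 : MAS_st) : EIG_st := by
  intro G _ _ F R W hW hi
  refine ⟨fun Q hQ => h2 R F.B W _ hi fun S hSW hS => ?_, fun hne => ?_⟩
  · have hSV : S ≤ F.Vz R := hSW.trans hW
    have hAi : Inv R.ρ (pre F Q) S := hS.2.1.mono (pre_le F Q)
    have hc : CommOn R.ρ (pre F Q) S := by
      intro a ha b hb v hv
      obtain ⟨haB, haQ⟩ := (mem_pre F).1 ha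
      obtain ⟨hbB, hbQ⟩ := (mem_pre F).1 hb
      have e : F.ζ ⁅a, b⁆ = 1 := by
        rw [← F.om_chi_chi ⟨a, haB⟩ ⟨b, hbB⟩]
        exact hQ.2 _ haQ _ hbQ
      rw [swap F hSV hS.2.1 haB hbB hv, e, Units.val_one, one_smul]
    obtain ⟨l, hl, hne⟩ := h0.eigv R.ρ (pre F Q) S hS.1 hAi hc
    obtain ⟨v0, hv0, hv0'⟩ := Submodule.exists_mem_ne_zero_of_ne_bot hne
    have hlz : ∀ z ∈ F.Z, l z = F.ζ z := by
      intro z hz
      have e1 := hv0.1 z (Z_le_pre F Q hz)
      have e2 := hSV hv0.2 z hz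
      rw [e1] at e2
      exact Units.ext (smul_left_injective ℂ hv0' e2)
    have hinv : Inv R.ρ (pre F (F.sym.perp Q)) (Eig R.ρ (pre F Q) l ⊓ S) := by
      intro t ht v hv
      obtain ⟨htB, htP⟩ := (mem_pre F).1 ht
      refine ⟨fun a ha => ?_, hS.2.1 t htB v hv.2⟩
      obtain ⟨haB, haQ⟩ := (mem_pre F).1 ha
      have e : F.ζ ⁅a, t⁆ = 1 := by
        rw [← F.om_chi_chi ⟨a, haB⟩ ⟨t, htB⟩]
        exact htP.2 _ haQ (F.chi_mem _)
      rw [swap F hSV hS.2.1 haB htB hv.2, e, Units.val_one, one_smul, hv.1 a ha, map_smul]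
    have hsep : Sep R.ρ F.B (pre F (F.sym.perp Q)) (Eig R.ρ (pre F Q) l ⊓ S) := by
      refine sep_eig (normBy_pre F Q) inf_le_left fun h hh hfix => ?_
      rw [← inv_inv h]
      refine Subgroup.inv_mem _ ((mem_pre F).2 ⟨F.B.inv_mem hh, F.chi_mem _, ?_⟩)
      rintro _ hx ⟨a, rfl⟩
      have ha : (a : G) ∈ pre F Q := (mem_pre F).2 ⟨a.2, hx⟩
      have hz := F.comm a a.2 h⁻¹ (F.B.inv_mem hh)
      have e : h⁻¹ * (a : G)⁻¹ * h = (a : G)⁻¹ * ⁅(a : G), h⁻¹⁆ := by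
        rw [commutatorElement_def]; group
      have e1 := hfix _ ((pre F Q).inv_mem ha)
      rw [e, hl _ ((pre F Q).inv_mem ha) _ (Z_le_pre F Q hz), hlz _ hz, mul_eq_left] at e1
      exact (F.om_chi_chi a ⟨h⁻¹, F.B.inv_mem hh⟩).trans e1
    have e := (h0.clif R.ρ F.B _ S _ hS (pre_le F _) inf_le_right hne hinv hsep).1
    rw [relIndex_pre, relIndex_perp F h1 hQ.1] at e
    exact ⟨_, e⟩
  · rw [F.card_L]
    refine h0.li R.ρ F.B F.Z W hi hne
      (fun a ha b hb => ⟨_, fun v hv => hW hv _ (F.comm a ha b hb)⟩) fun a ha h => ?_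
    obtain ⟨v0, hv0, hv0'⟩ := Submodule.exists_mem_ne_zero_of_ne_bot hne
    refine (F.rad a ha).2 fun b hb => Units.ext (smul_left_injective ℂ hv0' ?_)
    have e := hW hv0 _ (F.comm a ha b hb)
    rw [h b hb v0 hv0] at e
    simpa using e.symm

end Pool.Agent.MP_f0649b_al.F

end

section

open Module
open scoped commutatorElement

namespace Pool.Agent.MP_f0649b_al.F

namespace LemRAux
variable {G : Type} [Group G]

theorem conj_comm (g a b : G) : g * ⁅a, b⁆ * g⁻¹ = ⁅g * a * g⁻¹, g * b * g⁻¹⁆ := by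
  simp only [commutatorElement_def]; group

/-- the stabiliser of a function on a normal subgroup -/
def st (A : Subgroup G) [hA : A.Normal] (l : G → ℂˣ) : Subgroup G where
  carrier := {g | ∀ a ∈ A, l (g * a * g⁻¹) = l a}
  one_mem' := by simp
  mul_mem' := fun {x y} hx hy a ha => by
    have e : x * y * a * (x * y)⁻¹ = x * (y * a * y⁻¹) * x⁻¹ := by group
    rw [e, hx _ (hA.conj_mem a ha y), hy a ha]
  inv_mem' := fun {x} hx a ha => by
    have e : x * (x⁻¹ * a * x⁻¹⁻¹) * x⁻¹ = a := by group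
    rw [← hx _ (hA.conj_mem a ha x⁻¹), e]

theorem val_eq {R : Rp ℂ G} {v : R.V} (hv : v ≠ 0) {c d : ℂˣ} (h : (c : ℂ) • v = (d : ℂ) • v) :
    c = d := Units.ext (smul_left_injective ℂ hv h)

/-- the elements of `D` whose commutators with `D` are killed by `l` -/
def rad (B D : Subgroup G) [hB : B.Normal] (hD : D ≤ B) (l : G → ℂˣ) (hl : IsChar ⁅B, B⁆ l)
    (hi : B ≤ st ⁅B, B⁆ l) : Subgroup G where
  carrier := {a | a ∈ D ∧ ∀ b ∈ D, l ⁅a, b⁆ = 1}
  one_mem' := ⟨D.one_mem, fun b _ => by simpa using hl.one⟩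
  mul_mem' := fun {x y} hx hy => ⟨D.mul_mem hx.1 hy.1, fun b hb => by
    have e : ⁅x * y, b⁆ = (x * ⁅y, b⁆ * x⁻¹) * ⁅x, b⁆ := by
      simp only [commutatorElement_def]; group
    have m1 := Subgroup.commutator_mem_commutator (hD hy.1) (hD hb)
    have m2 := Subgroup.commutator_mem_commutator (hD hx.1) (hD hb)
    rw [e, hl _ (Subgroup.Normal.conj_mem inferInstance _ m1 x) _ m2, hi (hD hx.1) _ m1,
      hx.2 b hb, hy.2 b hb, mul_one]⟩
  inv_mem' := fun {x} hx => ⟨D.inv_mem hx.1, fun b hb => by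
    have e : ⁅x⁻¹, b⁆ = x⁻¹ * ⁅x, b⁆⁻¹ * x⁻¹⁻¹ := by
      simp only [commutatorElement_def]; group
    have m2 := Subgroup.commutator_mem_commutator (hD hx.1) (hD hb)
    rw [e, hi (B.inv_mem (hD hx.1)) _ (Subgroup.inv_mem _ m2), hl.inv m2, hx.2 b hb, inv_one]⟩

end LemRAux

open LemRAux in
theorem lemr_of (h0 : L0) (h1 : ABS_st) : LEMR_st := by
  intro G _ _ R B hB n hT hW
  obtain ⟨U, S, hS, hI, hn⟩ := hW
  have hBB : ⁅B, B⁆ ≤ B := comm_self_le B
  have hc : ∀ {a b : G}, a ∈ B → b ∈ B → ⁅a, b⁆ ∈ ⁅B, B⁆ := fun ha hb =>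
    Subgroup.commutator_mem_commutator ha hb
  have hcomm : ∀ (a b : G) (v : R.V), R.ρ a (R.ρ b v) = R.ρ ⁅a, b⁆ (R.ρ b (R.ρ a v)) := by
    intro a b v
    rw [← rho_mul, ← rho_mul, ← rho_mul, commutatorElement_def]
    congr 2
    group
  obtain ⟨U1, S1, z0, -, -, -, hS1, hI1, hz0, hE1, hU1, hn1⟩ := h1 R ⊤ ⁅B, B⁆ U ⊤ S
    (fun _ _ _ _ => trivial) le_top (NormBy.of_normal _ _) (fun a ha b hb v _ => by
      rw [hcomm, hT _ (Subgroup.commutator_mem_commutator ha (hBB hb)), Module.End.one_apply])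
    le_top le_top hS hI
  obtain ⟨v1, hv1, hv1'⟩ := (Submodule.ne_bot_iff _).1 hS1
  have hBT : B ≤ st ⁅B, B⁆ z0 := fun b hb a ha => by
    have e : b * a * b⁻¹ = ⁅a, b⁆⁻¹ * a := by simp only [commutatorElement_def]; group
    have m := Subgroup.commutator_mem_commutator ha hb
    have m' := hc (hBB ha) hb
    have e1 : z0 ⁅a, b⁆ = 1 := val_eq hv1' (by
      rw [← hE1 hv1 _ m', hT _ m, Module.End.one_apply, Units.val_one, one_smul])
    rw [e, hz0 _ (Subgroup.inv_mem _ m') _ ha, hz0.inv m', e1, inv_one, one_mul]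
  have hZB : rad B B le_rfl z0 hz0 hBT ≤ B := fun a ha => ha.1
  have hW0 : Inv R.ρ (st ⁅B, B⁆ z0) (Eig R.ρ ⁅B, B⁆ z0) := by
    intro g hg v hv a ha
    have m : g⁻¹ * a * g⁻¹⁻¹ ∈ ⁅B, B⁆ := Subgroup.Normal.conj_mem inferInstance _ ha _
    have e : a * g = g * (g⁻¹ * a * g⁻¹⁻¹) := by group
    rw [← rho_mul, e, rho_mul, hv _ m, (st ⁅B, B⁆ z0).inv_mem hg a ha, map_smul]
  have hNZ : NormBy (st ⁅B, B⁆ z0) (rad B B le_rfl z0 hz0 hBT) := by
    intro g hg a ha
    refine ⟨hB.conj_mem a ha.1 g, fun b hb => ?_⟩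
    have m := hB.conj_mem' b hb g
    have e : b = g * (g⁻¹ * b * g) * g⁻¹ := by group
    rw [e, ← conj_comm, hg _ (hc ha.1 m), ha.2 _ m]
  obtain ⟨U2, S2, ζ, hZU, hU2, hSW, hS2, hI2, hζ, hE2, hU2', hn2⟩ :=
    h1 R (st ⁅B, B⁆ z0) (rad B B le_rfl z0 hz0 hBT) U1 (Eig R.ρ ⁅B, B⁆ z0) S1 hW0
      (hZB.trans hBT) hNZ (fun a ha b hb v hv => by
        rw [hcomm, hW0 b (hBT hb.1) _ (hW0 a (hBT ha.1) v hv) _ (hc ha.1 hb.1), ha.2 b hb.1,
          Units.val_one, one_smul]) (fun u hu => hU1 u hu) hE1 hS1 hI1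
  obtain ⟨v2, hv2, hv2'⟩ := (Submodule.ne_bot_iff _).1 hS2
  have hBZ : ⁅B, B⁆ ≤ rad B B le_rfl z0 hz0 hBT := fun a ha => ⟨hBB ha, fun b hb => val_eq hv1' (by
    rw [← hE1 hv1 _ (hc (hBB ha) hb), hT _ (Subgroup.commutator_mem_commutator ha hb),
      Module.End.one_apply, Units.val_one, one_smul])⟩
  have hζ0 : ∀ a ∈ ⁅B, B⁆, ζ a = z0 a := fun a ha => val_eq hv2' (by
    rw [← hE2 hv2 a (hBZ ha), ← hSW hv2 a ha])
  let F : Frame G := ⟨B, rad B B le_rfl z0 hz0 hBT, ζ, hB, hZB, fun a ha b hb => hBZ (hc ha hb), hζ,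
    fun a ha => ⟨fun h b hb => by rw [hζ0 _ (hc ha hb), h.2 b hb],
      fun h => ⟨ha, fun b hb => by rw [← hζ0 _ (hc ha hb), h b hb]⟩⟩⟩
  have hUT : U2 ≤ F.T := F.le_T fun g hg z hz => ⟨hNZ g (hU2 hg) z hz, hU2' g hg z hz⟩
  refine ⟨F, rfl, (Submodule.ne_bot_iff _).2 ⟨v2, hE2 hv2, hv2'⟩, ?_⟩
  set D0 := rad B (U2 ⊓ B) inf_le_right z0 hz0 hBT with hD0
  have hD0B : D0 ≤ B := fun a ha => ha.1.2
  have hZD : F.Z ≤ D0 := fun a ha => ⟨⟨hZU ha, ha.1⟩, fun b hb => ha.2 b hb.2⟩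
  have hLI : D0.relIndex (U2 ⊓ B) ≤ finrank ℂ S2 ^ 2 :=
    h0.li R.ρ (U2 ⊓ B) D0 S2 (hI2.mono inf_le_left) hS2
      (fun a ha b hb => ⟨z0 ⁅a, b⁆, fun v hv => hSW hv _ (hc ha.2 hb.2)⟩)
      (fun a ha h => ⟨ha, fun b hb => val_eq hv2' (by
        rw [← hSW hv2 _ (hc ha.2 hb.2), h b hb v2 hv2, Units.val_one, one_smul])⟩)
  have hQU : SInv U2 ((D0.subgroupOf B).map F.chi) := by
    rintro u hu _ ⟨a, ha, rfl⟩
    have ha' : (a : G) ∈ D0 := ha
    refine ⟨⟨u * a * u⁻¹, F.conj_mem a.2 u⟩, ?_, (F.smul_chi (hUT hu) a).symm⟩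
    refine ⟨⟨U2.mul_mem (U2.mul_mem hu ha'.1.1) (U2.inv_mem hu), F.conj_mem a.2 u⟩, fun b hb => ?_⟩
    have m : u⁻¹ * b * u ∈ U2 ⊓ B :=
      ⟨U2.mul_mem (U2.mul_mem (U2.inv_mem hu) hb.1) hu, hB.conj_mem' b hb.2 u⟩
    have e : b = u * (u⁻¹ * b * u) * u⁻¹ := by group
    change z0 ⁅u * a * u⁻¹, b⁆ = 1
    rw [e, ← conj_comm, hU2 hu _ (hc a.2 m.2), ha'.2 _ m]
  have hQB : SInv B ((D0.subgroupOf B).map F.chi) := fun b hb x hx => by
    rwa [F.smul_of_mem_B hb]
  refine ⟨U2 ⊔ B, (D0.subgroupOf B).map F.chi, sup_le hUT F.B_le_T, ⟨?_, ?_⟩, ?_, ?_⟩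
  · rintro _ ⟨a, -, rfl⟩
    exact F.chi_mem a
  · rintro _ ⟨a, ha, rfl⟩ _ ⟨b, hb, rfl⟩
    have ha' : (a : G) ∈ D0 := ha
    have hb' : (b : G) ∈ D0 := hb
    rw [Frame.sym_om, F.om_chi_chi]
    exact (hζ0 _ (hc a.2 b.2)).trans (ha'.2 _ hb'.1)
  · intro h hh
    exact sInv_stabR _ h (sup_le hQU.le_stabR hQB.le_stabR hh)
  · have c1 : Nat.card ((D0.subgroupOf B).map F.chi) = F.Z.relIndex D0 := by
      have k : F.chi.ker = F.Z.subgroupOf B := by
        ext a
        rw [MonoidHom.mem_ker, F.chi_eq_one, Subgroup.mem_subgroupOf]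
      rw [← Subgroup.relIndex_ker, k, Subgroup.relIndex_subgroupOf hD0B]
    have c2 : Nat.card F.L = F.Z.relIndex D0 * D0.relIndex (U2 ⊓ B) * (U2 ⊓ B).relIndex B := by
      rw [F.card_L, Subgroup.relIndex_mul_relIndex _ _ _ hZD (fun a ha => ha.1),
        Subgroup.relIndex_mul_relIndex _ _ _ (hZD.trans fun a ha => ha.1) inf_le_right]
    have c3 : (U2 ⊓ B).relIndex B * (U2 ⊔ B).index = U2.index := by
      have a1 := Subgroup.relIndex_mul_index (inf_le_right : U2 ⊓ B ≤ B)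
      have a2 := Subgroup.relIndex_mul_index (inf_le_left : U2 ⊓ B ≤ U2)
      have a3 := Subgroup.relIndex_mul_index (le_sup_right : B ≤ U2 ⊔ B)
      rw [Subgroup.inf_relIndex_left] at a2
      rw [Subgroup.relIndex_sup_right] at a3
      have a4 : B.relIndex U2 ≠ 0 := Subgroup.index_ne_zero_of_finite
      apply Nat.eq_of_mul_eq_mul_left (Nat.pos_of_ne_zero a4)
      rw [a2, ← a1, ← a3]
      ring
    rw [c1, c2]
    calc (U2 ⊔ B).index * (F.Z.relIndex D0 * D0.relIndex (U2 ⊓ B) * (U2 ⊓ B).relIndex B)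
        = U2.index * D0.relIndex (U2 ⊓ B) * F.Z.relIndex D0 := by rw [← c3]; ring
      _ ≤ n * F.Z.relIndex D0 := Nat.mul_le_mul_right _
          ((Nat.mul_le_mul_left _ hLI).trans (hn2.trans (hn1.trans hn)))

end Pool.Agent.MP_f0649b_al.F

end

section

open Module
open scoped commutatorElement

namespace Pool.Agent.MP_f0649b_al.F

theorem tens_of (h0 : L0) (h1 : IE_st) (h2 : TIRR_st) (h3 : COMP_st) : TENS_st := by
  intro G _ _ F R τ hV hd hτ hB
  classical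
  have hS : Inv R.ρ F.B (F.Vz R) := (F.inv_Vz R).mono F.B_le_T
  obtain ⟨v, hv, hv0⟩ := (Submodule.ne_bot_iff _).1 hV
  have li := h0.li0 R.ρ F.B (F.Vz R) hS hV
    (fun a ha b hb => ⟨_, fun w hw => hw _ (F.comm a ha b hb)⟩)
    (fun q : F.B ⧸ F.Z.subgroupOf F.B => q.out) fun i j hij => by
      have e : ¬ (((i.out)⁻¹ * j.out : F.B) : G) ∈ F.Z := fun e => hij (by
        rw [← i.out_eq', ← j.out_eq']
        exact QuotientGroup.eq.2 e)
      rw [F.rad _ ((i.out)⁻¹ * j.out).2] at e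
      push Not at e
      obtain ⟨c, hc, e⟩ := e
      refine ⟨c, hc, v, hv, fun e' => e (Units.ext ?_)⟩
      have e2 := hv _ (F.comm _ ((i.out)⁻¹ * j.out).2 c hc)
      have e3 := e2.symm.trans e'
      exact smul_left_injective ℂ hv0 (e3.trans (one_smul ℂ v).symm)
  let σ : Rp ℂ F.T := { V := F.Vz R, ρ := res R.ρ F.T (F.Vz R) (F.inv_Vz R) }
  have d0 : 0 < σ.dim := Nat.pos_of_ne_zero fun e => hV (Submodule.finrank_eq_zero.1 e)
  have := Fintype.ofFinite (F.B ⧸ F.Z.subgroupOf F.B)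
  have sp := li.span_eq_top_of_card_eq_finrank' (by
    rw [Module.finrank_linearMap, ← sq, hd, F.card_L, Subgroup.relIndex, Subgroup.index,
      Nat.card_eq_fintype_card])
  have irr := h2 σ τ (F.B.subgroupOf F.T) d0 (top_le_iff.1 (sp.ge.trans (Submodule.span_mono (by
    rintro _ ⟨q, rfl⟩
    exact ⟨⟨q.out, F.B_le_T q.out.2⟩, q.out.2, rfl⟩)))) hτ fun t ht => hB t ht
  let M : Rp ℂ F.T := { V := TensorProduct ℂ σ.V τ.V, ρ := σ.ρ.tprod τ.ρ }
  have dM : M.dim = finrank ℂ (F.Vz R) * τ.dim := Module.finrank_tensorProduct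
  obtain ⟨R', r1, ι, r2, r3, r4, -⟩ := h1 F.T.subtype F.T.subtype_injective M irr 2 Nat.prime_two
  rw [Subgroup.range_subtype] at r4
  have hz : LinearMap.range ι ≤ F.Vz R' := by
    rintro _ ⟨m, rfl⟩ z hz
    have hT : z ∈ F.T := F.B_le_T (F.le hz)
    have e1 : σ.ρ ⟨z, hT⟩ = (F.ζ z : ℂ) • LinearMap.id :=
      LinearMap.ext fun w => Subtype.ext (w.2 z hz)
    have e2 : M.ρ ⟨z, hT⟩ = (F.ζ z : ℂ) • LinearMap.id := by
      change TensorProduct.map (σ.ρ ⟨z, hT⟩) (τ.ρ ⟨z, hT⟩) = _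
      rw [e1, hB _ (F.le hz), TensorProduct.map_smul_left, Module.End.one_eq_id,
        TensorProduct.map_id]
    have := r3 ⟨z, hT⟩ m
    rw [e2, LinearMap.smul_apply, LinearMap.id_apply, map_smul] at this
    exact this
  have d1 : M.dim ≤ finrank ℂ (F.Vz R') :=
    (LinearMap.finrank_range_of_inj r2).ge.trans (Submodule.finrank_mono hz)
  have hne : F.Vz R' ≠ ⊥ := fun e => by
    have := Rp.dim_pos (R := M) irr
    rw [e, finrank_bot] at d1
    omega
  refine ⟨R', r1, le_antisymm (dM ▸ r4) ?_⟩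
  rw [(h3 F R' r1 hne).1, ← dM]
  exact Nat.mul_le_mul_left _ d1

end Pool.Agent.MP_f0649b_al.F

end

section

open Module
open scoped commutatorElement

namespace Pool.Agent.MP_f0649b_al.F

theorem nwx_of (_h1 : L1) (h2 : L2) (h3 : L3) : NWX_st := by
  intro G _ _ _ Y R μ N q F x hE hF hq hx hx1 hN hv
  have := hE.nY
  have := Fact.mk hq
  obtain ⟨hdim, -, -⟩ := h2.comp F R hE.irr hE.vz
  obtain ⟨R', a1, -, -, -, a5, a6, -, f, a7⟩ := h2.monx F x hx hx1 q hq
  have hm0 : F.T.index ≠ 0 := Subgroup.index_ne_zero_of_finite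
  have ho0 : orb F.T x ≠ 0 := Subgroup.index_ne_zero_of_finite
  have hd0 : finrank ℂ (F.Vz R) ≠ 0 := fun e => hE.vz (Submodule.finrank_eq_zero.1 e)
  have hg : μ < (MulAction.stabilizer G x).index := not_le.1 fun e =>
    hx1 (hF x hx fun y hy => (h3.gpl Y μ hE.low).1 _ e hy)
  have hpos := Rp.dim_pos a1
  have hf : 0 < f := Nat.pos_of_mul_pos_right (a7 ▸ hpos)
  have hc : (F.T ⊓ MulAction.stabilizer G x).relIndex (MulAction.stabilizer G x) *
      (MulAction.stabilizer G x).index = orb F.T x * F.T.index := by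
    rw [orb_mul_index, Subgroup.relIndex_mul_index inf_le_right]
  refine ⟨R'.dim, f, _, ⟨⟨R', a1, rfl⟩, ?_, a5.trans hN⟩, ?_, hg, hc, a7, hf, ?_⟩
  · rw [a7]
    exact hg.trans_le (Nat.le_mul_of_pos_left _ hf)
  · rw [padicValNat.mul ho0 hm0] at a6
    rw [hdim, padicValNat.mul hm0 hd0]
    omega
  · rw [a7, ← hc] at a5
    exact Nat.le_of_mul_le_mul_right a5 (by omega)

end Pool.Agent.MP_f0649b_al.F

end

section

open Module
open scoped commutatorElement

namespace Pool.Agent.MP_f0649b_al.F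

namespace ExP2Aux

theorem small (m g c f o : ℕ) (hg : 4 * m < g) (hc : c * g = o * m) (hf : 0 < f)
    (hfc : f ≤ c) (ho : o ≤ 8) : f * g = o * m := by
  have : c < 2 := by
    by_contra h
    have : 2 * g ≤ c * g := Nat.mul_le_mul_right _ (not_lt.1 h)
    nlinarith
  have e : f = c := by omega
  rw [e, hc]

theorem ne9 (m g c f : ℕ) (hg : 4 * m < g) (hc : c * g = 9 * m) (hf : 0 < f) (hfc : f ≤ c) :
    6 * m ≠ f * g := by
  have : c < 3 := by
    by_contra h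
    have : 3 * g ≤ c * g := Nat.mul_le_mul_right _ (not_lt.1 h)
    omega
  interval_cases c <;> interval_cases f <;> omega

theorem val_le {o d : ℕ} (hd : d = 4) (ho : ¬ 8 ∣ o) : padicValNat 2 o ≤ padicValNat 2 d := by
  have := Fact.mk Nat.prime_two
  have h0 : o ≠ 0 := fun e => ho (e ▸ dvd_zero _)
  have h1 : padicValNat 2 o ≤ 2 := by
    by_contra h
    exact ho ((padicValNat_dvd_iff_le (p := 2) (n := 3) h0).2 (by omega))
  have h2 : 2 ≤ padicValNat 2 d :=
    (padicValNat_dvd_iff_le (p := 2) (n := 2) (by omega)).1 (by omega)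
  omega

theorem stab_le {G X : Type} [Group G] [CommGroup X] [MulDistribMulAction G X] {Y : Subgroup G}
    [hY : Y.Normal] {L : Subgroup X} {x : X} (hx : x ∈ L) (hL : SInv Y L)
    (h : ∀ Q : Subgroup X, x ∈ Q → SInv Y Q → L ≤ Q) : MulAction.stabilizer G x ≤ stabR G L := by
  refine SInv.le_stabR fun g hg z hz => ?_
  have hg' : g • x = x := hg
  refine h (L.comap (MulDistribMulAction.toMonoidHom X g)) (show g • x ∈ L by rwa [hg'])
    (fun u hu w hw => ?_) hz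
  have e : g * u = g * u * g⁻¹ * g := by group
  change g • u • w ∈ L
  rw [← mul_smul, e, mul_smul]
  exact hL _ (hY.conj_mem u hu g) _ hw

end ExP2Aux

open ExP2Aux in
theorem exp2_of (h2 : L2) (h3 : L3) (hc : CLASS_st) (ht : T2_st) (hk : KAP_st) (hn : NWX_st) : EXP2_st := by
  intro G _ _ _ Y R μ N q a F hE hF hL ⟨hq, ha, hd, hS, r, J, hr, hr2, hJ, hnJ, hJr, hJ1, hJ4⟩
  subst hq ha
  have := hE.nY
  obtain ⟨hdim, -, -⟩ := h2.comp F R hE.irr hE.vz
  set m := F.T.index with hm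
  have hm0 : 0 < m := Nat.pos_of_ne_zero Subgroup.index_ne_zero_of_finite
  have h4 : μ = 4 * m := by
    have a1 := hE.le
    have a2 := hE.low _ hS
    rw [hdim, hd] at a1
    omega
  obtain ⟨hK, x1, hx1, x2, hx2, n1, n2, ho⟩ := ht F.sym Y J r hL.card hL.exp hL.irr hr hr2 hJ hnJ
    (fun y hy y' hy' x hx => by
      have e : y * y' = ⁅y, y'⁆ * (y' * y) := by rw [commutatorElement_def]; group
      rw [e, mul_smul, hL.ab _ (Subgroup.commutator_mem_commutator (hJ hy) (hJ hy')) _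
        (hL.inv _ (hL.le (Y.mul_mem (hJ hy') (hJ hy))) x hx), one_smul])
    hJr hJ1 hJ4 (((h3.gpl Y μ hE.low).2.2 F.T 4).1 h4.ge)
  have hN : 10 * m ≤ N := hk F 10 N hK hE.rd
  simp only [Frame.sym_T, Frame.sym_L] at ho hx1 hx2
  have o1 : orb F.T x1 = 6 ∨ orb F.T x1 = 5 := ho.imp And.left And.left
  have o2 : orb F.T x2 = 9 ∨ orb F.T x2 = 10 := ho.imp And.right fun h => h.2.1
  obtain ⟨D1, f1, c1, a1, a2, a3, a4, a5, a6, a7⟩ := hn Y R μ N 2 F x1 hE hF Nat.prime_two hx1 n1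
    ((Nat.mul_le_mul_right _ (by omega)).trans hN) (val_le hd (by omega))
  obtain ⟨D2, f2, c2, b1, b2, b3, b4, b5, b6, b7⟩ := hn Y R μ N 2 F x2 hE hF Nat.prime_two hx2 n2
    ((Nat.mul_le_mul_right _ (by omega)).trans hN) (val_le hd (by omega))
  refine Or.inr ⟨D1, a1, D2, b1, ?_, a2, b2⟩
  rw [h4] at a3 b3
  rw [a5, b5, small m _ c1 f1 _ a3 a4 a6 a7 (by omega)]
  rcases ho with ⟨e1, e2⟩ | ⟨e1, e2, hQ⟩
  · rw [e1]
    rw [e2] at b4
    exact ne9 m _ c2 f2 b3 b4 b6 b7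
  · have hTH : F.T ≤ stabR G F.L := hL.inv.le_stabR
    have hi := Subgroup.relIndex_mul_index hTH
    have hi0 : F.T.relIndex (stabR G F.L) ≠ 0 := Subgroup.index_ne_zero_of_finite
    have hle : (stabR G F.L).index ≤ m := by
      rw [hm, ← hi]
      exact Nat.le_mul_of_pos_left _ (Nat.pos_of_ne_zero hi0)
    have hH : Small Y (4 * (stabR G F.L).index) := by
      rcases hc F.L (stabR G F.L) Y 2 2 _ ⟨hL.prime, hL.apos, hL.card, hL.exp, sInv_stabR _,
        fun Q h1 h2 => hL.irr Q h1 fun g hg => h2 g (hTH hg), hL.nJ, hL.le.trans hTH, hL.ab, hL.ne,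
        hL.dvd, hL.dpos, fun n hn => (Nat.mul_le_mul_right _ hle).trans (hL.low n hn)⟩ with
        h | h | h | h | h
      · exact absurd h.2.1 (by norm_num)
      · exact h.2.2.2.1
      · exact absurd h.2.1 (by norm_num)
      · exact absurd h.1 (by norm_num)
      · exact absurd h.1 (by norm_num)
    have hge := hE.low _ hH
    have h1 : F.T.relIndex (stabR G F.L) = 1 := by
      by_contra h
      have : 2 * (stabR G F.L).index ≤ F.T.relIndex (stabR G F.L) * (stabR G F.L).index :=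
        Nat.mul_le_mul_right _ (by omega)
      omega
    have hst : MulAction.stabilizer G x2 ≤ F.T :=
      (stab_le hx2 (fun y hy => hL.inv y (hL.le hy)) hQ).trans (Subgroup.relIndex_eq_one.1 h1)
    have hg : (MulAction.stabilizer G x2).index = 10 * m := by
      rw [← e2, hm, orb_mul_index, inf_eq_right.2 hst]
    rw [e1, hg]
    have : 10 * m ≤ f2 * (10 * m) := Nat.le_mul_of_pos_left _ b6
    omega

end Pool.Agent.MP_f0649b_al.F

end

section

open Module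
open scoped commutatorElement

namespace Pool.Agent.MP_f0649b_al.F

theorem fin_of (h2 : F2_st) (hm : MAIN_st) (G : Type) [Group G] [Finite G] [Group.IsSolvable G] :
    derivedSeries G (cd G).ncard = ⊥ := by
  by_contra h
  rw [← der_top] at h
  obtain ⟨n, hn, -⟩ := h2 (der (⊤ : Subgroup G) (cd G).ncard) ⊥ ⊤ (fun e => h (le_bot_iff.1 e))
    le_top le_top
  have h1 := hm _ _ hn
  have h3 : {d | IsDeg G d ∧ d ≤ n}.ncard ≤ (cd G).ncard := by
    refine Set.ncard_le_ncard ?_ (cd_finite G)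
    rintro d ⟨⟨R, hR, rfl⟩, -⟩
    exact ⟨R.V, inferInstance, inferInstance, inferInstance, R.ρ, hR, rfl⟩
  omega

end Pool.Agent.MP_f0649b_al.F

end

section

/-! The finite symplectic facts, transported to symplectic data. -/

namespace Pool.Agent.MP_f0649b_al.F

namespace Sym
variable {G X : Type} [Group G] [CommGroup X] [MulDistribMulAction G X] (s : Sym G X)

/-- the action of `T` on the type of elements of `L` -/
@[reducible] def act : MulDistribMulAction s.T s.L where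
  smul t x := ⟨(t : G) • (x : X), s.inv t t.2 x x.2⟩
  one_smul x := Subtype.ext (one_smul G (x : X))
  mul_smul a b x := Subtype.ext (mul_smul (a : G) (b : G) (x : X))
  smul_mul t x y := Subtype.ext (smul_mul' (t : G) (x : X) (y : X))
  smul_one t := Subtype.ext (smul_one (t : G))

attribute [local instance] act

theorem act_eq {t : s.T} {x y : s.L} : t • x = y ↔ (t : G) • (x : X) = y := Subtype.ext_iff

/-- the form as a bihomomorphism -/
def omh : s.L →* s.L →* ℂˣ :=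
  MonoidHom.mk' (fun x => MonoidHom.mk' (fun y => s.om x y) fun a b => s.om_right x x.2 a a.2 b b.2)
    fun a b => MonoidHom.ext fun y => s.om_left a a.2 b b.2 y y.2

theorem sz : Sp.Sz s.T s.omh where
  alt x := s.om_self x x.2
  nd x hx := Subtype.ext (s.nondeg x x.2 fun y hy => hx ⟨y, hy⟩)
  inv t x y := s.om_smul t t.2 x x.2 y y.2

theorem sy (h : IrrL s.T s.L) : Sp.Sy s.T s.omh where
  toSz := s.sz
  irr R hR := by
    rcases h (R.map s.L.subtype) (Subgroup.map_subtype_le R) (by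
      rintro t ht _ ⟨x, hx, rfl⟩
      exact ⟨_, hR ⟨t, ht⟩ x hx, rfl⟩) with e | e
    · exact Or.inl ((Subgroup.map_eq_bot_iff_of_injective _ s.L.subtype_injective).1 e)
    · refine Or.inr (Subgroup.map_injective s.L.subtype_injective ?_)
      rw [e, ← MonoidHom.range_eq_map, Subgroup.range_subtype]

theorem kap {κ : ℕ} (h : Sp.Kap s.T s.omh κ) : s.Kap κ := by
  intro H R _ hR hi
  have := h (H.subgroupOf s.T) (R.subgroupOf s.L) (fun g hg x hx => hi g hg x hx)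
    fun x hx y hy => hR.2 x hx y hy
  rwa [Nat.card_congr (Subgroup.subgroupOfEquivOfLe hR.1).toEquiv] at this

theorem o_eq (x : s.L) : Sp.o s.T x = orb s.T (x : X) := by
  unfold Sp.o orb Subgroup.relIndex
  congr 1
  ext t
  exact s.act_eq

theorem relIndex_map (S : Subgroup s.T) : (S.map s.T.subtype).relIndex s.T = S.index := by
  rw [Subgroup.relIndex, Subgroup.subgroupOf, Subgroup.comap_map_eq_self_of_injective
    s.T.subtype_injective]

theorem gp {Y J : Subgroup G} {c : ℕ} (h : GP s.T Y c) (hJ : J ≤ Y) : Sp.GP (J.subgroupOf s.T) c := by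
  intro S hS t ht
  obtain ⟨u, hu, e⟩ := h _ (Subgroup.map_subtype_le S) (by rwa [s.relIndex_map]) (hJ ht)
  rwa [← Subtype.ext e]

theorem le_T {Y : Subgroup G} {c : ℕ} (h : GP s.T Y c) (hc : 1 ≤ c) : Y ≤ s.T :=
  h _ le_rfl (by rwa [Subgroup.relIndex_self])

theorem lc {Y : Subgroup G} {c : ℕ} (h : LC s.T Y c) : Sp.LC (Y.subgroupOf s.T) c := by
  classical
  intro S hS e he y hy
  have := h _ (Subgroup.map_subtype_le S) (by rwa [s.relIndex_map])
    (fun g => if hg : g ∈ s.T then e ⟨g, hg⟩ else 1) (by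
      rintro _ ⟨a, ha, rfl⟩ _ ⟨b, hb, rfl⟩
      simp only [Subgroup.subtype_apply, dif_pos a.2, dif_pos b.2, dif_pos (mul_mem a.2 b.2)]
      exact he a ha b hb) y hy
  simpa using this

theorem two (h : ∀ x ∈ s.L, x ^ 2 = 1) (x : s.L) : x * x = 1 :=
  Subtype.ext (by rw [Subgroup.coe_mul, ← sq, h x x.2, Subgroup.coe_one])

end Sym

attribute [local instance] Sym.act

theorem k14_main : K14_st := by
  intro G X _ _ _ _ s q κ hq hL _ h2 hi H R hH hR hs
  have := s.fin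
  exact (Nat.mul_le_mul_right _ h2).trans (s.kap ((s.sy hi).kap_sq hq hL) H R hH hR hs)

theorem k5_main : K5_st := by
  rintro G X _ _ _ _ s Y hL h3 hi ⟨y, hy, hy2⟩ hg hl
  have := s.fin
  exact s.kap ((s.sy hi).kap_81 hL (fun x => Subtype.ext (h3 x x.2)) (s.lc hl)
    (y := ⟨y, s.le_T hg (by norm_num) hy⟩) hy fun x => Subtype.ext (hy2 x x.2))

theorem t2_main : T2_st := by
  rintro G X _ _ _ _ s Y J r hL h2 hi hr - hJ hn hab hp ⟨y, hy, hy1⟩ hc hg
  have := s.fin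
  have hT := hJ.trans (s.le_T hg (by norm_num))
  have : (J.subgroupOf s.T).Normal := ⟨fun a ha t => hn t t.2 a ha⟩
  have d : Sp.D16 s.omh (J.subgroupOf s.T) r :=
    { sy := s.sy hi
      card := hL
      two := s.two h2
      gp := s.gp hg hJ
      ab := fun u hu v hv x => Subtype.ext (by
        have := hab u hu v hv x x.2
        rwa [mul_smul, mul_smul] at this)
      nt := ⟨⟨y, hT hy⟩, hy, fun x => Subtype.ext ((hp y hy x x.2).trans (one_smul _ _)), by
        by_contra e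
        push Not at e
        exact hy1 fun x hx => (s.act_eq.1 (e ⟨x, hx⟩)).trans (one_smul _ _).symm⟩
      cz := fun S hS => by
        rw [← s.relIndex_map]
        refine hc _ (Subgroup.map_subtype_le S) ?_
        rintro _ ⟨t, ht, rfl⟩ u hu x hx
        rw [mul_smul, mul_smul]
        exact congrArg Subtype.val (hS t ht ⟨u, hT hu⟩ hu
          (fun z => Subtype.ext ((hp u hu z z.2).trans (one_smul _ _))) ⟨x, hx⟩) }
  obtain ⟨hk, x, x', h1, h1', h⟩ := d.main hr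
  refine ⟨s.kap hk, x, x.2, x', x'.2, fun e => h1 (Subtype.ext e), fun e => h1' (Subtype.ext e), ?_⟩
  rw [← s.o_eq, ← s.o_eq]
  rcases h with h | ⟨a, b, h⟩
  · exact Or.inl h
  · refine Or.inr ⟨a, b, fun Q hQ hY => ?_⟩
    rcases h (Q.subgroupOf s.L) fun u hu z hz => hY u (hJ hu) z hz with e | e
    · have : x' ∈ Q.subgroupOf s.L := hQ
      rw [e, Subgroup.mem_bot] at this
      exact absurd this h1'
    · exact Subgroup.subgroupOf_eq_top.1 e

theorem t3_main : T3_st := by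
  intro G X _ _ _ _ s Y y hL h2 hy h3 hf hn hg h12
  have := s.fin
  have hyT := s.le_T hg (by norm_num) hy
  have a3 : ∀ x : s.L, (⟨y, hyT⟩ : s.T) ^ 3 • x = x := fun x =>
    Subtype.ext ((h3 x x.2).trans (one_smul _ _))
  have af : ∀ x : s.L, (⟨y, hyT⟩ : s.T) • x = x → x = 1 := fun x e =>
    Subtype.ext (hf x x.2 (s.act_eq.1 e))
  have a12 : ∀ x : s.L, x ≠ 1 → 12 ≤ Sp.o s.T x := fun x hx => by
    rw [s.o_eq]
    exact h12 x x.2 fun e => hx (Subtype.ext e)
  refine ⟨s.kap (s.sz.kap_64 hL (s.gp (fun S h1 h2 => hg S h1 (h2.trans (by norm_num))) le_rfl)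
    (y := ⟨y, hyT⟩) hy a3 af a12), ?_⟩
  obtain ⟨x, x', h1, h1', h⟩ := s.sz.orb_64 hL (s.two h2) a3 af (fun t => by
    have hm : ∀ x : s.L, (t : G)⁻¹ • (x : X) ∈ s.L := fun x => s.inv _ (s.T.inv_mem t.2) x x.2
    refine (hn t t.2).imp (fun e x => Subtype.ext ?_) fun e x => Subtype.ext ?_
    · have := e _ (hm x)
      rw [← mul_smul, mul_smul y, smul_inv_smul] at this
      exact this
    · have := e _ (hm x)
      rw [← mul_smul, mul_smul (y ^ 2), smul_inv_smul, sq, mul_smul y] at this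
      exact this) a12
  refine ⟨x, x.2, x', x'.2, fun e => h1 (Subtype.ext e), fun e => h1' (Subtype.ext e), ?_⟩
  rwa [← s.o_eq, ← s.o_eq]

end Pool.Agent.MP_f0649b_al.F

end

section

/-! Assembly of the proof of the Isaacs-Seitz inequality. -/

namespace Pool.Agent.MP_f0649b_al.F

theorem sum_main : SUM_st := sum_of ind_main indd_main

theorem clif_main : CLIF_st := clif_of span_main sum_main

theorem li_main : LI_st := li_of li0_main

theorem l0 : L0 where
  ind := ind_main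
  indd := indd_main
  span := span_main
  sum := sum_main
  clif := clif_main
  exi := exi_main
  sch := sch_main
  eigv := eigv_main
  nte := nte_main
  nt := nt_main
  dl := dl_of clif_main eigv_main
  li0 := li0_main
  li := li_main
  burn := burn_main
  sq := sq_of burn_main li_main sch_main
  dec := dec_main
  glue := glue_main
  orb := orb_main
  pgp := pgp_main
  sn := sn_of li0_main

theorem mon_main : MON_st := mon_of ie_main

theorem prec_main : PREC_st := prec_of l0 mon_main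

theorem l1 : L1 where
  ie := ie_main
  mon := mon_main
  pre := pre_of l0 ie_main
  prec := prec_main
  wd := wd_of l0
  abp := abp_main
  f1 := f1_of (f1a_of l0) prec_main
  sym := sym_main
  mas := mas_main
  tirr := tirr_of burn_main
  abs := abs_of l0
  cl2 := cl2_of l0

theorem l2 : L2 where
  comp := comp_of l0
  eig := eig_of l0 sym_main mas_main
  ca := ca_of nu_main
  monx := monx_of l0 mon_main nu_main
  lemr := lemr_of l0 l1.abs
  tens := tens_of l0 ie_main l1.tirr (comp_of l0)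
  pl := pl_of l0 (comp_of l0)

theorem f3i_main : F3I_st := f3i_of (f3_of l0 l1 l2)

theorem f2_main : F2_st := f2_of l1.f1 f3i_main

theorem gpl_main : GPL_st := gpl_of f2_main f3i_main prec_main

theorem l3 : L3 where
  f3i := f3i_main
  f2 := f2_main
  gpl := gpl_main
  step := step_of l1 l2 gpl_main (desc2_of l0 l1 l2)

theorem class_main : CLASS_st := class_of l0 ie_main l1.pre fs_main th_main det_main

theorem nwx_main : NWX_st := nwx_of l1 l2 l3

theorem ex_main : EX_st :=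
  ex_of (ex2_of l0 l1 l2 l3) class_main (exs_of l2 l3 k14_main k5_main kap_main)
    (exp2_of l2 l3 class_main t2_main kap_main nwx_main)
    (exp3_of l0 l2 l3 t3_main kap_main nwx_main)

theorem isaacs_seitz (G : Type) [Group G] [Finite G] [Group.IsSolvable G] :
    derivedSeries G (cd G).ncard = ⊥ :=
  fin_of f2_main (main_of l1 l2 l3 ex_main) G

end Pool.Agent.MP_f0649b_al.F

end
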